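import Pool.Agent.H98.NX.Ee

set_option autoImplicit false

/-!
# Row Ef: convergence of difference quotients in L^2 (E4)

* sp_conv: C compact in O, S measurable in C. For 0 < |h| small the integrand dist(f(x+ht))(f x)^2/h^2 is bounded by (L|t|)^2 on C (lpo_nbhd) and converges a.e. to sp f t x ^2 (sp_lim1; square of the
 quotient by |h|). It is measurable on C (continuous there: x -> f(x+ht) is continuous on C for small h). Dominated convergence (tendsto_integral_filter_of_dominated_convergence; the filter 𝓝[≠] 0 in R is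
 countably generated).
* sp_conv2 (moved base point, C compact): by translation invariance of mu
 int_C dist(f(x+ht'+ht))(f(x+ht'))^2/h^2 dx = int_{C+ht'} dist(f(y+ht))(f y)^2/h^2 dy. For small h all is in the compact neighbourhood and the integrand is at most (L|t|)^2 there, so this differs from
 int_C dist(f(y+ht))(f y)^2/h^2 dy by at most (L|t|)^2 (mu((C+ht') \ C) + mu(C \ (C+ht'))). Both terms tend to 0 as h -> 0: the first because (C+ht') \ C is contained in cthickening (|h||t'|) C \ C and
 mu(cthickening e C) -> mu C for compact C (tendsto_measure_cthickening_of_isCompact or IsClosed version), the second is equal to the first because mu(C+ht') = mu C: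
 mu(C \ (C+v)) = mu C - mu(C ∩ (C+v)) = mu(C+v) - mu(C ∩ (C+v)) = mu((C+v) \ C). Then sp_conv.
* ae_of_int: F, G measurable on O, integrable on compact subsets of O, int_C F <= int_C G for all compact C in O. Then F <= G a.e. on O: otherwise the measurable set N = {x in O : F x > G x} (up to null
 sets) has positive measure, by inner regularity it contains a compact set C of positive measure, and int_C (F - G) > 0.
-/

namespace H98NX

open H50NA MeasureTheory Set Filter Topology

variable {E X : Type} [NormedAddCommGroup E] [NormedSpace ℝ E] [MetricSpace X] [FiniteDimensional ℝ E]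
  [MeasurableSpace E] [BorelSpace E] (mu : Measure E) [mu.IsAddHaarMeasure]

omit [NormedSpace ℝ E] [FiniteDimensional ℝ E] [MeasurableSpace E] [BorelSpace E] in
/-- continuity of `f` on a set on which it is Lipschitz -/
theorem Ef_cont {f : E → X} {K : Set E} {L : ℝ} (hL : 0 ≤ L)
    (h : ∀ y ∈ K, ∀ z ∈ K, dist (f y) (f z) ≤ L * dist y z) : ContinuousOn f K := by
  have h1 : LipschitzOnWith L.toNNReal f K := by
    refine LipschitzOnWith.of_dist_le_mul fun x hx y hy => ?_
    rw [Real.coe_toNNReal _ hL]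
    exact h x hx y hy
  exact h1.continuousOn

omit [FiniteDimensional ℝ E] [MeasurableSpace E] [BorelSpace E] in
/-- continuity of the integrand -/
theorem Ef_contG {f : E → X} {K A : Set E} (hf : ContinuousOn f K) (hA : A ⊆ K) {w : E}
    (hw : ∀ x ∈ A, x + w ∈ K) (h : ℝ) : ContinuousOn (fun x => dist (f (x + w)) (f x) ^ 2 / h ^ 2) A := by
  have h1 : ContinuousOn (fun x : E => f (x + w)) A :=
    hf.comp (continuousOn_id.add continuousOn_const) hw
  have h2 : ContinuousOn f A := hf.mono hA
  exact ((continuous_dist.comp_continuousOn (h1.prodMk h2)).pow 2).div_const _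

omit [FiniteDimensional ℝ E] [MeasurableSpace E] [BorelSpace E] in
/-- the bound of the integrand -/
theorem Ef_bd {f : E → X} {K : Set E} {L : ℝ}
    (hLip : ∀ y ∈ K, ∀ z ∈ K, dist (f y) (f z) ≤ L * dist y z) {x t : E} {h : ℝ} (h0 : h ≠ 0) (hx : x ∈ K)
    (hxt : x + h • t ∈ K) : dist (f (x + h • t)) (f x) ^ 2 / h ^ 2 ≤ (L * ‖t‖) ^ 2 := by
  have h1 := hLip _ hxt _ hx
  have h2 : dist (x + h • t) x = |h| * ‖t‖ := by
    rw [dist_eq_norm, add_sub_cancel_left, norm_smul, Real.norm_eq_abs]
  rw [h2] at h1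
  have h3 : 0 < h ^ 2 := by positivity
  rw [div_le_iff₀ h3]
  calc dist (f (x + h • t)) (f x) ^ 2 ≤ (L * (|h| * ‖t‖)) ^ 2 := pow_le_pow_left₀ dist_nonneg h1 2
    _ = (L * ‖t‖) ^ 2 * |h| ^ 2 := by ring
    _ = (L * ‖t‖) ^ 2 * h ^ 2 := by rw [sq_abs]

theorem sp_conv {f : E → X} {O C S : Set E} (hO : IsOpen O) (hf : Lpo f O) (hC : IsCompact C) (hCO : C ⊆ O)
    (hS : MeasurableSet S) (hSC : S ⊆ C) (t : E) :
    Tendsto (fun h : ℝ => ∫ x in S, dist (f (x + h • t)) (f x) ^ 2 / h ^ 2 ∂mu) (𝓝[≠] 0)
      (𝓝 (∫ x in S, sp f t x ^ 2 ∂mu)) := by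
  obtain ⟨d, hd, L, hL, hKO, hK, hLip, -⟩ := lpo_nbhd hO hf hC hCO
  have hfc := Ef_cont hL hLip
  have hCK : C ⊆ Metric.cthickening d C := Metric.self_subset_cthickening C
  have hsm : ∀ᶠ h : ℝ in 𝓝[≠] 0, h ≠ 0 ∧ ∀ x ∈ C, x + h • t ∈ Metric.cthickening d C := by
    have h1 : Tendsto (fun h : ℝ => ‖h • t‖) (𝓝[≠] 0) (𝓝 0) := by
      have h2 : Tendsto (fun h : ℝ => ‖h • t‖) (𝓝 0) (𝓝 ‖(0 : ℝ) • t‖) :=
        ((continuous_id.smul continuous_const).norm).tendsto 0
      rw [zero_smul, norm_zero] at h2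
      exact h2.mono_left nhdsWithin_le_nhds
    filter_upwards [h1.eventually (gt_mem_nhds hd), self_mem_nhdsWithin] with h h2 h3
    refine ⟨h3, fun x hx => Metric.mem_cthickening_of_dist_le _ x d C hx ?_⟩
    rw [dist_eq_norm, add_sub_cancel_left]
    exact h2.le
  have hSfin : mu S ≠ ⊤ := ((measure_mono hSC).trans_lt hC.measure_lt_top).ne
  refine tendsto_integral_filter_of_dominated_convergence (fun _ => (L * ‖t‖) ^ 2) ?_ ?_ ?_ ?_
  · filter_upwards [hsm] with h hh
    have h1 := (Ef_contG hfc hCK hh.2 h).aestronglyMeasurable (μ := mu) hC.measurableSet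
    exact h1.mono_measure (Measure.restrict_mono hSC le_rfl)
  · filter_upwards [hsm] with h hh
    rw [ae_restrict_iff' hS]
    refine Eventually.of_forall fun x hx => ?_
    rw [Real.norm_eq_abs, abs_of_nonneg (by positivity)]
    exact Ef_bd hLip hh.1 (hCK (hSC hx)) (hh.2 x (hSC hx))
  · exact integrableOn_const hSfin
  · rw [ae_restrict_iff' hS]
    filter_upwards [sp_lim1 mu hO hf t] with x hx hxS
    have h1 := (hx (hCO (hSC hxS))).pow 2
    refine h1.congr fun h => ?_
    rw [div_pow, sq_abs]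

theorem sp_conv2 {f : E → X} {O C : Set E} (hO : IsOpen O) (hf : Lpo f O) (hC : IsCompact C) (hCO : C ⊆ O)
    (t t' : E) :
    Tendsto (fun h : ℝ => ∫ x in C, dist (f (x + h • t' + h • t)) (f (x + h • t')) ^ 2 / h ^ 2 ∂mu) (𝓝[≠] 0)
      (𝓝 (∫ x in C, sp f t x ^ 2 ∂mu)) := by
  obtain ⟨d, hd, L, hL, hKO, hK, hLip, -⟩ := lpo_nbhd hO hf hC hCO
  have hfc := Ef_cont hL hLip
  have hCK : C ⊆ Metric.cthickening d C := Metric.self_subset_cthickening C
  have : ProperSpace E := FiniteDimensional.proper ℝ E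
  have hsm : ∀ᶠ h : ℝ in 𝓝[≠] 0, h ≠ 0 ∧ ‖h • t'‖ + ‖h • t‖ ≤ d := by
    have h1 : Tendsto (fun h : ℝ => ‖h • t'‖ + ‖h • t‖) (𝓝[≠] 0) (𝓝 0) := by
      have h2 : Tendsto (fun h : ℝ => ‖h • t'‖ + ‖h • t‖) (𝓝 0) (𝓝 (‖(0 : ℝ) • t'‖ + ‖(0 : ℝ) • t‖)) :=
        (((continuous_id.smul continuous_const).norm).add ((continuous_id.smul continuous_const).norm)).tendsto 0
      rw [zero_smul, zero_smul, norm_zero, add_zero] at h2
      exact h2.mono_left nhdsWithin_le_nhds
    filter_upwards [h1.eventually (gt_mem_nhds hd), self_mem_nhdsWithin] with h h2 h3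
    exact ⟨h3, h2.le⟩
  -- the error term
  have herr : Tendsto (fun h : ℝ => (L * ‖t‖) ^ 2 * ((mu (Metric.cthickening ‖h • t'‖ C)).toReal - (mu C).toReal))
      (𝓝[≠] 0) (𝓝 0) := by
    have h1 : Tendsto (fun h : ℝ => ‖h • t'‖) (𝓝[≠] 0) (𝓝 0) := by
      have h2 : Tendsto (fun h : ℝ => ‖h • t'‖) (𝓝 0) (𝓝 ‖(0 : ℝ) • t'‖) :=
        ((continuous_id.smul continuous_const).norm).tendsto 0
      rw [zero_smul, norm_zero] at h2
      exact h2.mono_left nhdsWithin_le_nhds
    have h2 := (tendsto_measure_cthickening_of_isCompact (μ := mu) hC).comp h1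
    have h3 := (ENNReal.tendsto_toReal hC.measure_lt_top.ne).comp h2
    have h4 := (h3.sub_const (mu C).toReal).const_mul ((L * ‖t‖) ^ 2)
    rw [sub_self, mul_zero] at h4
    exact h4
  have hmain := sp_conv mu hO hf hC hCO hC.measurableSet subset_rfl t
  have hclose : ∀ᶠ h : ℝ in 𝓝[≠] 0,
      dist (∫ x in C, dist (f (x + h • t)) (f x) ^ 2 / h ^ 2 ∂mu)
        (∫ x in C, dist (f (x + h • t' + h • t)) (f (x + h • t')) ^ 2 / h ^ 2 ∂mu) ≤
      (L * ‖t‖) ^ 2 * ((mu (Metric.cthickening ‖h • t'‖ C)).toReal - (mu C).toReal) := by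
    filter_upwards [hsm] with h hh
    set v := h • t' with hv
    set G : E → ℝ := fun y => dist (f (y + h • t)) (f y) ^ 2 / h ^ 2 with hG
    set Cv : Set E := (fun y => y + (-v)) ⁻¹' C with hCv
    have hCvc : IsCompact Cv := by
      have h1 : Cv = (Homeomorph.addRight (-v)) ⁻¹' C := rfl
      rw [h1, Homeomorph.isCompact_preimage]
      exact hC
    have hCvm : MeasurableSet Cv := hCvc.measurableSet
    have hCvd : ∀ y ∈ Cv, ∀ w : E, ‖v‖ + ‖w‖ ≤ d → y + w ∈ Metric.cthickening d C := by
      intro y hy w hw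
      refine Metric.mem_cthickening_of_dist_le _ (y + (-v)) d C hy ?_
      rw [dist_eq_norm]
      have h1 : y + w - (y + -v) = v + w := by abel
      rw [h1]
      exact (norm_add_le _ _).trans hw
    have hCd : ∀ y ∈ C, y + h • t ∈ Metric.cthickening d C := by
      intro y hy
      refine Metric.mem_cthickening_of_dist_le _ y d C hy ?_
      rw [dist_eq_norm, add_sub_cancel_left]
      linarith [hh.2, norm_nonneg v]
    have hCvK : Cv ⊆ Metric.cthickening d C := by
      intro y hy
      have h1 := hCvd y hy 0 (by rw [norm_zero, add_zero]; linarith [hh.2, norm_nonneg (h • t)])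
      rwa [add_zero] at h1
    have hGC : IntegrableOn G C mu :=
      (Ef_contG hfc hCK hCd h).integrableOn_compact hC
    have hGv : IntegrableOn G Cv mu :=
      (Ef_contG hfc hCvK (fun y hy => hCvd y hy _ hh.2) h).integrableOn_compact hCvc
    -- translation
    have htr : ∫ x in C, dist (f (x + v + h • t)) (f (x + v)) ^ 2 / h ^ 2 ∂mu = ∫ y in Cv, G y ∂mu := by
      have h1 := (measurePreserving_add_right mu v).setIntegral_preimage_emb (measurableEmbedding_addRight v) G Cv
      have h2 : (fun x : E => x + v) ⁻¹' Cv = C := by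
        ext x
        rw [mem_preimage, hCv, mem_preimage, add_neg_cancel_right]
      rw [h2] at h1
      exact h1
    rw [htr]
    have hmeq : mu Cv = mu C := measure_preimage_add_right mu (-v) C
    -- the parts
    have e1 := integral_inter_add_sdiff hCvm hGC
    have e2 := integral_inter_add_sdiff hC.measurableSet hGv
    have b1 : ∀ A : Set E, MeasurableSet A → A ⊆ Metric.cthickening d C → (∀ y ∈ A, y + h • t ∈ Metric.cthickening d C) →
        mu A ≠ ⊤ → IntegrableOn G A mu →
        0 ≤ ∫ x in A, G x ∂mu ∧ ∫ x in A, G x ∂mu ≤ (L * ‖t‖) ^ 2 * (mu A).toReal := by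
      intro A hA hA1 hA2 hA3 hA4
      constructor
      · exact setIntegral_nonneg hA fun x _ => by
          change 0 ≤ dist (f (x + h • t)) (f x) ^ 2 / h ^ 2
          positivity
      · have h1 : ∫ x in A, G x ∂mu ≤ ∫ x in A, (L * ‖t‖) ^ 2 ∂mu :=
          setIntegral_mono_on hA4 (integrableOn_const hA3) hA fun x hx =>
            Ef_bd hLip hh.1 (hA1 hx) (hA2 x hx)
        refine h1.trans (le_of_eq ?_)
        rw [setIntegral_const, smul_eq_mul, mul_comm]
        rfl
    have c1 := b1 (C \ Cv) (hC.measurableSet.diff hCvm) (sdiff_subset.trans hCK) (fun y hy => hCd y hy.1)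
      ((measure_mono sdiff_subset).trans_lt hC.measure_lt_top).ne (hGC.mono_set sdiff_subset)
    have c2 := b1 (Cv \ C) (hCvm.diff hC.measurableSet) (sdiff_subset.trans hCvK)
      (fun y hy => hCvd y hy.1 _ hh.2)
      ((measure_mono sdiff_subset).trans_lt hCvc.measure_lt_top).ne (hGv.mono_set sdiff_subset)
    -- measures
    have m1 : (mu (Cv \ C)).toReal = (mu (C \ Cv)).toReal := by
      have h1 := measure_inter_add_sdiff (μ := mu) Cv hC.measurableSet
      have h2 := measure_inter_add_sdiff (μ := mu) C hCvm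
      rw [inter_comm] at h2
      have h3 : mu (Cv ∩ C) + mu (Cv \ C) = mu (Cv ∩ C) + mu (C \ Cv) := by rw [h1, h2, hmeq]
      have h4 : mu (Cv ∩ C) ≠ ⊤ := ((measure_mono inter_subset_right).trans_lt hC.measure_lt_top).ne
      rw [(ENNReal.add_right_inj h4).1 h3]
    have m2 : (mu (Cv \ C)).toReal ≤ (mu (Metric.cthickening ‖v‖ C)).toReal - (mu C).toReal := by
      have h0 : mu (Metric.cthickening ‖v‖ C) ≠ ⊤ := (hC.cthickening.measure_lt_top).ne
      have h1 : Cv ⊆ Metric.cthickening ‖v‖ C := by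
        intro y hy
        refine Metric.mem_cthickening_of_dist_le _ (y + (-v)) _ C hy ?_
        rw [dist_eq_norm]
        have h1 : y - (y + -v) = v := by abel
        rw [h1]
      have h2 : mu (Cv \ C) + mu C ≤ mu (Metric.cthickening ‖v‖ C) := by
        rw [← measure_union disjoint_sdiff_left hC.measurableSet]
        exact measure_mono (union_subset (sdiff_subset.trans h1) (Metric.self_subset_cthickening C))
      have h3 := ENNReal.toReal_mono h0 h2
      rw [ENNReal.toReal_add ((measure_mono sdiff_subset).trans_lt hCvc.measure_lt_top).ne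
        hC.measure_lt_top.ne] at h3
      linarith
    have hM : 0 ≤ (L * ‖t‖) ^ 2 := by positivity
    have m3 := mul_le_mul_of_nonneg_left m2 hM
    rw [inter_comm] at e1
    rw [← m1] at c1
    rw [Real.dist_eq, abs_le]
    constructor <;> linarith [c1.1, c1.2, c2.1, c2.2]
  have h5 : Tendsto (fun h : ℝ => dist (∫ x in C, dist (f (x + h • t)) (f x) ^ 2 / h ^ 2 ∂mu)
        (∫ x in C, dist (f (x + h • t' + h • t)) (f (x + h • t')) ^ 2 / h ^ 2 ∂mu)) (𝓝[≠] 0) (𝓝 0) :=
    tendsto_of_tendsto_of_tendsto_of_le_of_le' tendsto_const_nhds herr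
      (Eventually.of_forall fun _ => dist_nonneg) hclose
  exact (tendsto_iff_of_dist h5).1 hmain

theorem ae_of_int {F G : E → ℝ} {O : Set E} (hO : IsOpen O)
    (hF : ∀ C ⊆ O, IsCompact C → IntegrableOn F C mu) (hG : ∀ C ⊆ O, IsCompact C → IntegrableOn G C mu)
    (h : ∀ C ⊆ O, IsCompact C → ∫ x in C, F x ∂mu ≤ ∫ x in C, G x ∂mu) :
    ∀ᵐ x ∂mu, x ∈ O → F x ≤ G x := by
  have : ProperSpace E := FiniteDimensional.proper ℝ E
  have hloc : ∀ K ⊆ O, IsCompact K → ∀ᵐ x ∂(mu.restrict K), F x ≤ G x := by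
    intro K hK hKc
    have hDi : IntegrableOn (fun x => G x - F x) K mu := (hG K hK hKc).sub (hF K hK hKc)
    obtain ⟨D, hDm, hDe⟩ := hDi.1
    have hDmeas : Measurable D := hDm.measurable
    set N : Set E := {x | D x < 0} ∩ K with hN
    have hNm : MeasurableSet N := (measurableSet_lt hDmeas measurable_const).inter hKc.measurableSet
    have hN0 : mu N = 0 := by
      by_contra hne
      have hpos : 0 < mu N := pos_iff_ne_zero.2 hne
      obtain ⟨C, hCN, hC, hCpos⟩ := hNm.exists_lt_isCompact_of_ne_top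
        ((measure_mono inter_subset_right).trans_lt hKc.measure_lt_top).ne hpos
      have hCK : C ⊆ K := hCN.trans inter_subset_right
      have h1 := h C (hCK.trans hK) hC
      have hDeC : (fun x => G x - F x) =ᵐ[mu.restrict C] D :=
        ae_restrict_of_ae_restrict_of_subset hCK hDe
      have hDC : IntegrableOn D C mu := (hDi.mono_set hCK).congr hDeC
      have h2 : ∫ x in C, D x ∂mu = (∫ x in C, G x ∂mu) - ∫ x in C, F x ∂mu := by
        rw [← integral_sub (hG C (hCK.trans hK) hC) (hF C (hCK.trans hK) hC)]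
        exact (integral_congr_ae hDeC).symm
      have h3 : 0 ≤ᵐ[mu.restrict C] fun x => - D x := by
        rw [EventuallyLE, ae_restrict_iff' hC.measurableSet]
        refine Eventually.of_forall fun x hx => ?_
        have h4 : D x < 0 := (hCN hx).1
        change 0 ≤ - D x
        linarith
      have h4 : ∫ x in C, - D x ∂mu = 0 := by
        apply le_antisymm
        · rw [integral_neg]
          linarith
        · exact integral_nonneg_of_ae h3
      have h5 := (setIntegral_eq_zero_iff_of_nonneg_ae h3 hDC.neg).1 h4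
      rw [EventuallyEq, ae_restrict_iff' hC.measurableSet] at h5
      have h6 : mu C = 0 := by
        have h7 : ∀ᵐ x ∂mu, x ∉ C := by
          filter_upwards [h5] with x hx hxC
          have h8 := hx hxC
          have h9 : D x < 0 := (hCN hxC).1
          change - D x = 0 at h8
          linarith
        exact measure_eq_zero_iff_ae_notMem.2 h7
      exact absurd h6 hCpos.ne'
    have hN1 : ∀ᵐ x ∂(mu.restrict K), x ∉ N :=
      ae_restrict_of_ae (measure_eq_zero_iff_ae_notMem.1 hN0)
    filter_upwards [hDe, hN1, ae_restrict_mem hKc.measurableSet] with x h1 h2 h3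
    by_contra h4
    apply h2
    refine ⟨?_, h3⟩
    change D x < 0
    rw [← h1]
    linarith
  have hnull : mu {x | x ∈ O ∧ ¬ F x ≤ G x} = 0 := by
    apply measure_null_of_locally_null
    rintro x ⟨hx, -⟩
    obtain ⟨r, hr, h1⟩ := Metric.nhds_basis_closedBall.mem_iff.1 (hO.mem_nhds hx)
    refine ⟨Metric.closedBall x r ∩ {x | x ∈ O ∧ ¬ F x ≤ G x},
      inter_mem (mem_nhdsWithin_of_mem_nhds (Metric.closedBall_mem_nhds x hr)) self_mem_nhdsWithin, ?_⟩
    have h2 := hloc _ h1 (isCompact_closedBall x r)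
    rw [ae_restrict_iff' Metric.isClosed_closedBall.measurableSet, ae_iff] at h2
    refine measure_mono_null ?_ h2
    rintro y ⟨hy1, -, hy2⟩
    exact fun h3 => hy2 (h3 hy1)
  rw [ae_iff]
  refine measure_mono_null ?_ hnull
  intro x hx
  exact Classical.not_imp.1 hx

end H98NX
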