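import Pool.Agent.H98.NX.Eg

set_option autoImplicit false

/-!
# Row Eh: almost everywhere the squared speed is a quadratic form

* jvn (Jordan - von Neumann): Q continuous with the parallelogram identity. Q 0 = 0, Q(-t) = Q t, put B(t,t') := (Q(t+t') - Q(t-t'))/4: symmetric. Additivity: from the parallelogram identity
 Q(a+b+c) + Q(a+b-c) = 2Q(a+b)+2Q(c) etc. in the standard way B(a+b,c) = B(a,c)+B(b,c) (see Mathlib/Analysis/InnerProductSpace/OfNorm.lean for the same computation), B(t,t) = Q(2t)/4 = Q t.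
 B(.,c) is additive and continuous, hence R-linear (AddMonoidHom.toRealLinearMap or map_real_smul).
* md_ae: for each pair (t,t') for a.e. x in O: sp_par1 for (t,t') and for (t+t', t-t'): the latter says sp(2t)^2 + sp(2t')^2 <= 2 sp(t+t')^2 + 2 sp(t-t')^2, and sp(2t) = 2 sp(t) (sp_smul at points
 with Dlim), so equality holds in sp_par1. Let T be a countable dense set of E: for a.e. x in O the equality holds for all (t,t') in T x T and Dlim f x. For such x the function t -> sp f t x is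
 continuous (sp_tri with the constant of lpo_ball), so the parallelogram identity for Q(t) = sp f t x ^2 holds for all (t,t') by density. jvn.
* md_bound: B is positive semidefinite, Cauchy-Schwarz: |B t t'| <= sp t sp t'.
* sp_rot (plane): for MD f x, c = a + b i: sp f c x^2 + sp f (c I) x^2 = B(c,c) + B(ic,ic), c = a 1 + b I, ic = -b 1 + a I: = (a^2+b^2)(B(1,1) + B(I,I)).
* sp_pair (R x R): sp f (a,b)^2 = a^2 sp(1,0)^2 + 2ab B + b^2 sp(0,1)^2.
-/

namespace H98NX

open H50NA MeasureTheory Set Filter Topology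

variable {E X : Type} [NormedAddCommGroup E] [NormedSpace ℝ E] [MetricSpace X] {gm : X → X → ℝ → X}

/-- metric differentiability: all directional limits exist, and the squared speed is a quadratic form -/
def MD (f : E → X) (x : E) : Prop :=
  Dlim f x ∧ ∃ B : E →ₗ[ℝ] E →ₗ[ℝ] ℝ, (∀ t t', B t t' = B t' t) ∧ ∀ t, sp f t x ^ 2 = B t t

theorem jvn {Q : E → ℝ} (hQ : Continuous Q)
    (hp : ∀ t t', Q (t + t') + Q (t - t') = 2 * Q t + 2 * Q t') :
    ∃ B : E →ₗ[ℝ] E →ₗ[ℝ] ℝ, (∀ t t', B t t' = B t' t) ∧ ∀ t, Q t = B t t := by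
  have h0 : Q 0 = 0 := by
    have h1 := hp 0 0
    rw [add_zero, sub_zero] at h1
    linarith
  have hneg : ∀ t, Q (-t) = Q t := by
    intro t
    have h1 := hp 0 t
    rw [zero_add, zero_sub, h0] at h1
    linarith
  obtain ⟨b, hb⟩ : ∃ b : E → E → ℝ, ∀ a c, b a c = (Q (a + c) - Q (a - c)) / 4 :=
    ⟨_, fun _ _ => rfl⟩
  have hsymm : ∀ a c, b a c = b c a := by
    intro a c
    rw [hb, hb, add_comm c a, ← neg_sub a c, hneg]
  have hadd : ∀ a a' c, b (a + a') c = b a c + b a' c := by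
    intro a a' c
    rw [hb, hb, hb]
    have e1 := hp (a + c) a'
    have e2 := hp (a - c) a'
    have e3 := hp (a' + c) a
    have e4 := hp (a' - c) a
    have r1 : a + c + a' = a + a' + c := by abel
    have r2 : a - c + a' = a + a' - c := by abel
    have r3 : a' + c + a = a + a' + c := by abel
    have r4 : a' - c + a = a + a' - c := by abel
    have r5 : Q (a' + c - a) = Q (a - c - a') := by
      rw [← hneg (a - c - a')]
      congr 1
      abel
    have r6 : Q (a' - c - a) = Q (a + c - a') := by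
      rw [← hneg (a + c - a')]
      congr 1
      abel
    rw [r1] at e1
    rw [r2] at e2
    rw [r3, r5] at e3
    rw [r4, r6] at e4
    linarith
  have hcont : ∀ c, Continuous (fun a => b a c) := by
    intro c
    have h1 : (fun a => b a c) = fun a => (Q (a + c) - Q (a - c)) / 4 := funext fun a => hb a c
    rw [h1]
    fun_prop
  have hsmul : ∀ (k : ℝ) a c, b (k • a) c = k • b a c := by
    intro k a c
    exact map_real_smul (AddMonoidHom.mk' (fun a => b a c) (fun a a' => hadd a a' c)) (hcont c) k a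
  refine ⟨LinearMap.mk₂ ℝ b hadd hsmul ?_ ?_, ?_, ?_⟩
  · intro a c c'
    rw [hsymm a, hadd, hsymm c a, hsymm c' a]
  · intro k a c
    rw [hsymm a, hsmul, hsymm c a]
  · intro t t'
    rw [LinearMap.mk₂_apply, LinearMap.mk₂_apply]
    exact hsymm t t'
  · intro t
    rw [LinearMap.mk₂_apply, hb, sub_self, h0]
    have h1 := hp t t
    rw [sub_self, h0] at h1
    linarith

theorem md_ae [FiniteDimensional ℝ E] [MeasurableSpace E] [BorelSpace E] (mu : Measure E) [mu.IsAddHaarMeasure]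
    (hX : Npc X gm) {f : E → X} {O : Set E} (hO : IsOpen O) (hf : Lpo f O) :
    ∀ᵐ x ∂mu, x ∈ O → MD f x := by
  have hprop : ProperSpace E := FiniteDimensional.proper_real E
  have hT := TopologicalSpace.denseRange_denseSeq E
  generalize TopologicalSpace.denseSeq E = T at hT
  have h1 : ∀ᵐ x ∂mu, ∀ i j : ℕ, (x ∈ O →
      sp f (T i + T j) x ^ 2 + sp f (T i - T j) x ^ 2 ≤ 2 * sp f (T i) x ^ 2 + 2 * sp f (T j) x ^ 2) ∧
      (x ∈ O → sp f ((T i + T j) + (T i - T j)) x ^ 2 + sp f ((T i + T j) - (T i - T j)) x ^ 2 ≤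
        2 * sp f (T i + T j) x ^ 2 + 2 * sp f (T i - T j) x ^ 2) := by
    rw [ae_all_iff]
    intro i
    rw [ae_all_iff]
    intro j
    exact (sp_par1 mu hX hO hf (T i) (T j)).and (sp_par1 mu hX hO hf (T i + T j) (T i - T j))
  filter_upwards [h1, sp_lim mu hO hf] with x hx hlim hxO
  have hD := hlim hxO
  obtain ⟨r, hr, -, L, hL, hLip⟩ := lpo_ball hO hf hxO
  have htri := sp_tri (f := f) (x := x) hr hL (fun y hy z hz =>
    hLip y (Metric.ball_subset_closedBall hy) z (Metric.ball_subset_closedBall hz))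
  have hc : Continuous (fun t => sp f t x) := by
    refine (LipschitzWith.of_dist_le_mul (K := ⟨L, hL⟩) fun t t' => ?_).continuous
    rw [Real.dist_eq, dist_eq_norm]
    exact htri t t'
  have hpar : ∀ t t', sp f (t + t') x ^ 2 + sp f (t - t') x ^ 2 =
      2 * sp f t x ^ 2 + 2 * sp f t' x ^ 2 := by
    refine isClosed_property2 (p := fun t t' => sp f (t + t') x ^ 2 + sp f (t - t') x ^ 2 =
      2 * sp f t x ^ 2 + 2 * sp f t' x ^ 2) hT ?_ ?_
    · refine isClosed_eq ?_ ?_
      · exact ((hc.comp (continuous_fst.add continuous_snd)).pow 2).add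
          ((hc.comp (continuous_fst.sub continuous_snd)).pow 2)
      · exact (continuous_const.mul ((hc.comp continuous_fst).pow 2)).add
          (continuous_const.mul ((hc.comp continuous_snd).pow 2))
    · intro i j
      obtain ⟨a1, a2⟩ := hx i j
      have a1 := a1 hxO
      have a2 := a2 hxO
      have e1 : T i + T j + (T i - T j) = (2 : ℝ) • T i := by
        rw [_root_.two_smul]; abel
      have e2 : T i + T j - (T i - T j) = (2 : ℝ) • T j := by
        rw [_root_.two_smul]; abel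
      rw [e1, e2, sp_smul hD, sp_smul hD, abs_of_pos (by norm_num : (0 : ℝ) < 2), mul_pow, mul_pow] at a2
      linarith
  obtain ⟨B, hB1, hB2⟩ := jvn (Q := fun t => sp f t x ^ 2) (hc.pow 2) hpar
  exact ⟨hD, B, hB1, hB2⟩

private lemma Eh_exp (B : E →ₗ[ℝ] E →ₗ[ℝ] ℝ) (hB : ∀ t t', B t t' = B t' t) (a b : ℝ) (u v : E) :
    B (a • u + b • v) (a • u + b • v) = a ^ 2 * B u u + 2 * a * b * B u v + b ^ 2 * B v v := by
  simp only [map_add, map_smul, LinearMap.add_apply, LinearMap.smul_apply, smul_eq_mul]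
  rw [hB v u]
  ring

theorem sp_rot {f : ℂ → X} {x : ℂ} (h : MD f x) (c : ℂ) :
    sp f c x ^ 2 + sp f (c * Complex.I) x ^ 2 = ‖c‖ ^ 2 * (sp f 1 x ^ 2 + sp f Complex.I x ^ 2) := by
  obtain ⟨-, B, hB1, hB2⟩ := h
  have e1 : c = c.re • (1 : ℂ) + c.im • Complex.I := by
    rw [Complex.real_smul, Complex.real_smul, mul_one]
    exact (Complex.re_add_im c).symm
  have e2 : c * Complex.I = (-c.im) • (1 : ℂ) + c.re • Complex.I := by
    apply Complex.ext <;> simp
  have e3 : ‖c‖ ^ 2 = c.re ^ 2 + c.im ^ 2 := by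
    rw [← Complex.normSq_eq_norm_sq, Complex.normSq_apply]
    ring
  rw [hB2, hB2, hB2, hB2, e2, e3]
  have e4 : B c c = B (c.re • (1 : ℂ) + c.im • Complex.I) (c.re • (1 : ℂ) + c.im • Complex.I) := by
    rw [← e1]
  rw [e4, Eh_exp B hB1, Eh_exp B hB1]
  ring

theorem sp_pair {f : ℝ × ℝ → X} {x : ℝ × ℝ} (h : MD f x) :
    ∃ B : ℝ, |B| ≤ sp f (1, 0) x * sp f (0, 1) x ∧
      ∀ a b : ℝ, sp f (a, b) x ^ 2 = a ^ 2 * sp f (1, 0) x ^ 2 + 2 * a * b * B + b ^ 2 * sp f (0, 1) x ^ 2 := by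
  obtain ⟨-, B, hB1, hB2⟩ := h
  have e1 : ∀ a b : ℝ, ((a, b) : ℝ × ℝ) = a • ((1, 0) : ℝ × ℝ) + b • ((0, 1) : ℝ × ℝ) := by
    intro a b
    simp
  have e2 : ∀ a b : ℝ, sp f (a, b) x ^ 2 = a ^ 2 * sp f (1, 0) x ^ 2 +
      2 * a * b * B (1, 0) (0, 1) + b ^ 2 * sp f (0, 1) x ^ 2 := by
    intro a b
    rw [hB2, hB2, hB2, e1 a b, Eh_exp B hB1]
  refine ⟨B (1, 0) (0, 1), ?_, e2⟩
  have hs1 := sp_nonneg f ((1, 0) : ℝ × ℝ) x
  have hs2 := sp_nonneg f ((0, 1) : ℝ × ℝ) x
  have h3 : discrim (sp f (0, 1) x ^ 2) (2 * B (1, 0) (0, 1)) (sp f (1, 0) x ^ 2) ≤ 0 := by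
    apply discrim_le_zero
    intro s
    have h4 := e2 1 s
    have h5 : 0 ≤ sp f (1, s) x ^ 2 := sq_nonneg _
    linarith
  unfold discrim at h3
  apply abs_le_of_sq_le_sq _ (mul_nonneg hs1 hs2)
  rw [mul_pow]
  linarith

end H98NX
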