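import Pool.Agent.H98.NX.Ef

set_option autoImplicit false

/-!
# Row Ej: lower semicontinuity of the energy (E6)

* sp_lsc: choose h0 > 0 with C + [0,h]t in C' for 0 < h <= h0 (C is in the interior of C'). Fix such h. By sp_int (S = C): int_C dist(f_n(x+ht))(f_n x)^2 <= h^2 M for all n.
 For a.e. x in C: f_n x -> f x and f_n(x+ht) -> f(x+ht) (ae_trans, x + ht in O), so dist(f_n(x+ht))(f_n x)^2 -> dist(f(x+ht))(f x)^2; Fatou (lintegral_liminf_le for ENNReal.ofReal of these
 functions; they are continuous on C) gives int_C dist(f(x+ht))(f x)^2 <= h^2 M. Divide by h^2, h -> 0+: sp_conv (the right neighbourhood filter is below the punctured one).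
* sp_lsc_open: W open, bounded... W in O. Let K_k (k in N) be compact sets, K_k in interior K_{k+1}, union = W (IsOpen.exhaustion / CompactExhaustion of W, or K_k = {x in closedBall 0 k : closedBall x (1/k) in W}).
 By sp_lsc with C = K_k, C' = K_{k+1}: int_{K_{k+1}} sp(f_n)^2 <= int_W sp(f_n)^2 <= M (integrable, nonnegative), so int_{K_k} sp(f)^2 <= M for all k; monotone convergence.
 Integrability on W: measurable (sp_meas) and the lintegral is the supremum of those over K_k, <= M.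
* sp_real: at a point of differentiability the quotient |q(x+ht) - q x|/|h| tends to |fderiv q x t|; sp_eq_of_lim.
-/

namespace H98NX

open H50NA MeasureTheory Set Filter Topology

variable {E X : Type} [NormedAddCommGroup E] [NormedSpace ℝ E] [MetricSpace X]

theorem sp_real {q : E → ℝ} {x : E} (h : DifferentiableAt ℝ q x) (t : E) : sp q t x = |fderiv ℝ q x t| := by
  apply sp_eq_of_lim
  have h1 := (h.hasFDerivAt.hasLineDerivAt t).tendsto_slope_zero.abs
  refine h1.congr fun s => ?_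
  rw [smul_eq_mul, abs_mul, abs_inv, Real.dist_eq]
  ring

variable [FiniteDimensional ℝ E] [MeasurableSpace E] [BorelSpace E] (mu : Measure E) [mu.IsAddHaarMeasure]

omit [NormedSpace ℝ E] [FiniteDimensional ℝ E] in
/-- Fatou for continuous functions on a compact set -/
theorem Ej_fatou {C : Set E} (hC : IsCompact C) {u : ℕ → E → ℝ} {v : E → ℝ} (hu : ∀ n, ContinuousOn (u n) C)
    (hv : ContinuousOn v C) (hu0 : ∀ n x, 0 ≤ u n x) (hv0 : ∀ x, 0 ≤ v x)
    (hlim : ∀ᵐ x ∂mu, x ∈ C → Tendsto (fun n => u n x) atTop (𝓝 (v x))) {M : ℝ}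
    (hM : ∀ n, ∫ x in C, u n x ∂mu ≤ M) : ∫ x in C, v x ∂mu ≤ M := by
  have hui : ∀ n, IntegrableOn (u n) C mu := fun n => (hu n).integrableOn_compact hC
  have hvi : IntegrableOn v C mu := hv.integrableOn_compact hC
  have hM0 : 0 ≤ M := (setIntegral_nonneg hC.measurableSet fun x _ => hu0 0 x).trans (hM 0)
  have e1 : ∀ n, ∫⁻ x in C, ENNReal.ofReal (u n x) ∂mu = ENNReal.ofReal (∫ x in C, u n x ∂mu) :=
    fun n => (ofReal_integral_eq_lintegral_ofReal (hui n) (Eventually.of_forall (hu0 n))).symm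
  have e2 : ∫⁻ x in C, ENNReal.ofReal (v x) ∂mu = ENNReal.ofReal (∫ x in C, v x ∂mu) :=
    (ofReal_integral_eq_lintegral_ofReal hvi (Eventually.of_forall hv0)).symm
  rw [← ENNReal.ofReal_le_ofReal_iff hM0, ← e2]
  have e3 : ∫⁻ x in C, ENNReal.ofReal (v x) ∂mu =
      ∫⁻ x in C, liminf (fun n => ENNReal.ofReal (u n x)) atTop ∂mu := by
    apply lintegral_congr_ae
    rw [EventuallyEq, ae_restrict_iff' hC.measurableSet]
    filter_upwards [hlim] with x hx hxC
    exact ((ENNReal.tendsto_ofReal (hx hxC)).liminf_eq).symm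
  rw [e3]
  refine (lintegral_liminf_le' fun n => (hui n).aestronglyMeasurable.aemeasurable.ennreal_ofReal).trans ?_
  have e4 : ∀ n, ∫⁻ x in C, ENNReal.ofReal (u n x) ∂mu ≤ ENNReal.ofReal M := fun n => by
    rw [e1]
    exact ENNReal.ofReal_le_ofReal (hM n)
  exact (liminf_le_liminf (Eventually.of_forall e4)).trans (liminf_const _).le

theorem sp_lsc {fn : ℕ → E → X} {f : E → X} {O C C' : Set E} (hO : IsOpen O) (hfn : ∀ n, Lpo (fn n) O)
    (hf : Lpo f O) (hC : IsCompact C) (hC' : IsCompact C') (hCC : C ⊆ interior C') (hC'O : C' ⊆ O)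
    (hlim : ∀ᵐ x ∂mu, x ∈ O → Tendsto (fun n => fn n x) atTop (𝓝 (f x))) {M : ℝ} (t : E)
    (hM : ∀ n, ∫ x in C', sp (fn n) t x ^ 2 ∂mu ≤ M) : ∫ x in C, sp f t x ^ 2 ∂mu ≤ M := by
  obtain ⟨δ, hδ, hδC⟩ := hC.exists_cthickening_subset_open isOpen_interior hCC
  have hCO : C ⊆ O := hCC.trans (interior_subset.trans hC'O)
  have hnt : 0 < ‖t‖ + 1 := by positivity
  obtain ⟨h0, hh0⟩ : ∃ h0 : ℝ, h0 = δ / (‖t‖ + 1) := ⟨_, rfl⟩
  have hh0p : 0 < h0 := by
    rw [hh0]
    positivity
  have hsub : ∀ s : ℝ, 0 ≤ s → s ≤ h0 → ∀ x ∈ C, x + s • t ∈ C' := by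
    intro s hs0 hs x hx
    apply interior_subset
    apply hδC
    apply Metric.mem_cthickening_of_dist_le _ x _ _ hx
    rw [dist_eq_norm, add_sub_cancel_left, norm_smul, Real.norm_eq_abs, abs_of_nonneg hs0]
    have h1 : s * (‖t‖ + 1) ≤ δ := by
      rw [hh0, le_div_iff₀ hnt] at hs
      exact hs
    nlinarith [norm_nonneg t]
  have hcont : ∀ {g : E → X}, Lpo g O → ∀ s : ℝ, 0 ≤ s → s ≤ h0 →
      ContinuousOn (fun x => dist (g (x + s • t)) (g x) ^ 2) C := by
    intro g hg s hs0 hs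
    have h1 := lpo_cont hO hg
    have h2 : ContinuousOn (fun x => g (x + s • t)) C :=
      h1.comp (continuous_id.add continuous_const).continuousOn fun x hx => hC'O (hsub s hs0 hs x hx)
    exact (continuous_dist.comp_continuousOn (h2.prodMk (h1.mono hCO))).pow 2
  have step : ∀ s : ℝ, 0 < s → s ≤ h0 → ∫ x in C, dist (f (x + s • t)) (f x) ^ 2 / s ^ 2 ∂mu ≤ M := by
    intro s hs0 hs
    have h1 : ∫ x in C, dist (f (x + s • t)) (f x) ^ 2 ∂mu ≤ s ^ 2 * M := by
      apply Ej_fatou mu hC (u := fun n x => dist (fn n (x + s • t)) (fn n x) ^ 2)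
        (v := fun x => dist (f (x + s • t)) (f x) ^ 2) (fun n => hcont (hfn n) s hs0.le hs)
        (hcont hf s hs0.le hs) (fun n x => sq_nonneg _) (fun x => sq_nonneg _)
      · filter_upwards [hlim, ae_trans mu hlim (s • t)] with x hx1 hx2 hxC
        exact ((hx2 (hC'O (hsub s hs0.le hs x hxC))).dist (hx1 (hCO hxC))).pow 2
      · intro n
        refine (sp_int mu hO (hfn n) hC' hC'O hC.measurableSet hs0.le t
          (fun x hx r hr0 hr => hsub r hr0 (hr.trans hs) x hx)).trans ?_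
        exact mul_le_mul_of_nonneg_left (hM n) (sq_nonneg s)
    rw [integral_div, div_le_iff₀ (by positivity)]
    linarith
  have hconv := (sp_conv mu hO hf hC hCO hC.measurableSet subset_rfl t).mono_left (nhdsGT_le_nhdsNE 0)
  refine le_of_tendsto hconv ?_
  filter_upwards [Ioc_mem_nhdsGT hh0p] with s hs
  exact step s hs.1 hs.2

theorem sp_lsc_open {fn : ℕ → E → X} {f : E → X} {O W : Set E} (hO : IsOpen O) (hfn : ∀ n, Lpo (fn n) O)
    (hf : Lpo f O) (hW : IsOpen W) (hWO : W ⊆ O)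
    (hlim : ∀ᵐ x ∂mu, x ∈ O → Tendsto (fun n => fn n x) atTop (𝓝 (f x))) {M : ℝ} (t : E)
    (hI : ∀ n, IntegrableOn (fun x => sp (fn n) t x ^ 2) W mu)
    (hM : ∀ n, ∫ x in W, sp (fn n) t x ^ 2 ∂mu ≤ M) :
    IntegrableOn (fun x => sp f t x ^ 2) W mu ∧ ∫ x in W, sp f t x ^ 2 ∂mu ≤ M := by
  have hM0 : 0 ≤ M := (setIntegral_nonneg hW.measurableSet fun x _ => sq_nonneg _).trans (hM 0)
  have hcpt : ∀ C : Set E, IsCompact C → C ⊆ W → ∫⁻ x in C, ENNReal.ofReal (sp f t x ^ 2) ∂mu ≤
      ENNReal.ofReal M := by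
    intro C hC hCW
    obtain ⟨C', hC', hCC, hC'W⟩ := exists_compact_between hC hW hCW
    have h1 : ∫ x in C, sp f t x ^ 2 ∂mu ≤ M :=
      sp_lsc mu hO hfn hf hC hC' hCC (hC'W.trans hWO) hlim t fun n =>
        (setIntegral_mono_set (hI n) (Eventually.of_forall fun x => sq_nonneg _)
          (LE.le.eventuallyLE hC'W)).trans (hM n)
    have h2 := (sp_sq_int mu hO hf hC (hCW.trans hWO) hC.measurableSet subset_rfl t).1
    rw [← ofReal_integral_eq_lintegral_ofReal h2 (Eventually.of_forall fun x => sq_nonneg _)]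
    exact ENNReal.ofReal_le_ofReal h1
  obtain ⟨F, hF1, hF2, hF3, hF4⟩ := hW.exists_iUnion_isClosed
  have hK1 : ∀ n : ℕ, IsCompact (F n ∩ Metric.closedBall 0 n) := fun n =>
    (isCompact_closedBall (0 : E) (n : ℝ)).inter_left (hF1 n)
  have hK2 : ∀ n : ℕ, F n ∩ Metric.closedBall 0 n ⊆ W := fun n => inter_subset_left.trans (hF2 n)
  have hKm : Monotone fun n : ℕ => F n ∩ Metric.closedBall (0 : E) n := fun a b hab =>
    inter_subset_inter (hF4 hab) (Metric.closedBall_subset_closedBall (by exact_mod_cast hab))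
  have hKU : ⋃ n : ℕ, F n ∩ Metric.closedBall (0 : E) n = W := by
    apply Subset.antisymm (iUnion_subset hK2)
    intro x hx
    rw [← hF3, mem_iUnion] at hx
    obtain ⟨a, ha⟩ := hx
    obtain ⟨b, hb⟩ := exists_nat_ge ‖x‖
    rw [mem_iUnion]
    refine ⟨max a b, hF4 (le_max_left a b) ha, ?_⟩
    rw [mem_closedBall_zero_iff]
    refine hb.trans ?_
    exact_mod_cast le_max_right a b
  have hlint : ∫⁻ x in W, ENNReal.ofReal (sp f t x ^ 2) ∂mu ≤ ENNReal.ofReal M := by
    rw [← hKU, setLIntegral_iUnion_of_directed _ (directed_of_isDirected_le hKm)]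
    exact iSup_le fun n => hcpt _ (hK1 n) (hK2 n)
  have hmeas : AEStronglyMeasurable (fun x => sp f t x ^ 2) (mu.restrict W) := by
    have h1 := ((sp_meas hO (lpo_cont hO hf) t).pow_const 2).aestronglyMeasurable (μ := mu.restrict W)
    refine h1.congr ?_
    rw [EventuallyEq, ae_restrict_iff' hW.measurableSet]
    filter_upwards with x hx
    rw [indicator_of_mem (hWO hx)]
  have hint : IntegrableOn (fun x => sp f t x ^ 2) W mu := by
    rw [IntegrableOn, ← lintegral_ofReal_ne_top_iff_integrable hmeas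
      (Eventually.of_forall fun x => sq_nonneg _)]
    exact ne_top_of_le_ne_top ENNReal.ofReal_ne_top hlint
  refine ⟨hint, ?_⟩
  rw [← ENNReal.ofReal_le_ofReal_iff hM0,
    ofReal_integral_eq_lintegral_ofReal hint (Eventually.of_forall fun x => sq_nonneg _)]
  exact hlint

end H98NX
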