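import Pool.Agent.H98.NX.Ed

set_option autoImplicit false

/-!
# Row Ek: the speed of interpolated maps (E7)

d(y) = dist(f y)(g y), f'(y) = gm (f y)(g y)(eta y), g'(y) = gm (g y)(f y)(eta y). At a point x where f, g, f', g' have directional limits, d and eta are differentiable, and 0 <= eta <= 1 near x.
Take h > 0, h -> 0, and in rows Nb/Nc p0 = f x, p1 = f(x+ht), q0 = g x, q1 = g(x+ht), h0 = eta x, h1 = eta(x+ht) and divide by h^2:
 dist(f x)(f(x+ht))/h -> sp f t x, the same for g, f', g'; (d(x+ht) - d(x))/h -> Dd := fderiv d x t; (eta(x+ht) - eta x)/h -> De;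
 (d(x+ht)^2 - d(x)^2)/h -> 2 d(x) Dd; (1-h0)h1 + h0(1-h1) -> 2 eta(1-eta); the maximum is continuous.
* sp_two: from int_two. * sp_one: f' with constant eta = s: int_one1, int_one2 (no limits for g' needed; f' y = gm (f y)(g y) s).
* sp_crude: from int_tri: sp f' <= (1-eta) sp f + eta sp g + |De| d.   * sp_dist: |Dd| <= sp f + sp g (triangle inequality).
* ae versions: f, g in Lpo O, eta in Lpo O with values in [0,1] on O: then f', g' in Lpo O (lpo_gm), d in Lpo O (lpo_dist); sp_lim for f, g, f', g' and lpo_diff for d and eta.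
-/

namespace H98NX

open H50NA MeasureTheory Set Filter Topology

variable {E X : Type} [NormedAddCommGroup E] [NormedSpace ℝ E] [MetricSpace X] {gm : X → X → ℝ → X}

/-- the interpolated map -/
def ip (gm : X → X → ℝ → X) (f g : E → X) (eta : E → ℝ) (x : E) : X := gm (f x) (g x) (eta x)

/-- the distance function -/
def dd (f g : E → X) (x : E) : ℝ := dist (f x) (g x)

/-- the convexity gap in direction t -/
noncomputable def mt (f g : E → X) (t x : E) : ℝ := max ((sp f t x - sp g t x) ^ 2) ((fderiv ℝ (dd f g) x t) ^ 2)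

/-- the right-sided limit of the metric difference quotients -/
private theorem dlim_right {f : E → X} {x : E} (hf : Dlim f x) (t : E) :
    Tendsto (fun h : ℝ => dist (f x) (f (x + h • t)) / h) (𝓝[>] 0) (𝓝 (sp f t x)) := by
  have h1 := (hf t).mono_left (nhdsWithin_mono (0:ℝ) (fun y (hy : y ∈ Ioi (0:ℝ)) => ne_of_gt hy))
  refine h1.congr' ?_
  filter_upwards [self_mem_nhdsWithin] with h hh
  rw [abs_of_pos hh, dist_comm]

private theorem diff_right {e : E → ℝ} {x : E} (he : DifferentiableAt ℝ e x) (t : E) :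
    Tendsto (fun h : ℝ => (e (x + h • t) - e x) / h) (𝓝[>] 0) (𝓝 (fderiv ℝ e x t)) := by
  have h1 := (he.hasFDerivAt.hasLineDerivAt t).tendsto_slope_zero_right
  refine h1.congr fun h => ?_
  rw [smul_eq_mul, div_eq_inv_mul]

private theorem move (x t : E) : Tendsto (fun h : ℝ => x + h • t) (𝓝[>] 0) (𝓝 x) := by
  have h1 : Continuous fun h : ℝ => x + h • t := by fun_prop
  have h2 := h1.tendsto 0
  simp only [zero_smul, add_zero] at h2
  exact h2.mono_left nhdsWithin_le_nhds

theorem sp_two (hX : Npc X gm) {f g : E → X} {eta : E → ℝ} {x : E} (hf : Dlim f x) (hg : Dlim g x)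
    (hf' : Dlim (ip gm f g eta) x) (hg' : Dlim (ip gm g f eta) x) (hd : DifferentiableAt ℝ (dd f g) x)
    (he : DifferentiableAt ℝ eta x) (h01 : ∀ᶠ y in 𝓝 x, 0 ≤ eta y ∧ eta y ≤ 1) (t : E) :
    sp (ip gm f g eta) t x ^ 2 + sp (ip gm g f eta) t x ^ 2 ≤ sp f t x ^ 2 + sp g t x ^ 2
      - 2 * eta x * (1 - eta x) * mt f g t x
      - (1 - 2 * eta x) * fderiv ℝ eta x t * (2 * dd f g x * fderiv ℝ (dd f g) x t)
      + 2 * (fderiv ℝ eta x t) ^ 2 * dd f g x ^ 2 := by
  have lf := dlim_right hf t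
  have lg := dlim_right hg t
  have lf' := dlim_right hf' t
  have lg' := dlim_right hg' t
  have ld := diff_right hd t
  have le := diff_right he t
  have cd : Tendsto (fun h : ℝ => dd f g (x + h • t)) (𝓝[>] 0) (𝓝 (dd f g x)) :=
    hd.continuousAt.tendsto.comp (move x t)
  have ce : Tendsto (fun h : ℝ => eta (x + h • t)) (𝓝[>] 0) (𝓝 (eta x)) :=
    he.continuousAt.tendsto.comp (move x t)
  have hL := (lf'.pow 2).add (lg'.pow 2)
  have hk := ((ce.const_mul (1 - eta x)).add ((ce.const_sub 1).const_mul (eta x)))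
  have hm := ((lf.sub lg).pow 2).max (ld.pow 2)
  have hR := (((((lf.pow 2).add (lg.pow 2)).sub (hk.mul hm)).sub
    ((le.const_mul (1 - 2 * eta x)).mul (ld.mul (cd.add_const (dd f g x))))).add
    (((le.pow 2).const_mul 2).mul (cd.pow 2)))
  have hx01 := h01.self_of_nhds
  have hev : ∀ᶠ h : ℝ in 𝓝[>] 0, 0 ≤ eta (x + h • t) ∧ eta (x + h • t) ≤ 1 :=
    (move x t).eventually h01
  have key := le_of_tendsto_of_tendsto hL hR (by
    filter_upwards [hev, self_mem_nhdsWithin] with h hh hpos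
    have hpos' : (0:ℝ) < h := hpos
    have hi := int_two hX (f x) (f (x + h • t)) (g x) (g (x + h • t)) hx01.1 hx01.2 hh.1 hh.2
    have hsq : 0 < h ^ 2 := by positivity
    have hmax : max ((dist (f x) (f (x + h • t)) / h - dist (g x) (g (x + h • t)) / h) ^ 2)
        (((dd f g (x + h • t) - dd f g x) / h) ^ 2) =
        max ((dist (f x) (f (x + h • t)) - dist (g x) (g (x + h • t))) ^ 2)
          ((dist (f x) (g x) - dist (f (x + h • t)) (g (x + h • t))) ^ 2) / h ^ 2 := by
      rw [← max_div_div_right hsq.le]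
      congr 1
      · ring
      · simp only [dd]
        ring
    rw [hmax]
    have e1 : (dist (ip gm f g eta x) (ip gm f g eta (x + h • t)) / h) ^ 2 +
        (dist (ip gm g f eta x) (ip gm g f eta (x + h • t)) / h) ^ 2 =
        (dist (gm (f x) (g x) (eta x)) (gm (f (x + h • t)) (g (x + h • t)) (eta (x + h • t))) ^ 2 +
        dist (gm (g x) (f x) (eta x)) (gm (g (x + h • t)) (f (x + h • t)) (eta (x + h • t))) ^ 2) / h ^ 2 := by
      simp only [ip]
      ring
    rw [e1]
    refine (div_le_div_of_nonneg_right hi hsq.le).trans (le_of_eq ?_)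
    simp only [dd]
    field_simp
    ring)
  refine key.trans (le_of_eq ?_)
  simp only [mt]
  ring

theorem sp_one (hX : Npc X gm) {f g : E → X} {x : E} {s : ℝ} (hs : 0 ≤ s) (hs1 : s ≤ 1) (hf : Dlim f x)
    (hg : Dlim g x) (hf' : Dlim (ip gm f g (fun _ => s)) x) (hd : DifferentiableAt ℝ (dd f g) x) (t : E) :
    sp (ip gm f g (fun _ => s)) t x ^ 2 ≤ (1 - s) * sp f t x ^ 2 + s * sp g t x ^ 2
      - s * (1 - s) * mt f g t x := by
  have lf := dlim_right hf t
  have lg := dlim_right hg t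
  have lf' := dlim_right hf' t
  have ld := diff_right hd t
  have hL := lf'.pow 2
  have hR0 := ((lf.pow 2).const_mul (1 - s)).add ((lg.pow 2).const_mul s)
  have hR1 := hR0.sub (((lf.sub lg).pow 2).const_mul (s * (1 - s)))
  have hR2 := hR0.sub ((ld.pow 2).const_mul (s * (1 - s)))
  have k1 := le_of_tendsto_of_tendsto hL hR1 (by
    filter_upwards [self_mem_nhdsWithin] with h hpos
    have hpos' : (0:ℝ) < h := hpos
    have hi := int_one1 hX (f x) (f (x + h • t)) (g x) (g (x + h • t)) hs hs1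
    have hsq : 0 < h ^ 2 := by positivity
    have e1 : (dist (ip gm f g (fun _ => s) x) (ip gm f g (fun _ => s) (x + h • t)) / h) ^ 2 =
        dist (gm (f x) (g x) s) (gm (f (x + h • t)) (g (x + h • t)) s) ^ 2 / h ^ 2 := by
      simp only [ip]
      ring
    rw [e1]
    refine (div_le_div_of_nonneg_right hi hsq.le).trans (le_of_eq ?_)
    field_simp)
  have k2 := le_of_tendsto_of_tendsto hL hR2 (by
    filter_upwards [self_mem_nhdsWithin] with h hpos
    have hpos' : (0:ℝ) < h := hpos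
    have hi := int_one2 hX (f x) (f (x + h • t)) (g x) (g (x + h • t)) hs hs1
    have hsq : 0 < h ^ 2 := by positivity
    have e1 : (dist (ip gm f g (fun _ => s) x) (ip gm f g (fun _ => s) (x + h • t)) / h) ^ 2 =
        dist (gm (f x) (g x) s) (gm (f (x + h • t)) (g (x + h • t)) s) ^ 2 / h ^ 2 := by
      simp only [ip]
      ring
    rw [e1]
    refine (div_le_div_of_nonneg_right hi hsq.le).trans (le_of_eq ?_)
    simp only [dd]
    field_simp
    ring)
  simp only [mt]
  rcases max_choice ((sp f t x - sp g t x) ^ 2) ((fderiv ℝ (dd f g) x t) ^ 2) with hm | hm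
  · rw [hm]
    exact k1
  · rw [hm]
    exact k2

theorem sp_crude (hX : Npc X gm) {f g : E → X} {eta : E → ℝ} {x : E} (hf : Dlim f x) (hg : Dlim g x)
    (hf' : Dlim (ip gm f g eta) x) (he : DifferentiableAt ℝ eta x)
    (h01 : ∀ᶠ y in 𝓝 x, 0 ≤ eta y ∧ eta y ≤ 1) (hc : ContinuousAt (dd f g) x) (t : E) :
    sp (ip gm f g eta) t x ≤ (1 - eta x) * sp f t x + eta x * sp g t x + |fderiv ℝ eta x t| * dd f g x := by
  have lf := dlim_right hf t
  have lg := dlim_right hg t
  have lf' := dlim_right hf' t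
  have le := diff_right he t
  have cd : Tendsto (fun h : ℝ => dd f g (x + h • t)) (𝓝[>] 0) (𝓝 (dd f g x)) :=
    hc.tendsto.comp (move x t)
  have hR := ((lf.const_mul (1 - eta x)).add (lg.const_mul (eta x))).add (le.abs.mul cd)
  have hx01 := h01.self_of_nhds
  have hev : ∀ᶠ h : ℝ in 𝓝[>] 0, 0 ≤ eta (x + h • t) ∧ eta (x + h • t) ≤ 1 :=
    (move x t).eventually h01
  refine le_of_tendsto_of_tendsto lf' hR ?_
  filter_upwards [hev, self_mem_nhdsWithin] with h hh hpos
  have hpos' : (0:ℝ) < h := hpos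
  have hi := int_tri hX (f x) (f (x + h • t)) (g x) (g (x + h • t)) hx01.1 hx01.2 hh.1 hh.2
  have hab : |(eta (x + h • t) - eta x) / h| = |eta x - eta (x + h • t)| / h := by
    rw [abs_div, abs_of_pos hpos', abs_sub_comm]
  simp only [ip, dd, hab]
  refine (div_le_div_of_nonneg_right hi hpos'.le).trans (le_of_eq ?_)
  field_simp

theorem sp_dist {f g : E → X} {x : E} (hf : Dlim f x) (hg : Dlim g x) (hd : DifferentiableAt ℝ (dd f g) x) (t : E) :
    |fderiv ℝ (dd f g) x t| ≤ sp f t x + sp g t x := by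
  have lf := dlim_right hf t
  have lg := dlim_right hg t
  have ld := (diff_right hd t).abs
  refine le_of_tendsto_of_tendsto ld (lf.add lg) ?_
  filter_upwards [self_mem_nhdsWithin] with h hpos
  have hpos' : (0:ℝ) < h := hpos
  rw [abs_div, abs_of_pos hpos', ← add_div]
  refine div_le_div_of_nonneg_right ?_ hpos'.le
  simp only [dd]
  rw [abs_sub_le_iff]
  have t1 := dist_triangle4 (f (x + h • t)) (f x) (g x) (g (x + h • t))
  have t2 := dist_triangle4 (f x) (f (x + h • t)) (g (x + h • t)) (g x)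
  have c1 := dist_comm (f (x + h • t)) (f x)
  have c2 := dist_comm (g (x + h • t)) (g x)
  constructor <;> linarith

variable [FiniteDimensional ℝ E] [MeasurableSpace E] [BorelSpace E] (mu : Measure E) [mu.IsAddHaarMeasure]

theorem ip_good (hX : Npc X gm) {f g : E → X} {eta : E → ℝ} {O : Set E} (hO : IsOpen O) (hf : Lpo f O) (hg : Lpo g O)
    (he : Lpo eta O) (h01 : ∀ x ∈ O, 0 ≤ eta x ∧ eta x ≤ 1) :
    ∀ᵐ x ∂mu, x ∈ O → Dlim f x ∧ Dlim g x ∧ Dlim (ip gm f g eta) x ∧ Dlim (ip gm g f eta) x ∧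
      DifferentiableAt ℝ (dd f g) x ∧ DifferentiableAt ℝ eta x := by
  have l1 : Lpo (ip gm f g eta) O := lpo_gm hX hf hg he h01
  have l2 : Lpo (ip gm g f eta) O := lpo_gm hX hg hf he h01
  have l3 : Lpo (dd f g) O := lpo_dist hf hg
  filter_upwards [sp_lim mu hO hf, sp_lim mu hO hg, sp_lim mu hO l1, sp_lim mu hO l2,
    lpo_diff mu hO l3, lpo_diff mu hO he] with x a1 a2 a3 a4 a5 a6 hx
  exact ⟨a1 hx, a2 hx, a3 hx, a4 hx, a5 hx, a6 hx⟩

end H98NX
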