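import Pool.Agent.H98.NX.Ed

/-!
# Row Ee: the fundamental inequality along lines and its integrated form (E3)

Bounds: for C compact in O there are a compact neighbourhood K of C in O (Metric.cthickening d C, d small; E is finite dimensional) and L >= 0 with dist(f y)(f z) <= L dist y z on K;
so sp f t x <= L|t| for x in C (sp_le), and dist(f(x+ht))(f x) <= L|t||h| for x in C, |h||t| <= d.
* sp_sq_int: sp f t ^2 is measurable on O (sp_meas) and bounded on C, mu C < infinity. For S measurable contained in the compact set C of O.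
* line_le: let x be such that for a.e. s: x + s t in O implies that the limit sp_lim1 exists at x + s t (ae_line). If x + s t in O for all s in [0,h]: the segment is compact,
 phi(s) := dist(f(x+st))(f x) is Lipschitz on [0,h], phi(0) = 0, at a.e. s in (0,h) it is differentiable and |phi'(s)| <= sp f t (x+st) because |phi(s+d) - phi(s)| <= dist(f(x+st+dt))(f(x+st)).
 phi(h) = int_0^h phi' <= int_0^h sp f t (x+st) ds (AbsolutelyContinuousOnInterval.integral_deriv_eq_sub). Measurability of s -> sp f t (x+st): sp_meas composed with the line; boundedness: see above.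
* sp_int (E3): for x in S: dist(f(x+ht))(f x)^2 <= (int_0^h sp)^2 <= h int_0^h sp f t (x+st)^2 ds (Cauchy-Schwarz). Integrate over S and interchange:
 int_S int_0^h = int_0^h int_S sp f t (x+st)^2 dx ds = int_0^h int_{S+st} sp^2 dx ds <= h int_{C'} sp^2 (S + st in C'). All functions are bounded and measurable (replace sp f t by the indicator
 of O of it).
-/

set_option autoImplicit false

namespace H98NX

open H50NA MeasureTheory Set Filter Topology

theorem Ee_bdd {α : Type} [MeasurableSpace α] (nu : Measure α) {S : Set α} (hS : MeasurableSet S)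
    (hfin : nu S ≠ ⊤) {F G : α → ℝ} (hG : Measurable G) (hFG : ∀ x ∈ S, F x = G x) {M : ℝ}
    (hM : ∀ x ∈ S, |F x| ≤ M) : IntegrableOn F S nu := by
  have hfm : IsFiniteMeasure (nu.restrict S) := ⟨by
    rw [Measure.restrict_apply_univ]
    exact lt_top_iff_ne_top.2 hfin⟩
  refine Integrable.of_bound (C := M) ?_ ?_
  · refine hG.aestronglyMeasurable.congr ?_
    filter_upwards [ae_restrict_mem hS] with x hx
    exact (hFG x hx).symm
  · filter_upwards [ae_restrict_mem hS] with x hx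
    exact hM x hx

theorem Ee_cs {h : ℝ} (hh : 0 ≤ h) {p : ℝ → ℝ} (h1 : IntervalIntegrable p volume 0 h)
    (h2 : IntervalIntegrable (fun s => p s ^ 2) volume 0 h) :
    (∫ s in (0:ℝ)..h, p s) ^ 2 ≤ h * ∫ s in (0:ℝ)..h, p s ^ 2 := by
  rcases hh.eq_or_lt with rfl | hpos
  · simp
  · set I := ∫ s in (0:ℝ)..h, p s with hI
    have h3 : 0 ≤ ∫ s in (0:ℝ)..h, (p s - I / h) ^ 2 :=
      intervalIntegral.integral_nonneg hh (fun s _ => sq_nonneg _)
    have h4 : ∫ s in (0:ℝ)..h, (p s - I / h) ^ 2 =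
        (∫ s in (0:ℝ)..h, p s ^ 2) - 2 * (I / h) * I + (I / h) ^ 2 * h := by
      have e : ∀ s, (p s - I / h) ^ 2 = p s ^ 2 - 2 * (I / h) * p s + (I / h) ^ 2 := fun s => by ring
      simp only [e]
      rw [intervalIntegral.integral_add (h2.sub (h1.const_mul _)) intervalIntegrable_const,
        intervalIntegral.integral_sub h2 (h1.const_mul _), intervalIntegral.integral_const_mul,
        intervalIntegral.integral_const, smul_eq_mul, sub_zero, ← hI]
      ring
    rw [h4] at h3
    have h5 : (∫ s in (0:ℝ)..h, p s ^ 2) - 2 * (I / h) * I + (I / h) ^ 2 * h =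
        (∫ s in (0:ℝ)..h, p s ^ 2) - I ^ 2 / h := by
      field_simp
      ring
    rw [h5, sub_nonneg, div_le_iff₀ hpos] at h3
    linarith

variable {E X : Type} [NormedAddCommGroup E] [NormedSpace ℝ E] [MetricSpace X] [FiniteDimensional ℝ E]
  [MeasurableSpace E] [BorelSpace E] (mu : Measure E) [mu.IsAddHaarMeasure]

omit [MeasurableSpace E] [BorelSpace E] in
theorem lpo_nbhd {f : E → X} {O C : Set E} (hO : IsOpen O) (hf : Lpo f O) (hC : IsCompact C) (hCO : C ⊆ O) :
    ∃ d : ℝ, 0 < d ∧ ∃ L : ℝ, 0 ≤ L ∧ Metric.cthickening d C ⊆ O ∧ IsCompact (Metric.cthickening d C) ∧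
      (∀ y ∈ Metric.cthickening d C, ∀ z ∈ Metric.cthickening d C, dist (f y) (f z) ≤ L * dist y z) ∧
      (∀ x ∈ C, ∀ t : E, sp f t x ≤ L * ‖t‖) := by
  have hprop : ProperSpace E := FiniteDimensional.proper_real E
  obtain ⟨d, hd, hsub⟩ := hC.exists_cthickening_subset_open hO hCO
  have hcc : IsCompact (Metric.cthickening d C) := hC.cthickening
  obtain ⟨L, hL⟩ := hf _ hsub hcc
  have hL' : ∀ y ∈ Metric.cthickening d C, ∀ z ∈ Metric.cthickening d C,
      dist (f y) (f z) ≤ max L 0 * dist y z := fun y hy z hz =>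
    (hL y hy z hz).trans (mul_le_mul_of_nonneg_right (le_max_left _ _) dist_nonneg)
  refine ⟨d, hd, max L 0, le_max_right _ _, hsub, hcc, hL', fun x hx t => ?_⟩
  refine sp_le hd (fun y hy => hL' y ?_ x ?_) t
  · exact Metric.mem_cthickening_of_dist_le y x d C hx (Metric.mem_ball.1 hy).le
  · exact Metric.self_subset_cthickening C hx

theorem sp_sq_int {f : E → X} {O C S : Set E} (hO : IsOpen O) (hf : Lpo f O) (hC : IsCompact C) (hCO : C ⊆ O)
    (hS : MeasurableSet S) (hSC : S ⊆ C) (t : E) :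
    IntegrableOn (fun x => sp f t x ^ 2) S mu ∧ IntegrableOn (fun x => sp f t x) S mu := by
  obtain ⟨d, hd, L, hL0, hsub, hcc, hL, hsp⟩ := lpo_nbhd hO hf hC hCO
  have hfin : mu S ≠ ⊤ := (lt_of_le_of_lt (measure_mono hSC) hC.measure_lt_top).ne
  have hm : Measurable (O.indicator (sp f t)) := sp_meas hO (lpo_cont hO hf) t
  have heq : ∀ x ∈ S, sp f t x = O.indicator (sp f t) x := fun x hx =>
    (indicator_of_mem (hCO (hSC hx)) _).symm
  have hb : ∀ x ∈ S, |sp f t x| ≤ L * ‖t‖ := fun x hx => by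
    rw [abs_of_nonneg (sp_nonneg f t x)]
    exact hsp x (hSC hx) t
  constructor
  · refine Ee_bdd mu hS hfin (hm.pow_const 2) (fun x hx => by rw [heq x hx]) (M := (L * ‖t‖) ^ 2)
      (fun x hx => ?_)
    rw [abs_pow]
    exact pow_le_pow_left₀ (abs_nonneg _) (hb x hx) 2
  · exact Ee_bdd mu hS hfin hm heq hb

theorem dist_sq_int {f g : E → X} {O C S : Set E} (hO : IsOpen O) (hf : Lpo f O) (hg : Lpo g O) (hC : IsCompact C)
    (hCO : C ⊆ O) (hS : MeasurableSet S) (hSC : S ⊆ C) :
    IntegrableOn (fun x => dist (f x) (g x) ^ 2) S mu ∧ IntegrableOn (fun x => dist (f x) (g x)) S mu := by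
  have hcont : ContinuousOn (fun x => dist (f x) (g x)) C := (lpo_cont hO (lpo_dist hf hg)).mono hCO
  exact ⟨((hcont.pow 2).integrableOn_compact hC).mono_set hSC,
    (hcont.integrableOn_compact hC).mono_set hSC⟩

theorem line_le {f : E → X} {O : Set E} (hO : IsOpen O) (hf : Lpo f O) (t : E) :
    ∀ᵐ x ∂mu, ∀ h : ℝ, 0 ≤ h → (∀ s : ℝ, 0 ≤ s → s ≤ h → x + s • t ∈ O) →
      IntervalIntegrable (fun s : ℝ => sp f t (x + s • t)) volume 0 h ∧
      IntervalIntegrable (fun s : ℝ => sp f t (x + s • t) ^ 2) volume 0 h ∧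
      dist (f (x + h • t)) (f x) ≤ ∫ s in (0:ℝ)..h, sp f t (x + s • t) := by
  filter_upwards [ae_line mu (sp_lim1 mu hO hf t) t] with x hx h hh hseg
  have hγ : Continuous (fun s : ℝ => x + s • t) := by fun_prop
  have hKc : IsCompact ((fun s : ℝ => x + s • t) '' Icc 0 h) := isCompact_Icc.image hγ
  have hKO : (fun s : ℝ => x + s • t) '' Icc 0 h ⊆ O := by
    rintro _ ⟨s, hs, rfl⟩
    exact hseg s hs.1 hs.2
  obtain ⟨d, hd, L, hL0, hsub, hcc, hL, hsp⟩ := lpo_nbhd hO hf hKc hKO
  have hmem : ∀ s ∈ Icc (0:ℝ) h, x + s • t ∈ (fun s : ℝ => x + s • t) '' Icc 0 h :=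
    fun s hs => ⟨s, hs, rfl⟩
  have hmem2 : ∀ s ∈ Icc (0:ℝ) h, x + s • t ∈ Metric.cthickening d ((fun s : ℝ => x + s • t) '' Icc 0 h) :=
    fun s hs => Metric.self_subset_cthickening _ (hmem s hs)
  have hm : Measurable (O.indicator (sp f t)) := sp_meas hO (lpo_cont hO hf) t
  have hmγ : Measurable (fun s : ℝ => O.indicator (sp f t) (x + s • t)) := hm.comp hγ.measurable
  have hsubI : Ioc (0:ℝ) h ⊆ Icc 0 h := Ioc_subset_Icc_self
  have heq : ∀ s ∈ Ioc (0:ℝ) h, sp f t (x + s • t) = O.indicator (sp f t) (x + s • t) := fun s hs =>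
    (indicator_of_mem (hseg s hs.1.le hs.2) _).symm
  have hb : ∀ s ∈ Ioc (0:ℝ) h, |sp f t (x + s • t)| ≤ L * ‖t‖ := fun s hs => by
    rw [abs_of_nonneg (sp_nonneg f t _)]
    exact hsp _ (hmem s (hsubI hs)) t
  have hfin : (volume : Measure ℝ) (Ioc 0 h) ≠ ⊤ := by
    rw [Real.volume_Ioc]
    exact ENNReal.ofReal_ne_top
  have hI1 : IntervalIntegrable (fun s : ℝ => sp f t (x + s • t)) volume 0 h := by
    rw [intervalIntegrable_iff_integrableOn_Ioc_of_le hh]
    exact Ee_bdd volume measurableSet_Ioc hfin hmγ heq hb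
  have hI2 : IntervalIntegrable (fun s : ℝ => sp f t (x + s • t) ^ 2) volume 0 h := by
    rw [intervalIntegrable_iff_integrableOn_Ioc_of_le hh]
    refine Ee_bdd volume measurableSet_Ioc hfin (hmγ.pow_const 2) (fun s hs => by rw [heq s hs])
      (M := (L * ‖t‖) ^ 2) (fun s hs => ?_)
    rw [abs_pow]
    exact pow_le_pow_left₀ (abs_nonneg _) (hb s hs) 2
  refine ⟨hI1, hI2, ?_⟩
  -- the distance along the line
  set φ : ℝ → ℝ := fun s => dist (f (x + s • t)) (f x) with hφ
  have hlip : LipschitzOnWith (L * ‖t‖).toNNReal φ (uIcc 0 h) := by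
    rw [uIcc_of_le hh]
    refine LipschitzOnWith.of_dist_le_mul fun s hs s' hs' => ?_
    rw [Real.coe_toNNReal _ (by positivity), Real.dist_eq, hφ]
    refine (abs_dist_sub_le _ _ _).trans ((hL _ (hmem2 s hs) _ (hmem2 s' hs')).trans (le_of_eq ?_))
    rw [dist_eq_norm, Real.dist_eq]
    have e : x + s • t - (x + s' • t) = (s - s') • t := by
      rw [sub_smul]
      abel
    rw [e, norm_smul, Real.norm_eq_abs]
    ring
  have hac : AbsolutelyContinuousOnInterval φ 0 h := hlip.absolutelyContinuousOnInterval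
  have hFT := hac.integral_deriv_eq_sub
  have h0 : φ 0 = 0 := by
    rw [hφ]
    simp
  rw [h0, sub_zero] at hFT
  change φ h ≤ _
  rw [← hFT]
  refine intervalIntegral.integral_mono_ae_restrict hh hac.intervalIntegrable_deriv hI1 ?_
  have hae : ∀ᵐ s ∂(volume.restrict (Icc (0:ℝ) h)), s ≠ h := by
    refine ae_restrict_of_ae ?_
    exact (measure_eq_zero_iff_ae_notMem.1 (Real.volume_singleton (a := h))).mono fun s hs hsh => hs hsh
  filter_upwards [ae_restrict_of_ae hx, ae_restrict_mem measurableSet_Icc, hae] with s hs hsI hsh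
  by_cases hdiff : DifferentiableAt ℝ φ s
  · have hlim := hs (hseg s hsI.1 hsI.2)
    have hder := hasDerivAt_iff_tendsto_slope_zero.1 hdiff.hasDerivAt
    have hle : 𝓝[>] (0:ℝ) ≤ 𝓝[≠] 0 := nhdsWithin_mono _ (fun y hy => ne_of_gt hy)
    refine le_of_tendsto_of_tendsto (hder.mono_left hle) (hlim.mono_left hle) ?_
    filter_upwards [self_mem_nhdsWithin] with y hy
    have hy0 : (0:ℝ) < y := hy
    rw [smul_eq_mul, abs_of_pos hy0, inv_mul_eq_div]
    refine div_le_div_of_nonneg_right ?_ hy0.le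
    have e : x + s • t + y • t = x + (s + y) • t := by
      rw [add_smul]
      abel
    rw [e]
    exact (le_abs_self _).trans (abs_dist_sub_le _ _ _)
  · rw [deriv_zero_of_not_differentiableAt hdiff]
    exact sp_nonneg _ _ _

theorem sp_int {f : E → X} {O S C' : Set E} (hO : IsOpen O) (hf : Lpo f O) (hC' : IsCompact C') (hC'O : C' ⊆ O)
    (hS : MeasurableSet S) {h : ℝ} (hh : 0 ≤ h) (t : E)
    (hsub : ∀ x ∈ S, ∀ s : ℝ, 0 ≤ s → s ≤ h → x + s • t ∈ C') :
    ∫ x in S, dist (f (x + h • t)) (f x) ^ 2 ∂mu ≤ h ^ 2 * ∫ x in C', sp f t x ^ 2 ∂mu := by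
  obtain ⟨d, hd, L, hL0, -, -, -, hsp⟩ := lpo_nbhd hO hf hC' hC'O
  have hSC : S ⊆ C' := fun x hx => by
    have := hsub x hx 0 le_rfl hh
    rwa [zero_smul, add_zero] at this
  have hm : Measurable (O.indicator (sp f t)) := sp_meas hO (lpo_cont hO hf) t
  have hCm : MeasurableSet C' := hC'.isClosed.measurableSet
  set g : E → ℝ := C'.indicator (fun x => (O.indicator (sp f t) x) ^ 2) with hg
  have hgm : Measurable g := (hm.pow_const 2).indicator hCm
  have hg0 : ∀ x, 0 ≤ g x := fun x => by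
    rw [hg]
    exact indicator_nonneg (fun _ _ => sq_nonneg _) x
  have hgC : ∀ x ∈ C', g x = sp f t x ^ 2 := fun x hx => by
    rw [hg, indicator_of_mem hx, indicator_of_mem (hC'O hx)]
  have hgb : ∀ x, g x ≤ (L * ‖t‖) ^ 2 := fun x => by
    by_cases hx : x ∈ C'
    · rw [hgC x hx]
      exact pow_le_pow_left₀ (sp_nonneg _ _ _) (hsp x hx t) 2
    · rw [hg, indicator_of_notMem hx]
      positivity
  have hfinC : mu C' ≠ ⊤ := hC'.measure_lt_top.ne
  have hfinS : mu S ≠ ⊤ := (lt_of_le_of_lt (measure_mono hSC) hC'.measure_lt_top).ne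
  have hgint : Integrable g mu := by
    rw [hg, integrable_indicator_iff hCm]
    refine Ee_bdd mu hCm hfinC (hm.pow_const 2) (fun x _ => rfl) (M := (L * ‖t‖) ^ 2) (fun x hx => ?_)
    rw [abs_of_nonneg (sq_nonneg _), indicator_of_mem (hC'O hx)]
    exact pow_le_pow_left₀ (sp_nonneg _ _ _) (hsp x hx t) 2
  have : IsFiniteMeasure (mu.restrict S) := ⟨by
    rw [Measure.restrict_apply_univ]
    exact lt_top_iff_ne_top.2 hfinS⟩
  have hgm2 : Measurable (fun q : E × ℝ => g (q.1 + q.2 • t)) :=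
    hgm.comp (measurable_fst.add (measurable_snd.smul_const t))
  have hprod : Integrable (fun q : E × ℝ => g (q.1 + q.2 • t))
      ((mu.restrict S).prod (volume.restrict (Ioc 0 h))) := by
    refine Integrable.of_bound hgm2.aestronglyMeasurable ((L * ‖t‖) ^ 2)
      (Eventually.of_forall fun q => ?_)
    rw [Real.norm_eq_abs, abs_of_nonneg (hg0 _)]
    exact hgb _
  -- pointwise bound
  have hpt : ∀ᵐ x ∂(mu.restrict S), dist (f (x + h • t)) (f x) ^ 2 ≤
      h * ∫ s in Ioc 0 h, g (x + s • t) := by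
    filter_upwards [ae_restrict_of_ae (line_le mu hO hf t), ae_restrict_mem hS] with x hx hxS
    obtain ⟨h1, h2, h3⟩ := hx h hh (fun s hs0 hsh => hC'O (hsub x hxS s hs0 hsh))
    have h4 : ∫ s in Ioc 0 h, g (x + s • t) = ∫ s in (0:ℝ)..h, sp f t (x + s • t) ^ 2 := by
      rw [intervalIntegral.integral_of_le hh]
      refine setIntegral_congr_fun measurableSet_Ioc fun s hs => ?_
      exact hgC _ (hsub x hxS s hs.1.le hs.2)
    rw [h4]
    exact (pow_le_pow_left₀ dist_nonneg h3 2).trans (Ee_cs hh h1 h2)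
  have hRint : Integrable (fun x => h * ∫ s in Ioc 0 h, g (x + s • t)) (mu.restrict S) :=
    hprod.integral_prod_left.const_mul h
  have hstep1 : ∫ x in S, dist (f (x + h • t)) (f x) ^ 2 ∂mu ≤
      ∫ x in S, (h * ∫ s in Ioc 0 h, g (x + s • t)) ∂mu :=
    integral_mono_of_nonneg (Eventually.of_forall fun x => sq_nonneg _) hRint hpt
  have hsw : ∫ x in S, (∫ s in Ioc 0 h, g (x + s • t)) ∂mu =
      ∫ s in Ioc 0 h, (∫ x in S, g (x + s • t) ∂mu) :=
    integral_integral_swap (f := fun (x : E) (s : ℝ) => g (x + s • t)) hprod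
  have hs2 : ∀ s : ℝ, ∫ x in S, g (x + s • t) ∂mu ≤ ∫ x, g x ∂mu := by
    intro s
    have hgi : Integrable (fun x => g (x + s • t)) mu := hgint.comp_add_right (s • t)
    calc ∫ x in S, g (x + s • t) ∂mu ≤ ∫ x, g (x + s • t) ∂mu :=
          setIntegral_le_integral hgi (Eventually.of_forall fun x => hg0 _)
      _ = ∫ x, g x ∂mu := integral_add_right_eq_self g (s • t)
  have hgtot : ∫ x, g x ∂mu = ∫ x in C', sp f t x ^ 2 ∂mu := by
    rw [hg, integral_indicator hCm]
    refine setIntegral_congr_fun hCm fun x hx => ?_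
    rw [indicator_of_mem (hC'O hx)]
  have hstep3 : ∫ s in Ioc 0 h, (∫ x in S, g (x + s • t) ∂mu) ≤ h * ∫ x, g x ∂mu := by
    have hle : ∫ s in Ioc 0 h, (∫ x in S, g (x + s • t) ∂mu) ≤ ∫ s in Ioc 0 h, (∫ x, g x ∂mu) := by
      refine integral_mono_of_nonneg (Eventually.of_forall fun s => integral_nonneg fun x => hg0 _)
        ?_ (Eventually.of_forall fun s => hs2 s)
      exact integrable_const _
    refine hle.trans (le_of_eq ?_)
    rw [setIntegral_const, smul_eq_mul]
    congr 1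
    rw [Measure.real, Real.volume_Ioc, sub_zero, ENNReal.toReal_ofReal hh]
  rw [integral_const_mul, hsw] at hstep1
  calc ∫ x in S, dist (f (x + h • t)) (f x) ^ 2 ∂mu ≤
      h * ∫ s in Ioc 0 h, (∫ x in S, g (x + s • t) ∂mu) := hstep1
    _ ≤ h * (h * ∫ x, g x ∂mu) := mul_le_mul_of_nonneg_left hstep3 hh
    _ = h ^ 2 * ∫ x in C', sp f t x ^ 2 ∂mu := by
        rw [hgtot]
        ring

end H98NX
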