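import Pool.Agent.H98.NX.Ed

set_option autoImplicit false

/-!
# Row El: maps that agree on a measurable set (E8)

Claim: f, g in Lpo O, A measurable (A in O), f = g on A; then for a.e. x in A: sp f t x = sp g t x.
Proof. For a.e. x in A: the limits sp_lim1 of f and g at x in direction t exist, and (leb_line with m = indicator of A) (1/h) int_0^h 1_A(x+st) ds -> 1. So for every h > 0 small there is s in (0,h)
with x + s t in A: there is a sequence s_n -> 0, s_n > 0, x + s_n t in A, and dist(f(x+s_n t))(f x)/s_n = dist(g(x+s_n t))(g x)/s_n. Both sides converge, to sp f t x and sp g t x.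
-/

namespace H98NX

open H50NA MeasureTheory Set Filter Topology

variable {E X : Type} [NormedAddCommGroup E] [NormedSpace ℝ E] [MetricSpace X] [FiniteDimensional ℝ E]
  [MeasurableSpace E] [BorelSpace E] (mu : Measure E) [mu.IsAddHaarMeasure]

theorem sp_eq_on {f g : E → X} {O A : Set E} (hO : IsOpen O) (hf : Lpo f O) (hg : Lpo g O) (hA : MeasurableSet A)
    (hAO : A ⊆ O) (h : ∀ x ∈ A, f x = g x) (t : E) : ∀ᵐ x ∂mu, x ∈ A → sp f t x = sp g t x := by
  have hm : Measurable (A.indicator (fun _ : E => (1:ℝ))) := measurable_const.indicator hA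
  have h1 := leb_line mu hm (M := 1) (fun x => by
    by_cases hx : x ∈ A
    · simp [hx]
    · simp [hx]) t
  filter_upwards [sp_lim1 mu hO hf t, sp_lim1 mu hO hg t, h1] with x hx1 hx2 hx3 hxA
  have hsub : 𝓝[>] (0:ℝ) ≤ 𝓝[≠] 0 := nhdsWithin_mono _ (fun y hy => ne_of_gt hy)
  have hf2 := (hx1 (hAO hxA)).mono_left hsub
  have hg2 := (hx2 (hAO hxA)).mono_left hsub
  have h3 := hx3.mono_left hsub
  rw [Set.indicator_of_mem hxA] at h3
  have hfr : ∃ᶠ s in 𝓝[>] (0:ℝ), x + s • t ∈ A := by
    intro hev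
    obtain ⟨u, hu, hu2⟩ := mem_nhdsGT_iff_exists_Ioo_subset.1 hev
    have hz : (fun h : ℝ => (∫ s in (0:ℝ)..h, A.indicator (fun _ : E => (1:ℝ)) (x + s • t)) / h)
        =ᶠ[𝓝[>] (0:ℝ)] fun _ => (0:ℝ) := by
      filter_upwards [Ioo_mem_nhdsGT hu] with h hh
      rw [intervalIntegral.integral_of_le hh.1.le, setIntegral_eq_zero_of_forall_eq_zero, zero_div]
      intro s hs
      exact Set.indicator_of_notMem (hu2 ⟨hs.1, hs.2.trans_lt hh.2⟩) _
    have h4 := tendsto_nhds_unique (h3.congr' hz) tendsto_const_nhds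
    exact one_ne_zero h4
  refine tendsto_nhds_unique_of_frequently_eq hf2 hg2 (hfr.mono fun s hs => ?_)
  show dist (f (x + s • t)) (f x) / |s| = dist (g (x + s • t)) (g x) / |s|
  rw [h _ hs, h _ hxA]

end H98NX
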