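import Pool.Agent.H98.NX.Nb

set_option autoImplicit false

/-!
# Row Nc: interpolation inequalities (N4, N5, N6)

Write A = d(p0,p1), B = d(q0,q1), l0 = d(p0,q0), l1 = d(p1,q1), Dg = d(p0,q1)^2 + d(q0,p1)^2.
quad_diag twice: Dg <= l0^2 + l1^2 + 2AB (as stated) and Dg <= A^2 + B^2 + 2 l0 l1 (apply quad_diag with (p0,p1,q0,q1) replaced by (p0,q0,p1,q1), dist_comm).
* int_one1, int_one2 (N4): quad_two for the geodesics p0 -> q0 and p1 -> q1 with s = t: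
  d^2 <= (1-t)^2 A^2 + t(1-t) Dg + t^2 B^2 - t(1-t)(l0^2 + l1^2). With the first bound: <= (1-t)^2A^2 + t^2B^2 + 2t(1-t)AB = (1-t)A^2 + tB^2 - t(1-t)(A-B)^2;
  with the second: <= (1-t)A^2 + tB^2 - t(1-t)(l0-l1)^2.
* int_two (N5): a_i = gm p_i q_i h_i, b_i = gm q_i p_i h_i, S = A^2+B^2, k = (1-h0)h1 + h0(1-h1) >= 0. quad_two for (p0 -> q0 at h0, p1 -> q1 at h1) and for
  (q0 -> p0 at h0, q1 -> p1 at h1), sum: (1-k)S + k Dg - 2h0(1-h0)l0^2 - 2h1(1-h1)l1^2, and Dg <= S + l0^2 + l1^2 - m where m = max((A-B)^2,(l0-l1)^2). Then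
  k - 2h0(1-h0) = (h1-h0)(1-2h0), k - 2h1(1-h1) = (h0-h1)(1-2h1), so the total is
  S - k m + (h1-h0)((1-2h0) l0^2 - (1-2h1) l1^2) = S - k m - (1-2h0)(h1-h0)(l1^2-l0^2) + 2(h1-h0)^2 l1^2.
* int_tri (N6): int_one1 gives d(gm p0 q0 s, gm p1 q1 s) <= (1-s)A + sB (square of it is (1-s)A^2+sB^2-s(1-s)(A-B)^2), and d(gm p1 q1 s, gm p1 q1 t) = |s-t| l1 (gm_dist).
-/

namespace H98NX

open H50NA Set

variable {X : Type} [MetricSpace X] {gm : X → X → ℝ → X}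

theorem int_one1 (h : Npc X gm) (p0 p1 q0 q1 : X) {t : ℝ} (ht : 0 ≤ t) (ht1 : t ≤ 1) :
    dist (gm p0 q0 t) (gm p1 q1 t) ^ 2 ≤ (1 - t) * dist p0 p1 ^ 2 + t * dist q0 q1 ^ 2
      - t * (1 - t) * (dist p0 p1 - dist q0 q1) ^ 2 := by
  have h1 := quad_two h p0 q0 p1 q1 ht ht1 ht ht1
  have h2 := quad_diag h p0 p1 q0 q1
  rw [dist_comm p1 q0] at h2
  have h3 := mul_le_mul_of_nonneg_left h2 (mul_nonneg ht (sub_nonneg.2 ht1))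
  linarith

theorem int_one2 (h : Npc X gm) (p0 p1 q0 q1 : X) {t : ℝ} (ht : 0 ≤ t) (ht1 : t ≤ 1) :
    dist (gm p0 q0 t) (gm p1 q1 t) ^ 2 ≤ (1 - t) * dist p0 p1 ^ 2 + t * dist q0 q1 ^ 2
      - t * (1 - t) * (dist p0 q0 - dist p1 q1) ^ 2 := by
  have h1 := quad_two h p0 q0 p1 q1 ht ht1 ht ht1
  have h2 := quad_diag h p0 q0 p1 q1
  have h3 := mul_le_mul_of_nonneg_left h2 (mul_nonneg ht (sub_nonneg.2 ht1))
  linarith

theorem int_two (h : Npc X gm) (p0 p1 q0 q1 : X) {h0 h1 : ℝ} (h00 : 0 ≤ h0) (h01 : h0 ≤ 1)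
    (h10 : 0 ≤ h1) (h11 : h1 ≤ 1) :
    dist (gm p0 q0 h0) (gm p1 q1 h1) ^ 2 + dist (gm q0 p0 h0) (gm q1 p1 h1) ^ 2 ≤
      dist p0 p1 ^ 2 + dist q0 q1 ^ 2
      - ((1 - h0) * h1 + h0 * (1 - h1)) *
        max ((dist p0 p1 - dist q0 q1) ^ 2) ((dist p0 q0 - dist p1 q1) ^ 2)
      - (1 - 2 * h0) * (h1 - h0) * (dist p1 q1 ^ 2 - dist p0 q0 ^ 2)
      + 2 * (h1 - h0) ^ 2 * dist p1 q1 ^ 2 := by
  have e1 := quad_two h p0 q0 p1 q1 h00 h01 h10 h11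
  have e2 := quad_two h q0 p0 q1 p1 h00 h01 h10 h11
  rw [dist_comm q0 p0, dist_comm q1 p1] at e2
  have e3 := quad_diag h p0 p1 q0 q1
  rw [dist_comm p1 q0] at e3
  have e4 := quad_diag h p0 q0 p1 q1
  have e5 : max ((dist p0 p1 - dist q0 q1) ^ 2) ((dist p0 q0 - dist p1 q1) ^ 2) ≤
      dist p0 p1 ^ 2 + dist q0 q1 ^ 2 + dist p0 q0 ^ 2 + dist p1 q1 ^ 2 -
        (dist p0 q1 ^ 2 + dist q0 p1 ^ 2) := by
    refine max_le ?_ ?_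
    · linarith
    · linarith
  obtain ⟨m, hm⟩ : ∃ m, m = max ((dist p0 p1 - dist q0 q1) ^ 2) ((dist p0 q0 - dist p1 q1) ^ 2) :=
    ⟨_, rfl⟩
  rw [← hm] at e5 ⊢
  have hk : 0 ≤ (1 - h0) * h1 + h0 * (1 - h1) :=
    add_nonneg (mul_nonneg (sub_nonneg.2 h01) h10) (mul_nonneg h00 (sub_nonneg.2 h11))
  have e6 := mul_le_mul_of_nonneg_left e5 hk
  linarith

theorem int_tri (h : Npc X gm) (p0 p1 q0 q1 : X) {s t : ℝ} (hs : 0 ≤ s) (hs1 : s ≤ 1) (ht : 0 ≤ t)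
    (ht1 : t ≤ 1) :
    dist (gm p0 q0 s) (gm p1 q1 t) ≤ (1 - s) * dist p0 p1 + s * dist q0 q1 + |s - t| * dist p1 q1 := by
  have h1 := int_one1 h p0 p1 q0 q1 hs hs1
  have h2 : dist (gm p0 q0 s) (gm p1 q1 s) ≤ (1 - s) * dist p0 p1 + s * dist q0 q1 := by
    have h3 : 0 ≤ (1 - s) * dist p0 p1 + s * dist q0 q1 :=
      add_nonneg (mul_nonneg (sub_nonneg.2 hs1) dist_nonneg) (mul_nonneg hs dist_nonneg)
    refine abs_le_of_sq_le_sq' ?_ h3 |>.2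
    linarith
  have h4 := gm_dist h p1 q1 hs hs1 ht ht1
  refine (dist_triangle _ (gm p1 q1 s) _).trans ?_
  linarith

end H98NX
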