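import Pool.Agent.H80.NA.Cls
import Pool.Agent.H98.NX.Eh
import Pool.Agent.H98.NX.Ek

set_option autoImplicit false

/-!
# Definitions of section X
-/

namespace H98NX

open H50NA MeasureTheory Set Filter Topology
open H80HM (D U P f1 f2)

noncomputable section

variable {X : Type} [MetricSpace X]

/-- rotated orthonormal frame of the point x + i y: first vector -/
def fe (x y th : ℝ) : ℝ × ℝ := Real.cos th • f1 x y + Real.sin th • f2 x y

/-- rotated orthonormal frame of the point x + i y: second vector -/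
def ff (x y th : ℝ) : ℝ × ℝ := (-Real.sin th) • f1 x y + Real.cos th • f2 x y

/-- energy density at x + i y -/
def e2 (x y : ℝ) (f : ℝ × ℝ → X) (z : ℝ × ℝ) : ℝ := sp f (f1 x y) z ^ 2 + sp f (f2 x y) z ^ 2

/-- near-minimality on O with respect to the energy at x + i y, for all compact subsets of O -/
structure NMr (x y ep : ℝ) (f : ℝ × ℝ → X) (O : Set (ℝ × ℝ)) : Prop where
  opn : IsOpen O
  lip : Lpo f O
  min : ∀ S ⊆ O, IsCompact S → ∀ g : ℝ × ℝ → X, Lpo g O → (∀ z ∈ O \ S, g z = f z) →
    ∫ z in S, e2 x y f z ≤ (∫ z in S, e2 x y g z) + ep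

/-- near-minimality in the plane -/
structure NMc (ep : ℝ) (f : ℂ → X) (O : Set ℂ) : Prop where
  opn : IsOpen O
  lip : Lpo f O
  min : ∀ C ⊆ O, IsCompact C → ∀ g : ℂ → X, Lpo g O → (∀ x ∈ O \ C, g x = f x) → en f C ≤ en g C + ep

end

end H98NX
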