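import Pool.Agent.H98.NX.Xb

set_option autoImplicit false

/-!
# Row Xc: energies of extensions

S compact in Wg r s, 0 < r < 1/4, f in Lpo (Gd r), glued, t a direction.
ext_int: int_S sp(ext f)^2 = int_{S inter U} sp(f)^2 + int_{Rs s '' (S minus D)} sp(f)^2, all integrable.
Proof. S = (S inter U) + (S minus D) up to the null set D minus U (vol_DU).
On S inter U: U is open and ext f = f on U (contained in D), so sp (ext f) t z = sp f t z (sp_loc).
On S minus D (z in Ws s minus D, an open set): ext f y = gs s (f (Rs s y)) near z, so (sp_loc, sp_isom, sp_lin with linear part sg s * id) sp (ext f) t z = sp f (sg s • t) (Rs s z), and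
sp f (-t) x = sp f t x for almost every x in the open set U (where all limits exist: sp_lim with O = U, f in Lpo? use O = U minus Zr r, contained in Gd r and open; sp_smul with c = -1).
Rs s maps S minus D into U minus Zr (ws_nD, and rt s z = Rs s z not in Zr) injectively and preserves the volume (rs_mp, Ri is its inverse): MeasurePreserving.setIntegral_image_emb or change of variables
gives int_{S minus D} sp f t (Rs s z)^2 = int_{Rs s '' (S minus D)} sp f t ^2. (The null set of bad x pulls back to a null set.)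
Integrability: ext f is in Lpo (Wg r s) (ext_lpo), S is compact: sp_sq_int; for f: on the compact sets of rt_cpt: the open set O = U minus Zr; S inter U is contained in the compact set S inter D of Gd r which
is not contained in O. Use: f is Lipschitz with a constant L on the compact set S inter D, hence sp f t z <= L|t| for z in the OPEN subset {z in U : z in interior of S}? Better: integrability of sp f t on
S inter U follows from sp f t = sp (ext f) t there (ext f in Lpo (Wg), S compact in Wg), and on Rs s '' (S minus D) by the change of variables from S minus D.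
ext_int_le: consequently int_S sp(ext f)^2 <= int_U sp(f)^2 if sp(f)^2 is integrable on U: for s <> 0 the sets S inter U and Rs s '' (S minus D) are disjoint (ws_dis) subsets of U; for s = 0 the second is
empty (Ws 0 = U is contained in D).
e2_int: the sum over t = f1 x y, f2 x y.
-/

namespace H98NX

open H50NA MeasureTheory Set Filter Topology
open H80HM (D U P f1 f2)

noncomputable section

variable {X : Type} [MetricSpace X] {A B C : X ≃ᵢ X}

theorem Xc_emb (s : Fin 7) : MeasurableEmbedding (Rs s) :=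
  (Isometry.of_dist_eq (rs_dist s)).isClosedEmbedding.measurableEmbedding

theorem Xc_lin (s : Fin 7) (f : ℝ × ℝ → X) (t z : ℝ × ℝ) :
    sp (fun y => f (Rs s y)) t z = sp f (sg s • t) (Rs s z) := by
  have h := sp_lin f (Rs s) (sg s • (LinearMap.id : (ℝ × ℝ) →ₗ[ℝ] (ℝ × ℝ)))
    (fun x y => by rw [rs_lin, LinearMap.smul_apply, LinearMap.id_apply]) t z
  rw [LinearMap.smul_apply, LinearMap.id_apply] at h
  exact h

theorem Xc_U {f : ℝ × ℝ → X} {s : Fin 7} {z : ℝ × ℝ} (hz : z ∈ U) (t : ℝ × ℝ) :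
    sp (ext A B C s f) t z = sp f t z := by
  apply sp_loc
  filter_upwards [u_open.mem_nhds hz] with y hy
  exact ext_D (u_sub_D hy).1

theorem Xc_nD {f : ℝ × ℝ → X} {s : Fin 7} {z : ℝ × ℝ} (hz : z ∉ D) (t : ℝ × ℝ) :
    sp (ext A B C s f) t z = sp f (sg s • t) (Rs s z) := by
  rw [← Xc_lin, ← sp_isom (fun y => f (Rs s y)) (gs A B C s) (gs A B C s).dist_eq]
  apply sp_loc
  filter_upwards [d_closed.isOpen_compl.mem_nhds hz] with y hy
  exact ext_nD hy

theorem Xc_ae {r : ℝ} {f : ℝ × ℝ → X} (hf : Lpo f (Gd r)) {s : Fin 7}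
    {S : Set (ℝ × ℝ)} (hSW : S ⊆ Wg r s) (t : ℝ × ℝ) :
    ∀ᵐ z ∂(volume : Measure (ℝ × ℝ)), z ∈ S \ D → sp (ext A B C s f) t z = sp f t (Rs s z) := by
  have hO : IsOpen (U \ Zr r) := u_open.sdiff Metric.isClosed_closedBall
  have hsub : U \ Zr r ⊆ Gd r := by
    rintro x ⟨h1, h2⟩
    refine ⟨(u_sub_D h1).1, ?_⟩
    rintro (h | h)
    · exact (u_sub_D h1).2 h
    · exact h2 h
  have hfO : Lpo f (U \ Zr r) := lpo_mono hsub hf
  have h1 := sp_lim (volume : Measure (ℝ × ℝ)) hO hfO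
  have h2 := (rs_mp s).quasiMeasurePreserving.ae h1
  filter_upwards [h2] with z hz hzS
  obtain ⟨hzW, hzr⟩ := hSW hzS.1
  have hrt : rt s z = Rs s z := by
    unfold rt
    rw [if_neg hzS.2]
  rw [hrt] at hzr
  have hD := hz ⟨ws_nD hzW hzS.2, hzr⟩
  rw [Xc_nD hzS.2, sp_smul hD]
  rcases sg_pm s with h | h
  · rw [h, abs_one, one_mul]
  · rw [h, abs_neg, abs_one, one_mul]

theorem ext_int {r : ℝ} (hr : r < 1/4) {f : ℝ × ℝ → X} (hf : Lpo f (Gd r)) (hg : Glu A B C f) {s : Fin 7}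
    {S : Set (ℝ × ℝ)} (hS : IsCompact S) (hSW : S ⊆ Wg r s) (t : ℝ × ℝ) :
    IntegrableOn (fun z => sp (ext A B C s f) t z ^ 2) S ∧ IntegrableOn (fun z => sp f t z ^ 2) (S ∩ U) ∧
    IntegrableOn (fun z => sp f t z ^ 2) (Rs s '' (S \ D)) ∧
    ∫ z in S, sp (ext A B C s f) t z ^ 2 = (∫ z in S ∩ U, sp f t z ^ 2) + ∫ z in Rs s '' (S \ D), sp f t z ^ 2 := by
  have hE := (sp_sq_int (volume : Measure (ℝ × ℝ)) (wg_open hr s) (ext_lpo (A := A) (B := B) (C := C) hr hf hg s)
    hS hSW hS.measurableSet subset_rfl t).1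
  have hU : MeasurableSet U := u_open.measurableSet
  have hD : MeasurableSet D := d_closed.measurableSet
  have hSU : MeasurableSet (S ∩ U) := hS.measurableSet.inter hU
  have hSD : MeasurableSet (S \ D) := hS.measurableSet.diff hD
  have hae : ∀ᵐ z ∂(volume.restrict (S \ D) : Measure (ℝ × ℝ)),
      sp (ext A B C s f) t z ^ 2 = sp f t (Rs s z) ^ 2 := by
    rw [ae_restrict_iff' hSD]
    filter_upwards [Xc_ae (A := A) (B := B) (C := C) hf hSW t] with z hz hzS
    rw [hz hzS]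
  have hI1 : IntegrableOn (fun z => sp f t z ^ 2) (S ∩ U) :=
    (hE.mono_set inter_subset_left).congr_fun (fun z hz => by
      simp only [Xc_U hz.2]) hSU
  have hI2' : IntegrableOn (fun z => sp f t (Rs s z) ^ 2) (S \ D) :=
    (hE.mono_set sdiff_subset).congr_fun_ae hae
  have hI2 : IntegrableOn (fun z => sp f t z ^ 2) (Rs s '' (S \ D)) :=
    ((rs_mp s).integrableOn_image (Xc_emb s)).2 hI2'
  refine ⟨hE, hI1, hI2, ?_⟩
  have hset : (S \ U : Set (ℝ × ℝ)) =ᵐ[(volume : Measure (ℝ × ℝ))] (S \ D : Set (ℝ × ℝ)) := by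
    rw [ae_eq_set]
    constructor
    · refine measure_mono_null ?_ vol_DU
      rintro x ⟨⟨h1, h2⟩, h3⟩
      refine ⟨?_, h2⟩
      by_contra h4
      exact h3 ⟨h1, h4⟩
    · refine measure_mono_null (t := ∅) ?_ measure_empty
      rintro x ⟨⟨h1, h2⟩, h3⟩
      exact h3 ⟨h1, fun h4 => h2 (u_sub_D h4).1⟩
  rw [← integral_inter_add_sdiff hU hE, setIntegral_congr_set hset,
    (rs_mp s).setIntegral_image_emb (Xc_emb s), integral_congr_ae hae]
  congr 1
  exact setIntegral_congr_fun hSU fun z hz => by simp only [Xc_U hz.2]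

theorem ext_dis {r : ℝ} (hr : r < 1/4) {s : Fin 7} {S : Set (ℝ × ℝ)} (hS : IsCompact S) (hSW : S ⊆ Wg r s) :
    MeasurableSet (S ∩ U) ∧ MeasurableSet (Rs s '' (S \ D)) ∧ Disjoint (S ∩ U) (Rs s '' (S \ D)) ∧
    (S ∩ U) ∪ (Rs s '' (S \ D)) ⊆ U := by
  refine ⟨hS.measurableSet.inter u_open.measurableSet,
    (Xc_emb s).measurableSet_image.2 (hS.measurableSet.diff d_closed.measurableSet), ?_, ?_⟩
  · rw [Set.disjoint_left]
    rintro _ ⟨h1, h2⟩ ⟨y, ⟨hy1, hy2⟩, rfl⟩
    by_cases hs : s = 0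
    · subst hs
      exact hy2 (u_sub_D (ws_zero (hSW hy1).1)).1
    · exact ws_dis (hSW hy1).1 hs (hSW h1).1
  · rintro x (⟨-, h⟩ | ⟨y, ⟨hy1, hy2⟩, rfl⟩)
    · exact h
    · exact ws_nD (hSW hy1).1 hy2

theorem e2_int {r : ℝ} (hr : r < 1/4) {f : ℝ × ℝ → X} (hf : Lpo f (Gd r)) (hg : Glu A B C f) {s : Fin 7}
    {S : Set (ℝ × ℝ)} (hS : IsCompact S) (hSW : S ⊆ Wg r s) (x y : ℝ) :
    IntegrableOn (e2 x y (ext A B C s f)) S ∧ IntegrableOn (e2 x y f) (S ∩ U) ∧
    IntegrableOn (e2 x y f) (Rs s '' (S \ D)) ∧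
    ∫ z in S, e2 x y (ext A B C s f) z = (∫ z in S ∩ U, e2 x y f z) + ∫ z in Rs s '' (S \ D), e2 x y f z := by
  obtain ⟨a1, a2, a3, a4⟩ := ext_int hr hf hg hS hSW (f1 x y)
  obtain ⟨b1, b2, b3, b4⟩ := ext_int hr hf hg hS hSW (f2 x y)
  refine ⟨a1.add b1, a2.add b2, a3.add b3, ?_⟩
  unfold e2
  rw [integral_add a1 b1, integral_add a2 b2, integral_add a3 b3, a4, b4]
  ring

theorem e2_int_le {r : ℝ} (hr : r < 1/4) {f : ℝ × ℝ → X} (hf : Lpo f (Gd r)) (hg : Glu A B C f) {s : Fin 7}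
    {S : Set (ℝ × ℝ)} (hS : IsCompact S) (hSW : S ⊆ Wg r s) {x y : ℝ} (hI : IntegrableOn (e2 x y f) U) :
    ∫ z in S, e2 x y (ext A B C s f) z ≤ ∫ z in U, e2 x y f z := by
  obtain ⟨-, a2, a3, a4⟩ := e2_int hr hf hg hS hSW x y
  obtain ⟨-, d2, d3, d4⟩ := ext_dis hr hS hSW
  rw [a4, ← setIntegral_union d3 d2 a2 a3]
  exact setIntegral_mono_set hI (ae_of_all _ fun z => add_nonneg (sq_nonneg _) (sq_nonneg _))
    (LE.le.eventuallyLE d4)

end

end H98NX
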