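import Pool.Agent.H98.NX.Xd

set_option autoImplicit false

/-!
# Row Xh: linear coordinates

y > 0. Lt x y z = z.re • (sqrt y, 0) + z.im • (-x/sqrt y, 1/sqrt y) has determinant 1; the inverse is Li x y (a,b) = (a + x b)/sqrt y + i sqrt y b.
* lt_mp: Lt preserves the volume: composition of the volume preserving identification of C with R x R (Complex.volume_preserving_equiv_real_prod) and a linear map of determinant 1
  (MeasureTheory.Measure.addHaar_preimage_linearMap, or LinearMap / Matrix version for R x R; or two shears and a diagonal scaling by Fubini).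
* lt_en: sp (f o Lt) 1 z = sp f (f1 x y) (Lt z), sp (f o Lt) I z = sp f (f2 x y) (Lt z) (sp_lin with the linear map Lt; Lt 1 = f1, Lt I = f2), so en (f o Lt) C = int_{z in C} e2 (Lt z) = int_{Lt '' C} e2
  (change of variables: lt_mp and injectivity; MeasurePreserving.setIntegral_image_emb, Lt is a homeomorphism, hence a measurable embedding). Any set C measurable (compact in the use).
* lt_nmc: competitor g for f o Lt on Lt^-1 O, compact C: g o Li is Lpo on O (lpo_comp), equals f off Lt '' C; apply min with S = Lt '' C and transform back: en (f o Lt) C = int_{Lt''C} e2 f,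
  en g C = int_{Lt '' C} e2 (g o Li) (lt_en for g o Li, g o Li o Lt = g).
* lt_lm: NMr for all ep > 0 gives LM.
-/

namespace H98NX

open H50NA MeasureTheory Set Filter Topology
open H80HM (D U P f1 f2)

noncomputable section

variable {X : Type} [MetricSpace X]

/-- inverse of Lt -/
def Li (x y : ℝ) (w : ℝ × ℝ) : ℂ := ⟨(w.1 + x * w.2) / Real.sqrt y, Real.sqrt y * w.2⟩

private theorem Xh_f (x y : ℝ) (z : ℂ) : Lt x y z = (z.re * Real.sqrt y + z.im * (-x / Real.sqrt y), z.im * (1 / Real.sqrt y)) := by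
  unfold Lt f1 f2
  apply Prod.ext
  · simp
  · simp

theorem lt_li {x y : ℝ} (hy : 0 < y) (w : ℝ × ℝ) : Lt x y (Li x y w) = w := by
  have h := (Real.sqrt_pos.2 hy).ne'
  rw [Xh_f]
  unfold Li
  apply Prod.ext
  · change (w.1 + x * w.2) / Real.sqrt y * Real.sqrt y + Real.sqrt y * w.2 * (-x / Real.sqrt y) = w.1
    field_simp
    ring
  · change Real.sqrt y * w.2 * (1 / Real.sqrt y) = w.2
    field_simp

theorem li_lt {x y : ℝ} (hy : 0 < y) (z : ℂ) : Li x y (Lt x y z) = z := by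
  have h := (Real.sqrt_pos.2 hy).ne'
  rw [Xh_f]
  unfold Li
  apply Complex.ext
  · change (z.re * Real.sqrt y + z.im * (-x / Real.sqrt y) + x * (z.im * (1 / Real.sqrt y))) / Real.sqrt y = z.re
    field_simp
    ring
  · change Real.sqrt y * (z.im * (1 / Real.sqrt y)) = z.im
    field_simp

/-- Lt as a continuous linear map -/
private def Xh_L (x y : ℝ) : ℂ →L[ℝ] ℝ × ℝ := Complex.reCLM.smulRight (f1 x y) + Complex.imCLM.smulRight (f2 x y)

private theorem Xh_L_apply (x y : ℝ) (z : ℂ) : Lt x y z = Xh_L x y z := rfl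

/-- Li as a linear map -/
private def Xh_M (x y : ℝ) : ℝ × ℝ →ₗ[ℝ] ℂ where
  toFun := Li x y
  map_add' a b := by
    unfold Li
    apply Complex.ext
    · change (a.1 + b.1 + x * (a.2 + b.2)) / Real.sqrt y = (a.1 + x * a.2) / Real.sqrt y + (b.1 + x * b.2) / Real.sqrt y
      ring
    · change Real.sqrt y * (a.2 + b.2) = Real.sqrt y * a.2 + Real.sqrt y * b.2
      ring
  map_smul' c a := by
    unfold Li
    apply Complex.ext
    · simp
      ring
    · simp
      ring

private theorem Xh_M_apply (x y : ℝ) (z : ℝ × ℝ) : Li x y z = LinearMap.toContinuousLinearMap (Xh_M x y) z := rfl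

theorem lt_add (x y : ℝ) (z w : ℂ) : Lt x y (z + w) = Lt x y z + Lt x y w := by
  rw [Xh_L_apply, Xh_L_apply, Xh_L_apply, map_add]

private theorem Xh_lip {E F : Type} [NormedAddCommGroup E] [NormedSpace ℝ E] [NormedAddCommGroup F] [NormedSpace ℝ F]
    (L : E →L[ℝ] F) : ∃ K : ℝ, 0 < K ∧ ∀ z w, dist (L z) (L w) ≤ K * dist z w := by
  refine ⟨‖L‖ + 1, by positivity, fun z w => ?_⟩
  rw [dist_eq_norm, dist_eq_norm, ← map_sub]
  refine (L.le_opNorm (z - w)).trans ?_
  nlinarith [norm_nonneg (z - w)]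

theorem lt_lip (x y : ℝ) : ∃ K : ℝ, 0 < K ∧ ∀ z w, dist (Lt x y z) (Lt x y w) ≤ K * dist z w :=
  Xh_lip (Xh_L x y)

theorem li_lip (x y : ℝ) : ∃ K : ℝ, 0 < K ∧ ∀ z w, dist (Li x y z) (Li x y w) ≤ K * dist z w :=
  Xh_lip (LinearMap.toContinuousLinearMap (Xh_M x y))

private theorem lt_cont (x y : ℝ) : Continuous (Lt x y) := (Xh_L x y).continuous

private theorem li_cont (x y : ℝ) : Continuous (Li x y) := (LinearMap.toContinuousLinearMap (Xh_M x y)).continuous

/-- Lt as a homeomorphism -/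
private def Xh_H {x y : ℝ} (hy : 0 < y) : ℂ ≃ₜ ℝ × ℝ where
  toFun := Lt x y
  invFun := Li x y
  left_inv := li_lt hy
  right_inv := lt_li hy
  continuous_toFun := lt_cont x y
  continuous_invFun := li_cont x y

private theorem lt_me {x y : ℝ} (hy : 0 < y) : MeasurableEmbedding (Lt x y) :=
  (Xh_H (x := x) hy).measurableEmbedding

private theorem lpo_cp {E F : Type} [NormedAddCommGroup E] [NormedSpace ℝ E] [NormedAddCommGroup F] [NormedSpace ℝ F]
    {f : F → X} {O : Set F} (hf : Lpo f O) {T : E → F} (hT : Continuous T) {K : ℝ}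
    (hK : ∀ z w, dist (T z) (T w) ≤ K * dist z w) {O' : Set E} (hO : ∀ z ∈ O', T z ∈ O) :
    Lpo (fun z => f (T z)) O' := by
  intro C hC hc
  obtain ⟨L, hL⟩ := hf (T '' C) (by rintro _ ⟨z, hz, rfl⟩; exact hO z (hC hz)) (hc.image hT)
  refine ⟨|L| * K, fun a ha b hb => ?_⟩
  refine (hL _ (mem_image_of_mem T ha) _ (mem_image_of_mem T hb)).trans ?_
  have h1 : L * dist (T a) (T b) ≤ |L| * dist (T a) (T b) :=
    mul_le_mul_of_nonneg_right (le_abs_self L) dist_nonneg
  refine h1.trans ?_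
  rw [mul_assoc]
  exact mul_le_mul_of_nonneg_left (hK a b) (abs_nonneg L)

theorem lt_mp {x y : ℝ} (hy : 0 < y) : MeasurePreserving (Lt x y) (volume : Measure ℂ) (volume : Measure (ℝ × ℝ)) := by
  have h := (Real.sqrt_pos.2 hy).ne'
  have h1 := Complex.volume_preserving_equiv_real_prod
  obtain ⟨T, hT⟩ : ∃ T : ℝ × ℝ →ₗ[ℝ] ℝ × ℝ, T = Matrix.toLin (Module.Basis.finTwoProd ℝ) (Module.Basis.finTwoProd ℝ)
    !![Real.sqrt y, -x / Real.sqrt y; 0, 1 / Real.sqrt y] := ⟨_, rfl⟩
  have hdet : LinearMap.det T = 1 := by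
    rw [hT, LinearMap.det_toLin, Matrix.det_fin_two_of]
    field_simp
    ring
  have h2 : MeasurePreserving T (volume : Measure (ℝ × ℝ)) (volume : Measure (ℝ × ℝ)) := by
    refine ⟨T.continuous_of_finiteDimensional.measurable, ?_⟩
    rw [Measure.map_linearMap_addHaar_eq_smul_addHaar _ (by rw [hdet]; exact one_ne_zero), hdet]
    simp
  have h3 := h2.comp h1
  have h4 : (Lt x y) = T ∘ Complex.measurableEquivRealProd := by
    funext z
    rw [Xh_f, hT, Function.comp_apply, Matrix.toLin_finTwoProd_apply]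
    simp only [Complex.measurableEquivRealProd_apply]
    apply Prod.ext
    · ring
    · ring
  rw [h4]
  exact h3

theorem lt_sp (x y : ℝ) (f : ℝ × ℝ → X) (z : ℂ) :
    sp (fun z => f (Lt x y z)) 1 z = sp f (f1 x y) (Lt x y z) ∧
    sp (fun z => f (Lt x y z)) Complex.I z = sp f (f2 x y) (Lt x y z) := by
  have e1 : ∀ c : ℝ, Lt x y (z + c • (1 : ℂ)) = Lt x y z + c • f1 x y := by
    intro c
    rw [lt_add]
    congr 1
    rw [Xh_L_apply, map_smul, ← Xh_L_apply]
    congr 1
    unfold Lt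
    simp
  have e2 : ∀ c : ℝ, Lt x y (z + c • Complex.I) = Lt x y z + c • f2 x y := by
    intro c
    rw [lt_add]
    congr 1
    rw [Xh_L_apply, map_smul, ← Xh_L_apply]
    congr 1
    unfold Lt
    simp
  unfold sp
  constructor
  · simp only [e1]
  · simp only [e2]

theorem lt_en {x y : ℝ} (hy : 0 < y) (f : ℝ × ℝ → X) {C : Set ℂ} (hC : MeasurableSet C) :
    en (fun z => f (Lt x y z)) C = ∫ w in Lt x y '' C, e2 x y f w := by
  rw [(lt_mp (x := x) hy).setIntegral_image_emb (lt_me hy)]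
  unfold en e2
  congr 1
  funext z
  rw [(lt_sp x y f z).1, (lt_sp x y f z).2]

theorem lt_nmc {x y ep : ℝ} (hy : 0 < y) {f : ℝ × ℝ → X} {O : Set (ℝ × ℝ)} (h : NMr x y ep f O) :
    NMc ep (fun z => f (Lt x y z)) (Lt x y ⁻¹' O) := by
  obtain ⟨K, hK, hK'⟩ := lt_lip x y
  obtain ⟨M, hM, hM'⟩ := li_lip x y
  refine ⟨h.opn.preimage (lt_cont x y), lpo_cp h.lip (lt_cont x y) hK' (fun z hz => hz), ?_⟩
  intro C hC hc g hg hgf
  have h1 := h.min (Lt x y '' C) (by rintro _ ⟨z, hz, rfl⟩; exact hC hz) (hc.image (lt_cont x y))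
    (fun w => g (Li x y w)) (lpo_cp hg (li_cont x y) hM' (fun w hw => by
      change Lt x y (Li x y w) ∈ O
      rwa [lt_li hy])) (by
    rintro w ⟨hw, hw'⟩
    have h2 := hgf (Li x y w) ⟨by
      change Lt x y (Li x y w) ∈ O
      rwa [lt_li hy], fun h3 => hw' ⟨Li x y w, h3, lt_li hy w⟩⟩
    rw [h2, lt_li hy])
  rw [lt_en hy f hc.measurableSet]
  have h4 := lt_en (x := x) hy (fun w => g (Li x y w)) hc.measurableSet
  simp only [li_lt hy] at h4
  rw [h4]
  exact h1

theorem lt_lm {x y : ℝ} (hy : 0 < y) {f : ℝ × ℝ → X} {O : Set (ℝ × ℝ)} (h : ∀ ep : ℝ, 0 < ep → NMr x y ep f O) :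
    LM (fun z => f (Lt x y z)) (Lt x y ⁻¹' O) := by
  have h1 := lt_nmc hy (h 1 one_pos)
  refine ⟨h1.opn, h1.lip, ?_⟩
  intro C hC hc g hg hgf
  apply le_of_forall_pos_le_add
  intro ep hep
  exact (lt_nmc hy (h ep hep)).min C hC hc g hg hgf

end

end H98NX
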