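import Pool.Agent.H98.NX.Xd

set_option autoImplicit false

/-!
# Row Xa: geometry of the seams, first part

All statements are about the explicit data Ws, Rs, sg, gs (Pool/Agent/H80/NA/Cls.lean), s : Fin 7. Prove them by cases on s (fin_cases s, or match) and coordinates
(D = [0,1] x [0,1/2], U = (0,1) x (0,1/2), P = {0,1/2,1} x {0,1/2}; simp [Ws, Rs, sg, gs, Matrix.cons_val..]; helpful: Fin.forall_fin_succ or seven separate lemmas).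
Ri s x := sg s * (x - Rs s 0) is the inverse of Rs s (Rs s y = Rs s 0 + sg s y, sg^2 = 1).
Ws 0 = U, Ws 1 = (1/2,3/2) x (0,1/2), Ws 2 = (-1/2,1/2) x (0,1/2), Ws 3 = (0,1/2) x (-1/2,1/2), Ws 4 = (1/2,1) x (-1/2,1/2), Ws 5 = (0,1/2) x (0,1), Ws 6 = (1/2,1) x (0,1);
Rs 0 = id, Rs 1 (u,v) = (u-1,v), Rs 2 (u,v) = (u+1,v), Rs 3 = Rs 4 = (1-u,-v), Rs 5 = Rs 6 = (1-u,1-v). Everything is a comparison of coordinates (sup metric on R x R).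
-/

namespace H98NX

open H50NA MeasureTheory Set Filter Topology
open H80HM (D U P f1 f2)

noncomputable section

/-- inverse of Rs s -/
def Ri (s : Fin 7) (x : ℝ × ℝ) : ℝ × ℝ := sg s • (x - Rs s 0)

set_option linter.unusedSimpArgs false

theorem Xa_cases {p : Fin 7 → Prop} (h0 : p 0) (h1 : p 1) (h2 : p 2) (h3 : p 3) (h4 : p 4) (h5 : p 5)
    (h6 : p 6) (s : Fin 7) : p s := by
  fin_cases s <;> assumption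

theorem Xa_W0 : Ws 0 = Ioo (0:ℝ) 1 ×ˢ Ioo (0:ℝ) (1/2) := rfl
theorem Xa_W1 : Ws 1 = Ioo (1/2:ℝ) (3/2) ×ˢ Ioo (0:ℝ) (1/2) := rfl
theorem Xa_W2 : Ws 2 = Ioo (-1/2:ℝ) (1/2) ×ˢ Ioo (0:ℝ) (1/2) := rfl
theorem Xa_W3 : Ws 3 = Ioo (0:ℝ) (1/2) ×ˢ Ioo (-1/2:ℝ) (1/2) := rfl
theorem Xa_W4 : Ws 4 = Ioo (1/2:ℝ) 1 ×ˢ Ioo (-1/2:ℝ) (1/2) := rfl
theorem Xa_W5 : Ws 5 = Ioo (0:ℝ) (1/2) ×ˢ Ioo (0:ℝ) 1 := rfl
theorem Xa_W6 : Ws 6 = Ioo (1/2:ℝ) 1 ×ˢ Ioo (0:ℝ) 1 := rfl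

theorem Xa_R0 (x : ℝ × ℝ) : Rs 0 x = x := rfl
theorem Xa_R1 (x : ℝ × ℝ) : Rs 1 x = (x.1 - 1, x.2) := rfl
theorem Xa_R2 (x : ℝ × ℝ) : Rs 2 x = (x.1 + 1, x.2) := rfl
theorem Xa_R3 (x : ℝ × ℝ) : Rs 3 x = (1 - x.1, -x.2) := rfl
theorem Xa_R4 (x : ℝ × ℝ) : Rs 4 x = (1 - x.1, -x.2) := rfl
theorem Xa_R5 (x : ℝ × ℝ) : Rs 5 x = (1 - x.1, 1 - x.2) := rfl
theorem Xa_R6 (x : ℝ × ℝ) : Rs 6 x = (1 - x.1, 1 - x.2) := rfl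

theorem Xa_D (x : ℝ × ℝ) : x ∈ D ↔ (0 ≤ x.1 ∧ x.1 ≤ 1) ∧ (0 ≤ x.2 ∧ x.2 ≤ 1/2) := Iff.rfl
theorem Xa_U (x : ℝ × ℝ) : x ∈ U ↔ (0 < x.1 ∧ x.1 < 1) ∧ (0 < x.2 ∧ x.2 < 1/2) := Iff.rfl
theorem Xa_P (x : ℝ × ℝ) : x ∈ P ↔ (x.1 = 0 ∨ x.1 = 1/2 ∨ x.1 = 1) ∧ (x.2 = 0 ∨ x.2 = 1/2) := Iff.rfl

theorem ws_open (s : Fin 7) : IsOpen (Ws s) := by
  refine Xa_cases (p := fun s => IsOpen (Ws s)) ?_ ?_ ?_ ?_ ?_ ?_ ?_ s <;>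
    exact isOpen_Ioo.prod isOpen_Ioo

theorem ws_conv (s : Fin 7) : Convex ℝ (Ws s) := by
  refine Xa_cases (p := fun s => Convex ℝ (Ws s)) ?_ ?_ ?_ ?_ ?_ ?_ ?_ s <;>
    exact (convex_Ioo _ _).prod (convex_Ioo _ _)

theorem rs_lin (s : Fin 7) (x y : ℝ × ℝ) : Rs s (x + y) = Rs s x + sg s • y := by
  refine Xa_cases (p := fun s => Rs s (x + y) = Rs s x + sg s • y) ?_ ?_ ?_ ?_ ?_ ?_ ?_ s
  · change x + y = x + (1 : ℝ) • y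
    rw [one_smul]
  · change (x.1 + y.1 - 1, x.2 + y.2) = (x.1 - 1 + 1 * y.1, x.2 + 1 * y.2)
    exact Prod.ext (by ring) (by ring)
  · change (x.1 + y.1 + 1, x.2 + y.2) = (x.1 + 1 + 1 * y.1, x.2 + 1 * y.2)
    exact Prod.ext (by ring) (by ring)
  · change (1 - (x.1 + y.1), -(x.2 + y.2)) = (1 - x.1 + -1 * y.1, -x.2 + -1 * y.2)
    exact Prod.ext (by ring) (by ring)
  · change (1 - (x.1 + y.1), -(x.2 + y.2)) = (1 - x.1 + -1 * y.1, -x.2 + -1 * y.2)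
    exact Prod.ext (by ring) (by ring)
  · change (1 - (x.1 + y.1), 1 - (x.2 + y.2)) = (1 - x.1 + -1 * y.1, 1 - x.2 + -1 * y.2)
    exact Prod.ext (by ring) (by ring)
  · change (1 - (x.1 + y.1), 1 - (x.2 + y.2)) = (1 - x.1 + -1 * y.1, 1 - x.2 + -1 * y.2)
    exact Prod.ext (by ring) (by ring)

theorem sg_pm (s : Fin 7) : sg s = 1 ∨ sg s = -1 := by
  exact Xa_cases (p := fun s => sg s = 1 ∨ sg s = -1) (Or.inl rfl) (Or.inl rfl) (Or.inl rfl)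
    (Or.inr rfl) (Or.inr rfl) (Or.inr rfl) (Or.inr rfl) s

theorem Xa_sq (s : Fin 7) : sg s * sg s = 1 := by
  rcases sg_pm s with h | h <;> rw [h] <;> norm_num

theorem Xa_aff (s : Fin 7) (x : ℝ × ℝ) : Rs s x = Rs s 0 + sg s • x := by
  have h := rs_lin s 0 x
  rwa [zero_add] at h

theorem rs_ri (s : Fin 7) (x : ℝ × ℝ) : Rs s (Ri s x) = x := by
  rw [Xa_aff, Ri, smul_smul, Xa_sq, one_smul, add_sub_cancel]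

theorem ri_rs (s : Fin 7) (x : ℝ × ℝ) : Ri s (Rs s x) = x := by
  rw [Ri, Xa_aff s x, add_sub_cancel_left, smul_smul, Xa_sq, one_smul]

theorem rs_dist (s : Fin 7) (x y : ℝ × ℝ) : dist (Rs s x) (Rs s y) = dist x y := by
  rw [Xa_aff s x, Xa_aff s y, dist_add_left, dist_eq_norm, dist_eq_norm, ← smul_sub, norm_smul]
  rcases sg_pm s with h | h <;> rw [h] <;> norm_num

theorem u_sub_D : U ⊆ D \ P := by
  intro x hx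
  rw [Xa_U] at hx
  rw [Set.mem_sdiff, Xa_D, Xa_P]
  grind

theorem u_open : IsOpen U := by
  exact isOpen_Ioo.prod isOpen_Ioo

theorem d_closed : IsClosed D := by
  exact isClosed_Icc.prod isClosed_Icc

theorem ws_D {s : Fin 7} {x : ℝ × ℝ} (h : x ∈ Ws s) (hD : x ∈ D) : x ∈ D \ P := by
  revert h hD
  refine Xa_cases (p := fun s => x ∈ Ws s → x ∈ D → x ∈ D \ P) ?_ ?_ ?_ ?_ ?_ ?_ ?_ s
  · rw [Xa_W0]
    simp only [Xa_R0, Set.mem_sdiff, Xa_D, Xa_U, Xa_P, mem_prod, mem_Ioo]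
    grind
  · rw [Xa_W1]
    simp only [Xa_R1, Set.mem_sdiff, Xa_D, Xa_U, Xa_P, mem_prod, mem_Ioo]
    grind
  · rw [Xa_W2]
    simp only [Xa_R2, Set.mem_sdiff, Xa_D, Xa_U, Xa_P, mem_prod, mem_Ioo]
    grind
  · rw [Xa_W3]
    simp only [Xa_R3, Set.mem_sdiff, Xa_D, Xa_U, Xa_P, mem_prod, mem_Ioo]
    grind
  · rw [Xa_W4]
    simp only [Xa_R4, Set.mem_sdiff, Xa_D, Xa_U, Xa_P, mem_prod, mem_Ioo]
    grind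
  · rw [Xa_W5]
    simp only [Xa_R5, Set.mem_sdiff, Xa_D, Xa_U, Xa_P, mem_prod, mem_Ioo]
    grind
  · rw [Xa_W6]
    simp only [Xa_R6, Set.mem_sdiff, Xa_D, Xa_U, Xa_P, mem_prod, mem_Ioo]
    grind

theorem ws_nD {s : Fin 7} {x : ℝ × ℝ} (h : x ∈ Ws s) (hD : x ∉ D) : Rs s x ∈ U := by
  revert h hD
  refine Xa_cases (p := fun s => x ∈ Ws s → x ∉ D → Rs s x ∈ U) ?_ ?_ ?_ ?_ ?_ ?_ ?_ s
  · rw [Xa_W0]
    simp only [Xa_R0, Set.mem_sdiff, Xa_D, Xa_U, Xa_P, mem_prod, mem_Ioo]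
    grind
  · rw [Xa_W1]
    simp only [Xa_R1, Set.mem_sdiff, Xa_D, Xa_U, Xa_P, mem_prod, mem_Ioo]
    grind
  · rw [Xa_W2]
    simp only [Xa_R2, Set.mem_sdiff, Xa_D, Xa_U, Xa_P, mem_prod, mem_Ioo]
    grind
  · rw [Xa_W3]
    simp only [Xa_R3, Set.mem_sdiff, Xa_D, Xa_U, Xa_P, mem_prod, mem_Ioo]
    grind
  · rw [Xa_W4]
    simp only [Xa_R4, Set.mem_sdiff, Xa_D, Xa_U, Xa_P, mem_prod, mem_Ioo]
    grind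
  · rw [Xa_W5]
    simp only [Xa_R5, Set.mem_sdiff, Xa_D, Xa_U, Xa_P, mem_prod, mem_Ioo]
    grind
  · rw [Xa_W6]
    simp only [Xa_R6, Set.mem_sdiff, Xa_D, Xa_U, Xa_P, mem_prod, mem_Ioo]
    grind

theorem ws_zero {x : ℝ × ℝ} (h : x ∈ Ws 0) : x ∈ U := by
  exact h

theorem ws_seam {s : Fin 7} {x : ℝ × ℝ} (h : x ∈ Ws s) (hD : x ∈ D) (hU : x ∉ U) :
    Rs s x ∈ D \ P ∧ Rs s x ∉ U := by
  revert h hD hU
  refine Xa_cases (p := fun s => x ∈ Ws s → x ∈ D → x ∉ U → Rs s x ∈ D \ P ∧ Rs s x ∉ U) ?_ ?_ ?_ ?_ ?_ ?_ ?_ s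
  · rw [Xa_W0]
    simp only [Xa_R0, Set.mem_sdiff, Xa_D, Xa_U, Xa_P, mem_prod, mem_Ioo]
    grind
  · rw [Xa_W1]
    simp only [Xa_R1, Set.mem_sdiff, Xa_D, Xa_U, Xa_P, mem_prod, mem_Ioo]
    grind
  · rw [Xa_W2]
    simp only [Xa_R2, Set.mem_sdiff, Xa_D, Xa_U, Xa_P, mem_prod, mem_Ioo]
    grind
  · rw [Xa_W3]
    simp only [Xa_R3, Set.mem_sdiff, Xa_D, Xa_U, Xa_P, mem_prod, mem_Ioo]
    grind
  · rw [Xa_W4]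
    simp only [Xa_R4, Set.mem_sdiff, Xa_D, Xa_U, Xa_P, mem_prod, mem_Ioo]
    grind
  · rw [Xa_W5]
    simp only [Xa_R5, Set.mem_sdiff, Xa_D, Xa_U, Xa_P, mem_prod, mem_Ioo]
    grind
  · rw [Xa_W6]
    simp only [Xa_R6, Set.mem_sdiff, Xa_D, Xa_U, Xa_P, mem_prod, mem_Ioo]
    grind

theorem ws_UR {s : Fin 7} {x : ℝ × ℝ} (h : x ∈ Ws s) (hU : x ∈ U) (hs : s ≠ 0) : Rs s x ∉ D := by
  revert h hU hs
  refine Xa_cases (p := fun s => x ∈ Ws s → x ∈ U → s ≠ 0 → Rs s x ∉ D) ?_ ?_ ?_ ?_ ?_ ?_ ?_ s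
  · rw [Xa_W0]
    simp only [Xa_R0, Set.mem_sdiff, Xa_D, Xa_U, Xa_P, mem_prod, mem_Ioo]
    grind
  · rw [Xa_W1]
    simp only [Xa_R1, Set.mem_sdiff, Xa_D, Xa_U, Xa_P, mem_prod, mem_Ioo]
    grind
  · rw [Xa_W2]
    simp only [Xa_R2, Set.mem_sdiff, Xa_D, Xa_U, Xa_P, mem_prod, mem_Ioo]
    grind
  · rw [Xa_W3]
    simp only [Xa_R3, Set.mem_sdiff, Xa_D, Xa_U, Xa_P, mem_prod, mem_Ioo]
    grind
  · rw [Xa_W4]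
    simp only [Xa_R4, Set.mem_sdiff, Xa_D, Xa_U, Xa_P, mem_prod, mem_Ioo]
    grind
  · rw [Xa_W5]
    simp only [Xa_R5, Set.mem_sdiff, Xa_D, Xa_U, Xa_P, mem_prod, mem_Ioo]
    grind
  · rw [Xa_W6]
    simp only [Xa_R6, Set.mem_sdiff, Xa_D, Xa_U, Xa_P, mem_prod, mem_Ioo]
    grind

theorem ws_dis {s : Fin 7} {x : ℝ × ℝ} (h : x ∈ Ws s) (hs : s ≠ 0) : Rs s x ∉ Ws s := by
  revert h hs
  refine Xa_cases (p := fun s => x ∈ Ws s → s ≠ 0 → Rs s x ∉ Ws s) ?_ ?_ ?_ ?_ ?_ ?_ ?_ s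
  · rw [Xa_W0]
    simp only [Xa_R0, Set.mem_sdiff, Xa_D, Xa_U, Xa_P, mem_prod, mem_Ioo]
    grind
  · rw [Xa_W1]
    simp only [Xa_R1, Set.mem_sdiff, Xa_D, Xa_U, Xa_P, mem_prod, mem_Ioo]
    grind
  · rw [Xa_W2]
    simp only [Xa_R2, Set.mem_sdiff, Xa_D, Xa_U, Xa_P, mem_prod, mem_Ioo]
    grind
  · rw [Xa_W3]
    simp only [Xa_R3, Set.mem_sdiff, Xa_D, Xa_U, Xa_P, mem_prod, mem_Ioo]
    grind
  · rw [Xa_W4]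
    simp only [Xa_R4, Set.mem_sdiff, Xa_D, Xa_U, Xa_P, mem_prod, mem_Ioo]
    grind
  · rw [Xa_W5]
    simp only [Xa_R5, Set.mem_sdiff, Xa_D, Xa_U, Xa_P, mem_prod, mem_Ioo]
    grind
  · rw [Xa_W6]
    simp only [Xa_R6, Set.mem_sdiff, Xa_D, Xa_U, Xa_P, mem_prod, mem_Ioo]
    grind

end

end H98NX
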