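import Pool.Agent.H98.NX.Ea

set_option autoImplicit false

/-!
# Row Xj: locally Lipschitz representatives

X complete, O open in E, u0 : E -> X, and every z in O has a ball on which dist(u0 y)(u0 y') <= L dist y y' for a.e. y and a.e. y'. Then u0 coincides a.e. on O with some F in Lpo O.
(1) Countably many balls B_i = ball z_i rho_i (rho_i may be decreased so that B_i is contained in O), constants L_i >= 0, cover O (Lindelof: TopologicalSpace.isOpen_iUnion_countable or
 isLindelof). Let G be the set of y in O such that for all i: if y in B_i then for a.e. y' in B_i: dist(u0 y)(u0 y') <= L_i dist y y'. O minus G is a null set (countable union of null sets).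
(2) y1, y2 in G inter B_i => dist(u0 y1)(u0 y2) <= L_i dist y1 y2: for d > 0 the set ball y1 d inter B_i is open and nonempty, of positive measure, so it contains y' with both inequalities:
 dist(u0 y1)(u0 y2) <= L_i (dist y1 y' + dist y' y2) <= L_i (dist y1 y2 + 2d); d -> 0.
(3) G is dense in O (complement null, mu positive on open sets). For z in O the filter 𝓝[G] z is not trivial and u0 maps it to a Cauchy filter (Lipschitz on G inter B_i, z in B_i); F z := its limit (completeness).
 F z = u0 z for z in G (u0 restricted to G is continuous at z). F is L_i-Lipschitz on B_i: pass to the limit. Off O put F := u0. F in Lpo O by lpo_loc.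
(Alternative for (3): LipschitzOnWith extension on each ball and consistency by density.)
-/

namespace H98NX

open H50NA MeasureTheory Set Filter Topology

variable {E X : Type} [NormedAddCommGroup E] [NormedSpace ℝ E] [FiniteDimensional ℝ E]
  [MeasurableSpace E] [BorelSpace E] (mu : Measure E) [mu.IsAddHaarMeasure] [MetricSpace X] [CompleteSpace X]

theorem rep_lpo {O : Set E} (hO : IsOpen O) {u0 : E → X}
    (h : ∀ z ∈ O, ∃ ρ : ℝ, 0 < ρ ∧ ∃ L : ℝ, ∀ᵐ y ∂mu, ∀ᵐ y' ∂mu, y ∈ Metric.ball z ρ → y' ∈ Metric.ball z ρ →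
      dist (u0 y) (u0 y') ≤ L * dist y y') :
    ∃ F : E → X, Lpo F O ∧ ∀ᵐ z ∂mu, z ∈ O → F z = u0 z := by
  have hprop : ProperSpace E := FiniteDimensional.proper ℝ E
  choose! ρ hρ L hL using h
  obtain ⟨t, htO, htc, hcov⟩ := TopologicalSpace.countable_cover_nhdsWithin
    (f := fun z => Metric.ball z (ρ z)) (s := O)
    (fun z hz => mem_nhdsWithin_of_mem_nhds (Metric.ball_mem_nhds z (hρ z hz)))
  let K : E → NNReal := fun z => Real.toNNReal (L z)
  let G : Set E := {y | ∀ z ∈ t, ∀ᵐ y' ∂mu, y ∈ Metric.ball z (ρ z) → y' ∈ Metric.ball z (ρ z) →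
      dist (u0 y) (u0 y') ≤ L z * dist y y'}
  have hG : ∀ᵐ y ∂mu, y ∈ G := (ae_ball_iff htc).2 fun z hz => hL z (htO hz)
  have hGd : Dense G := Measure.dense_of_ae hG
  -- the Lipschitz condition on the good set
  have hlip : ∀ z ∈ t, LipschitzOnWith (K z) u0 (G ∩ Metric.ball z (ρ z)) := by
    intro z hz
    refine LipschitzOnWith.of_dist_le_mul ?_
    rintro y1 ⟨h1, h1'⟩ y2 ⟨h2, h2'⟩
    have hD : Dense {y' | (y1 ∈ Metric.ball z (ρ z) → y' ∈ Metric.ball z (ρ z) →
        dist (u0 y1) (u0 y') ≤ L z * dist y1 y') ∧ (y2 ∈ Metric.ball z (ρ z) →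
        y' ∈ Metric.ball z (ρ z) → dist (u0 y2) (u0 y') ≤ L z * dist y2 y')} :=
      Measure.dense_of_ae ((h1 z hz).and (h2 z hz))
    have hcl : IsClosed {y' | dist (u0 y1) (u0 y2) ≤ K z * (dist y1 y' + dist y' y2)} := by
      refine isClosed_le continuous_const ?_
      fun_prop
    have hmem : y1 ∈ {y' | dist (u0 y1) (u0 y2) ≤ K z * (dist y1 y' + dist y' y2)} := by
      refine hcl.closure_subset_iff.2 ?_ (hD.open_subset_closure_inter Metric.isOpen_ball h1')
      rintro y' ⟨hy', hy1, hy2⟩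
      have a1 := hy1 h1' hy'
      have a2 := hy2 h2' hy'
      have hLK : L z ≤ K z := Real.le_coe_toNNReal (L z)
      calc dist (u0 y1) (u0 y2) ≤ dist (u0 y1) (u0 y') + dist (u0 y') (u0 y2) :=
            dist_triangle _ _ _
        _ ≤ K z * dist y1 y' + K z * dist y' y2 := by
            refine add_le_add (a1.trans (mul_le_mul_of_nonneg_right hLK dist_nonneg)) ?_
            rw [dist_comm (u0 y'), dist_comm y' y2]
            exact a2.trans (mul_le_mul_of_nonneg_right hLK dist_nonneg)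
        _ = K z * (dist y1 y' + dist y' y2) := by ring
    have hmem' : dist (u0 y1) (u0 y2) ≤ K z * (dist y1 y1 + dist y1 y2) := hmem
    rwa [dist_self, zero_add] at hmem'
  have hnb : ∀ x : E, (𝓝[G] x).NeBot := fun x => mem_closure_iff_nhdsWithin_neBot.1 (hGd x)
  have hcz : ∀ x ∈ O, ∃ z ∈ t, x ∈ Metric.ball z (ρ z) := by
    intro x hx
    have := hcov hx
    simpa only [mem_iUnion, exists_prop] using this
  have hinter : ∀ (z x : E), x ∈ Metric.ball z (ρ z) →
      𝓝[G ∩ Metric.ball z (ρ z)] x = 𝓝[G] x := fun z x hx =>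
    nhdsWithin_inter_of_mem' (mem_nhdsWithin_of_mem_nhds (Metric.isOpen_ball.mem_nhds hx))
  have hconv : ∀ x ∈ O, ∃ l : X, Tendsto u0 (𝓝[G] x) (𝓝 l) := by
    intro x hx
    obtain ⟨z, hz, hxz⟩ := hcz x hx
    have := hnb x
    rw [← cauchy_map_iff_exists_tendsto]
    refine Cauchy.map_of_le (s := G ∩ Metric.ball z (ρ z)) (cauchy_nhds.mono nhdsWithin_le_nhds)
      (hlip z hz).uniformContinuousOn ?_
    rw [← hinter z x hxz]
    exact inf_le_right
  have hlim : ∀ x : E, ∃ l : X, (x ∈ O → Tendsto u0 (𝓝[G] x) (𝓝 l)) := by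
    intro x
    by_cases hx : x ∈ O
    · obtain ⟨l, hl⟩ := hconv x hx
      exact ⟨l, fun _ => hl⟩
    · exact ⟨u0 x, fun h => absurd h hx⟩
  choose F hF using hlim
  refine ⟨F, ?_, ?_⟩
  · apply lpo_loc
    intro x hx
    obtain ⟨z, hz, hxz⟩ := hcz x hx
    obtain ⟨r, hr, hrs⟩ := Metric.isOpen_iff.1 Metric.isOpen_ball x hxz
    refine ⟨r, hr, K z, ?_⟩
    rintro a ⟨haO, ha⟩ b ⟨hbO, hb⟩
    have := hnb a
    have := hnb b
    have t1 : Tendsto (fun q : E × E => dist (u0 q.1) (u0 q.2)) (𝓝[G] a ×ˢ 𝓝[G] b)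
        (𝓝 (dist (F a) (F b))) :=
      ((hF a haO).comp tendsto_fst).dist ((hF b hbO).comp tendsto_snd)
    have t2 : Tendsto (fun q : E × E => K z * dist q.1 q.2) (𝓝[G] a ×ˢ 𝓝[G] b)
        (𝓝 (K z * dist a b)) := by
      refine Tendsto.const_mul _ (Tendsto.dist ?_ ?_)
      · exact (tendsto_id.mono_left nhdsWithin_le_nhds).comp tendsto_fst
      · exact (tendsto_id.mono_left nhdsWithin_le_nhds).comp tendsto_snd
    refine le_of_tendsto_of_tendsto t1 t2 ?_
    have ea : ∀ᶠ y in 𝓝[G] a, y ∈ G ∩ Metric.ball z (ρ z) := by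
      rw [← hinter z a (hrs ha)]
      exact self_mem_nhdsWithin
    have eb : ∀ᶠ y in 𝓝[G] b, y ∈ G ∩ Metric.ball z (ρ z) := by
      rw [← hinter z b (hrs hb)]
      exact self_mem_nhdsWithin
    filter_upwards [ea.prod_mk eb] with q hq
    exact (hlip z hz).dist_le_mul q.1 hq.1 q.2 hq.2
  · filter_upwards [hG] with x hxG hxO
    obtain ⟨z, hz, hxz⟩ := hcz x hxO
    have := hnb x
    have hcont : Tendsto u0 (𝓝[G] x) (𝓝 (u0 x)) := by
      rw [← hinter z x hxz]
      exact (hlip z hz).continuousOn x ⟨hxG, hxz⟩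
    exact tendsto_nhds_unique (hF x hxO) hcont

end H98NX
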