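import Pool.Agent.H98.NX.Xd
import Pool.Agent.H33.NM.Ml4

set_option autoImplicit false

/-!
# Xll: helper33's local limit theorem in the form used here
-/

namespace H98NX

open H50NA MeasureTheory Set Filter Topology

variable {X : Type} [MetricSpace X] {gm : X → X → ℝ → X}

theorem loc_lim (hX : Npc X gm) {O : Set ℂ} {fn : ℕ → ℂ → X} {ep : ℕ → ℝ} {u : ℂ → X}
    (hn : ∀ n, NMc (ep n) (fn n) O) (he : Tendsto ep atTop (𝓝 0))
    (hE : ∀ C ⊆ O, IsCompact C → ∃ M : ℝ, ∀ n, en (fn n) C ≤ M)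
    (hu : ∀ᵐ z : ℂ, z ∈ O → Tendsto (fun n => fn n z) atTop (𝓝 (u z))) :
    ∀ z ∈ O, ∃ ρ : ℝ, 0 < ρ ∧ ∃ L : ℝ, ∀ᵐ y : ℂ, ∀ᵐ y' : ℂ, y ∈ Metric.ball z ρ → y' ∈ Metric.ball z ρ →
      dist (u y) (u y') ≤ L * dist y y' := by
  intro z hz
  have hn' : ∀ n, H33NM.NM (fn n) O (ep n) := fun n => ⟨(hn n).opn, (hn n).lip, (hn n).min⟩
  have hO : IsOpen O := (hn 0).opn
  obtain ⟨ρ, hρ, hb⟩ := Metric.nhds_basis_closedBall.mem_iff.1 (hO.mem_nhds hz)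
  obtain ⟨L, _, hL⟩ := H33NM.lim_lip hX hn' he hE hu hρ.le hb
  refine ⟨ρ, hρ, L, ?_⟩
  filter_upwards [hL] with y hy
  by_cases h : y ∈ Metric.ball z ρ
  · filter_upwards [hy (Metric.ball_subset_closedBall h)] with y' hy' _ h'
    exact hy' (Metric.ball_subset_closedBall h')
  · exact Eventually.of_forall fun y' h1 => absurd h1 h

end H98NX
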