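import Pool.Agent.H98.NX.Xf
import Pool.Agent.H98.NX.Xh
import Pool.Agent.H98.NX.Xj
import Pool.Agent.H98.NX.Xll

set_option autoImplicit false

/-!
# Row Xk: limits of near-minimisers in a chart

f_j in Nr (ep j), ep j -> 0, f_j -> u0 a.e. on U. s : Fin 7, O := Lt x y ^-1 (Wg r s), Fn_j z := ext s (f_j) (Lt x y z).
(1) NMc (ep j) Fn_j O: nr_nmr and lt_nmc.
(2) energies: C compact in O: en Fn_j C = int_{Lt '' C} e2 (ext f_j) (lt_en) <= int_U e2 f_j = Ex f_j (e2_int_le; clx_e2, clx_gd, ex_eq) <= E0 + ep j, bounded (ep converges).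
(3) a.e. convergence: for a.e. w in Ws s: ext s (f_j) w -> ext s u0 w: D minus U is a null set (vol_DU); for w in U by hypothesis; for w not in D: f_j (Rs s w) -> u0 (Rs s w) if Rs s w (in U by ws_nD)
 is outside the exceptional null set N, and Rs s ^-1 N is null (rs_mp); gs s is continuous. Pull back by Lt (lt_mp: preimages of null sets are null).
(4) loc_lim for u z := ext s u0 (Lt x y z), then rep_lpo (E = C, O open: preimage of an open set under a continuous map) gives F1 in Lpo O with F1 = u a.e. on O. F := F1 o Li x y: Lpo on Wg r s (lpo_comp with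
 li_lip; Li maps Wg r s into O by lt_li), and F = ext s u0 a.e. on Wg r s: the exceptional set is the image under Lt of a null set, equivalently its preimage under Lt (measure preserving bijection with
 measurable inverse) is null: MeasurePreserving + li_lt; (lt_mp.symm for the measurable equivalence).
-/

namespace H98NX

open H50NA MeasureTheory Set Filter Topology
open H80HM (D U P f1 f2)

variable {X : Type} [MetricSpace X] [CompleteSpace X] {gm : X → X → ℝ → X} {A B C : X ≃ᵢ X}

private theorem Xk_ltc (x y : ℝ) : Continuous (Lt x y) := by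
  obtain ⟨K, -, hK⟩ := lt_lip x y
  exact (LipschitzWith.of_dist_le' hK).continuous

private theorem Xk_lic (x y : ℝ) : Continuous (Li x y) := by
  obtain ⟨K, -, hK⟩ := li_lip x y
  exact (LipschitzWith.of_dist_le' hK).continuous

private theorem Xk_limp {x y : ℝ} (hy : 0 < y) :
    MeasurePreserving (Li x y) (volume : Measure (ℝ × ℝ)) (volume : Measure ℂ) := by
  let e : ℂ ≃ᵐ ℝ × ℝ :=
    { toFun := Lt x y
      invFun := Li x y
      left_inv := li_lt hy
      right_inv := lt_li hy
      measurable_toFun := (Xk_ltc x y).measurable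
      measurable_invFun := (Xk_lic x y).measurable }
  have h : MeasurePreserving e volume volume := lt_mp hy
  exact h.symm e

theorem chart_lim (hX : Npc X gm) {r : ℝ} (hr : r < 1/4) {o : X} {x y : ℝ} (hy : 0 < y) {fj : ℕ → ℝ × ℝ → X}
    {ep : ℕ → ℝ} (hf : ∀ j, Nr A B C r o x y (ep j) (fj j)) (he : Tendsto ep atTop (𝓝 0)) {u0 : ℝ × ℝ → X}
    (hu0 : ∀ᵐ z : ℝ × ℝ, z ∈ U → Tendsto (fun j => fj j z) atTop (𝓝 (u0 z))) (s : Fin 7) :
    ∃ F : ℝ × ℝ → X, Lpo F (Wg r s) ∧ ∀ᵐ z : ℝ × ℝ, z ∈ Wg r s → F z = ext A B C s u0 z := by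
  classical
  have hO : IsOpen (Lt x y ⁻¹' Wg r s) := (wg_open hr s).preimage (Xk_ltc x y)
  have hn : ∀ j, NMc (ep j) (fun z => ext A B C s (fj j) (Lt x y z)) (Lt x y ⁻¹' Wg r s) :=
    fun j => lt_nmc hy (nr_nmr hX hr (hf j) s)
  have hE : ∀ T ⊆ Lt x y ⁻¹' Wg r s, IsCompact T →
      ∃ M : ℝ, ∀ n, en (fun z => ext A B C s (fj n) (Lt x y z)) T ≤ M := by
    intro T hT hc
    obtain ⟨Me, hMe⟩ := he.bddAbove_range
    refine ⟨E0 A B C r o x y + Me, fun n => ?_⟩
    have hcl := (hf n).1.cl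
    have h1 := e2_int_le hr (clx_gd (r := r) hcl) hcl.glu (hc.image (Xk_ltc x y))
      (Set.image_subset_iff.2 hT) (clx_e2 hX hcl x y)
    rw [lt_en hy _ hc.isClosed.measurableSet]
    refine h1.trans ?_
    rw [← ex_eq]
    refine (hf n).2.trans ?_
    have := hMe (Set.mem_range_self n)
    linarith
  have hW : ∀ᵐ w : ℝ × ℝ, w ∈ Ws s →
      Tendsto (fun n => ext A B C s (fj n) w) atTop (𝓝 (ext A B C s u0 w)) := by
    have h1 := (rs_mp s).quasiMeasurePreserving.ae hu0
    have h2 : ∀ᵐ w : ℝ × ℝ, w ∉ D \ U := measure_eq_zero_iff_ae_notMem.1 vol_DU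
    filter_upwards [hu0, h1, h2] with w a b c hw
    by_cases hD : w ∈ D
    · have hU : w ∈ U := by
        by_contra h
        exact c ⟨hD, h⟩
      simp only [ext_D hD]
      exact a hU
    · simp only [ext_nD hD]
      exact ((gs A B C s).continuous.tendsto _).comp (b (ws_nD hw hD))
  have hu : ∀ᵐ z : ℂ, z ∈ Lt x y ⁻¹' Wg r s →
      Tendsto (fun n => ext A B C s (fj n) (Lt x y z)) atTop (𝓝 (ext A B C s u0 (Lt x y z))) := by
    have h1 := (lt_mp (x := x) hy).quasiMeasurePreserving.ae hW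
    filter_upwards [h1] with z hz hzO
    exact hz hzO.1
  have hloc := loc_lim hX hn he hE hu
  obtain ⟨F1, hF1, hF1e⟩ := rep_lpo (volume : Measure ℂ) hO
    (u0 := fun z => ext A B C s u0 (Lt x y z)) hloc
  obtain ⟨K, -, hK⟩ := li_lip x y
  refine ⟨fun w => F1 (Li x y w), lpo_comp hK (fun w hw => ?_) hF1, ?_⟩
  · show Lt x y (Li x y w) ∈ Wg r s
    rw [lt_li hy]
    exact hw
  · have h1 := (Xk_limp (x := x) hy).quasiMeasurePreserving.ae hF1e
    filter_upwards [h1] with w hw hwW
    have h2 := hw (by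
      show Lt x y (Li x y w) ∈ Wg r s
      rw [lt_li hy]
      exact hwW)
    rw [lt_li hy] at h2
    exact h2

end H98NX
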