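import Pool.Agent.H98.NX.Xb

set_option autoImplicit false

/-!
# Row Xl: assembling the limit map from its charts

F_s in Lpo (Wg r s) with F_s = ext s u0 a.e. on Wg r s, s : Fin 7, r < 1/4.
(1) F_s = F_0 on Wg r s inter U: this set is open, contained in Wg r 0 = U minus Zr (z in D: rt s z = z not in Zr), both maps are continuous there (lpo_cont) and a.e. equal to u0 (ext_D). Two continuous maps that are
 a.e. equal on an open set are equal (the set where they differ is open, and null, so empty).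
(2) F_1 z = C (F_2 (Rs 1 z)) for z in Wg r 1; F_3 z = A.symm (F_4 (Rs 3 z)) for z in Wg r 3; F_5 z = B.symm (F_6 (Rs 5 z)) for z in Wg r 5. Rs 1 maps Wg r 1 into Wg r 2 (coordinates; rt 2 (Rs 1 z) = rt 1 z unless
 z = (1,v), where rt 2 (Rs 1 z) = (0,v) is not in Zr because Zr is in U: zr_sub), the same for the pairs 3,4 and 5,6. A.e. equality: for z in U: ext 1 u0 z = u0 z and Rs 1 z is not in D, Rs 2 (Rs 1 z) = z, so
 ext 2 u0 (Rs 1 z) = C.symm (u0 z). For z not in D: ext 1 u0 z = C (u0 (Rs 1 z)), Rs 1 z in U, ext 2 u0 (Rs 1 z) = u0 (Rs 1 z). The seam itself is a null set (vol_DU); the exceptional null set of F_2 pulls back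
 to a null set (rs_mp). Both sides are continuous on the open set Wg r 1, so equal everywhere. Pairs 3,4 (gs 3 = A.symm, gs 4 = A) and 5,6 (gs 5 = B.symm, gs 6 = B) in the same way.
(3) u z := F_0 z if z in U; else F_1 z if z.1 = 1; else F_2 z if z.1 = 0; else if z.2 = 0: F_3 z (z.1 < 1/2) or F_4 z; else F_5 z (z.1 < 1/2) or F_6 z.
(4) gluing: u(1,v) = F_1(1,v) = C F_2(0,v) = C u(0,v). u(u,0) = F_3(u,0) = A.symm F_4(1-u,0) = A.symm u(1-u,0) (0<u<1/2). The same for B. (The seam points (1,v) are in Wg r 1: rt = itself, not in Zr.)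
(5) Lpo u (Gd r) by lpo_loc: a point of Gd r is in U minus Zr (near it u = F_0), or on exactly one open side, then in Wg r s for the corresponding s = 1..6, and u = F_s on D inter Wg r s:
 on U by (1), on D minus U inside Ws s because the only seam points in Ws s are those of index s. F_s is Lipschitz near the point.
(6) u = F_0 = u0 a.e. on U minus Zr = Wg r 0.
-/

namespace H98NX

open H50NA MeasureTheory Set Filter Topology
open H80HM (D U P f1 f2)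

variable {X : Type} [MetricSpace X] {A B C : X ≃ᵢ X}

theorem Xl_w0 {r : ℝ} {s : Fin 7} {z : ℝ × ℝ} (h : z ∈ Wg r s) (hU : z ∈ U) : z ∈ Wg r 0 := by
  have hD : z ∈ D := (u_sub_D hU).1
  obtain ⟨_, h2⟩ := h
  unfold rt at h2
  rw [if_pos hD] at h2
  refine ⟨hU, ?_⟩
  unfold rt
  rw [if_pos hD]
  exact h2

theorem Xl_w0' {r : ℝ} {z : ℝ × ℝ} (hU : z ∈ U) (hZ : z ∉ Zr r) : z ∈ Wg r 0 := by
  have hD : z ∈ D := (u_sub_D hU).1
  refine ⟨hU, ?_⟩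
  unfold rt
  rw [if_pos hD]
  exact hZ

theorem Xl_eq0 {r : ℝ} (hr : r < 1/4) {u0 : ℝ × ℝ → X} {F : Fin 7 → ℝ × ℝ → X}
    (hL : ∀ s, Lpo (F s) (Wg r s))
    (hE : ∀ s, ∀ᵐ z : ℝ × ℝ, z ∈ Wg r s → F s z = ext A B C s u0 z) (s : Fin 7) :
    ∀ z ∈ Wg r s, z ∈ U → F s z = F 0 z := by
  intro z hz hzU
  have hO : IsOpen (Wg r s ∩ U) := (wg_open hr s).inter u_open
  have h1 : ContinuousOn (F s) (Wg r s ∩ U) := (lpo_cont (wg_open hr s) (hL s)).mono inter_subset_left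
  have h2 : ContinuousOn (F 0) (Wg r s ∩ U) :=
    (lpo_cont (wg_open hr 0) (hL 0)).mono fun z hz => Xl_w0 hz.1 hz.2
  refine Measure.eqOn_open_of_ae_eq (μ := (volume : Measure (ℝ × ℝ))) ?_ hO h1 h2 ⟨hz, hzU⟩
  rw [EventuallyEq, ae_restrict_iff' hO.measurableSet]
  filter_upwards [hE s, hE 0] with z h3 h4 hz
  have hD : z ∈ D := (u_sub_D hz.2).1
  rw [h3 hz.1, h4 (Xl_w0 hz.1 hz.2), ext_D hD, ext_D hD]

theorem Xl_pair {r : ℝ} (hr : r < 1/4) {u0 : ℝ × ℝ → X} {F : Fin 7 → ℝ × ℝ → X}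
    (hL : ∀ s, Lpo (F s) (Wg r s))
    (hE : ∀ s, ∀ᵐ z : ℝ × ℝ, z ∈ Wg r s → F s z = ext A B C s u0 z) {s s' : Fin 7} (hs0 : s ≠ 0)
    (hR : ∀ z, Rs s' (Rs s z) = z) (hg : ∀ x, gs A B C s (gs A B C s' x) = x)
    (hW : ∀ z ∈ Ws s, Rs s z ∈ Ws s') : ∀ z ∈ Wg r s, F s z = gs A B C s (F s' (Rs s z)) := by
  have hmaps : ∀ z ∈ Wg r s, Rs s z ∈ Wg r s' := by
    intro z hz
    rw [wg_eq hr] at hz ⊢
    refine ⟨hW z hz.1, ?_⟩
    rintro (h | h)
    · exact hz.2 (Or.inr h)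
    · apply hz.2
      left
      have h' : Rs s' (Rs s z) ∈ Zr r := h
      rwa [hR] at h'
  have hO : IsOpen (Wg r s) := wg_open hr s
  have h1 : ContinuousOn (F s) (Wg r s) := lpo_cont hO (hL s)
  have h2 : ContinuousOn (fun z => gs A B C s (F s' (Rs s z))) (Wg r s) :=
    (gs A B C s).continuous.comp_continuousOn
      ((lpo_cont (wg_open hr s') (hL s')).comp (xa2_cont s).continuousOn hmaps)
  intro z hz
  refine Measure.eqOn_open_of_ae_eq (μ := (volume : Measure (ℝ × ℝ))) ?_ hO h1 h2 hz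
  rw [EventuallyEq, ae_restrict_iff' hO.measurableSet]
  have h3 : ∀ᵐ z : ℝ × ℝ, Rs s z ∈ Wg r s' → F s' (Rs s z) = ext A B C s' u0 (Rs s z) :=
    (rs_mp s).quasiMeasurePreserving.ae (hE s')
  have h4 : ∀ᵐ z : ℝ × ℝ, z ∉ D \ U := measure_eq_zero_iff_ae_notMem.1 vol_DU
  filter_upwards [hE s, h3, h4] with z a1 a2 a3 hz
  rw [a1 hz, a2 (hmaps z hz)]
  by_cases hU : z ∈ U
  · have hD : z ∈ D := (u_sub_D hU).1
    rw [ext_D hD, ext_nD (ws_UR hz.1 hU hs0), hR, hg]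
  · have hD : z ∉ D := fun h => a3 ⟨h, hU⟩
    rw [ext_nD hD, ext_D (u_sub_D (ws_nD hz.1 hD)).1]

open Classical in
/-- the assembled map -/
noncomputable def Xl_u (F : Fin 7 → ℝ × ℝ → X) (z : ℝ × ℝ) : X :=
  if z ∈ U then F 0 z else if z.1 = 1 then F 1 z else if z.1 = 0 then F 2 z else
    if z.2 = 0 then (if z.1 < 1/2 then F 3 z else F 4 z) else
      (if z.1 < 1/2 then F 5 z else F 6 z)

theorem Xl_val {r : ℝ} (hr : r < 1/4) {u0 : ℝ × ℝ → X} {F : Fin 7 → ℝ × ℝ → X}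
    (hL : ∀ s, Lpo (F s) (Wg r s))
    (hE : ∀ s, ∀ᵐ z : ℝ × ℝ, z ∈ Wg r s → F s z = ext A B C s u0 z) (s : Fin 7) :
    ∀ z ∈ Wg r s, z ∈ D → Xl_u F z = F s z := by
  intro z hz hD
  by_cases hU : z ∈ U
  · rw [Xl_eq0 hr hL hE s z hz hU]
    unfold Xl_u
    rw [if_pos hU]
  · obtain ⟨hW, _⟩ := hz
    have hU' := hU
    rw [Xa_U] at hU'
    rw [Xa_D] at hD
    unfold Xl_u
    rw [if_neg hU]
    revert hW
    refine Xa_cases (p := fun s => z ∈ Ws s → (if z.1 = 1 then F 1 z else if z.1 = 0 then F 2 z else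
      if z.2 = 0 then (if z.1 < 1/2 then F 3 z else F 4 z) else
      (if z.1 < 1/2 then F 5 z else F 6 z)) = F s z) ?_ ?_ ?_ ?_ ?_ ?_ ?_ s
    · intro h
      exact absurd h hU
    · rw [Xa_W1]
      rintro ⟨⟨h1, h2⟩, h3, h4⟩
      have h5 : z.1 = 1 := by
        by_contra h6
        exact hU' ⟨⟨by linarith, lt_of_le_of_ne hD.1.2 h6⟩, h3, h4⟩
      rw [if_pos h5]
    · rw [Xa_W2]
      rintro ⟨⟨h1, h2⟩, h3, h4⟩
      have h5 : z.1 = 0 := by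
        by_contra h6
        exact hU' ⟨⟨lt_of_le_of_ne hD.1.1 (Ne.symm h6), by linarith⟩, h3, h4⟩
      rw [if_neg (by rw [h5]; norm_num), if_pos h5]
    · rw [Xa_W3]
      rintro ⟨⟨h1, h2⟩, h3, h4⟩
      have h5 : z.2 = 0 := by
        by_contra h6
        exact hU' ⟨⟨h1, by linarith⟩, lt_of_le_of_ne hD.2.1 (Ne.symm h6), h4⟩
      rw [if_neg (by intro h; linarith), if_neg h1.ne', if_pos h5, if_pos h2]
    · rw [Xa_W4]
      rintro ⟨⟨h1, h2⟩, h3, h4⟩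
      have h5 : z.2 = 0 := by
        by_contra h6
        exact hU' ⟨⟨by linarith, h2⟩, lt_of_le_of_ne hD.2.1 (Ne.symm h6), h4⟩
      rw [if_neg h2.ne, if_neg (by intro h; linarith), if_pos h5, if_neg (by linarith)]
    · rw [Xa_W5]
      rintro ⟨⟨h1, h2⟩, h3, h4⟩
      rw [if_neg (by intro h; linarith), if_neg h1.ne', if_neg h3.ne', if_pos h2]
    · rw [Xa_W6]
      rintro ⟨⟨h1, h2⟩, h3, h4⟩
      rw [if_neg h2.ne, if_neg (by intro h; linarith), if_neg h3.ne', if_neg (by linarith)]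

theorem Xl_chart {r : ℝ} (hr : r < 1/4) {x : ℝ × ℝ} (hx : x ∈ Gd r) : ∃ s, x ∈ Wg r s := by
  obtain ⟨hD, hPZ⟩ := hx
  have hP : x ∉ P := fun h => hPZ (Or.inl h)
  have hZ : x ∉ Zr r := fun h => hPZ (Or.inr h)
  by_cases hU : x ∈ U
  · exact ⟨0, Xl_w0' hU hZ⟩
  · have h1 : ∃ s, x ∈ Ws s := by
      have hD' := hD
      have hU' := hU
      have hP' := hP
      rw [Xa_D] at hD'
      rw [Xa_U] at hU'
      rw [Xa_P] at hP'
      by_cases h1 : x.1 = 1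
      · refine ⟨1, ?_⟩
        rw [Xa_W1]
        have h2 : x.2 ≠ 0 := fun h => hP' ⟨Or.inr (Or.inr h1), Or.inl h⟩
        have h3 : x.2 ≠ 1/2 := fun h => hP' ⟨Or.inr (Or.inr h1), Or.inr h⟩
        exact ⟨⟨by rw [h1]; norm_num, by rw [h1]; norm_num⟩, lt_of_le_of_ne hD'.2.1 (Ne.symm h2),
          lt_of_le_of_ne hD'.2.2 h3⟩
      by_cases h0 : x.1 = 0
      · refine ⟨2, ?_⟩
        rw [Xa_W2]
        have h2 : x.2 ≠ 0 := fun h => hP' ⟨Or.inl h0, Or.inl h⟩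
        have h3 : x.2 ≠ 1/2 := fun h => hP' ⟨Or.inl h0, Or.inr h⟩
        exact ⟨⟨by rw [h0]; norm_num, by rw [h0]; norm_num⟩, lt_of_le_of_ne hD'.2.1 (Ne.symm h2),
          lt_of_le_of_ne hD'.2.2 h3⟩
      have a0 : 0 < x.1 := lt_of_le_of_ne hD'.1.1 (Ne.symm h0)
      have a1 : x.1 < 1 := lt_of_le_of_ne hD'.1.2 h1
      have hb : x.2 = 0 ∨ x.2 = 1/2 := by
        by_contra hcon
        push Not at hcon
        exact hU' ⟨⟨a0, a1⟩, lt_of_le_of_ne hD'.2.1 (Ne.symm hcon.1), lt_of_le_of_ne hD'.2.2 hcon.2⟩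
      have hm : x.1 ≠ 1/2 := fun h => hP' ⟨Or.inr (Or.inl h), hb⟩
      rcases lt_or_gt_of_ne hm with hm | hm
      · rcases hb with hb | hb
        · refine ⟨3, ?_⟩
          rw [Xa_W3]
          exact ⟨⟨a0, hm⟩, by rw [hb]; norm_num, by rw [hb]; norm_num⟩
        · refine ⟨5, ?_⟩
          rw [Xa_W5]
          exact ⟨⟨a0, hm⟩, by rw [hb]; norm_num, by rw [hb]; norm_num⟩
      · rcases hb with hb | hb
        · refine ⟨4, ?_⟩
          rw [Xa_W4]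
          exact ⟨⟨hm, a1⟩, by rw [hb]; norm_num, by rw [hb]; norm_num⟩
        · refine ⟨6, ?_⟩
          rw [Xa_W6]
          exact ⟨⟨hm, a1⟩, by rw [hb]; norm_num, by rw [hb]; norm_num⟩
    obtain ⟨s, hs⟩ := h1
    refine ⟨s, ?_⟩
    rw [wg_eq hr]
    refine ⟨hs, ?_⟩
    rintro (h | h)
    · exact hZ h
    · exact (ws_seam hs hD hU).2 (zr_sub hr h)

theorem asm_u {r : ℝ} (hr : r < 1/4) {u0 : ℝ × ℝ → X}
    (hF : ∀ s : Fin 7, ∃ F : ℝ × ℝ → X, Lpo F (Wg r s) ∧ ∀ᵐ z : ℝ × ℝ, z ∈ Wg r s → F z = ext A B C s u0 z) :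
    ∃ u : ℝ × ℝ → X, Lpo u (Gd r) ∧ Glu A B C u ∧ ∀ᵐ z : ℝ × ℝ, z ∈ U → z ∉ Zr r → u z = u0 z := by
  choose F hL hE using hF
  have hval := Xl_val hr hL hE
  have hseam : ∀ s, ∀ z ∈ Ws s, z ∈ D → z ∉ U → z ∈ Wg r s := by
    intro s z hs hD hU
    rw [wg_eq hr]
    refine ⟨hs, ?_⟩
    rintro (h | h)
    · exact hU (zr_sub hr h)
    · exact (ws_seam hs hD hU).2 (zr_sub hr h)
  have p12 := Xl_pair (s := 1) (s' := 2) hr hL hE (by decide)
    (fun z => by rw [Xa_R1, Xa_R2]; exact Prod.ext (by ring) rfl)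
    (fun x => C.apply_symm_apply x)
    (fun z hz => by
      rw [Xa_W1] at hz
      rw [Xa_W2, Xa_R1]
      exact ⟨⟨by linarith [hz.1.1], by linarith [hz.1.2]⟩, hz.2⟩)
  have p34 := Xl_pair (s := 3) (s' := 4) hr hL hE (by decide)
    (fun z => by rw [Xa_R3, Xa_R4]; exact Prod.ext (by ring) (by ring))
    (fun x => A.symm_apply_apply x)
    (fun z hz => by
      rw [Xa_W3] at hz
      rw [Xa_W4, Xa_R3]
      exact ⟨⟨by linarith [hz.1.2], by linarith [hz.1.1]⟩, by linarith [hz.2.2], by linarith [hz.2.1]⟩)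
  have p56 := Xl_pair (s := 5) (s' := 6) hr hL hE (by decide)
    (fun z => by rw [Xa_R5, Xa_R6]; exact Prod.ext (by ring) (by ring))
    (fun x => B.symm_apply_apply x)
    (fun z hz => by
      rw [Xa_W5] at hz
      rw [Xa_W6, Xa_R5]
      exact ⟨⟨by linarith [hz.1.2], by linarith [hz.1.1]⟩, by linarith [hz.2.2], by linarith [hz.2.1]⟩)
  refine ⟨Xl_u F, ?_, ⟨?_, ?_, ?_⟩, ?_⟩
  · apply lpo_loc
    intro x hx
    obtain ⟨s, hs⟩ := Xl_chart hr hx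
    obtain ⟨ρ, hρ, hρW, L, hL0, hLL⟩ := lpo_ball (wg_open hr s) (hL s) hs
    refine ⟨ρ, hρ, L, ?_⟩
    rintro y ⟨hyG, hyB⟩ z ⟨hzG, hzB⟩
    have hy := Metric.ball_subset_closedBall hyB
    have hz := Metric.ball_subset_closedBall hzB
    rw [hval s y (hρW hy) hyG.1, hval s z (hρW hz) hzG.1]
    exact hLL y hy z hz
  · intro v hv
    have hD1 : ((1 : ℝ), v) ∈ D := ⟨⟨by norm_num, by norm_num⟩, hv.1.le, hv.2.le⟩
    have hU1 : ((1 : ℝ), v) ∉ U := fun h => lt_irrefl _ h.1.2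
    have hD0 : ((0 : ℝ), v) ∈ D := ⟨⟨by norm_num, by norm_num⟩, hv.1.le, hv.2.le⟩
    have hU0 : ((0 : ℝ), v) ∉ U := fun h => lt_irrefl _ h.1.1
    have w1 : ((1 : ℝ), v) ∈ Ws 1 := by
      rw [Xa_W1]
      exact ⟨⟨by norm_num, by norm_num⟩, hv.1, hv.2⟩
    have w0 : ((0 : ℝ), v) ∈ Ws 2 := by
      rw [Xa_W2]
      exact ⟨⟨by norm_num, by norm_num⟩, hv.1, hv.2⟩
    rw [hval 1 _ (hseam 1 _ w1 hD1 hU1) hD1, hval 2 _ (hseam 2 _ w0 hD0 hU0) hD0,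
      p12 _ (hseam 1 _ w1 hD1 hU1), Xa_R1]
    simp only [sub_self]
    rfl
  · intro v hv
    have hD1 : (1 - v, (0 : ℝ)) ∈ D := ⟨⟨by linarith [hv.2], by linarith [hv.1]⟩, by norm_num, by norm_num⟩
    have hU1 : (1 - v, (0 : ℝ)) ∉ U := fun h => lt_irrefl _ h.2.1
    have hD0 : (v, (0 : ℝ)) ∈ D := ⟨⟨hv.1.le, by linarith [hv.2]⟩, by norm_num, by norm_num⟩
    have hU0 : (v, (0 : ℝ)) ∉ U := fun h => lt_irrefl _ h.2.1
    have w1 : (1 - v, (0 : ℝ)) ∈ Ws 4 := by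
      rw [Xa_W4]
      exact ⟨⟨by linarith [hv.2], by linarith [hv.1]⟩, by norm_num, by norm_num⟩
    have w0 : (v, (0 : ℝ)) ∈ Ws 3 := by
      rw [Xa_W3]
      exact ⟨⟨hv.1, hv.2⟩, by norm_num, by norm_num⟩
    rw [hval 4 _ (hseam 4 _ w1 hD1 hU1) hD1, hval 3 _ (hseam 3 _ w0 hD0 hU0) hD0,
      p34 _ (hseam 3 _ w0 hD0 hU0), Xa_R3]
    simp only [neg_zero]
    exact (A.apply_symm_apply _).symm
  · intro v hv
    have hD1 : (1 - v, (1/2 : ℝ)) ∈ D := ⟨⟨by linarith [hv.2], by linarith [hv.1]⟩, by norm_num, by norm_num⟩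
    have hU1 : (1 - v, (1/2 : ℝ)) ∉ U := fun h => lt_irrefl _ h.2.2
    have hD0 : (v, (1/2 : ℝ)) ∈ D := ⟨⟨hv.1.le, by linarith [hv.2]⟩, by norm_num, by norm_num⟩
    have hU0 : (v, (1/2 : ℝ)) ∉ U := fun h => lt_irrefl _ h.2.2
    have w1 : (1 - v, (1/2 : ℝ)) ∈ Ws 6 := by
      rw [Xa_W6]
      exact ⟨⟨by linarith [hv.2], by linarith [hv.1]⟩, by norm_num, by norm_num⟩
    have w0 : (v, (1/2 : ℝ)) ∈ Ws 5 := by
      rw [Xa_W5]
      exact ⟨⟨hv.1, hv.2⟩, by norm_num, by norm_num⟩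
    rw [hval 6 _ (hseam 6 _ w1 hD1 hU1) hD1, hval 5 _ (hseam 5 _ w0 hD0 hU0) hD0,
      p56 _ (hseam 5 _ w0 hD0 hU0), Xa_R5]
    have e : (1 : ℝ) - 1/2 = 1/2 := by norm_num
    simp only [e]
    exact (B.apply_symm_apply _).symm
  · filter_upwards [hE 0] with z h1 hU hZ
    have hD : z ∈ D := (u_sub_D hU).1
    have h2 := Xl_w0' hU hZ
    rw [hval 0 z h2 hD, h1 h2, ext_D hD]

end H98NX
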