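import Pool.Agent.H98.NX.Xo
import Pool.Agent.H98.NX.Ej

set_option autoImplicit false

/-!
# Row Xp: near-minimisers equal to the limit map on compact sets

f_j in Nr (ep j), ep j -> 0, u in Lpo (Gd r), glued, f_j -> u a.e. on U minus Zr r, int_{U minus Zr} dist(f_j,u)^2 -> 0 (integrable).
Let S be compact in Gd r and e > 0. Take Cut r d K S eta (cut_ex), W := Wd r d (contained in U minus Zr r), g_j := ip gm f_j u eta in Cl0 (ip_cl0), g_j = u on S (ip_one), h_j := ip gm u f_j eta.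
(1) int_W dist(f_j,u)^2 <= int_{U minus Zr} dist(f_j,u)^2 -> 0, Ex f_j <= E0 + ep j bounded, so the error term of ip_energy tends to 0.
(2) h_j -> u a.e. on W: dist (u z)(h_j z) = eta z dist(u z)(f_j z) <= dist(u z)(f_j z) (gm_dl). For every e' > 0, for all large j: int_W sp h_j t^2 >= int_W sp u t^2 - e' for t = f1 x y and t = f2 x y: otherwise there is
 a subsequence with int_W sp (h_{j_k}) t^2 <= int_W sp u t^2 - e' for all k and sp_lsc_open (O = W, Lpo on W, integrable on W: wd_int; Lpo (Gd r) of h_j: lpo_gm) gives int_W sp u t^2 <= int_W sp u t^2 - e'.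
(3) ip_energy: Ex g_j <= Ex f_j + [int_W e2 u - int_W e2 h_j] + error <= E0 + ep j + 2 e' + error_j <= E0 + e for large j if e' = e/8. So g_j is in Nr e.
-/

namespace H98NX

open H50NA MeasureTheory Set Filter Topology
open H80HM (D U P f1 f2)

noncomputable section

variable {X : Type} [MetricSpace X] {gm : X → X → ℝ → X} {A B C : X ≃ᵢ X}

/-- lower semicontinuity along the reflected interpolations -/
private theorem Xp_lsc (hX : Npc X gm) {r : ℝ} {fj : ℕ → ℝ × ℝ → X} {u : ℝ × ℝ → X}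
    (hfG : ∀ j, Lpo (fj j) (Gd r)) (hu : Lpo u (Gd r)) {d K : ℝ} {S : Set (ℝ × ℝ)}
    {eta : ℝ × ℝ → ℝ} (hc : Cut r d K S eta)
    (hae : ∀ᵐ z : ℝ × ℝ, z ∈ Wd r d → Tendsto (fun j => fj j z) atTop (𝓝 (u z)))
    (t : ℝ × ℝ) {e : ℝ} (he : 0 < e) : ∀ᶠ j in atTop, (∫ z in Wd r d, sp u t z ^ 2) - e ≤
      ∫ z in Wd r d, sp (ip gm u (fj j) eta) t z ^ 2 := by
  have hWG : Wd r d ⊆ Gd r := (wd_sub r d).trans (kd_sub hc.dpos)
  have hhG : ∀ j, Lpo (ip gm u (fj j) eta) (Gd r) := fun j =>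
    lpo_gm hX hu (hfG j) (lpo_lip hc.lip _) fun z _ => ⟨hc.nn z, hc.le z⟩
  by_contra hcon
  rw [not_eventually] at hcon
  obtain ⟨φ, hφ, hφP⟩ := extraction_of_frequently_atTop hcon
  have hlim : ∀ᵐ z : ℝ × ℝ, z ∈ Wd r d →
      Tendsto (fun n => ip gm u (fj (φ n)) eta z) atTop (𝓝 (u z)) := by
    filter_upwards [hae] with z hz hzW
    have h1 : Tendsto (fun n => dist (fj (φ n) z) (u z)) atTop (𝓝 0) :=
      tendsto_iff_dist_tendsto_zero.1 ((hz hzW).comp hφ.tendsto_atTop)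
    rw [tendsto_iff_dist_tendsto_zero]
    refine squeeze_zero (fun n => dist_nonneg) (fun n => ?_) h1
    unfold ip
    rw [dist_comm, gm_dl hX _ _ (hc.nn z) (hc.le z), dist_comm (u z)]
    exact mul_le_of_le_one_left dist_nonneg (hc.le z)
  have h2 := (sp_lsc_open volume (wd_open r d) (fun n => lpo_mono hWG (hhG (φ n)))
    (lpo_mono hWG hu) (wd_open r d) subset_rfl hlim
    (M := (∫ z in Wd r d, sp u t z ^ 2) - e) t
    (fun n => (wd_int hc.dpos (hhG (φ n)) 0 0 t).1)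
    (fun n => (not_le.1 (hφP n)).le)).2
  linarith

theorem lim_app (hX : Npc X gm) {r : ℝ} (hr : r < 1/4) {o : X} {x y : ℝ} {fj : ℕ → ℝ × ℝ → X}
    {ep : ℕ → ℝ} (hf : ∀ j, Nr A B C r o x y (ep j) (fj j)) (he : Tendsto ep atTop (𝓝 0)) {u : ℝ × ℝ → X}
    (hu : Lpo u (Gd r)) (hg : Glu A B C u)
    (hae : ∀ᵐ z : ℝ × ℝ, z ∈ U → z ∉ Zr r → Tendsto (fun j => fj j z) atTop (𝓝 (u z)))
    (hI : ∀ j, IntegrableOn (fun z => dist (fj j z) (u z) ^ 2) (U \ Zr r))
    (hL : Tendsto (fun j => ∫ z in U \ Zr r, dist (fj j z) (u z) ^ 2) atTop (𝓝 0)) :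
    ∀ S ⊆ Gd r, IsCompact S → ∀ e : ℝ, 0 < e → ∃ f, Nr A B C r o x y e f ∧ ∀ z ∈ S, f z = u z := by
  intro S hS hSc e he0
  obtain ⟨d, K, eta, hc⟩ := cut_ex hr hSc hS
  have hfG : ∀ j, Lpo (fj j) (Gd r) := fun j => clx_gd (hf j).1.cl
  have hWU : Wd r d ⊆ U \ Zr r := by
    rintro z ⟨h1, -, h3⟩
    refine ⟨h1, fun h => ?_⟩
    rw [Zr, Metric.mem_closedBall] at h
    have := hc.dpos
    linarith
  have hWG : Wd r d ⊆ Gd r := (wd_sub r d).trans (kd_sub hc.dpos)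
  have haeW : ∀ᵐ z : ℝ × ℝ, z ∈ Wd r d → Tendsto (fun j => fj j z) atTop (𝓝 (u z)) := by
    filter_upwards [hae] with z hz hzW
    exact hz (hWU hzW).1 (hWU hzW).2
  have hhG : ∀ j, Lpo (ip gm u (fj j) eta) (Gd r) := fun j =>
    lpo_gm hX hu (hfG j) (lpo_lip hc.lip _) fun z _ => ⟨hc.nn z, hc.le z⟩
  -- the distance term
  obtain ⟨q, hq⟩ : ∃ q : ℕ → ℝ, q = fun j => ∫ z in Wd r d, dist (fj j z) (u z) ^ 2 := ⟨_, rfl⟩
  have hq0 : ∀ j, 0 ≤ q j := fun j => by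
    rw [hq]
    exact integral_nonneg fun z => sq_nonneg _
  have hqlim : Tendsto q atTop (𝓝 0) := by
    refine squeeze_zero hq0 (fun j => ?_) hL
    rw [hq]
    exact setIntegral_mono_set (hI j) (Eventually.of_forall fun z => sq_nonneg _)
      (LE.le.eventuallyLE hWU)
  obtain ⟨K1, hK1, hen⟩ := ip_energy (A := A) (B := B) (C := C) hX x y K
  obtain ⟨M, hM⟩ := he.bddAbove_range
  obtain ⟨Bd, hBd⟩ : ∃ Bd : ℝ, Bd = Real.sqrt (E0 A B C r o x y + M) +
    Real.sqrt (∫ z in Wd r d, e2 x y u z) := ⟨_, rfl⟩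
  have herr : Tendsto (fun j => K1 * (Real.sqrt (q j) * Bd + q j)) atTop (𝓝 0) := by
    have h1 : Tendsto (fun j => Real.sqrt (q j)) atTop (𝓝 0) := by
      have h2 := (Real.continuous_sqrt.tendsto 0).comp hqlim
      rw [Real.sqrt_zero] at h2
      exact h2
    have h3 := ((h1.mul_const Bd).add hqlim).const_mul K1
    simp only [zero_mul, add_zero, mul_zero] at h3
    exact h3
  have h8 : 0 < e / 8 := by positivity
  have ev1 := Xp_lsc hX hfG hu hc haeW (f1 x y) h8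
  have ev2 := Xp_lsc hX hfG hu hc haeW (f2 x y) h8
  have ev3 : ∀ᶠ j in atTop, ep j < e / 4 := he.eventually (gt_mem_nhds (by positivity))
  have ev4 : ∀ᶠ j in atTop, K1 * (Real.sqrt (q j) * Bd + q j) < e / 4 :=
    herr.eventually (gt_mem_nhds (by positivity))
  obtain ⟨j, hj1, hj2, hj3, hj4⟩ := (ev1.and (ev2.and (ev3.and ev4))).exists
  refine ⟨ip gm (fj j) u eta, ⟨ip_cl0 hX hr (hf j).1 hu hg hc, ?_⟩,
    fun z hz => ip_one hX (hc.one z hz)⟩
  have h1 := hen r d S eta (fj j) u hr hc (hf j).1.cl hu hg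
  have h2 : ∫ z in Wd r d, e2 x y (ip gm u (fj j) eta) z =
      (∫ z in Wd r d, sp (ip gm u (fj j) eta) (f1 x y) z ^ 2) +
        ∫ z in Wd r d, sp (ip gm u (fj j) eta) (f2 x y) z ^ 2 :=
    integral_add (wd_int hc.dpos (hhG j) x y (f1 x y)).1 (wd_int hc.dpos (hhG j) x y (f2 x y)).1
  have h3 : ∫ z in Wd r d, e2 x y u z =
      (∫ z in Wd r d, sp u (f1 x y) z ^ 2) + ∫ z in Wd r d, sp u (f2 x y) z ^ 2 :=
    integral_add (wd_int hc.dpos hu x y (f1 x y)).1 (wd_int hc.dpos hu x y (f2 x y)).1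
  have h4 : Real.sqrt (Ex x y (fj j)) + Real.sqrt (∫ z in Wd r d, e2 x y u z) ≤ Bd := by
    rw [hBd]
    have h5 : Ex x y (fj j) ≤ E0 A B C r o x y + M :=
      (hf j).2.trans (by have := hM (mem_range_self j); linarith)
    have h6 := Real.sqrt_le_sqrt h5
    linarith
  have hqj : ∫ z in Wd r d, dist (fj j z) (u z) ^ 2 = q j := by rw [hq]
  rw [hqj] at h1
  have h5 : K1 * (Real.sqrt (q j) * (Real.sqrt (Ex x y (fj j)) +
      Real.sqrt (∫ z in Wd r d, e2 x y u z)) + q j) ≤ K1 * (Real.sqrt (q j) * Bd + q j) := by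
    apply mul_le_mul_of_nonneg_left _ hK1
    have := mul_le_mul_of_nonneg_left h4 (Real.sqrt_nonneg (q j))
    linarith
  have h6 := (hf j).2
  rw [h2] at h1
  rw [h3] at h1 h5
  linarith

end

end H98NX
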