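import Pool.Agent.H98.NX.Xi
import Pool.Agent.H98.NX.Xk
import Pool.Agent.H98.NX.Xl
import Pool.Agent.H98.NX.Xp
import Pool.Agent.H46.XB.Ve

set_option autoImplicit false

/-!
# Row Xq: existence of the limit map

0 < r < 1/4, y > 0, Cl0 nonempty, X complete, nonpositively curved.
(1) f_j in Nr (16^{-j}) (nr_ex). For i <= j both f_i, f_j are in Nr (16^{-i}) (Nr is monotone in ep), so by H46's dist_le / near_dist (Pool/Agent/H46/XB/Ve.lean, look up the namespace):
 dist(f_i,f_j)^2 is integrable on U with integral <= K 16^{-i}, K = 4 (1/(2r)+1/2) kap x y.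
(2) ae_lim with W = U (bounded open, finite volume; Lpo on U: u_sub_D): u0, f_j -> u0 a.e. on U, int_U dist(f_i,u0)^2 <= K 16^{-i}.
(3) chart_lim for every s : Fin 7, then asm_u: u in Lpo (Gd r), glued, u = u0 a.e. on U minus Zr r.
(4) lim_app: f_j -> u a.e. on U minus Zr, int_{U minus Zr} dist(f_j,u)^2 = int_{U minus Zr} dist(f_j,u0)^2 <= K 16^{-j} -> 0 (integrals of a.e. equal functions, monotone in the set).
So Lim A B C r o x y u.
-/

namespace H98NX

open H50NA MeasureTheory Set Filter Topology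
open H80HM (D U P f1 f2)

variable {X : Type} [MetricSpace X] [CompleteSpace X] {gm : X → X → ℝ → X} {A B C : X ≃ᵢ X}

theorem lim_ex (hX : Npc X gm) {r : ℝ} (hr0 : 0 < r) (hr : r < 1/4) {o : X} {x y : ℝ} (hy : 0 < y)
    (h : ∃ f, Cl0 A B C r o f) : ∃ u, Lim A B C r o x y u := by
  have hep : ∀ j : ℕ, 0 < ((1 : ℝ) / 16) ^ j := fun j => by positivity
  choose fj hf using fun j : ℕ => nr_ex (x := x) (y := y) (hep j) h
  have hUo : IsOpen U := u_open
  have hmono : ∀ i j, i ≤ j → Nr A B C r o x y (((1 : ℝ) / 16) ^ i) (fj j) := by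
    intro i j hij
    refine ⟨(hf j).1, (hf j).2.trans ?_⟩
    have h1 := pow_le_pow_of_le_one (by norm_num : (0 : ℝ) ≤ 1 / 16) (by norm_num) hij
    linarith
  have hlU : ∀ j, Lpo (fj j) U := fun j => lpo_mono u_sub_D (hf j).1.cl.lip
  have hv : (volume : Measure (ℝ × ℝ)) U < ⊤ :=
    ((Metric.isBounded_Ioo (0 : ℝ) 1).prod (Metric.isBounded_Ioo (0 : ℝ) (1 / 2))).measure_lt_top
  have hI : ∀ i j, i ≤ j → IntegrableOn (fun z => dist (fj i z) (fj j z) ^ 2) U ∧
      ∫ z in U, dist (fj i z) (fj j z) ^ 2 ≤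
        ((1 / (2 * r) + 1 / 2) * H46XB.kap x y * 4) * (1 / 16) ^ i := by
    intro i j hij
    refine ⟨(H46XB.dist_le hX hr0 hr (hf i).1 (hf j).1 x hy).1, ?_⟩
    refine (H46XB.near_dist hX hr0 hr hy (hf i) (hmono i j hij)).trans (le_of_eq ?_)
    ring
  obtain ⟨u0, hu0, hu1⟩ := ae_lim hUo hv hlU hI
  have he : Tendsto (fun j : ℕ => ((1 : ℝ) / 16) ^ j) atTop (𝓝 0) :=
    tendsto_pow_atTop_nhds_zero_of_lt_one (by norm_num) (by norm_num)
  obtain ⟨u, hu, hg, hue⟩ := asm_u hr (fun s => chart_lim hX hr hy hf he hu0 s)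
  have hm : MeasurableSet (U \ Zr r) :=
    hUo.measurableSet.diff Metric.isClosed_closedBall.measurableSet
  have hcongr : ∀ j, (fun z => dist (fj j z) (u0 z) ^ 2) =ᵐ[volume.restrict (U \ Zr r)]
      fun z => dist (fj j z) (u z) ^ 2 := by
    intro j
    rw [EventuallyEq, ae_restrict_iff' hm]
    filter_upwards [hue] with z hz hzU
    rw [hz hzU.1 hzU.2]
  have hI1 : ∀ j, IntegrableOn (fun z => dist (fj j z) (u0 z) ^ 2) (U \ Zr r) :=
    fun j => (hu1 j).2.1.mono_set sdiff_subset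
  have hI2 : ∀ j, IntegrableOn (fun z => dist (fj j z) (u z) ^ 2) (U \ Zr r) :=
    fun j => (hI1 j).congr (hcongr j)
  have hL : Tendsto (fun j => ∫ z in U \ Zr r, dist (fj j z) (u z) ^ 2) atTop (𝓝 0) := by
    have h0 : Tendsto (fun j : ℕ => ((1 / (2 * r) + 1 / 2) * H46XB.kap x y * 4) * ((1 : ℝ) / 16) ^ j)
        atTop (𝓝 0) := by
      have h1 := he.const_mul ((1 / (2 * r) + 1 / 2) * H46XB.kap x y * 4)
      rwa [mul_zero] at h1
    refine squeeze_zero (fun j => integral_nonneg fun z => sq_nonneg _) (fun j => ?_) h0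
    rw [← integral_congr_ae (hcongr j)]
    refine le_trans ?_ (hu1 j).2.2
    exact setIntegral_mono_set (hu1 j).2.1 (Eventually.of_forall fun z => sq_nonneg _)
      sdiff_subset.eventuallyLE
  refine ⟨u, hu, hg, lim_app hX hr hf he hu hg ?_ hI2 hL⟩
  filter_upwards [hu0, hue] with z h1 h2 hzU hzZ
  rw [h2 hzU hzZ]
  exact h1 hzU

end H98NX
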