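import Pool.Agent.H98.NX.Xf
import Pool.Agent.H98.NX.Xh

set_option autoImplicit false

/-!
# Row Xr: limit maps are local minimisers in charts

u with Lim A B C r o x y u (fields lip : Lpo u (Gd r), glu, app). Claim: for all e > 0: NMr x y e (ext s u) (Wg r s); then lt_lm gives LM in the coordinates.
opn: wg_open; lip: ext_lpo. Let S be compact in Wg r s, h in Lpo (Wg r s), h = ext s u off S (on Wg r s minus S). Choose a compact S' with S in interior S', S' in Wg r s (Wg r s is open in a locally compact space: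
exists_compact_between or cthickening). K := (S' inter D) union Rs s '' (S' minus U): compact subset of Gd r (rt_cpt). Take f in Nr e with f = u on K (app).
(1) ext s f = ext s u on S': z in S' inter D: f z = u z; z in S' minus D: gs s (f (Rs s z)) with Rs s z in K.
(2) h' := h on S', ext s f off S'. h' in Lpo (Wg r s) (lpo_loc): near a point of interior S': h' = h; near a point outside S (Wg r s minus S is open): h' = ext s f there (on S' minus S: h = ext s u = ext s f).
 These two open sets cover Wg r s. ext s f in Lpo (Wg r s): ext_lpo (clx_gd).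
(3) h' = ext s f on Wg r s minus S. nr_nmr: int_S e2 (ext f) <= int_S e2 h' + e. On the open set interior S' containing S: ext f = ext u and h' = h, so the speeds on S agree (sp_loc) and
 int_S e2 (ext u) <= int_S e2 h + e.
-/

namespace H98NX

open H50NA MeasureTheory Set Filter Topology
open H80HM (D U P f1 f2)

variable {X : Type} [MetricSpace X] {gm : X → X → ℝ → X} {A B C : X ≃ᵢ X}

open Classical in
theorem lim_nmr (hX : Npc X gm) {r : ℝ} (hr : r < 1/4) {o : X} {x y : ℝ} {u : ℝ × ℝ → X}
    (hu : Lim A B C r o x y u) (s : Fin 7) {e : ℝ} (he : 0 < e) : NMr x y e (ext A B C s u) (Wg r s) := by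
  have hW := wg_open hr s
  refine ⟨hW, ext_lpo hr hu.lip hu.glu s, ?_⟩
  intro S hS hSc h hh hhe
  obtain ⟨S', hS'c, hSS', hS'W⟩ := exists_compact_between hSc hW hS
  obtain ⟨c1, g1, c2, g2⟩ := rt_cpt hr hS'c hS'W
  obtain ⟨f, hf, hfu⟩ := hu.app ((S' ∩ D) ∪ Rs s '' (S' \ U)) (union_subset g1 g2) (c1.union c2) e he
  have h1 : ∀ z ∈ S', ext A B C s f z = ext A B C s u z := by
    intro z hz
    by_cases hD : z ∈ D
    · rw [ext_D hD, ext_D hD]
      exact hfu z (Or.inl ⟨hz, hD⟩)
    · rw [ext_nD hD, ext_nD hD]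
      rw [hfu (Rs s z) (Or.inr ⟨z, ⟨hz, fun hU => hD (u_sub_D hU).1⟩, rfl⟩)]
  have hfl : Lpo (ext A B C s f) (Wg r s) := ext_lpo hr (clx_gd hf.1.cl) hf.1.cl.glu s
  obtain ⟨h', hh'⟩ : ∃ h' : ℝ × ℝ → X, ∀ z, h' z = if z ∈ S' then h z else ext A B C s f z :=
    ⟨_, fun z => rfl⟩
  have hin : ∀ z ∈ S', h' z = h z := fun z hz => by rw [hh', if_pos hz]
  have hoff : ∀ z ∈ Wg r s \ S, h' z = ext A B C s f z := by
    intro z hz
    by_cases hz' : z ∈ S'
    · rw [hin z hz', hhe z hz, h1 z hz']
    · rw [hh', if_neg hz']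
  have hl : Lpo h' (Wg r s) := by
    apply lpo_loc
    intro p hp
    by_cases hpS : p ∈ interior S'
    · obtain ⟨ρ, hρ, hρS⟩ := Metric.nhds_basis_closedBall.mem_iff.1 (isOpen_interior.mem_nhds hpS)
      have hsub : Metric.closedBall p ρ ⊆ S' := hρS.trans interior_subset
      obtain ⟨L, hL⟩ := hh (Metric.closedBall p ρ) (hsub.trans hS'W) (isCompact_closedBall p ρ)
      refine ⟨ρ, hρ, L, ?_⟩
      rintro a ⟨-, ha⟩ b ⟨-, hb⟩
      have ha' := Metric.ball_subset_closedBall ha
      have hb' := Metric.ball_subset_closedBall hb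
      rw [hin a (hsub ha'), hin b (hsub hb')]
      exact hL a ha' b hb'
    · have hpn : p ∈ Wg r s \ S := ⟨hp, fun h => hpS (hSS' h)⟩
      obtain ⟨ρ, hρ, hρS⟩ := Metric.nhds_basis_closedBall.mem_iff.1
        ((hW.sdiff hSc.isClosed).mem_nhds hpn)
      obtain ⟨L, hL⟩ := hfl (Metric.closedBall p ρ) (hρS.trans sdiff_subset) (isCompact_closedBall p ρ)
      refine ⟨ρ, hρ, L, ?_⟩
      rintro a ⟨-, ha⟩ b ⟨-, hb⟩
      have ha' := Metric.ball_subset_closedBall ha
      have hb' := Metric.ball_subset_closedBall hb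
      rw [hoff a (hρS ha'), hoff b (hρS hb')]
      exact hL a ha' b hb'
  have hmin := (nr_nmr hX hr hf s).min S hS hSc h' hl hoff
  have e1 : ∫ z in S, e2 x y (ext A B C s f) z = ∫ z in S, e2 x y (ext A B C s u) z := by
    refine setIntegral_congr_fun hSc.measurableSet fun z hz => ?_
    have hn : ext A B C s f =ᶠ[𝓝 z] ext A B C s u := by
      filter_upwards [isOpen_interior.mem_nhds (hSS' hz)] with w hw
      exact h1 w (interior_subset hw)
    simp only [e2, sp_loc hn]
  have e3 : ∫ z in S, e2 x y h' z = ∫ z in S, e2 x y h z := by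
    refine setIntegral_congr_fun hSc.measurableSet fun z hz => ?_
    have hn : h' =ᶠ[𝓝 z] h := by
      filter_upwards [isOpen_interior.mem_nhds (hSS' hz)] with w hw
      exact hin w (interior_subset hw)
    simp only [e2, sp_loc hn]
  rw [e1, e3] at hmin
  exact hmin

theorem lim_lm (hX : Npc X gm) {r : ℝ} (hr : r < 1/4) {o : X} {x y : ℝ} (hy : 0 < y) {u : ℝ × ℝ → X}
    (hu : Lim A B C r o x y u) (s : Fin 7) : LM (fun z => ext A B C s u (Lt x y z)) (Lt x y ⁻¹' Wg r s) :=
  lt_lm hy fun _ hep => lim_nmr hX hr hu s hep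

end H98NX
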