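import Pool.Agent.H98.NX.Xo
import Pool.Agent.H46.XB.Ve

set_option autoImplicit false

/-!
# Row Xs: no energy is lost

u with Lim A B C r o x y u, 0 < r < 1/4, y > 0. K_n := Kd r (1/(n+1)), W_n := Wd r (1/(n+1)) (open): increasing, the union of the W_n is U minus Zr r (infDist z P > 0 for z in U: P closed, P disjoint from U).
Choose g_n in Nr (16^{-n}) with g_n = u on K_n (field app, kd_cpt, kd_sub). (If Cl0 were empty app would fail for S empty, so everything is consistent.)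
(1) on W_n (open, in K_n): sp g_n t = sp u t at every point (sp_loc). So int_{W_n} e2 u = int_{W_n} e2 g_n <= Ex g_n <= E0 + 16^{-n}. Monotone convergence: e2 u integrable on U minus Zr r (the lintegral is the
 supremum over n; measurability: sp_meas on the open set U minus Zr r, contained in Gd r) and the integral is <= E0.
(2) for m >= n: g_m in Nr (16^{-n}) as well, so near_conv (th = 0, frame_zero): int_U (mt g_n g_m f1 + mt g_n g_m f2) <= 4 16^{-n}, and (sp g_n t - sp g_m t)^2 <= mt g_n g_m t. On W_m: sp g_m t = sp u t. Hence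
 int_{W_m} ((sp g_n f1 - sp u f1)^2 + (sp g_n f2 - sp u f2)^2) <= 4 16^{-n}; m -> oo: the same on U minus Zr r.
(3) on Zr r: g_n = o, so sp g_n t = 0 at interior points of Zr r and the frontier of Zr r (sup norm sphere) is null; (or sp_eq_on with the constant map o, A = Zr r). So Ex g_n = int_{U minus Zr} e2 g_n.
 Minkowski in L2(U minus Zr; R^2): sqrt(Ex g_n) <= sqrt(int_{U minus Zr} e2 u) + 2 4^{-n}. And E0 <= Ex g_n (e0_le). n -> oo: E0 <= int_{U minus Zr} e2 u.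
lim_tail: for e > 0 there is d > 0 such that for every set K' with K' measurable and Kd r d <= K' <= Gd r, K' closed in.., and every g in Nr ep with g = u on K': int_{U minus K'} e2 g <= ep + e. Proof: choose d with
 int_{(U minus Zr) minus Wd r d} e2 u <= e (continuity from above: the sets decrease to the empty set). int_{U minus K'} e2 g = Ex g - int_{U inter K'} e2 g and e2 g = e2 u a.e. on U inter K' (sp_eq_on with O = U minus Zr r,
 A = U inter K'), so it is <= E0 + ep - int_{U inter K'} e2 u = ep + int_{(U minus Zr) minus K'} e2 u <= ep + e (Wd r d in Kd r d in K').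
-/

namespace H98NX

open H50NA MeasureTheory Set Filter Topology
open H80HM (D U P f1 f2)

variable {X : Type} [MetricSpace X] {gm : X → X → ℝ → X} {A B C : X ≃ᵢ X}

theorem Xs_meas {Y : Type} [MetricSpace Y] {f : ℝ × ℝ → Y} {O : Set (ℝ × ℝ)} (hO : IsOpen O)
    (hf : Lpo f O) (t : ℝ × ℝ) : AEStronglyMeasurable (sp f t) (volume.restrict O) := by
  have h1 := (sp_meas hO (lpo_cont hO hf) t).aestronglyMeasurable (μ := volume.restrict O)
  refine h1.congr ?_
  rw [EventuallyEq, ae_restrict_iff' hO.measurableSet]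
  filter_upwards with x hx
  rw [indicator_of_mem hx]

/-- the radii -/
noncomputable def Xs_d (n : ℕ) : ℝ := 1 / ((n : ℝ) + 1)

theorem Xs_dpos (n : ℕ) : 0 < Xs_d n := by
  unfold Xs_d
  positivity

theorem Xs_open (r : ℝ) : IsOpen (U \ Zr r) := u_open.sdiff Metric.isClosed_closedBall

theorem Xs_sub (r : ℝ) : U \ Zr r ⊆ Gd r := by
  rintro z ⟨h1, h2⟩
  have h3 := u_sub_D h1
  refine ⟨h3.1, ?_⟩
  rintro (h4 | h4)
  · exact h3.2 h4
  · exact h2 h4

theorem Xs_Wsub {r d : ℝ} (hd : 0 < d) : Wd r d ⊆ U \ Zr r := by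
  rintro z ⟨h1, h2, h3⟩
  refine ⟨h1, fun h4 => ?_⟩
  unfold Zr at h4
  rw [Metric.mem_closedBall] at h4
  linarith

theorem Xs_P : IsClosed P ∧ P.Nonempty := by
  constructor
  · unfold P
    exact (Set.toFinite _).isClosed.prod (Set.toFinite _).isClosed
  · exact ⟨(0, 0), by unfold P; simp⟩

theorem Xs_cov (r : ℝ) : AECover ((volume : Measure (ℝ × ℝ)).restrict (U \ Zr r)) atTop
    (fun n : ℕ => Wd r (Xs_d n)) := by
  refine ⟨?_, fun n => (wd_open r _).measurableSet⟩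
  rw [ae_restrict_iff' (Xs_open r).measurableSet]
  filter_upwards with z hz
  have h1 : 0 < Metric.infDist z P := (Xs_P.1.notMem_iff_infDist_pos Xs_P.2).1 (u_sub_D hz.1).2
  have h2 : r < dist z (1/4, 1/4) := by
    by_contra h
    exact hz.2 (Metric.mem_closedBall.2 (not_lt.1 h))
  have h3 : Tendsto Xs_d atTop (𝓝 0) := tendsto_one_div_add_atTop_nhds_zero_nat
  filter_upwards [h3.eventually_lt_const h1, h3.eventually_lt_const (sub_pos.2 h2)] with n a1 a2
  exact ⟨hz.1, a1, by linarith⟩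

theorem Xs_rr {r d : ℝ} (hd : 0 < d) :
    ((volume : Measure (ℝ × ℝ)).restrict (U \ Zr r)).restrict (Wd r d) = volume.restrict (Wd r d) :=
  Measure.restrict_restrict_of_subset (Xs_Wsub hd)

theorem Xs_eq {r d : ℝ} {g u : ℝ × ℝ → X} (h : ∀ z ∈ Kd r d, g z = u z) {z : ℝ × ℝ}
    (hz : z ∈ Wd r d) (t : ℝ × ℝ) : sp g t z = sp u t z := by
  apply sp_loc
  filter_upwards [(wd_open r d).mem_nhds hz] with w hw
  exact h w (wd_sub r d hw)

theorem Xs_e2nn (x y : ℝ) (f : ℝ × ℝ → X) (z : ℝ × ℝ) : 0 ≤ e2 x y f z :=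
  add_nonneg (sq_nonneg _) (sq_nonneg _)

theorem Xs_int (hX : Npc X gm) {f : ℝ × ℝ → X} (hf : Clx A B C f) (x y : ℝ) :
    IntegrableOn (e2 x y f) U :=
  H46XB.e2_int hX (lpo_mono u_sub_D hf.lip) hf.fin x y

/-- the energy of a near minimiser on the sets of the exhaustion -/
theorem Xs_le (hX : Npc X gm) {r d ep : ℝ} (hd : 0 < d) {o : X} {x y : ℝ} {g u : ℝ × ℝ → X}
    (hg : Nr A B C r o x y ep g) (h : ∀ z ∈ Kd r d, g z = u z) :
    ∫ z in Wd r d, e2 x y u z ≤ E0 A B C r o x y + ep := by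
  have h1 : ∫ z in Wd r d, e2 x y u z = ∫ z in Wd r d, e2 x y g z := by
    refine setIntegral_congr_fun (wd_open r d).measurableSet fun z hz => ?_
    unfold e2
    rw [Xs_eq h hz, Xs_eq h hz]
  have h2 : ∫ z in Wd r d, e2 x y g z ≤ ∫ z in U, e2 x y g z :=
    setIntegral_mono_set (Xs_int hX hg.1.cl x y) (ae_of_all _ fun z => Xs_e2nn x y g z)
      (LE.le.eventuallyLE (fun z hz => (Xs_Wsub hd hz).1))
  rw [h1]
  exact h2.trans hg.2

theorem Xs_fin (hX : Npc X gm) {r : ℝ} {o : X} {x y : ℝ} {u : ℝ × ℝ → X}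
    (hu : Lim A B C r o x y u) : IntegrableOn (e2 x y u) (U \ Zr r) ∧
      ∫ z in U \ Zr r, e2 x y u z ≤ E0 A B C r o x y ∧
      Tendsto (fun n : ℕ => ∫ z in Wd r (Xs_d n), e2 x y u z) atTop
        (𝓝 (∫ z in U \ Zr r, e2 x y u z)) := by
  have hb : ∀ n : ℕ, ∀ ep : ℝ, 0 < ep → ∫ z in Wd r (Xs_d n), e2 x y u z ≤ E0 A B C r o x y + ep := by
    intro n ep hep
    obtain ⟨g, hg, hgu⟩ := hu.app (Kd r (Xs_d n)) (kd_sub (Xs_dpos n)) (kd_cpt _ _) ep hep
    exact Xs_le hX (Xs_dpos n) hg hgu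
  have hb' : ∀ n : ℕ, ∫ z in Wd r (Xs_d n), e2 x y u z ≤ E0 A B C r o x y := fun n =>
    le_of_forall_pos_le_add fun ep hep => hb n ep hep
  have hint : IntegrableOn (e2 x y u) (U \ Zr r) := by
    refine (Xs_cov r).integrable_of_integral_bounded_of_nonneg_ae (E0 A B C r o x y) ?_
      (ae_of_all _ fun z => Xs_e2nn x y u z) (Eventually.of_forall fun n => ?_)
    · intro n
      unfold IntegrableOn
      rw [Xs_rr (Xs_dpos n)]
      exact (wd_int (Xs_dpos n) hu.lip x y (f1 x y)).2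
    · rw [Xs_rr (Xs_dpos n)]
      exact hb' n
  have ht := (Xs_cov r).integral_tendsto_of_countably_generated hint
  have ht' : Tendsto (fun n : ℕ => ∫ z in Wd r (Xs_d n), e2 x y u z) atTop
      (𝓝 (∫ z in U \ Zr r, e2 x y u z)) := by
    refine ht.congr fun n => ?_
    rw [Xs_rr (Xs_dpos n)]
  exact ⟨hint, le_of_tendsto ht' (Eventually.of_forall hb'), ht'⟩

/-- maps that are constant on the square have no energy there -/
theorem Xs_sq {r : ℝ} (hr : r < 1/4) {o : X} {x y : ℝ} {g : ℝ × ℝ → X} (hg : Cl0 A B C r o g) :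
    ∫ z in U, e2 x y g z = ∫ z in U \ Zr r, e2 x y g z := by
  have hgU : Lpo g U := lpo_mono u_sub_D hg.cl.lip
  have hZm : MeasurableSet (Zr r) := Metric.isClosed_closedBall.measurableSet
  have h1 := fun t : ℝ × ℝ => sp_eq_on (volume : Measure (ℝ × ℝ)) u_open hgU
    (lpo_const o U) hZm (zr_sub hr) (fun z hz => hg.eq z hz) t
  refine setIntegral_eq_of_subset_of_ae_sdiff_eq_zero u_open.measurableSet.nullMeasurableSet
    sdiff_subset ?_
  filter_upwards [h1 (f1 x y), h1 (f2 x y)] with z a1 a2 hz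
  have hzZ : z ∈ Zr r := by
    by_contra h
    exact hz.2 ⟨hz.1, h⟩
  unfold e2
  rw [a1 hzZ, a2 hzZ, sp_const, sp_const]
  norm_num

/-- the deviation of the energy densities -/
theorem Xs_dev (hX : Npc X gm) {r : ℝ} {o : X} {x y : ℝ} {u : ℝ × ℝ → X}
    (hu : Lim A B C r o x y u) {ep : ℝ} (hep : 0 < ep) {g : ℝ × ℝ → X}
    (hg : Nr A B C r o x y ep g) :
    IntegrableOn (fun z => (sp g (f1 x y) z - sp u (f1 x y) z) ^ 2 +
      (sp g (f2 x y) z - sp u (f2 x y) z) ^ 2) (U \ Zr r) ∧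
    ∫ z in U \ Zr r, ((sp g (f1 x y) z - sp u (f1 x y) z) ^ 2 +
      (sp g (f2 x y) z - sp u (f2 x y) z) ^ 2) ≤ 4 * ep := by
  obtain ⟨iu, -, -⟩ := Xs_fin hX hu
  have hgi := Xs_int hX hg.1.cl x y
  have ig : IntegrableOn (e2 x y g) (U \ Zr r) := hgi.mono_set sdiff_subset
  have hgO : Lpo g (U \ Zr r) := lpo_mono (sdiff_subset.trans u_sub_D) hg.1.cl.lip
  have huO : Lpo u (U \ Zr r) := lpo_mono (Xs_sub r) hu.lip
  have hint : IntegrableOn (fun z => (sp g (f1 x y) z - sp u (f1 x y) z) ^ 2 +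
      (sp g (f2 x y) z - sp u (f2 x y) z) ^ 2) (U \ Zr r) := by
    have hb : Integrable (fun z => 2 * e2 x y g z + 2 * e2 x y u z)
      (volume.restrict (U \ Zr r)) := (ig.const_mul 2).add (iu.const_mul 2)
    refine hb.mono' ?_ ?_
    · exact (((Xs_meas (Xs_open r) hgO _).sub (Xs_meas (Xs_open r) huO _)).pow 2).add
        (((Xs_meas (Xs_open r) hgO _).sub (Xs_meas (Xs_open r) huO _)).pow 2)
    · filter_upwards with z
      rw [Real.norm_of_nonneg (add_nonneg (sq_nonneg _) (sq_nonneg _))]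
      unfold e2
      nlinarith [sq_nonneg (sp g (f1 x y) z + sp u (f1 x y) z),
        sq_nonneg (sp g (f2 x y) z + sp u (f2 x y) z)]
  refine ⟨hint, ?_⟩
  have ht := (Xs_cov r).integral_tendsto_of_countably_generated hint
  refine le_of_tendsto ht (Eventually.of_forall fun m => ?_)
  rw [Xs_rr (Xs_dpos m)]
  obtain ⟨g', hg', hgu⟩ := hu.app (Kd r (Xs_d m)) (kd_sub (Xs_dpos m)) (kd_cpt _ _) ep hep
  have h1 := H46XB.near_conv hX hg hg' 0
  rw [(H46XB.frame_zero x y).1, (H46XB.frame_zero x y).2] at h1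
  refine le_trans ?_ h1
  have im : IntegrableOn (fun z => H98NX.mt g g' (f1 x y) z + H98NX.mt g g' (f2 x y) z) U :=
    (H46XB.mt_int hX hg.1.cl hg'.1.cl _).add (H46XB.mt_int hX hg.1.cl hg'.1.cl _)
  have hWU : Wd r (Xs_d m) ⊆ U := fun z hz => (Xs_Wsub (Xs_dpos m) hz).1
  calc ∫ z in Wd r (Xs_d m), ((sp g (f1 x y) z - sp u (f1 x y) z) ^ 2 +
      (sp g (f2 x y) z - sp u (f2 x y) z) ^ 2)
      ≤ ∫ z in Wd r (Xs_d m), (H98NX.mt g g' (f1 x y) z + H98NX.mt g g' (f2 x y) z) := by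
        refine setIntegral_mono_on (hint.mono_set (Xs_Wsub (Xs_dpos m))) (im.mono_set hWU)
          (wd_open r _).measurableSet fun z hz => ?_
        rw [← Xs_eq hgu hz, ← Xs_eq hgu hz]
        exact add_le_add (le_max_left _ _) (le_max_left _ _)
    _ ≤ ∫ z in U, (H98NX.mt g g' (f1 x y) z + H98NX.mt g g' (f2 x y) z) :=
        setIntegral_mono_set im (ae_of_all _ fun z =>
          add_nonneg (H46XB.mt_nonneg g g' _ z) (H46XB.mt_nonneg g g' _ z))
          (LE.le.eventuallyLE hWU)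

theorem lim_energy (hX : Npc X gm) {r : ℝ} (hr0 : 0 < r) (hr : r < 1/4) {o : X} {x y : ℝ} (hy : 0 < y)
    {u : ℝ × ℝ → X} (hu : Lim A B C r o x y u) :
    IntegrableOn (e2 x y u) (U \ Zr r) ∧ ∫ z in U \ Zr r, e2 x y u z = E0 A B C r o x y := by
  obtain ⟨iu, hle, -⟩ := Xs_fin hX hu
  refine ⟨iu, le_antisymm hle ?_⟩
  set I := ∫ z in U \ Zr r, e2 x y u z with hI
  have key : ∀ n : ℕ, E0 A B C r o x y ≤ (1 + (1 / 4 : ℝ) ^ n) * I +
      (4 * (1 / 4 : ℝ) ^ n * (1 / 4 : ℝ) ^ n + 4 * (1 / 4 : ℝ) ^ n) := by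
    intro n
    have hn : (0 : ℝ) < (1 / 4) ^ n := by positivity
    have hep : (0 : ℝ) < (1 / 4) ^ n * (1 / 4) ^ n := mul_pos hn hn
    obtain ⟨g, hg, -⟩ := hu.app (Kd r 1) (kd_sub one_pos) (kd_cpt _ _) _ hep
    obtain ⟨i1, h1⟩ := Xs_dev hX hu hep hg
    have ig : IntegrableOn (e2 x y g) (U \ Zr r) := (Xs_int hX hg.1.cl x y).mono_set sdiff_subset
    have h2 : E0 A B C r o x y ≤ ∫ z in U \ Zr r, e2 x y g z := by
      rw [← Xs_sq hr hg.1]
      exact H46XB.E0_le hg.1 x y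
    refine h2.trans ?_
    have i2 := (iu.const_mul (1 + (1 / 4 : ℝ) ^ n)).add (i1.const_mul (1 + 1 / (1 / 4 : ℝ) ^ n))
    have h3 : ∫ z in U \ Zr r, e2 x y g z ≤ (1 + (1 / 4 : ℝ) ^ n) * I +
        (1 + 1 / (1 / 4 : ℝ) ^ n) * ∫ z in U \ Zr r, ((sp g (f1 x y) z - sp u (f1 x y) z) ^ 2 +
      (sp g (f2 x y) z - sp u (f2 x y) z) ^ 2) := by
      rw [hI, ← integral_const_mul, ← integral_const_mul, ← integral_add
        (iu.const_mul (1 + (1 / 4 : ℝ) ^ n)) (i1.const_mul (1 + 1 / (1 / 4 : ℝ) ^ n))]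
      refine integral_mono ig i2 fun z => ?_
      have e : ∀ a b : ℝ, a ^ 2 ≤ (1 + (1 / 4 : ℝ) ^ n) * b ^ 2 +
          (1 + 1 / (1 / 4 : ℝ) ^ n) * (a - b) ^ 2 := by
        intro a b
        have e1 : 0 ≤ ((1 / 4 : ℝ) ^ n * b - (a - b)) ^ 2 / (1 / 4 : ℝ) ^ n :=
          div_nonneg (sq_nonneg _) hn.le
        have e2 : ((1 / 4 : ℝ) ^ n * b - (a - b)) ^ 2 / (1 / 4 : ℝ) ^ n =
            (1 / 4 : ℝ) ^ n * b ^ 2 - 2 * b * (a - b) + 1 / (1 / 4 : ℝ) ^ n * (a - b) ^ 2 := by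
          field_simp
          ring
        rw [e2] at e1
        nlinarith
      have e1 := e (sp g (f1 x y) z) (sp u (f1 x y) z)
      have e2' := e (sp g (f2 x y) z) (sp u (f2 x y) z)
      simp only [e2]
      linarith
    refine h3.trans ?_
    have h4 : (1 + 1 / (1 / 4 : ℝ) ^ n) * ∫ z in U \ Zr r, ((sp g (f1 x y) z - sp u (f1 x y) z) ^ 2 +
      (sp g (f2 x y) z - sp u (f2 x y) z) ^ 2) ≤
        (1 + 1 / (1 / 4 : ℝ) ^ n) * (4 * ((1 / 4) ^ n * (1 / 4) ^ n)) :=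
      mul_le_mul_of_nonneg_left h1 (by positivity)
    have h5 : (1 + 1 / (1 / 4 : ℝ) ^ n) * (4 * ((1 / 4) ^ n * (1 / 4) ^ n)) =
        4 * (1 / 4 : ℝ) ^ n * (1 / 4 : ℝ) ^ n + 4 * (1 / 4 : ℝ) ^ n := by
      have := hn.ne'
      field_simp
    linarith
  have ht : Tendsto (fun n : ℕ => (1 + (1 / 4 : ℝ) ^ n) * I +
      (4 * (1 / 4 : ℝ) ^ n * (1 / 4 : ℝ) ^ n + 4 * (1 / 4 : ℝ) ^ n)) atTop
      (𝓝 ((1 + 0) * I + (4 * 0 * 0 + 4 * 0))) := by
    have h0 : Tendsto (fun n : ℕ => (1 / 4 : ℝ) ^ n) atTop (𝓝 0) :=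
      tendsto_pow_atTop_nhds_zero_of_lt_one (by norm_num) (by norm_num)
    exact ((h0.const_add 1).mul_const I).add (((h0.const_mul 4).mul h0).add (h0.const_mul 4))
  have h6 := ge_of_tendsto ht (Eventually.of_forall key)
  simpa using h6

theorem lim_tail (hX : Npc X gm) {r : ℝ} (hr0 : 0 < r) (hr : r < 1/4) {o : X} {x y : ℝ} (hy : 0 < y)
    {u : ℝ × ℝ → X} (hu : Lim A B C r o x y u) {e : ℝ} (he : 0 < e) :
    ∃ d : ℝ, 0 < d ∧ ∀ K' : Set (ℝ × ℝ), MeasurableSet K' → Kd r d ⊆ K' → K' ⊆ Gd r →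
      ∀ (ep : ℝ) (g : ℝ × ℝ → X), Nr A B C r o x y ep g → (∀ z ∈ K', g z = u z) →
        ∫ z in U \ K', e2 x y g z ≤ ep + e := by
  obtain ⟨-, -, ht⟩ := Xs_fin hX hu
  rw [(lim_energy hX hr0 hr hy hu).2] at ht
  obtain ⟨n, hn⟩ := (ht.eventually_const_lt (sub_lt_self _ he)).exists
  refine ⟨Xs_d n, Xs_dpos n, ?_⟩
  intro K' hK' hsub _ ep g hg hgu
  have ig := Xs_int hX hg.1.cl x y
  have hWU : Wd r (Xs_d n) ⊆ U := fun z hz => (Xs_Wsub (Xs_dpos n) hz).1
  have hWm : MeasurableSet (Wd r (Xs_d n)) := (wd_open r _).measurableSet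
  have h1 : ∫ z in Wd r (Xs_d n), e2 x y u z = ∫ z in Wd r (Xs_d n), e2 x y g z := by
    refine setIntegral_congr_fun hWm fun z hz => ?_
    have hgu' : ∀ z ∈ Kd r (Xs_d n), g z = u z := fun z hz => hgu z (hsub hz)
    unfold e2
    rw [Xs_eq hgu' hz, Xs_eq hgu' hz]
  have h2 : ∫ z in U \ K', e2 x y g z ≤ ∫ z in U \ Wd r (Xs_d n), e2 x y g z :=
    setIntegral_mono_set (ig.mono_set sdiff_subset) (ae_of_all _ fun z => Xs_e2nn x y g z)
      (LE.le.eventuallyLE (sdiff_subset_sdiff_right ((wd_sub r _).trans hsub)))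
  rw [setIntegral_sdiff hWm ig hWU] at h2
  have h3 : ∫ z in U, e2 x y g z ≤ E0 A B C r o x y + ep := hg.2
  linarith

end H98NX
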