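import Pool.Agent.H98.NX.Xa

set_option autoImplicit false

/-!
# Row Xa2: geometry of the seams, second part

* rs_mp: x -> sg s x + const preserves the volume (translation: measurePreserving_add_left; reflection: Measure.measurePreserving_neg; rs_lin with x = 0).
* ws_glu: x in Ws s, x in D, x not in U (a seam point; impossible for s = 0): 1: x = (1,v): f x = C f(0,v). 2: x = (0,v): f x = C^-1 f(1,v). 3: x = (u,0), u<1/2: f(1-u,0) = A f(u,0) so
  f x = A^-1 f(1-u,0). 4: x = (u,0), u>1/2: with u' = 1-u: f(1-u',0) = A f(u',0). 5, 6: the same with B and height 1/2.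
* wg_eq: for r < 1/4: Zr r = closedBall (1/4,1/4) r (sup norm) is contained in U (zr_sub). If x in Ws s, x in D: rt s x = x, and Rs s x is not in Zr (s = 0: Rs = id; s <> 0: Rs s x is not in U by
  ws_seam, ws_UR, u_sub_D). If x in Ws s, x not in D: rt s x = Rs s x and x is not in Zr.
* wg_open: Ws s open, Zr closed, Rs s continuous (rs_dist).
* seg_cross: x in D, y not in D: let z be the last point of D on the segment from x to y: T = {t in [0,1] : x + t(y-x) in D} is compact (D closed) and contains 0, t0 = sup T < 1, z = x + t0 (y - x)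
  in D; z is not in U because U is open and contained in D and the points x + t(y-x), t > t0, are not in D. dist x z + dist z y = dist x y.
* vol_DU: D minus U is a null set (four segments).
-/

namespace H98NX

open H50NA MeasureTheory Set Filter Topology
open H80HM (D U P f1 f2)

noncomputable section

theorem xa2_memD {x : ℝ × ℝ} : x ∈ D ↔ (0 ≤ x.1 ∧ x.1 ≤ 1) ∧ (0 ≤ x.2 ∧ x.2 ≤ 1/2) := Iff.rfl

theorem xa2_memU {x : ℝ × ℝ} : x ∈ U ↔ (0 < x.1 ∧ x.1 < 1) ∧ (0 < x.2 ∧ x.2 < 1/2) := Iff.rfl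

theorem xa2_rs (s : Fin 7) (x : ℝ × ℝ) : Rs s x = Rs s 0 + sg s • x := by
  have := rs_lin s 0 x
  rwa [zero_add] at this

theorem xa2_cont (s : Fin 7) : Continuous (Rs s) :=
  (Isometry.of_dist_eq (rs_dist s)).continuous

theorem xa2_zr_le {r : ℝ} {x : ℝ × ℝ} (h : x ∈ Zr r) :
    |x.1 - 1/4| ≤ r ∧ |x.2 - 1/4| ≤ r := by
  rw [Zr, Metric.mem_closedBall, Prod.dist_eq, max_le_iff] at h
  exact h

theorem rs_mp (s : Fin 7) : MeasurePreserving (Rs s) (volume : Measure (ℝ × ℝ)) volume := by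
  rcases sg_pm s with h | h
  · have e : Rs s = fun x => Rs s 0 + x := by
      funext x
      rw [xa2_rs, h, one_smul]
    rw [e]
    exact measurePreserving_add_left volume (Rs s 0)
  · have e : Rs s = (fun x => Rs s 0 + x) ∘ (fun x => -x) := by
      funext x
      rw [xa2_rs, h, neg_smul, one_smul]
      rfl
    rw [e]
    exact (measurePreserving_add_left volume (Rs s 0)).comp (Measure.measurePreserving_neg volume)

theorem ws_glu {X : Type} [MetricSpace X] {A B C : X ≃ᵢ X} {f : ℝ × ℝ → X} (hf : Glu A B C f) {s : Fin 7}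
    {x : ℝ × ℝ} (h : x ∈ Ws s) (hD : x ∈ D) (hU : x ∉ U) : f x = gs A B C s (f (Rs s x)) := by
  obtain ⟨u, v⟩ := x
  rw [xa2_memD] at hD
  rw [xa2_memU] at hU
  simp only at hD hU
  have key : ¬ (0 < u ∧ u < 1 ∧ 0 < v ∧ v < 1/2) := fun h => hU ⟨⟨h.1, h.2.1⟩, h.2.2⟩
  obtain ⟨⟨hu0, hu1⟩, hv0, hv1⟩ := hD
  fin_cases s
  · exact absurd (show (u, v) ∈ U from h) (by rw [xa2_memU]; exact hU)
  · have h' : (1/2 < u ∧ u < 3/2) ∧ (0 < v ∧ v < 1/2) := h
    obtain ⟨⟨a1, a2⟩, a3, a4⟩ := h'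
    have hu : u = 1 := by
      by_contra hc
      exact key ⟨by linarith, lt_of_le_of_ne hu1 hc, a3, a4⟩
    subst hu
    have e : Rs (1 : Fin 7) ((1:ℝ), v) = (0, v) := by
      show ((1:ℝ) - 1, v) = (0, v)
      rw [sub_self]
    show f (1, v) = C (f (Rs (1 : Fin 7) ((1:ℝ), v)))
    rw [e]
    exact hf.glC v ⟨a3, a4⟩
  · have h' : (-1/2 < u ∧ u < 1/2) ∧ (0 < v ∧ v < 1/2) := h
    obtain ⟨⟨a1, a2⟩, a3, a4⟩ := h'
    have hu : u = 0 := by
      by_contra hc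
      exact key ⟨lt_of_le_of_ne hu0 (Ne.symm hc), by linarith, a3, a4⟩
    subst hu
    have e : Rs (2 : Fin 7) ((0:ℝ), v) = (1, v) := by
      show ((0:ℝ) + 1, v) = (1, v)
      rw [zero_add]
    show f (0, v) = C.symm (f (Rs (2 : Fin 7) ((0:ℝ), v)))
    rw [e, hf.glC v ⟨a3, a4⟩, IsometryEquiv.symm_apply_apply]
  · have h' : (0 < u ∧ u < 1/2) ∧ (-1/2 < v ∧ v < 1/2) := h
    obtain ⟨⟨a1, a2⟩, a3, a4⟩ := h'
    have hv : v = 0 := by
      by_contra hc
      exact key ⟨a1, by linarith, lt_of_le_of_ne hv0 (Ne.symm hc), a4⟩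
    subst hv
    have e : Rs (3 : Fin 7) (u, (0:ℝ)) = (1 - u, 0) := by
      show (1 - u, -(0:ℝ)) = (1 - u, 0)
      rw [neg_zero]
    show f (u, 0) = A.symm (f (Rs (3 : Fin 7) (u, (0:ℝ))))
    rw [e, hf.glA u ⟨a1, a2⟩, IsometryEquiv.symm_apply_apply]
  · have h' : (1/2 < u ∧ u < 1) ∧ (-1/2 < v ∧ v < 1/2) := h
    obtain ⟨⟨a1, a2⟩, a3, a4⟩ := h'
    have hv : v = 0 := by
      by_contra hc
      exact key ⟨by linarith, a2, lt_of_le_of_ne hv0 (Ne.symm hc), a4⟩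
    subst hv
    have e : Rs (4 : Fin 7) (u, (0:ℝ)) = (1 - u, 0) := by
      show (1 - u, -(0:ℝ)) = (1 - u, 0)
      rw [neg_zero]
    show f (u, 0) = A (f (Rs (4 : Fin 7) (u, (0:ℝ))))
    have := hf.glA (1 - u) ⟨by linarith, by linarith⟩
    rw [sub_sub_cancel] at this
    rw [e, this]
  · have h' : (0 < u ∧ u < 1/2) ∧ (0 < v ∧ v < 1) := h
    obtain ⟨⟨a1, a2⟩, a3, a4⟩ := h'
    have hv : v = 1/2 := by
      by_contra hc
      exact key ⟨a1, by linarith, a3, lt_of_le_of_ne hv1 hc⟩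
    subst hv
    have e : Rs (5 : Fin 7) (u, (1/2:ℝ)) = (1 - u, 1/2) := by
      show (1 - u, 1 - (1/2:ℝ)) = (1 - u, 1/2)
      norm_num
    show f (u, 1/2) = B.symm (f (Rs (5 : Fin 7) (u, (1/2:ℝ))))
    rw [e, hf.glB u ⟨a1, a2⟩, IsometryEquiv.symm_apply_apply]
  · have h' : (1/2 < u ∧ u < 1) ∧ (0 < v ∧ v < 1) := h
    obtain ⟨⟨a1, a2⟩, a3, a4⟩ := h'
    have hv : v = 1/2 := by
      by_contra hc
      exact key ⟨by linarith, a2, a3, lt_of_le_of_ne hv1 hc⟩
    subst hv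
    have e : Rs (6 : Fin 7) (u, (1/2:ℝ)) = (1 - u, 1/2) := by
      show (1 - u, 1 - (1/2:ℝ)) = (1 - u, 1/2)
      norm_num
    show f (u, 1/2) = B (f (Rs (6 : Fin 7) (u, (1/2:ℝ))))
    have := hf.glB (1 - u) ⟨by linarith, by linarith⟩
    rw [sub_sub_cancel] at this
    rw [e, this]

theorem zr_sub {r : ℝ} (hr : r < 1/4) : Zr r ⊆ U := by
  intro x hx
  obtain ⟨h1, h2⟩ := xa2_zr_le hx
  rw [abs_le] at h1 h2
  rw [xa2_memU]
  refine ⟨⟨by linarith [h1.1], by linarith [h1.2]⟩, by linarith [h2.1], by linarith [h2.2]⟩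

theorem wg_eq {r : ℝ} (hr : r < 1/4) (s : Fin 7) : Wg r s = Ws s \ (Zr r ∪ Rs s ⁻¹' Zr r) := by
  have hZD : ∀ y, y ∈ Zr r → y ∈ D := fun y hy => (u_sub_D (zr_sub hr hy)).1
  ext x
  constructor
  · rintro ⟨h1, h2⟩
    refine ⟨h1, ?_⟩
    rintro (h3 | h3)
    · have hD : x ∈ D := hZD x h3
      rw [rt, if_pos hD] at h2
      exact h2 h3
    · have h3' : Rs s x ∈ Zr r := h3
      by_cases hD : x ∈ D
      · rw [rt, if_pos hD] at h2
        by_cases hs : s = 0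
        · subst hs
          exact h2 h3'
        · by_cases hU : x ∈ U
          · exact ws_UR h1 hU hs (hZD _ h3')
          · exact (ws_seam h1 hD hU).2 (zr_sub hr h3')
      · rw [rt, if_neg hD] at h2
        exact h2 h3'
  · rintro ⟨h1, h2⟩
    refine ⟨h1, ?_⟩
    intro h3
    by_cases hD : x ∈ D
    · rw [rt, if_pos hD] at h3
      exact h2 (Or.inl h3)
    · rw [rt, if_neg hD] at h3
      exact h2 (Or.inr h3)

theorem wg_open {r : ℝ} (hr : r < 1/4) (s : Fin 7) : IsOpen (Wg r s) := by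
  rw [wg_eq hr]
  refine (ws_open s).sdiff (IsClosed.union ?_ ?_)
  · exact Metric.isClosed_closedBall
  · exact IsClosed.preimage (xa2_cont s) Metric.isClosed_closedBall

theorem seg_cross {x y : ℝ × ℝ} (hx : x ∈ D) (hy : y ∉ D) :
    ∃ z ∈ segment ℝ x y, z ∈ D ∧ z ∉ U ∧ dist x z + dist z y = dist x y := by
  let g : ℝ → ℝ × ℝ := fun t => x + t • (y - x)
  have hg : Continuous g := by fun_prop
  let T : Set ℝ := Icc 0 1 ∩ g ⁻¹' D
  have hTc : IsCompact T := isCompact_Icc.inter_right (d_closed.preimage hg)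
  have h0 : (0 : ℝ) ∈ T := by
    refine ⟨⟨le_rfl, zero_le_one⟩, ?_⟩
    show x + (0:ℝ) • (y - x) ∈ D
    rw [zero_smul, add_zero]
    exact hx
  obtain ⟨t0, ht0, hmax⟩ := hTc.exists_isGreatest ⟨0, h0⟩
  have h1 : t0 < 1 := by
    refine lt_of_le_of_ne ht0.1.2 ?_
    intro h
    apply hy
    have : g t0 ∈ D := ht0.2
    rw [h] at this
    have e : g 1 = y := by
      show x + (1:ℝ) • (y - x) = y
      rw [one_smul, add_sub_cancel]
    rwa [e] at this
  have hz : g t0 ∈ segment ℝ x y := by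
    rw [segment_eq_image']
    exact ⟨t0, ht0.1, rfl⟩
  refine ⟨g t0, hz, ht0.2, ?_, dist_add_dist_of_mem_segment hz⟩
  intro hU
  have e1 : ∀ᶠ t in 𝓝[>] t0, g t ∈ U :=
    (hg.continuousAt.eventually (u_open.mem_nhds hU)).filter_mono nhdsWithin_le_nhds
  have e2 : ∀ᶠ t in 𝓝[>] t0, t < 1 :=
    (Filter.Eventually.filter_mono nhdsWithin_le_nhds (eventually_lt_nhds h1))
  obtain ⟨t, ⟨ht1, ht2⟩, ht3⟩ := ((e1.and e2).and self_mem_nhdsWithin).exists
  have ht3' : t0 < t := ht3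
  have : t ≤ t0 := hmax ⟨⟨by linarith [ht0.1.1], ht2.le⟩, (u_sub_D ht1).1⟩
  linarith

theorem vol_DU : (volume : Measure (ℝ × ℝ)) (D \ U) = 0 := by
  have h : (D : Set (ℝ × ℝ)) =ᵐ[(volume : Measure (ℝ × ℝ))] U :=
    Measure.set_prod_ae_eq (Ioo_ae_eq_Icc).symm (Ioo_ae_eq_Icc).symm
  exact (ae_eq_set.1 h).1

end

end H98NX
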