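import Pool.Agent.H98.NX.Na

set_option autoImplicit false

/-!
# Row Nb: quadrilateral inequalities

* quad_two (N2): cn for the point q_t against p_s: d(p_s,q_t)^2 <= (1-s) d(p0,q_t)^2 + s d(p1,q_t)^2 - s(1-s) d(p0,p1)^2, then cn for the geodesic q:
  d(p_i,q_t)^2 <= (1-t) d(p_i,q0)^2 + t d(p_i,q1)^2 - t(1-t) d(q0,q1)^2.
* quad_diag (N3): apply quad_two to the geodesics p0 -> q1 and p1 -> q0 with the same parameter s in (0,1); the left side is >= 0: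
  s(1-s)(d(p0,q1)^2 + d(p1,q0)^2) <= (1-s)^2 d(p0,p1)^2 + s(1-s)(d(p0,q0)^2 + d(q1,p1)^2) + s^2 d(q1,q0)^2. With lam = (1-s)/s > 0 arbitrary:
  d(p0,q1)^2 + d(p1,q0)^2 <= d(p0,q0)^2 + d(p1,q1)^2 + lam d(p0,p1)^2 + lam^{-1} d(q0,q1)^2. If A = d(p0,p1) > 0, B = d(q0,q1) > 0 take lam = B/A (sum 2AB); if A = 0 let
  lam -> infinity, if B = 0 let lam -> 0.
* quad_par: quad_diag with (a0,a1,b0,b1) replaced: the sum of the squares of the two diagonals of a quadrilateral p0 p1 q1 q0 is at most the sum of the squares of the four sides: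
  from quad_diag and 2AB <= A^2+B^2.
-/

namespace H98NX

open H50NA Set

variable {X : Type} [MetricSpace X] {gm : X → X → ℝ → X}

theorem quad_two (h : Npc X gm) (p0 p1 q0 q1 : X) {s t : ℝ} (hs : 0 ≤ s) (hs1 : s ≤ 1) (ht : 0 ≤ t)
    (ht1 : t ≤ 1) :
    dist (gm p0 p1 s) (gm q0 q1 t) ^ 2 ≤ (1 - s) * (1 - t) * dist p0 q0 ^ 2 + (1 - s) * t * dist p0 q1 ^ 2
      + s * (1 - t) * dist p1 q0 ^ 2 + s * t * dist p1 q1 ^ 2 - s * (1 - s) * dist p0 p1 ^ 2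
      - t * (1 - t) * dist q0 q1 ^ 2 := by
  have h1 := h.cn p0 p1 (gm q0 q1 t) s hs hs1
  have h2 := h.cn q0 q1 p0 t ht ht1
  have h3 := h.cn q0 q1 p1 t ht ht1
  rw [dist_comm (gm q0 q1 t) p0, dist_comm q0 p0, dist_comm q1 p0] at h2
  rw [dist_comm (gm q0 q1 t) p1, dist_comm q0 p1, dist_comm q1 p1] at h3
  have h4 := mul_le_mul_of_nonneg_left h2 (sub_nonneg.2 hs1)
  have h5 := mul_le_mul_of_nonneg_left h3 hs
  linear_combination h1 + h4 + h5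

theorem Nb_real {A B D : ℝ} (hA : 0 ≤ A) (hB : 0 ≤ B)
    (h : ∀ s : ℝ, 0 ≤ s → s ≤ 1 → s * (1 - s) * D ≤ (1 - s) ^ 2 * A ^ 2 + s ^ 2 * B ^ 2) :
    D ≤ 2 * A * B := by
  have hlim : Filter.Tendsto (fun ε : ℝ => 2 * (A + ε) * (B + ε)) (nhdsWithin 0 (Ioi 0))
      (nhds (2 * A * B)) := by
    have hc : Continuous (fun ε : ℝ => 2 * (A + ε) * (B + ε)) := by fun_prop
    exact (hc.tendsto' 0 _ (by simp)).mono_left nhdsWithin_le_nhds
  refine ge_of_tendsto hlim ?_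
  filter_upwards [self_mem_nhdsWithin] with ε hε
  have hε' : 0 < ε := hε
  have hS : 0 < A + B + 2 * ε := by linarith
  have h1 := h ((A + ε) / (A + B + 2 * ε)) (by positivity) (by
    rw [div_le_one hS]
    linarith)
  have e : 1 - (A + ε) / (A + B + 2 * ε) = (B + ε) / (A + B + 2 * ε) := by
    field_simp
    ring
  rw [e] at h1
  have h2 : (A + ε) * (B + ε) * D ≤ (B + ε) ^ 2 * A ^ 2 + (A + ε) ^ 2 * B ^ 2 := by
    have h3 := mul_le_mul_of_nonneg_left h1 (sq_nonneg (A + B + 2 * ε))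
    have e1 : (A + B + 2 * ε) ^ 2 * ((A + ε) / (A + B + 2 * ε) * ((B + ε) / (A + B + 2 * ε)) * D) =
        (A + ε) * (B + ε) * D := by
      field_simp
    have e2 : (A + B + 2 * ε) ^ 2 * (((B + ε) / (A + B + 2 * ε)) ^ 2 * A ^ 2 +
        ((A + ε) / (A + B + 2 * ε)) ^ 2 * B ^ 2) = (B + ε) ^ 2 * A ^ 2 + (A + ε) ^ 2 * B ^ 2 := by
      field_simp
    rw [e1, e2] at h3
    exact h3
  have h4 : (B + ε) ^ 2 * A ^ 2 ≤ (B + ε) ^ 2 * (A + ε) ^ 2 := by gcongr; linarith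
  have h5 : (A + ε) ^ 2 * B ^ 2 ≤ (A + ε) ^ 2 * (B + ε) ^ 2 := by gcongr; linarith
  have hpos : 0 < (A + ε) * (B + ε) := by positivity
  refine le_of_mul_le_mul_left ?_ hpos
  nlinarith

theorem quad_diag (h : Npc X gm) (p0 p1 q0 q1 : X) :
    dist p0 q1 ^ 2 + dist p1 q0 ^ 2 ≤ dist p0 q0 ^ 2 + dist p1 q1 ^ 2 + 2 * dist p0 p1 * dist q0 q1 := by
  have key : dist p0 q1 ^ 2 + dist p1 q0 ^ 2 - dist p0 q0 ^ 2 - dist p1 q1 ^ 2 ≤
      2 * dist p0 p1 * dist q0 q1 := by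
    refine Nb_real dist_nonneg dist_nonneg fun s hs hs1 => ?_
    have h1 := quad_two h p0 q1 p1 q0 hs hs1 hs hs1
    have h2 := sq_nonneg (dist (gm p0 q1 s) (gm p1 q0 s))
    rw [dist_comm q1 p1, dist_comm q1 q0] at h1
    linear_combination h1 + h2
  linarith

theorem quad_par (h : Npc X gm) (a b c d : X) :
    dist a c ^ 2 + dist b d ^ 2 ≤ dist a b ^ 2 + dist b c ^ 2 + dist c d ^ 2 + dist d a ^ 2 := by
  have h1 := quad_diag h a b d c
  have h2 := sq_nonneg (dist a b - dist d c)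
  rw [dist_comm c d, dist_comm d a]
  nlinarith

end H98NX
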