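import Pool.Agent.H98.NX.Ef

set_option autoImplicit false

/-!
# Row Eg: the parallelogram inequality for speeds (E5, first half)

Let C be compact in O and h > 0 small. For x in C apply quad_par to a = f x, b = f(x+ht), c = f(x+ht+ht'), d = f(x+ht'):
 dist a c^2 + dist b d^2 <= dist a b^2 + dist b c^2 + dist c d^2 + dist d a^2. Divide by h^2 and integrate over C (everything is continuous and bounded on C for small h):
 dist a c: difference quotient in direction t+t' at x -> int_C sp(t+t')^2 (sp_conv);   dist b d = dist(f(x+ht'+h(t-t')))(f(x+ht')) -> int_C sp(t-t')^2 (sp_conv2, shift t');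
 dist a b -> int_C sp(t)^2;   dist b c = dist(f(x+ht+ht'))(f(x+ht)) -> int_C sp(t')^2 (sp_conv2 with shift t, direction t');
 dist c d = dist(f(x+ht'+ht))(f(x+ht')) -> int_C sp(t)^2 (sp_conv2, shift t');   dist d a -> int_C sp(t')^2.
So int_C (sp(t+t')^2 + sp(t-t')^2) <= int_C (2 sp(t)^2 + 2 sp(t')^2) for every compact C in O; conclude with ae_of_int (integrability: sp_sq_int with S = C).
-/

namespace H98NX

open H50NA MeasureTheory Set Filter Topology

variable {E X : Type} [NormedAddCommGroup E] [NormedSpace ℝ E] [MetricSpace X] [FiniteDimensional ℝ E]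
  [MeasurableSpace E] [BorelSpace E] (mu : Measure E) [mu.IsAddHaarMeasure] {gm : X → X → ℝ → X}

omit [MeasurableSpace E] [BorelSpace E] in
theorem Eg_cont {f : E → X} {O C : Set E} (hO : IsOpen O) (hf : Lpo f O) (hC : IsCompact C) (hCO : C ⊆ O)
    (v w : E) : ∀ᶠ h in 𝓝[≠] (0 : ℝ),
      ContinuousOn (fun x => dist (f (x + h • v)) (f (x + h • w)) ^ 2 / h ^ 2) C := by
  obtain ⟨d, hd, L, _, hdO, _, _, _⟩ := lpo_nbhd hO hf hC hCO
  have hcont := lpo_cont hO hf
  have key : ∀ u : E, ∀ᶠ h in 𝓝[≠] (0 : ℝ), ContinuousOn (fun x => f (x + h • u)) C := by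
    intro u
    have h1 : Tendsto (fun h : ℝ => ‖h • u‖) (𝓝 0) (𝓝 0) := by
      have h2 : Continuous fun h : ℝ => ‖h • u‖ := by fun_prop
      have h3 := h2.tendsto 0
      simpa using h3
    have h4 : ∀ᶠ h in 𝓝[≠] (0 : ℝ), ‖h • u‖ < d :=
      (h1.mono_left nhdsWithin_le_nhds).eventually_lt_const hd
    filter_upwards [h4] with h hh
    refine hcont.comp (by fun_prop) fun x hx => hdO ?_
    refine Metric.mem_cthickening_of_dist_le (x + h • u) x d C hx ?_
    rw [dist_eq_norm, add_sub_cancel_left]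
    exact hh.le
  filter_upwards [key v, key w] with h hv hw
  exact ((continuous_dist.comp_continuousOn (hv.prodMk hw)).pow 2).div_const _

theorem Eg_lim {f : E → X} {O C : Set E} (hO : IsOpen O) (hf : Lpo f O) (hC : IsCompact C) (hCO : C ⊆ O)
    (v w : E) :
    Tendsto (fun h : ℝ => ∫ x in C, dist (f (x + h • v)) (f (x + h • w)) ^ 2 / h ^ 2 ∂mu) (𝓝[≠] 0)
      (𝓝 (∫ x in C, sp f (v - w) x ^ 2 ∂mu)) := by
  have h1 := sp_conv2 mu hO hf hC hCO (v - w) w
  have h2 : ∀ (h : ℝ) (x : E), x + h • w + h • (v - w) = x + h • v := fun h x => by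
    rw [smul_sub]
    abel
  simpa only [h2] using h1

theorem sp_par1 (hX : Npc X gm) {f : E → X} {O : Set E} (hO : IsOpen O) (hf : Lpo f O) (t t' : E) :
    ∀ᵐ x ∂mu, x ∈ O →
      sp f (t + t') x ^ 2 + sp f (t - t') x ^ 2 ≤ 2 * sp f t x ^ 2 + 2 * sp f t' x ^ 2 := by
  refine ae_of_int mu hO (F := fun x => sp f (t + t') x ^ 2 + sp f (t - t') x ^ 2)
    (G := fun x => 2 * sp f t x ^ 2 + 2 * sp f t' x ^ 2) ?_ ?_ ?_
  · intro C hCO hC
    exact (sp_sq_int mu hO hf hC hCO hC.measurableSet subset_rfl (t + t')).1.add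
      (sp_sq_int mu hO hf hC hCO hC.measurableSet subset_rfl (t - t')).1
  · intro C hCO hC
    exact ((sp_sq_int mu hO hf hC hCO hC.measurableSet subset_rfl t).1.const_mul 2).add
      ((sp_sq_int mu hO hf hC hCO hC.measurableSet subset_rfl t').1.const_mul 2)
  · intro C hCO hC
    have hi : ∀ u : E, IntegrableOn (fun x => sp f u x ^ 2) C mu := fun u =>
      (sp_sq_int mu hO hf hC hCO hC.measurableSet subset_rfl u).1
    rw [integral_add (hi _) (hi _), integral_add ((hi _).const_mul 2) ((hi _).const_mul 2),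
      integral_const_mul, integral_const_mul]
    have L1 := Eg_lim mu hO hf hC hCO (t + t') 0
    have L2 := Eg_lim mu hO hf hC hCO t t'
    have L3 := Eg_lim mu hO hf hC hCO t 0
    have L4 := Eg_lim mu hO hf hC hCO (t + t') t
    have L5 := Eg_lim mu hO hf hC hCO (t + t') t'
    have L6 := Eg_lim mu hO hf hC hCO t' 0
    rw [sub_zero] at L1 L3 L6
    rw [add_sub_cancel_left] at L4
    rw [add_sub_cancel_right] at L5
    have hle := le_of_tendsto_of_tendsto (L1.add L2) (((L3.add L4).add L5).add L6) ?_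
    · linarith
    · filter_upwards [Eg_cont hO hf hC hCO (t + t') 0, Eg_cont hO hf hC hCO t t',
        Eg_cont hO hf hC hCO t 0, Eg_cont hO hf hC hCO (t + t') t,
        Eg_cont hO hf hC hCO (t + t') t', Eg_cont hO hf hC hCO t' 0] with h c1 c2 c3 c4 c5 c6
      have i1 := c1.integrableOn_compact (μ := mu) hC
      have i2 := c2.integrableOn_compact (μ := mu) hC
      have i3 := c3.integrableOn_compact (μ := mu) hC
      have i4 := c4.integrableOn_compact (μ := mu) hC
      have i5 := c5.integrableOn_compact (μ := mu) hC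
      have i6 := c6.integrableOn_compact (μ := mu) hC
      have e1 := integral_add i1 i2
      have e3 := integral_add i3 i4
      have e4 := integral_add (i3.add i4) i5
      have e5 := integral_add ((i3.add i4).add i5) i6
      simp only [Pi.add_apply] at e1 e3 e4 e5
      have hm : ∫ x in C, (dist (f (x + h • (t + t'))) (f (x + h • (0 : E))) ^ 2 / h ^ 2 +
          dist (f (x + h • t)) (f (x + h • t')) ^ 2 / h ^ 2) ∂mu ≤
          ∫ x in C, (dist (f (x + h • t)) (f (x + h • (0 : E))) ^ 2 / h ^ 2 +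
          dist (f (x + h • (t + t'))) (f (x + h • t)) ^ 2 / h ^ 2 +
          dist (f (x + h • (t + t'))) (f (x + h • t')) ^ 2 / h ^ 2 +
          dist (f (x + h • t')) (f (x + h • (0 : E))) ^ 2 / h ^ 2) ∂mu := by
        refine integral_mono (i1.add i2) (((i3.add i4).add i5).add i6) fun x => ?_
        have q := quad_par hX (f (x + h • (0 : E))) (f (x + h • t)) (f (x + h • (t + t')))
          (f (x + h • t'))
        rw [dist_comm (f (x + h • (0 : E))) (f (x + h • (t + t'))),
          dist_comm (f (x + h • (0 : E))) (f (x + h • t)),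
          dist_comm (f (x + h • t)) (f (x + h • (t + t')))] at q
        change dist (f (x + h • (t + t'))) (f (x + h • (0 : E))) ^ 2 / h ^ 2 +
          dist (f (x + h • t)) (f (x + h • t')) ^ 2 / h ^ 2 ≤
          dist (f (x + h • t)) (f (x + h • (0 : E))) ^ 2 / h ^ 2 +
          dist (f (x + h • (t + t'))) (f (x + h • t)) ^ 2 / h ^ 2 +
          dist (f (x + h • (t + t'))) (f (x + h • t')) ^ 2 / h ^ 2 +
          dist (f (x + h • t')) (f (x + h • (0 : E))) ^ 2 / h ^ 2
        rw [← add_div, ← add_div, ← add_div, ← add_div]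
        exact div_le_div_of_nonneg_right q (sq_nonneg h)
      change _ + _ ≤ _ + _ + _ + _
      linarith

end H98NX
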