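import Pool.Agent.H50.NA.Defs

set_option autoImplicit false

/-!
# Row Na: geodesics in nonpositively curved spaces

Write l = dist p q, z_t = gm p q t (0 <= t <= 1). All from h.cn (and h.zero, h.one are not needed here).
* gm_dl, gm_dr: cn with z = p: dist z_t p ^2 <= t l^2 - t(1-t) l^2 = (t l)^2; with z = q: dist z_t q ^2 <= ((1-t) l)^2. Since l <= dist p z_t + dist z_t q both are equalities.
* gm_dist: cn with z = gm p q s: dist z_t z_s ^2 <= (1-t)(s l)^2 + t((1-s) l)^2 - t(1-t) l^2 = ((s-t) l)^2; conversely dist z_t z_s >= |dist p z_t - dist p z_s| = |t-s| l.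
* gm_uniq: cn: dist z_t z ^2 <= (1-t) t^2 l^2 + t (1-t)^2 l^2 - t(1-t) l^2 = 0.
* gm_self: gm_uniq with z = p (l = 0). gm_symm: gm_uniq for z = gm q p t and the parameter 1 - t. gm_iso: gm_uniq for z = g (gm p q t).
-/

namespace H98NX

open H50NA Set

variable {X : Type} [MetricSpace X] {gm : X → X → ℝ → X}

theorem gm_both (h : Npc X gm) (p q : X) {t : ℝ} (ht : 0 ≤ t) (ht1 : t ≤ 1) :
    dist p (gm p q t) = t * dist p q ∧ dist (gm p q t) q = (1 - t) * dist p q := by
  have h1 := h.cn p q p t ht ht1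
  have h2 := h.cn p q q t ht ht1
  rw [dist_self, dist_comm q p, dist_comm (gm p q t) p] at h1
  rw [dist_self] at h2
  have hl : 0 ≤ dist p q := dist_nonneg
  have a1 : dist p (gm p q t) ≤ t * dist p q := by
    apply le_of_sq_le_sq _ (mul_nonneg ht hl) |> fun x => x
    nlinarith
  have a2 : dist (gm p q t) q ≤ (1 - t) * dist p q := by
    apply le_of_sq_le_sq _ (mul_nonneg (by linarith) hl) |> fun x => x
    nlinarith
  have a3 := dist_triangle p (gm p q t) q
  constructor <;> nlinarith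

theorem gm_dl (h : Npc X gm) (p q : X) {t : ℝ} (ht : 0 ≤ t) (ht1 : t ≤ 1) :
    dist p (gm p q t) = t * dist p q := (gm_both h p q ht ht1).1

theorem gm_dr (h : Npc X gm) (p q : X) {t : ℝ} (ht : 0 ≤ t) (ht1 : t ≤ 1) :
    dist (gm p q t) q = (1 - t) * dist p q := (gm_both h p q ht ht1).2

theorem gm_dist (h : Npc X gm) (p q : X) {s t : ℝ} (hs : 0 ≤ s) (hs1 : s ≤ 1) (ht : 0 ≤ t) (ht1 : t ≤ 1) :
    dist (gm p q s) (gm p q t) = |s - t| * dist p q := by
  have hl : 0 ≤ dist p q := dist_nonneg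
  have e1 := gm_dl h p q hs hs1
  have e2 := gm_dr h p q hs hs1
  have e3 := gm_dl h p q ht ht1
  have h1 := h.cn p q (gm p q s) t ht ht1
  rw [dist_comm q (gm p q s), e1, e2, dist_comm (gm p q t) (gm p q s)] at h1
  have a1 : dist (gm p q s) (gm p q t) ≤ |s - t| * dist p q := by
    apply le_of_sq_le_sq _ (mul_nonneg (abs_nonneg _) hl) |> fun x => x
    rw [mul_pow, sq_abs]
    nlinarith
  have a2 : |s - t| * dist p q ≤ dist (gm p q s) (gm p q t) := by
    have := abs_dist_sub_le p p (gm p q s)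
    have b1 := dist_triangle p (gm p q s) (gm p q t)
    have b2 := dist_triangle p (gm p q t) (gm p q s)
    rw [dist_comm (gm p q t) (gm p q s)] at b2
    rw [e1, e3] at b1 b2
    rcases le_total s t with hst | hst
    · rw [abs_of_nonpos (by linarith)]
      nlinarith
    · rw [abs_of_nonneg (by linarith)]
      nlinarith
  exact le_antisymm a1 a2

theorem gm_uniq (h : Npc X gm) {p q z : X} {t : ℝ} (ht : 0 ≤ t) (ht1 : t ≤ 1)
    (h1 : dist p z ≤ t * dist p q) (h2 : dist z q ≤ (1 - t) * dist p q) : z = gm p q t := by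
  have hl : 0 ≤ dist p q := dist_nonneg
  have h3 := h.cn p q z t ht ht1
  rw [dist_comm q z] at h3
  have b1 : dist p z ^ 2 ≤ (t * dist p q) ^ 2 := pow_le_pow_left₀ dist_nonneg h1 2
  have b2 : dist z q ^ 2 ≤ ((1 - t) * dist p q) ^ 2 := pow_le_pow_left₀ dist_nonneg h2 2
  have b3 : dist (gm p q t) z ^ 2 ≤ 0 := by
    have c1 := mul_le_mul_of_nonneg_left b1 (by linarith : 0 ≤ 1 - t)
    have c2 := mul_le_mul_of_nonneg_left b2 ht
    nlinarith
  have b4 : dist (gm p q t) z = 0 := by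
    have := sq_nonneg (dist (gm p q t) z)
    exact pow_eq_zero_iff (two_ne_zero) |>.1 (le_antisymm b3 this)
  exact (dist_eq_zero.1 b4).symm

theorem gm_self (h : Npc X gm) (p : X) {t : ℝ} (ht : 0 ≤ t) (ht1 : t ≤ 1) : gm p p t = p := by
  refine (gm_uniq h ht ht1 ?_ ?_).symm <;> simp

theorem gm_symm (h : Npc X gm) (p q : X) {t : ℝ} (ht : 0 ≤ t) (ht1 : t ≤ 1) :
    gm q p t = gm p q (1 - t) := by
  refine gm_uniq h (by linarith) (by linarith) ?_ ?_
  · rw [dist_comm p, gm_dr h q p ht ht1, dist_comm q p]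
  · rw [dist_comm _ q, gm_dl h q p ht ht1, dist_comm q p]
    apply le_of_eq
    ring

theorem gm_iso (h : Npc X gm) (g : X → X) (hg : ∀ a b, dist (g a) (g b) = dist a b) (p q : X)
    {t : ℝ} (ht : 0 ≤ t) (ht1 : t ≤ 1) : g (gm p q t) = gm (g p) (g q) t := by
  refine gm_uniq h ht ht1 ?_ ?_
  · rw [hg, hg, gm_dl h p q ht ht1]
  · rw [hg, hg, gm_dr h p q ht ht1]

end H98NX
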