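import Pool.Agent.H98.NX.Xa2

set_option autoImplicit false

/-!
# Row Xg: first facts about the class

X nonpositively curved (Npc X gm).
* clx_md: f in Clx: a.e. z in U: MD f z (md_ae with O = U, U open, contained in D minus P: u_sub_D, lpo_mono).
* sp_sq_le: at a point with MD f z (sp_pair): sp f (a,b)^2 = a^2 p^2 + 2ab B + b^2 q^2, |B| <= p q, so <= 2 a^2 p^2 + 2 b^2 q^2, p = sp f (1,0) z, q = sp f (0,1) z.
* clx_int: f in Clx, any t: sp f t ^2 is integrable on U: measurable (row Eb sp_meas on U), bounded a.e. by 2(t.1^2 + t.2^2)(p^2+q^2). Also e2 x y f.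
* ex_nonneg: integral of a nonnegative function. e0_le: csInf_le, the set is bounded below by 0. ex_eq: Ex is the integral of e2 (rfl).
* sp_e2: for y > 0, MD f z: p^2 <= e2/y and q^2 <= 2 (y + x^2/y) e2: indeed (1,0) = f1/sqrt y, and (0,1) = sqrt y f2 + (x/sqrt y) f1 [f1 = (sqrt y, 0), f2 = (-x/sqrt y, 1/sqrt y)], use
  sp(a f1 + b f2)^2 <= 2a^2 sp(f1)^2 + 2 b^2 sp(f2)^2 (B is positive semidefinite: B(t+t',t+t') <= 2B(t,t) + 2B(t',t')). So the energy at x + i y controls p^2 + q^2: there is a constant K(x,y) with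
  sp f t z ^2 <= K |t|^2 e2 x y f z for all t and all z with MD f z.
* nr_ex: if Cl0 is nonempty there are near-minimisers (exists_lt_of_csInf_lt); hence a sequence f_j with Nr (16^{-j}).
-/

set_option autoImplicit false

/-!
# Row Xg: first facts about the class

X nonpositively curved (Npc X gm).
* clx_md: f in Clx: a.e. z in U: MD f z (md_ae with O = U, U open, contained in D minus P: u_sub_D, lpo_mono).
* sp_sq_le: at a point with MD f z (sp_pair): sp f (a,b)^2 = a^2 p^2 + 2ab B + b^2 q^2, |B| <= p q, so <= 2 a^2 p^2 + 2 b^2 q^2, p = sp f (1,0) z, q = sp f (0,1) z.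
* clx_int: f in Clx, any t: sp f t ^2 is integrable on U: measurable (row Eb sp_meas on U), bounded a.e. by 2(t.1^2 + t.2^2)(p^2+q^2). Also e2 x y f.
* ex_nonneg: integral of a nonnegative function. e0_le: csInf_le, the set is bounded below by 0. ex_eq: Ex is the integral of e2 (rfl).
* sp_e2: for y > 0, MD f z: p^2 <= e2/y and q^2 <= 2 (y + x^2/y) e2: indeed (1,0) = f1/sqrt y, and (0,1) = sqrt y f2 + (x/sqrt y) f1 [f1 = (sqrt y, 0), f2 = (-x/sqrt y, 1/sqrt y)], use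
  sp(a f1 + b f2)^2 <= 2a^2 sp(f1)^2 + 2 b^2 sp(f2)^2 (B is positive semidefinite: B(t+t',t+t') <= 2B(t,t) + 2B(t',t')). So the energy at x + i y controls p^2 + q^2: there is a constant K(x,y) with
  sp f t z ^2 <= K |t|^2 e2 x y f z for all t and all z with MD f z.
* nr_ex: if Cl0 is nonempty there are near-minimisers (exists_lt_of_csInf_lt); hence a sequence f_j with Nr (16^{-j}).
-/

namespace H98NX

open H50NA MeasureTheory Set Filter Topology
open H80HM (D U P f1 f2)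

noncomputable section

variable {X : Type} [MetricSpace X] {gm : X → X → ℝ → X} {A B C : X ≃ᵢ X}

private theorem Xg_two {f : ℝ × ℝ → X} {z : ℝ × ℝ} (h : MD f z) (u v : ℝ × ℝ) (a b : ℝ) :
    sp f (a • u + b • v) z ^ 2 ≤ 2 * a ^ 2 * sp f u z ^ 2 + 2 * b ^ 2 * sp f v z ^ 2 := by
  obtain ⟨-, B, hB, hs⟩ := h
  have h1 : 0 ≤ sp f (a • u - b • v) z ^ 2 := sq_nonneg _
  rw [hs] at h1
  rw [hs, hs, hs]
  simp only [map_add, map_sub, map_smul, LinearMap.add_apply, LinearMap.sub_apply,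
    LinearMap.smul_apply, smul_eq_mul] at h1 ⊢
  rw [hB v u] at h1 ⊢
  nlinarith

theorem lpo_md (hX : Npc X gm) {f : ℝ × ℝ → X} {O : Set (ℝ × ℝ)} (hO : IsOpen O) (hf : Lpo f O) :
    ∀ᵐ z : ℝ × ℝ, z ∈ O → MD f z := md_ae volume hX hO hf

theorem clx_md (hX : Npc X gm) {f : ℝ × ℝ → X} (hf : Clx A B C f) : ∀ᵐ z : ℝ × ℝ, z ∈ U → MD f z :=
  lpo_md hX u_open (lpo_mono u_sub_D hf.lip)

theorem sp_sq_le {f : ℝ × ℝ → X} {z : ℝ × ℝ} (h : MD f z) (t : ℝ × ℝ) :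
    sp f t z ^ 2 ≤ 2 * t.1 ^ 2 * sp f (1, 0) z ^ 2 + 2 * t.2 ^ 2 * sp f (0, 1) z ^ 2 := by
  have h1 := Xg_two h (1, 0) (0, 1) t.1 t.2
  have h2 : t.1 • ((1 : ℝ), (0 : ℝ)) + t.2 • ((0 : ℝ), (1 : ℝ)) = t := by
    apply Prod.ext
    · simp
    · simp
  rw [h2] at h1
  exact h1

theorem clx_int (hX : Npc X gm) {f : ℝ × ℝ → X} (hf : Clx A B C f) (t : ℝ × ℝ) :
    IntegrableOn (fun z => sp f t z ^ 2) U := by
  have hm : Measurable (U.indicator (sp f t)) :=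
    sp_meas u_open (lpo_cont u_open (lpo_mono u_sub_D hf.lip)) t
  have hm1 : AEStronglyMeasurable (sp f t) (volume.restrict U) :=
    (aestronglyMeasurable_indicator_iff u_open.measurableSet).1 hm.aestronglyMeasurable
  have hm2 : AEStronglyMeasurable (fun z => sp f t z ^ 2) (volume.restrict U) := hm1.pow 2
  have hg : IntegrableOn (fun z => (2 * t.1 ^ 2 + 2 * t.2 ^ 2) *
      (sp f (1, 0) z ^ 2 + sp f (0, 1) z ^ 2)) U := hf.fin.const_mul _
  refine Integrable.mono' hg hm2 ?_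
  rw [ae_restrict_iff' u_open.measurableSet]
  filter_upwards [clx_md hX hf] with z hz hzU
  have h1 := sp_sq_le (hz hzU) t
  rw [Real.norm_eq_abs, abs_of_nonneg (sq_nonneg _)]
  have h2 : 0 ≤ t.1 ^ 2 * sp f (0, 1) z ^ 2 := by positivity
  have h3 : 0 ≤ t.2 ^ 2 * sp f (1, 0) z ^ 2 := by positivity
  nlinarith

theorem clx_e2 (hX : Npc X gm) {f : ℝ × ℝ → X} (hf : Clx A B C f) (x y : ℝ) : IntegrableOn (e2 x y f) U :=
  (clx_int hX hf (f1 x y)).add (clx_int hX hf (f2 x y))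

theorem ex_eq (x y : ℝ) (f : ℝ × ℝ → X) : Ex x y f = ∫ z in U, e2 x y f z := rfl

theorem ex_nonneg (x y : ℝ) (f : ℝ × ℝ → X) : 0 ≤ Ex x y f := by
  rw [Ex]
  exact integral_nonneg fun z => by positivity

theorem e0_nonneg (r : ℝ) (o : X) (x y : ℝ) : 0 ≤ E0 A B C r o x y := by
  apply Real.sInf_nonneg
  rintro _ ⟨f, _, rfl⟩
  exact ex_nonneg x y f

theorem e0_le {r : ℝ} {o : X} {x y : ℝ} {f : ℝ × ℝ → X} (hf : Cl0 A B C r o f) : E0 A B C r o x y ≤ Ex x y f := by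
  refine csInf_le ⟨0, ?_⟩ ⟨f, hf, rfl⟩
  rintro _ ⟨g, _, rfl⟩
  exact ex_nonneg x y g

theorem nr_ex {r : ℝ} {o : X} {x y ep : ℝ} (hep : 0 < ep) (h : ∃ f, Cl0 A B C r o f) :
    ∃ f, Nr A B C r o x y ep f := by
  obtain ⟨f0, hf0⟩ := h
  have hne : {e | ∃ f, Cl0 A B C r o f ∧ e = Ex x y f}.Nonempty := ⟨_, f0, hf0, rfl⟩
  obtain ⟨e, ⟨f, hf, rfl⟩, he⟩ := exists_lt_of_csInf_lt hne
    (show sInf {e | ∃ f, Cl0 A B C r o f ∧ e = Ex x y f} < E0 A B C r o x y + ep by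
      rw [E0]
      linarith)
  exact ⟨f, hf, he.le⟩

theorem sp_e2 {x y : ℝ} (hy : 0 < y) : ∃ K : ℝ, 0 < K ∧ ∀ (f : ℝ × ℝ → X) (z : ℝ × ℝ), MD f z → ∀ t : ℝ × ℝ,
    sp f t z ^ 2 ≤ K * ‖t‖ ^ 2 * e2 x y f z := by
  refine ⟨2 * ((1 + |x|) ^ 2 / y + y), by positivity, fun f z h t => ?_⟩
  have hs : 0 < Real.sqrt y := Real.sqrt_pos.2 hy
  have hss : Real.sqrt y ^ 2 = y := Real.sq_sqrt hy.le
  have h1 := Xg_two h (f1 x y) (f2 x y) ((t.1 + x * t.2) / Real.sqrt y) (Real.sqrt y * t.2)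
  have h2 : ((t.1 + x * t.2) / Real.sqrt y) • f1 x y + (Real.sqrt y * t.2) • f2 x y = t := by
    apply Prod.ext
    · simp only [f1, f2, Prod.fst_add, Prod.smul_fst, smul_eq_mul]
      field_simp
      ring
    · simp only [f1, f2, Prod.snd_add, Prod.smul_snd, smul_eq_mul]
      field_simp
      ring
  rw [h2] at h1
  have ht1 : |t.1| ≤ ‖t‖ := norm_fst_le t
  have ht2 : |t.2| ≤ ‖t‖ := norm_snd_le t
  have h0 : 0 ≤ ‖t‖ := norm_nonneg t
  have ha : ((t.1 + x * t.2) / Real.sqrt y) ^ 2 ≤ (1 + |x|) ^ 2 / y * ‖t‖ ^ 2 := by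
    rw [div_pow, hss, div_mul_eq_mul_div, ← mul_pow]
    apply div_le_div_of_nonneg_right _ hy.le
    rw [← sq_abs (t.1 + x * t.2)]
    apply pow_le_pow_left₀ (abs_nonneg _)
    calc |t.1 + x * t.2| ≤ |t.1| + |x * t.2| := abs_add_le _ _
      _ = |t.1| + |x| * |t.2| := by rw [abs_mul]
      _ ≤ ‖t‖ + |x| * ‖t‖ := by
          have := mul_le_mul_of_nonneg_left ht2 (abs_nonneg x)
          linarith
      _ = (1 + |x|) * ‖t‖ := by ring
  have hb : (Real.sqrt y * t.2) ^ 2 ≤ y * ‖t‖ ^ 2 := by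
    rw [mul_pow, hss, ← sq_abs t.2]
    apply mul_le_mul_of_nonneg_left _ hy.le
    exact pow_le_pow_left₀ (abs_nonneg _) ht2 2
  have p1 : 0 ≤ sp f (f1 x y) z ^ 2 := sq_nonneg _
  have p2 : 0 ≤ sp f (f2 x y) z ^ 2 := sq_nonneg _
  have c1 : 0 ≤ (1 + |x|) ^ 2 / y * ‖t‖ ^ 2 := by positivity
  have c2 : 0 ≤ y * ‖t‖ ^ 2 := by positivity
  rw [e2]
  have m1 := mul_le_mul_of_nonneg_right ha p1
  have m2 := mul_le_mul_of_nonneg_right hb p2
  have m3 := mul_nonneg c1 p2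
  have m4 := mul_nonneg c2 p1
  nlinarith

end

end H98NX
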