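import Pool.Agent.H98.NX.Nc

set_option autoImplicit false

/-!
# Row Ea: locally Lipschitz maps

* lpo_mono, lpo_congr, lpo_const: trivial (in lpo_congr the points x, y of C lie in S).
* lpo_loc: let C be compact, C in S. The local condition makes f continuous on C, so f '' C is compact, hence bounded: dist (f x)(f y) <= M on C. If there were no constant L for C there would be
  x_n, y_n in C with dist (f x_n)(f y_n) > n dist x_n y_n; then dist x_n y_n < M/n -> 0 (M > 0), pass to a subsequence x_n -> x in C, y_n -> x; for large n both are in the ball of the local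
  condition at x: contradiction. (Or use the Lebesgue number lemma for the cover of C by the balls.)
* lpo_ball: E is finite dimensional, so closed balls are compact; take closedBall x r in O and the constant of this compact set, replaced by max L 0.
* lpo_cont: from lpo_ball at every point.
* lpo_dist: |dist(f x)(g x) - dist(f y)(g y)| <= dist(f x)(f y) + dist(g x)(g y).
* lpo_gm: int_tri (row Nc): dist(gm (f x)(g x)(eta x))(gm (f y)(g y)(eta y)) <= dist(f x)(f y) + dist(g x)(g y) + |eta x - eta y| dist(f y)(g y), and dist(f y)(g y) is bounded on the compact set C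
  (it is continuous there by lpo_dist; if C is empty nothing to prove). The Lipschitz constants may be taken >= 0.
* lpo_mul: products of real functions: both are bounded on C. lpo_add, lpo_lip: easy.
* lpo_comp: if L : E' -> E is Lipschitz, then f o L is Lpo on S' whenever L maps S' into S (images of compact sets are compact).
* lpo_diff: Rademacher. Cover O by countably many balls ball x r as in lpo_ball (Lindelof; or: it is enough to show that every x in O has a neighbourhood on which the statement holds a.e.,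
  MeasureTheory: null sets may be tested locally, measure_null_of_locally_null), on each of them q is LipschitzOnWith, use
  LipschitzOnWith.ae_differentiableWithinAt_of_mem and differentiableWithinAt on an open set = differentiableAt. The measure mu is a Haar measure.
* lpo_aes: d is continuous on the open set O.
-/

namespace H98NX

open H50NA MeasureTheory Set Filter Topology

variable {E X : Type} [NormedAddCommGroup E] [NormedSpace ℝ E] [MetricSpace X] {gm : X → X → ℝ → X}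

theorem Ea_lip {f : E → X} {C : Set E}
    (h : ∃ L : ℝ, ∀ x ∈ C, ∀ y ∈ C, dist (f x) (f y) ≤ L * dist x y) :
    ∃ K : NNReal, LipschitzOnWith K f C := by
  obtain ⟨L, hL⟩ := h
  refine ⟨Real.toNNReal L, LipschitzOnWith.of_dist_le_mul fun x hx y hy => ?_⟩
  exact (hL x hx y hy).trans (mul_le_mul_of_nonneg_right (Real.le_coe_toNNReal L) dist_nonneg)

theorem Ea_lip' {f : E → X} {C : Set E} {K : NNReal} (h : LipschitzOnWith K f C) :
    ∃ L : ℝ, 0 ≤ L ∧ ∀ x ∈ C, ∀ y ∈ C, dist (f x) (f y) ≤ L * dist x y :=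
  ⟨K, K.2, fun x hx y hy => h.dist_le_mul x hx y hy⟩

theorem Ea_pos {f : E → X} {S C : Set E} (hf : Lpo f S) (hCS : C ⊆ S) (hC : IsCompact C) :
    ∃ L : ℝ, 0 ≤ L ∧ ∀ x ∈ C, ∀ y ∈ C, dist (f x) (f y) ≤ L * dist x y := by
  obtain ⟨K, hK⟩ := Ea_lip (hf C hCS hC)
  exact Ea_lip' hK

theorem Ea_bd {q : E → ℝ} {S C : Set E} (hq : Lpo q S) (hCS : C ⊆ S) (hC : IsCompact C) :
    ∃ M : ℝ, 0 ≤ M ∧ ∀ x ∈ C, |q x| ≤ M := by
  obtain ⟨K, hK⟩ := Ea_lip (hq C hCS hC)
  obtain ⟨M, hM⟩ := hC.exists_bound_of_continuousOn hK.continuousOn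
  refine ⟨max M 0, le_max_right _ _, fun x hx => ?_⟩
  rw [← Real.norm_eq_abs]
  exact (hM x hx).trans (le_max_left _ _)

theorem lpo_mono {f : E → X} {S S' : Set E} (h : S' ⊆ S) (hf : Lpo f S) : Lpo f S' :=
  fun C hC hc => hf C (hC.trans h) hc

theorem lpo_congr {f g : E → X} {S : Set E} (h : ∀ x ∈ S, g x = f x) (hf : Lpo f S) : Lpo g S := by
  intro C hC hc
  obtain ⟨L, hL⟩ := hf C hC hc
  refine ⟨L, fun x hx y hy => ?_⟩
  rw [h x (hC hx), h y (hC hy)]
  exact hL x hx y hy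

theorem lpo_const (c : X) (S : Set E) : Lpo (fun _ : E => c) S :=
  fun C _ _ => ⟨0, fun x _ y _ => by rw [dist_self, zero_mul]⟩

theorem lpo_loc {f : E → X} {S : Set E}
    (h : ∀ x ∈ S, ∃ r : ℝ, 0 < r ∧ ∃ L : ℝ, ∀ y ∈ S ∩ Metric.ball x r, ∀ z ∈ S ∩ Metric.ball x r,
      dist (f y) (f z) ≤ L * dist y z) : Lpo f S := by
  intro C hCS hC
  have hloc : LocallyLipschitzOn C f := by
    intro x hx
    obtain ⟨r, hr, L, hL⟩ := h x (hCS hx)
    have hL' : ∃ L : ℝ, ∀ y ∈ C ∩ Metric.ball x r, ∀ z ∈ C ∩ Metric.ball x r,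
        dist (f y) (f z) ≤ L * dist y z :=
      ⟨L, fun y hy z hz => hL y ⟨hCS hy.1, hy.2⟩ z ⟨hCS hz.1, hz.2⟩⟩
    obtain ⟨K, hK⟩ := Ea_lip hL'
    exact ⟨K, C ∩ Metric.ball x r, inter_mem_nhdsWithin C (Metric.ball_mem_nhds x hr), hK⟩
  obtain ⟨K, hK⟩ := hloc.exists_lipschitzOnWith_of_compact hC
  obtain ⟨L, -, hL⟩ := Ea_lip' hK
  exact ⟨L, hL⟩

theorem lpo_comp {E' : Type} [NormedAddCommGroup E'] [NormedSpace ℝ E'] {f : E → X} {S : Set E} {S' : Set E'}
    {G : E' → E} {K : ℝ} (hG : ∀ x y, dist (G x) (G y) ≤ K * dist x y) (hS : ∀ x ∈ S', G x ∈ S)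
    (hf : Lpo f S) : Lpo (fun x => f (G x)) S' := by
  intro C hCS hC
  have hGl : LipschitzWith (Real.toNNReal K) G := LipschitzWith.of_dist_le_mul fun x y =>
    (hG x y).trans (mul_le_mul_of_nonneg_right (Real.le_coe_toNNReal K) dist_nonneg)
  obtain ⟨L, hL0, hL⟩ := Ea_pos hf (image_subset_iff.2 fun x hx => hS x (hCS hx))
    (hC.image hGl.continuous)
  refine ⟨L * K, fun x hx y hy => ?_⟩
  calc dist (f (G x)) (f (G y)) ≤ L * dist (G x) (G y) :=
        hL _ (mem_image_of_mem G hx) _ (mem_image_of_mem G hy)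
    _ ≤ L * (K * dist x y) := mul_le_mul_of_nonneg_left (hG x y) hL0
    _ = L * K * dist x y := by ring

theorem lpo_isom {Y : Type} [MetricSpace Y] {f : E → X} {S : Set E} (g : X → Y) (hg : ∀ a b, dist (g a) (g b) = dist a b)
    (hf : Lpo f S) : Lpo (fun x => g (f x)) S := by
  intro C hC hc
  obtain ⟨L, hL⟩ := hf C hC hc
  refine ⟨L, fun x hx y hy => ?_⟩
  rw [hg]
  exact hL x hx y hy

theorem lpo_dist {f g : E → X} {S : Set E} (hf : Lpo f S) (hg : Lpo g S) :
    Lpo (fun x => dist (f x) (g x)) S := by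
  intro C hC hc
  obtain ⟨L, hL⟩ := hf C hC hc
  obtain ⟨M, hM⟩ := hg C hC hc
  refine ⟨L + M, fun x hx y hy => ?_⟩
  calc dist (dist (f x) (g x)) (dist (f y) (g y)) ≤ dist (f x) (f y) + dist (g x) (g y) :=
        dist_dist_dist_le _ _ _ _
    _ ≤ L * dist x y + M * dist x y := add_le_add (hL x hx y hy) (hM x hx y hy)
    _ = (L + M) * dist x y := by ring

theorem lpo_lip {q : E → ℝ} {K : ℝ} (hq : ∀ x y, |q x - q y| ≤ K * dist x y) (S : Set E) : Lpo q S :=
  fun _ _ _ => ⟨K, fun x _ y _ => by rw [Real.dist_eq]; exact hq x y⟩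

theorem lpo_add {p q : E → ℝ} {S : Set E} (hp : Lpo p S) (hq : Lpo q S) : Lpo (fun x => p x + q x) S := by
  intro C hC hc
  obtain ⟨L, hL⟩ := hp C hC hc
  obtain ⟨M, hM⟩ := hq C hC hc
  refine ⟨L + M, fun x hx y hy => ?_⟩
  calc dist (p x + q x) (p y + q y) ≤ dist (p x) (p y) + dist (q x) (q y) :=
        dist_add_add_le _ _ _ _
    _ ≤ L * dist x y + M * dist x y := add_le_add (hL x hx y hy) (hM x hx y hy)
    _ = (L + M) * dist x y := by ring

theorem lpo_mul {p q : E → ℝ} {S : Set E} (hp : Lpo p S) (hq : Lpo q S) : Lpo (fun x => p x * q x) S := by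
  intro C hC hc
  obtain ⟨L, hL0, hL⟩ := Ea_pos hp hC hc
  obtain ⟨M, hM0, hM⟩ := Ea_pos hq hC hc
  obtain ⟨A, hA0, hA⟩ := Ea_bd hp hC hc
  obtain ⟨B, hB0, hB⟩ := Ea_bd hq hC hc
  refine ⟨A * M + B * L, fun x hx y hy => ?_⟩
  have h1 := hL x hx y hy
  have h2 := hM x hx y hy
  rw [Real.dist_eq] at h1 h2 ⊢
  have e : p x * q x - p y * q y = p x * (q x - q y) + q y * (p x - p y) := by ring
  calc |p x * q x - p y * q y| ≤ |p x * (q x - q y)| + |q y * (p x - p y)| := by
        rw [e]; exact abs_add_le _ _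
    _ = |p x| * |q x - q y| + |q y| * |p x - p y| := by rw [abs_mul, abs_mul]
    _ ≤ A * (M * dist x y) + B * (L * dist x y) :=
        add_le_add (mul_le_mul (hA x hx) h2 (abs_nonneg _) hA0)
          (mul_le_mul (hB y hy) h1 (abs_nonneg _) hB0)
    _ = (A * M + B * L) * dist x y := by ring

theorem lpo_gm (h : Npc X gm) {f g : E → X} {eta : E → ℝ} {S : Set E} (hf : Lpo f S) (hg : Lpo g S)
    (he : Lpo eta S) (h01 : ∀ x ∈ S, 0 ≤ eta x ∧ eta x ≤ 1) :
    Lpo (fun x => gm (f x) (g x) (eta x)) S := by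
  intro C hC hc
  obtain ⟨L, hL0, hL⟩ := Ea_pos hf hC hc
  obtain ⟨M, hM0, hM⟩ := Ea_pos hg hC hc
  obtain ⟨N, hN0, hN⟩ := Ea_pos he hC hc
  obtain ⟨B, hB0, hB⟩ := Ea_bd (lpo_dist hf hg) hC hc
  refine ⟨L + M + N * B, fun x hx y hy => ?_⟩
  obtain ⟨hx0, hx1⟩ := h01 x (hC hx)
  obtain ⟨hy0, hy1⟩ := h01 y (hC hy)
  have h1 := int_tri h (f x) (f y) (g x) (g y) hx0 hx1 hy0 hy1
  have h2 := hL x hx y hy
  have h3 := hM x hx y hy
  have h4 := hN x hx y hy
  rw [Real.dist_eq] at h4
  have h5 : dist (f y) (g y) ≤ B := (le_abs_self _).trans (hB y hy)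
  have hd : 0 ≤ dist x y := dist_nonneg
  have hd1 : 0 ≤ dist (f x) (f y) := dist_nonneg
  have hd2 : 0 ≤ dist (g x) (g y) := dist_nonneg
  have h6 : (1 - eta x) * dist (f x) (f y) ≤ L * dist x y :=
    (mul_le_of_le_one_left hd1 (by linarith)).trans h2
  have h7 : eta x * dist (g x) (g y) ≤ M * dist x y := (mul_le_of_le_one_left hd2 hx1).trans h3
  have h8 : |eta x - eta y| * dist (f y) (g y) ≤ N * dist x y * B :=
    mul_le_mul h4 h5 dist_nonneg (mul_nonneg hN0 hd)
  calc dist (gm (f x) (g x) (eta x)) (gm (f y) (g y) (eta y))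
      ≤ (1 - eta x) * dist (f x) (f y) + eta x * dist (g x) (g y)
        + |eta x - eta y| * dist (f y) (g y) := h1
    _ ≤ L * dist x y + M * dist x y + N * dist x y * B := add_le_add (add_le_add h6 h7) h8
    _ = (L + M + N * B) * dist x y := by ring

variable [FiniteDimensional ℝ E]

theorem lpo_ball {f : E → X} {O : Set E} (hO : IsOpen O) (hf : Lpo f O) {x : E} (hx : x ∈ O) :
    ∃ r : ℝ, 0 < r ∧ Metric.closedBall x r ⊆ O ∧ ∃ L : ℝ, 0 ≤ L ∧
      ∀ y ∈ Metric.closedBall x r, ∀ z ∈ Metric.closedBall x r, dist (f y) (f z) ≤ L * dist y z := by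
  haveI : ProperSpace E := FiniteDimensional.proper ℝ E
  obtain ⟨r, hr, hrO⟩ := Metric.nhds_basis_closedBall.mem_iff.1 (hO.mem_nhds hx)
  exact ⟨r, hr, hrO, Ea_pos hf hrO (isCompact_closedBall x r)⟩

theorem lpo_cont {f : E → X} {O : Set E} (hO : IsOpen O) (hf : Lpo f O) : ContinuousOn f O := by
  intro x hx
  obtain ⟨r, hr, hrO, L, hL0, hL⟩ := lpo_ball hO hf hx
  obtain ⟨K, hK⟩ := Ea_lip ⟨L, hL⟩
  exact (hK.continuousOn.continuousAt (Metric.closedBall_mem_nhds x hr)).continuousWithinAt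

variable [MeasurableSpace E] [BorelSpace E] (mu : Measure E) [mu.IsAddHaarMeasure]

theorem lpo_diff {q : E → ℝ} {O : Set E} (hO : IsOpen O) (hq : Lpo q O) :
    ∀ᵐ x ∂mu, x ∈ O → DifferentiableAt ℝ q x := by
  haveI : ProperSpace E := FiniteDimensional.proper ℝ E
  rw [ae_iff]
  apply measure_null_of_locally_null
  intro x hx
  have hxO : x ∈ O := by
    by_contra h
    exact hx fun h' => absurd h' h
  obtain ⟨r, hr, hrO, L, hL0, hL⟩ := lpo_ball hO hq hxO
  obtain ⟨K, hK⟩ := Ea_lip ⟨L, hL⟩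
  have hae := (hK.mono Metric.ball_subset_closedBall).ae_differentiableWithinAt_of_mem (μ := mu)
  rw [ae_iff] at hae
  refine ⟨{a | ¬(a ∈ Metric.ball x r → DifferentiableWithinAt ℝ q (Metric.ball x r) a)},
    ?_, hae⟩
  rw [mem_nhdsWithin]
  refine ⟨Metric.ball x r, Metric.isOpen_ball, Metric.mem_ball_self hr, ?_⟩
  rintro y ⟨hy1, hy2⟩ hy3
  apply hy2
  intro _
  exact (hy3 hy1).differentiableAt (Metric.isOpen_ball.mem_nhds hy1)

theorem lpo_aes {f g : E → X} {O : Set E} (hO : IsOpen O) (hf : Lpo f O) (hg : Lpo g O) :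
    AEStronglyMeasurable (fun x => dist (f x) (g x)) (mu.restrict O) := by
  haveI : ProperSpace E := FiniteDimensional.proper ℝ E
  exact (lpo_cont hO (lpo_dist hf hg)).aestronglyMeasurable hO.measurableSet

end H98NX
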