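import Pool.Agent.H98.NX.Nc

set_option autoImplicit false

/-!
# Row Eb: elementary properties of the speed

sp f t x = limsup_n (n+1) dist(f(x + t/(n+1)), f x).
* sp_nonneg: limsup of a sequence u_n >= 0 in R is the infimum of the set {a | eventually u_n <= a}; every a in it is >= 0 (infimum of the empty set is 0). Real.sInf_nonneg.
* sp_le: eventually x + t/(n+1) is in the neighbourhood, so u_n <= L |t| eventually.
* sp_eq_of_lim: limsup of a convergent sequence (Tendsto.limsup_eq), 1/(n+1) -> 0 within the punctured neighbourhood: dist(f(x+ht), f x)/|h| with h = 1/(n+1).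
* sp_loc: the sequences are eventually equal (Filter.limsup_congr).
* sp_isom: trivial. sp_lin: f o G with G(x + c t) = G x + c (L t) (G affine with linear part L): the sequences are equal.
* sp_zero: dist = 0. sp_const.
* sp_tri: |u_n(t) - u_n(t')| <= L |t-t'| eventually, so |limsup - limsup| <= L |t-t'| (both sequences are bounded: by sp_le). (limsup_le_limsup, limsup_add_const or direct with epsilon.)
* sp_meas: put f1 = f on O and f1 = f x0 off O (if O is empty the indicator is 0). For t, n the function u_n(x) = (n+1) dist(f(x+t/(n+1)), f x) agrees with a Borel function on the open set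
  W_n = {x in O : x + t/(n+1) in O}, where it is continuous; v_n := indicator of W_n of u_n is measurable (ContinuousOn on an open set: ContinuousOn.measurable_piecewise or
  Measurable.ite / measurable_of_isOpen). For x in O: x in W_n for large n, so sp f t x = limsup v_n(x). Measurable.limsup (real valued; conditionally complete version, or through
  the formula of the limsup), then restrict to O (indicator).
-/

namespace H98NX

open H50NA MeasureTheory Set Filter Topology

variable {E X : Type} [NormedAddCommGroup E] [NormedSpace ℝ E] [MetricSpace X]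

lemma Eb_bdd {u : ℕ → ℝ} (hu : ∀ n, 0 ≤ u n) : ∀ a ∈ {a | ∀ᶠ n in (atTop : Filter ℕ), u n ≤ a}, 0 ≤ a := by
  intro a ha
  have ha' : ∀ᶠ n in (atTop : Filter ℕ), u n ≤ a := ha
  obtain ⟨n, hn⟩ := ha'.exists
  exact (hu n).trans hn

lemma Eb_le {u : ℕ → ℝ} (hu : ∀ n, 0 ≤ u n) {a : ℝ} (h : ∀ᶠ n in (atTop : Filter ℕ), u n ≤ a) :
    Filter.limsup u atTop ≤ a := by
  rw [Filter.limsup_eq]
  exact csInf_le ⟨0, Eb_bdd hu⟩ h

lemma Eb_lim {u v : ℕ → ℝ} {c B : ℝ} (hu : ∀ n, 0 ≤ u n)
    (hvB : ∀ᶠ n in (atTop : Filter ℕ), v n ≤ B)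
    (h : ∀ᶠ n in (atTop : Filter ℕ), u n ≤ v n + c) :
    Filter.limsup u atTop ≤ Filter.limsup v atTop + c := by
  have h1 : Filter.limsup u atTop - c ≤ Filter.limsup v atTop := by
    rw [Filter.limsup_eq (u := v)]
    apply le_csInf ⟨B, hvB⟩
    intro a ha
    have h2 : Filter.limsup u atTop ≤ a + c := by
      apply Eb_le hu
      filter_upwards [h, ha] with n h3 h4
      linarith
    linarith
  linarith

lemma Eb_tend (x t : E) :
    Tendsto (fun n : ℕ => x + (1 / ((n : ℝ) + 1)) • t) atTop (𝓝 x) := by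
  have h1 : Tendsto (fun n : ℕ => 1 / ((n : ℝ) + 1)) atTop (𝓝 0) :=
    tendsto_one_div_add_atTop_nhds_zero_nat
  have h2 := (h1.smul_const t).const_add x
  rwa [zero_smul, add_zero] at h2

lemma Eb_pos (n : ℕ) : (0 : ℝ) < (n : ℝ) + 1 := by positivity

lemma Eb_dist (x t t' : E) (n : ℕ) : dist (x + (1 / ((n : ℝ) + 1)) • t) (x + (1 / ((n : ℝ) + 1)) • t') =
    1 / ((n : ℝ) + 1) * ‖t - t'‖ := by
  rw [dist_eq_norm, add_sub_add_left_eq_sub, ← smul_sub, norm_smul, Real.norm_of_nonneg]
  positivity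

lemma Eb_dist0 (x t : E) (n : ℕ) : dist (x + (1 / ((n : ℝ) + 1)) • t) x =
    1 / ((n : ℝ) + 1) * ‖t‖ := by
  have h := Eb_dist x t 0 n
  rwa [smul_zero, add_zero, sub_zero] at h

lemma Eb_nn (f : E → X) (t x : E) (n : ℕ) :
    0 ≤ ((n : ℝ) + 1) * dist (f (x + (1 / ((n : ℝ) + 1)) • t)) (f x) :=
  mul_nonneg (Eb_pos n).le dist_nonneg

theorem sp_nonneg (f : E → X) (t x : E) : 0 ≤ sp f t x := by
  unfold sp
  rw [Filter.limsup_eq]
  exact Real.sInf_nonneg (Eb_bdd (Eb_nn f t x))

lemma Eb_ev {f : E → X} {x : E} {r L : ℝ} (hr : 0 < r)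
    (h : ∀ y ∈ Metric.ball x r, dist (f y) (f x) ≤ L * dist y x) (t : E) :
    ∀ᶠ n : ℕ in atTop, ((n : ℝ) + 1) * dist (f (x + (1 / ((n : ℝ) + 1)) • t)) (f x) ≤ L * ‖t‖ := by
  filter_upwards [(Eb_tend x t).eventually (Metric.ball_mem_nhds x hr)] with n hn
  have h1 := h _ hn
  rw [Eb_dist0] at h1
  calc ((n : ℝ) + 1) * dist (f (x + (1 / ((n : ℝ) + 1)) • t)) (f x)
      ≤ ((n : ℝ) + 1) * (L * (1 / ((n : ℝ) + 1) * ‖t‖)) :=
        mul_le_mul_of_nonneg_left h1 (Eb_pos n).le
    _ = L * ‖t‖ := by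
        have := (Eb_pos n).ne'
        field_simp

theorem sp_le {f : E → X} {x : E} {r L : ℝ} (hr : 0 < r)
    (h : ∀ y ∈ Metric.ball x r, dist (f y) (f x) ≤ L * dist y x) (t : E) : sp f t x ≤ L * ‖t‖ := by
  unfold sp
  exact Eb_le (Eb_nn f t x) (Eb_ev hr h t)

theorem sp_eq_of_lim {f : E → X} {x t : E} {a : ℝ}
    (h : Tendsto (fun h : ℝ => dist (f (x + h • t)) (f x) / |h|) (𝓝[≠] 0) (𝓝 a)) : sp f t x = a := by
  have h1 : Tendsto (fun n : ℕ => 1 / ((n : ℝ) + 1)) atTop (𝓝[≠] 0) := by
    rw [tendsto_nhdsWithin_iff]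
    refine ⟨tendsto_one_div_add_atTop_nhds_zero_nat, Eventually.of_forall fun n => ?_⟩
    have : (0 : ℝ) < 1 / ((n : ℝ) + 1) := by positivity
    exact this.ne'
  have h2 := h.comp h1
  unfold sp
  apply Tendsto.limsup_eq
  refine h2.congr fun n => ?_
  show dist (f (x + (1 / ((n : ℝ) + 1)) • t)) (f x) / |1 / ((n : ℝ) + 1)| = _
  have h3 : (0 : ℝ) < 1 / ((n : ℝ) + 1) := by positivity
  rw [abs_of_pos h3, div_div_eq_mul_div, div_one, mul_comm]

theorem sp_loc {f g : E → X} {x : E} (h : f =ᶠ[𝓝 x] g) (t : E) : sp f t x = sp g t x := by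
  unfold sp
  apply Filter.limsup_congr
  filter_upwards [(Eb_tend x t).eventually h] with n hn
  rw [hn, h.eq_of_nhds]

theorem sp_isom {Y : Type} [MetricSpace Y] (f : E → X) (g : X → Y) (hg : ∀ a b, dist (g a) (g b) = dist a b) (t x : E) :
    sp (fun y => g (f y)) t x = sp f t x := by
  unfold sp
  simp only [hg]

theorem sp_lin {E' : Type} [NormedAddCommGroup E'] [NormedSpace ℝ E'] (f : E → X) (G : E' → E) (L : E' →ₗ[ℝ] E)
    (hG : ∀ x y, G (x + y) = G x + L y) (t x : E') : sp (fun y => f (G y)) t x = sp f (L t) (G x) := by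
  unfold sp
  simp only [hG, map_smul]

theorem sp_zero (f : E → X) (x : E) : sp f 0 x = 0 := by
  unfold sp
  simp only [smul_zero, add_zero, dist_self, mul_zero]
  exact Filter.limsup_const 0

theorem sp_const (c : X) (t x : E) : sp (fun _ : E => c) t x = 0 := by
  unfold sp
  simp only [dist_self, mul_zero]
  exact Filter.limsup_const 0

theorem sp_tri {f : E → X} {x : E} {r L : ℝ} (hr : 0 < r) (hL : 0 ≤ L)
    (h : ∀ y ∈ Metric.ball x r, ∀ z ∈ Metric.ball x r, dist (f y) (f z) ≤ L * dist y z) (t t' : E) :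
    |sp f t x - sp f t' x| ≤ L * ‖t - t'‖ := by
  have key : ∀ t t' : E, sp f t x ≤ sp f t' x + L * ‖t - t'‖ := by
    intro t t'
    unfold sp
    apply Eb_lim (Eb_nn f t x)
      (Eb_ev hr (fun y hy => h y hy x (Metric.mem_ball_self hr)) t')
    filter_upwards [(Eb_tend x t).eventually (Metric.ball_mem_nhds x hr),
      (Eb_tend x t').eventually (Metric.ball_mem_nhds x hr)] with n hn hn'
    have h1 := h _ hn _ hn'
    rw [Eb_dist] at h1
    have h2 := dist_triangle (f (x + (1 / ((n : ℝ) + 1)) • t)) (f (x + (1 / ((n : ℝ) + 1)) • t')) (f x)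
    calc ((n : ℝ) + 1) * dist (f (x + (1 / ((n : ℝ) + 1)) • t)) (f x)
        ≤ ((n : ℝ) + 1) * (L * (1 / ((n : ℝ) + 1) * ‖t - t'‖) +
          dist (f (x + (1 / ((n : ℝ) + 1)) • t')) (f x)) :=
          mul_le_mul_of_nonneg_left (by linarith) (Eb_pos n).le
      _ = ((n : ℝ) + 1) * dist (f (x + (1 / ((n : ℝ) + 1)) • t')) (f x) + L * ‖t - t'‖ := by
          have := (Eb_pos n).ne'
          field_simp
          ring
  rw [abs_sub_le_iff]
  have h1 := key t t'
  have h2 := key t' t
  rw [norm_sub_rev] at h2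
  constructor <;> linarith

theorem sp_meas [FiniteDimensional ℝ E] [MeasurableSpace E] [BorelSpace E] {f : E → X} {O : Set E} (hO : IsOpen O)
    (hf : ContinuousOn f O) (t : E) : Measurable (O.indicator (sp f t)) := by
  classical
  set W : ℕ → Set E := fun n => O ∩ (fun x => x + (1 / ((n : ℝ) + 1)) • t) ⁻¹' O with hW
  have hWo : ∀ n, IsOpen (W n) := fun n => hO.inter (hO.preimage (by fun_prop))
  set v : ℕ → E → ℝ := fun n => (W n).piecewise
    (fun x => ((n : ℝ) + 1) * dist (f (x + (1 / ((n : ℝ) + 1)) • t)) (f x)) (fun _ => 0) with hv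
  have hvm : ∀ n, Measurable (v n) := by
    intro n
    refine ContinuousOn.measurable_piecewise ?_ continuousOn_const (hWo n).measurableSet
    apply ContinuousOn.mul continuousOn_const
    have h1 : ContinuousOn (fun x => f (x + (1 / ((n : ℝ) + 1)) • t)) (W n) := by
      apply hf.comp (by fun_prop)
      intro x hx
      exact hx.2
    have h2 : ContinuousOn f (W n) := hf.mono inter_subset_left
    exact continuous_dist.comp_continuousOn (h1.prodMk h2)
  have h1 : Measurable (fun x => Filter.limsup (fun n => v n x) atTop) := Measurable.limsup hvm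
  have h2 : O.indicator (sp f t) = O.indicator (fun x => Filter.limsup (fun n => v n x) atTop) := by
    apply Set.indicator_congr
    intro x hx
    unfold sp
    apply Filter.limsup_congr
    filter_upwards [(Eb_tend x t).eventually (hO.mem_nhds hx)] with n hn
    have hxW : x ∈ W n := ⟨hx, hn⟩
    simp only [hv]
    rw [Set.piecewise_eq_of_mem _ _ _ hxW]
  rw [h2]
  exact h1.indicator hO.measurableSet

end H98NX
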