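import Pool.Agent.H98.NX.Nc

/-!
# Row Ec: Lebesgue differentiation along a direction

m : E -> R measurable, |m| <= M. Claim: for mu-a.e. x: (1/h) int_0^h m(x+s t) ds -> m x as h -> 0, h <> 0.
Proof. Let S be the set of good x.
(1) S is measurable: Phi(x,h) = (int_0^h m(x + s t) ds)/h is measurable in x for fixed h (measurability of parametric integrals, StronglyMeasurable.integral_prod_right on
 (x,s) -> m(x+s t), restricted to the interval) and continuous in h for h <> 0 (indeed h -> int_0^h is M-Lipschitz). So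
 S = intersection over positive rationals ep of the union over positive rationals d of the intersection over rationals h with 0 < |h| < d of {x : |Phi(x,h) - m x| <= ep}: countable operations.
(2) For every p, for a.e. s in R: p + s t in S. Indeed the function s -> m(p + s t) is bounded measurable, hence locally integrable, and LocallyIntegrable.ae_hasDerivAt_integral gives for a.e. s:
 the derivative at s of s' -> int_0^{s'} m(p + r t) dr is m(p + s t), which is the statement (int_0^h m(p + s t + r t) dr = int_s^{s+h} m(p + r t) dr).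
(3) ae_mem_of_ae_add_linearMap_mem (Mathlib.MeasureTheory.Measure.Haar.Disintegration; used in Mathlib's proof of Rademacher's theorem, LipschitzWith.ae_lineDifferentiableAt, file
 Mathlib/Analysis/Calculus/Rademacher.lean, in exactly this way) with L = ContinuousLinearMap.smulRight 1 t.

ae_line: a property of points that holds a.e. holds for a.e. x at x + s t for a.e. s: Fubini. The set N of bad points is contained in a measurable null set N'; the set {(x,s) : x + s t in N'} is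
 measurable and its slices for fixed s are translates of N', hence null; so by Fubini it is null for the product measure and for a.e. x the slice {s : x+s t in N'} is null.
ae_trans: translation invariance of mu: a.e. statements can be translated.
-/

set_option autoImplicit false

namespace H98NX

open H50NA MeasureTheory Set Filter Topology

variable {E : Type} [NormedAddCommGroup E] [NormedSpace ℝ E] [FiniteDimensional ℝ E] [MeasurableSpace E]
  [BorelSpace E] (mu : Measure E) [mu.IsAddHaarMeasure]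

omit [FiniteDimensional ℝ E] in
theorem Ec_meas_line {m : E → ℝ} (hm : Measurable m) (x t : E) :
    Measurable (fun s : ℝ => m (x + s • t)) :=
  hm.comp (continuous_const.add (continuous_id.smul continuous_const)).measurable

omit [FiniteDimensional ℝ E] in
theorem Ec_int {m : E → ℝ} (hm : Measurable m) {M : ℝ} (hM : ∀ x, |m x| ≤ M) (x t : E) (K : Set ℝ)
    (hK : volume K ≠ ⊤) : IntegrableOn (fun s : ℝ => m (x + s • t)) K volume :=
  Measure.integrableOn_of_bounded hK (Ec_meas_line hm x t).aestronglyMeasurable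
    (Filter.Eventually.of_forall fun _ => hM _)

omit [FiniteDimensional ℝ E] in
theorem Ec_ii {m : E → ℝ} (hm : Measurable m) {M : ℝ} (hM : ∀ x, |m x| ≤ M) (x t : E) (a b : ℝ) :
    IntervalIntegrable (fun s : ℝ => m (x + s • t)) volume a b := by
  rw [intervalIntegrable_iff]
  apply Ec_int hm hM
  rw [uIoc, Real.volume_Ioc]
  exact ENNReal.ofReal_ne_top

theorem Ec_measF {m : E → ℝ} (hm : Measurable m) (t : E) (h : ℝ) :
    Measurable (fun x : E => ∫ s in (0:ℝ)..h, m (x + s • t)) := by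
  have hprop : ProperSpace E := FiniteDimensional.proper ℝ E
  have hc : Measurable (fun p : E × ℝ => m (p.1 + p.2 • t)) :=
    hm.comp (continuous_fst.add (continuous_snd.smul continuous_const)).measurable
  have hs : StronglyMeasurable (Function.uncurry (fun (x : E) (s : ℝ) => m (x + s • t))) :=
    hc.stronglyMeasurable
  unfold intervalIntegral
  exact (hs.integral_prod_right.sub hs.integral_prod_right).measurable

theorem Ec_measS {m : E → ℝ} (hm : Measurable m) (t : E) :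
    MeasurableSet {x : E | ∀ k : ℕ, ∃ j : ℕ, ∀ q : ℚ, (0 < |(q : ℝ)| ∧ |(q : ℝ)| < 1 / ((j : ℝ) + 1)) →
      |(∫ s in (0:ℝ)..(q : ℝ), m (x + s • t)) - q * m x| ≤ |(q : ℝ)| / ((k : ℝ) + 1)} := by
  simp only [ofPred_forall, ofPred_exists]
  refine MeasurableSet.iInter fun k => MeasurableSet.iUnion fun j => MeasurableSet.iInter fun q =>
    MeasurableSet.iInter fun _ => ?_
  refine measurableSet_le ?_ measurable_const
  exact ((Ec_measF hm t q).sub (hm.const_mul _)).abs

omit [FiniteDimensional ℝ E] [MeasurableSpace E] [BorelSpace E] in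
theorem Ec_sub1 {m : E → ℝ} {x t : E}
    (h : Tendsto (fun h : ℝ => (∫ s in (0:ℝ)..h, m (x + s • t)) / h) (𝓝[≠] 0) (𝓝 (m x))) :
    ∀ k : ℕ, ∃ j : ℕ, ∀ q : ℚ, (0 < |(q : ℝ)| ∧ |(q : ℝ)| < 1 / ((j : ℝ) + 1)) →
      |(∫ s in (0:ℝ)..(q : ℝ), m (x + s • t)) - q * m x| ≤ |(q : ℝ)| / ((k : ℝ) + 1) := by
  intro k
  rw [Metric.tendsto_nhdsWithin_nhds] at h
  obtain ⟨δ, hδ, hd⟩ := h (1 / ((k : ℝ) + 1)) (by positivity)
  obtain ⟨j, hj⟩ := exists_nat_one_div_lt hδ
  refine ⟨j, fun q hq => ?_⟩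
  have hq0 : (q : ℝ) ≠ 0 := abs_pos.1 hq.1
  have h1 := hd (x := (q : ℝ)) hq0 (by
    rw [Real.dist_eq, sub_zero]
    exact hq.2.trans hj)
  rw [Real.dist_eq] at h1
  have h2 : (∫ s in (0:ℝ)..(q : ℝ), m (x + s • t)) - q * m x =
      q * ((∫ s in (0:ℝ)..(q : ℝ), m (x + s • t)) / q - m x) := by
    field_simp
  rw [h2, abs_mul]
  have h3 := mul_le_mul_of_nonneg_left h1.le (abs_nonneg (q : ℝ))
  rw [mul_one_div] at h3
  exact h3

omit [FiniteDimensional ℝ E] in
theorem Ec_sub2 {m : E → ℝ} (hm : Measurable m) {M : ℝ} (hM : ∀ x, |m x| ≤ M) {x t : E}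
    (h : ∀ k : ℕ, ∃ j : ℕ, ∀ q : ℚ, (0 < |(q : ℝ)| ∧ |(q : ℝ)| < 1 / ((j : ℝ) + 1)) →
      |(∫ s in (0:ℝ)..(q : ℝ), m (x + s • t)) - q * m x| ≤ |(q : ℝ)| / ((k : ℝ) + 1)) :
    Tendsto (fun h : ℝ => (∫ s in (0:ℝ)..h, m (x + s • t)) / h) (𝓝[≠] 0) (𝓝 (m x)) := by
  have hcont : Continuous (fun b : ℝ => ∫ s in (0:ℝ)..b, m (x + s • t)) :=
    intervalIntegral.continuous_primitive (fun a b => Ec_ii hm hM x t a b) 0
  rw [Metric.tendsto_nhdsWithin_nhds]
  intro ε hε
  obtain ⟨k, hk⟩ := exists_nat_one_div_lt hε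
  obtain ⟨j, hj⟩ := h k
  refine ⟨1 / ((j : ℝ) + 1), by positivity, ?_⟩
  intro b hb0 hb
  rw [Real.dist_eq, sub_zero] at hb
  have hb0' : b ≠ 0 := hb0
  -- the closed set of good h
  have hclosed : IsClosed {b : ℝ | |(∫ s in (0:ℝ)..b, m (x + s • t)) - b * m x| ≤
      |b| / ((k : ℝ) + 1)} :=
    isClosed_le ((hcont.sub (continuous_id.mul continuous_const)).abs)
      (continuous_abs.div_const _)
  have hopen : IsOpen {b : ℝ | 0 < |b| ∧ |b| < 1 / ((j : ℝ) + 1)} :=
    (isOpen_lt continuous_const continuous_abs).inter (isOpen_lt continuous_abs continuous_const)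
  have hdense : DenseRange ((↑) : ℚ → ℝ) := Rat.denseRange_cast
  have h1 : {b : ℝ | 0 < |b| ∧ |b| < 1 / ((j : ℝ) + 1)} ⊆
      closure ({b : ℝ | 0 < |b| ∧ |b| < 1 / ((j : ℝ) + 1)} ∩ range ((↑) : ℚ → ℝ)) :=
    hdense.open_subset_closure_inter hopen
  have h2 : closure ({b : ℝ | 0 < |b| ∧ |b| < 1 / ((j : ℝ) + 1)} ∩ range ((↑) : ℚ → ℝ)) ⊆
      {b : ℝ | |(∫ s in (0:ℝ)..b, m (x + s • t)) - b * m x| ≤ |b| / ((k : ℝ) + 1)} := by
    apply closure_minimal _ hclosed
    rintro _ ⟨hc, q, rfl⟩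
    exact hj q hc
  have h3 := h2 (h1 (show b ∈ {b : ℝ | 0 < |b| ∧ |b| < 1 / ((j : ℝ) + 1)} from
    ⟨abs_pos.2 hb0', hb⟩))
  rw [mem_ofPred_eq] at h3
  rw [Real.dist_eq]
  have h4 : (∫ s in (0:ℝ)..b, m (x + s • t)) / b - m x =
      ((∫ s in (0:ℝ)..b, m (x + s • t)) - b * m x) / b := by
    field_simp
  rw [h4, abs_div]
  have hbp : 0 < |b| := abs_pos.2 hb0'
  have h5 : |(∫ s in (0:ℝ)..b, m (x + s • t)) - b * m x| / |b| ≤ 1 / ((k : ℝ) + 1) := by
    rw [div_le_iff₀ hbp]
    refine h3.trans (le_of_eq ?_)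
    ring
  exact lt_of_le_of_lt h5 hk

omit [FiniteDimensional ℝ E] in
theorem Ec_ae {m : E → ℝ} (hm : Measurable m) {M : ℝ} (hM : ∀ x, |m x| ≤ M) (p t : E) :
    ∀ᵐ s : ℝ, Tendsto (fun h : ℝ => (∫ r in (0:ℝ)..h, m (p + s • t + r • t)) / h) (𝓝[≠] 0)
      (𝓝 (m (p + s • t))) := by
  have hli : LocallyIntegrable (fun s : ℝ => m (p + s • t)) volume := by
    rw [locallyIntegrable_iff]
    intro K hK
    exact Ec_int hm hM p t K hK.measure_lt_top.ne
  filter_upwards [LocallyIntegrable.ae_hasDerivAt_integral hli] with s hs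
  have h1 := hs s
  rw [hasDerivAt_iff_tendsto_slope_zero] at h1
  refine h1.congr fun h => ?_
  rw [intervalIntegral.integral_same, sub_zero, smul_eq_mul, mul_comm, ← div_eq_mul_inv]
  congr 1
  have h2 := intervalIntegral.integral_comp_add_left (a := 0) (b := h)
    (fun r : ℝ => m (p + r • t)) s
  rw [add_zero] at h2
  rw [← h2]
  apply intervalIntegral.integral_congr
  intro r _
  simp only [add_smul, add_assoc]

theorem leb_line {m : E → ℝ} (hm : Measurable m) {M : ℝ} (hM : ∀ x, |m x| ≤ M) (t : E) :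
    ∀ᵐ x ∂mu, Tendsto (fun h : ℝ => (∫ s in (0:ℝ)..h, m (x + s • t)) / h) (𝓝[≠] 0) (𝓝 (m x)) := by
  have hprop : ProperSpace E := FiniteDimensional.proper ℝ E
  let L : ℝ →L[ℝ] E := ContinuousLinearMap.smulRight (1 : ℝ →L[ℝ] ℝ) t
  have h1 : ∀ᵐ x ∂mu, x ∈ {x : E | ∀ k : ℕ, ∃ j : ℕ, ∀ q : ℚ,
      (0 < |(q : ℝ)| ∧ |(q : ℝ)| < 1 / ((j : ℝ) + 1)) →
      |(∫ s in (0:ℝ)..(q : ℝ), m (x + s • t)) - q * m x| ≤ |(q : ℝ)| / ((k : ℝ) + 1)} := by
    apply ae_mem_of_ae_add_linearMap_mem L.toLinearMap volume mu (Ec_measS hm t)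
    intro p
    filter_upwards [Ec_ae hm hM p t] with s hs
    exact Ec_sub1 hs
  filter_upwards [h1] with x hx
  exact Ec_sub2 hm hM hx

theorem ae_line {p : E → Prop} (hp : ∀ᵐ x ∂mu, p x) (t : E) : ∀ᵐ x ∂mu, ∀ᵐ s : ℝ, p (x + s • t) := by
  have hprop : ProperSpace E := FiniteDimensional.proper ℝ E
  let L : ℝ →L[ℝ] E := ContinuousLinearMap.smulRight (1 : ℝ →L[ℝ] ℝ) t
  obtain ⟨S, hS, hSm, hSp⟩ := hp.exists_measurable_mem
  have h1 := (ae_ae_add_linearMap_mem_iff L.toLinearMap volume mu hSm).2 hS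
  filter_upwards [h1] with x hx
  filter_upwards [hx] with s hs
  exact hSp _ hs

theorem ae_trans {p : E → Prop} (hp : ∀ᵐ x ∂mu, p x) (t : E) : ∀ᵐ x ∂mu, p (x + t) :=
  (measurePreserving_add_right mu t).quasiMeasurePreserving.ae hp

end H98NX
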