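import Pool.Agent.H98.NX.Ea
import Pool.Agent.H98.NX.Eb
import Pool.Agent.H98.NX.Ec

set_option autoImplicit false

/-!
# Row Ed: existence of the metric derivative (E1)

Statement: f locally Lipschitz on the open set O, t in E: for a.e. x in O, dist(f(x+ht), f x)/|h| -> sp f t x as h -> 0, h <> 0.
It suffices to prove it for a.e. x in a ball B = ball x0 r with dist(f y, f z) <= L dist y z on closedBall x0 r (lpo_ball; null sets may be tested locally: measure_null_of_locally_null,
or a countable cover). Let y_n (n in N) be a dense sequence of points of B and g_n(x) := dist(f x, f y_n) on B: L-Lipschitz on B; let G_n : E -> R be L-Lipschitz on all of E with G_n = g_n on B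
(LipschitzOnWith.extend_real). m(x) := sup_n |fderiv R G_n x t|: measurable (measurable_fderiv_apply_const, Measurable.iSup), 0 <= m <= L|t|.
For a.e. x in B: (a) every G_n is differentiable at x (LipschitzWith.ae_differentiableAt) ; (b) for a.e. s every G_n is differentiable at x + s t (ae_line);
(c) (1/h) int_0^h m(x+st) ds -> m x (leb_line).
Let x be such a point and |h| so small that the segment from x to x + ht is in B.
Upper bound: s -> G_n(x+st) is Lipschitz, its derivative at a.e. s is fderiv G_n (x+st) t, so (fundamental theorem for absolutely continuous functions: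
 AbsolutelyContinuousOnInterval.integral_deriv_eq_sub, LipschitzOnWith.absolutelyContinuousOnInterval) |g_n(x+ht) - g_n(x)| <= |int_0^h m(x+st) ds|. The f y_n are dense in f(B) (f is
 continuous), in particular there are n_k with f y_{n_k} -> f x, whence dist(f(x+ht), f x) = lim_k (g_{n_k}(x+ht) - g_{n_k}(x)) <= |int_0^h m(x+st) ds|. Divide by |h|: limsup <= m x.
Lower bound: dist(f(x+ht), f x) >= |g_n(x+ht) - g_n(x)|, divided by |h| it converges to |fderiv G_n x t|; so liminf >= sup_n = m x.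
Hence the limit exists, = m x, and m x = sp f t x by sp_eq_of_lim.
Second statement: for a.e. x in O the limit exists for all t simultaneously: let T be a countable dense subset of E (denseSeq). For a.e. x the limit exists for all t in T. Let L be a local
 Lipschitz constant at x. For arbitrary t and t' in T: |dist(f(x+ht),f x)/|h| - dist(f(x+ht'), f x)/|h|| <= L |t-t'| for small h, and |sp f t x - sp f t' x| <= L|t-t'| (sp_tri). Hence
 limsup_h |dist(f(x+ht),f x)/|h| - sp f t x| <= 2L|t-t'|, arbitrarily small.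
sp_smul: at a point where the limits exist for all directions: substitute h -> c h (c <> 0), c = 0: sp_zero.
-/

namespace H98NX

open H50NA MeasureTheory Set Filter Topology

variable {E X : Type} [NormedAddCommGroup E] [NormedSpace ℝ E] [MetricSpace X] [FiniteDimensional ℝ E]
  [MeasurableSpace E] [BorelSpace E] (mu : Measure E) [mu.IsAddHaarMeasure]

/-- existence of all directional speeds as limits -/
def Dlim (f : E → X) (x : E) : Prop :=
  ∀ t : E, Tendsto (fun h : ℝ => dist (f (x + h • t)) (f x) / |h|) (𝓝[≠] 0) (𝓝 (sp f t x))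

lemma Ed_fund {G : E → ℝ} {K : NNReal} (hG : LipschitzWith K G) {m : E → ℝ} (hm : Measurable m)
    {M : ℝ} (hM : ∀ x, |m x| ≤ M) {x t : E}
    (hd : ∀ᵐ s : ℝ, DifferentiableAt ℝ G (x + s • t)) (hle : ∀ z, |fderiv ℝ G z t| ≤ m z) (h : ℝ) :
    |G (x + h • t) - G x| ≤ |∫ s in (0:ℝ)..h, m (x + s • t)| := by
  have hline : LipschitzWith ‖t‖₊ (fun s : ℝ => x + s • t) := LipschitzWith.of_dist_le_mul fun a b => by
    rw [dist_add_left, dist_eq_norm, ← sub_smul, norm_smul, mul_comm]
    exact le_refl _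
  have hu := hG.comp hline
  have hac := (hu.lipschitzOnWith (s := uIcc 0 h)).absolutelyContinuousOnInterval
  have hint := hac.integral_deriv_eq_sub
  have h0 : (G ∘ fun s : ℝ => x + s • t) h - (G ∘ fun s : ℝ => x + s • t) 0
      = G (x + h • t) - G x := by simp
  rw [← h0, ← hint, ← Real.norm_eq_abs]
  apply intervalIntegral.norm_integral_le_abs_of_norm_le
  · apply ae_restrict_of_ae
    filter_upwards [hd] with s hs
    have h1 : HasDerivAt (fun s : ℝ => x + s • t) t s := by
      simpa using ((hasDerivAt_id s).smul_const t).const_add x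
    have h2 := hs.hasFDerivAt.comp_hasDerivAt s h1
    rw [h2.deriv]
    exact hle _
  · have hmeas : Measurable (fun s : ℝ => m (x + s • t)) := hm.comp (by fun_prop)
    refine (intervalIntegrable_const (c := M)).mono_fun' hmeas.aestronglyMeasurable ?_
    exact ae_of_all _ fun s => hM _

lemma Ed_loc {f : E → X} {x0 : E} {r L : ℝ} (hL : 0 ≤ L)
    (hfL : ∀ y ∈ Metric.ball x0 r, ∀ z ∈ Metric.ball x0 r, dist (f y) (f z) ≤ L * dist y z) (t : E) :
    ∀ᵐ x ∂mu, x ∈ Metric.ball x0 r →
      Tendsto (fun h : ℝ => dist (f (x + h • t)) (f x) / |h|) (𝓝[≠] 0) (𝓝 (sp f t x)) := by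
  classical
  have : ProperSpace E := FiniteDimensional.proper ℝ E
  obtain ⟨K, hK⟩ : ∃ K : NNReal, (K : ℝ) = L := ⟨⟨L, hL⟩, rfl⟩
  have hGex : ∀ n : ℕ, ∃ G : E → ℝ, LipschitzWith K G ∧
      EqOn (fun x => dist (f x) (f (TopologicalSpace.denseSeq E n))) G (Metric.ball x0 r) := by
    intro n
    apply LipschitzOnWith.extend_real
    apply LipschitzOnWith.of_dist_le_mul
    intro y hy z hz
    rw [hK]
    refine le_trans ?_ (hfL y hy z hz)
    rw [Real.dist_eq]
    exact abs_dist_sub_le _ _ _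
  choose G hG hGe using hGex
  have hfd : ∀ n x, |fderiv ℝ (G n) x t| ≤ K * ‖t‖ := by
    intro n x
    rw [← Real.norm_eq_abs]
    calc ‖fderiv ℝ (G n) x t‖ ≤ ‖fderiv ℝ (G n) x‖ * ‖t‖ := ContinuousLinearMap.le_opNorm _ _
      _ ≤ K * ‖t‖ := mul_le_mul_of_nonneg_right (norm_fderiv_le_of_lipschitz ℝ (hG n)) (norm_nonneg t)
  obtain ⟨m, hm⟩ : ∃ m : E → ℝ, m = fun x => ⨆ n, |fderiv ℝ (G n) x t| := ⟨_, rfl⟩
  have hbdd : ∀ x, BddAbove (range fun n => |fderiv ℝ (G n) x t|) := by
    intro x
    refine ⟨K * ‖t‖, ?_⟩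
    rintro _ ⟨n, rfl⟩
    exact hfd n x
  have hmm : Measurable m := by
    rw [hm]
    apply Measurable.iSup
    intro n
    exact (measurable_fderiv_apply_const ℝ (G n) t).abs
  have hle : ∀ n x, |fderiv ℝ (G n) x t| ≤ m x := by
    intro n x
    rw [hm]
    exact le_ciSup (hbdd x) n
  have hm0 : ∀ x, 0 ≤ m x := fun x => (abs_nonneg _).trans (hle 0 x)
  have hmM : ∀ x, |m x| ≤ K * ‖t‖ := by
    intro x
    rw [abs_of_nonneg (hm0 x), hm]
    exact ciSup_le fun n => hfd n x
  have hA : ∀ᵐ x ∂mu, ∀ n, DifferentiableAt ℝ (G n) x :=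
    ae_all_iff.2 fun n => (hG n).ae_differentiableAt
  have hB := ae_line mu hA t
  have hC := leb_line mu hmm hmM t
  filter_upwards [hA, hB, hC] with x hxA hxB hxC hx
  have hnear : ∀ᶠ h : ℝ in 𝓝[≠] 0, x + h • t ∈ Metric.ball x0 r := by
    have h1 : Tendsto (fun h : ℝ => x + h • t) (𝓝[≠] 0) (𝓝 x) := by
      have h2 : Continuous (fun h : ℝ => x + h • t) := by fun_prop
      have h3 := h2.tendsto 0
      rw [zero_smul, add_zero] at h3
      exact h3.mono_left nhdsWithin_le_nhds
    exact h1.eventually (Metric.isOpen_ball.mem_nhds hx)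
  have hne : ∀ᶠ h : ℝ in 𝓝[≠] 0, h ≠ 0 := eventually_mem_nhdsWithin
  have key : Tendsto (fun h : ℝ => dist (f (x + h • t)) (f x) / |h|) (𝓝[≠] 0) (𝓝 (m x)) := by
    rw [tendsto_order]
    constructor
    · intro a ha
      rw [hm] at ha
      obtain ⟨n, hn⟩ := exists_lt_of_lt_ciSup ha
      have h1 : HasDerivAt (fun s : ℝ => G n (x + s • t)) (fderiv ℝ (G n) x t) 0 := by
        have h2 : HasDerivAt (fun s : ℝ => x + s • t) t 0 := by
          simpa using ((hasDerivAt_id (0:ℝ)).smul_const t).const_add x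
        have h3 : HasFDerivAt (G n) (fderiv ℝ (G n) x) (x + (0:ℝ) • t) := by
          rw [zero_smul, add_zero]
          exact (hxA n).hasFDerivAt
        exact h3.comp_hasDerivAt (0:ℝ) h2
      have h4 := h1.tendsto_slope_zero.abs
      have h5 := h4.eventually (lt_mem_nhds hn)
      filter_upwards [h5, hnear, hne] with h hh hb h0
      refine lt_of_lt_of_le hh ?_
      rw [zero_smul, add_zero, smul_eq_mul, abs_mul, abs_inv, ← div_eq_inv_mul, zero_add]
      apply div_le_div_of_nonneg_right _ (abs_nonneg h)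
      rw [← hGe n hb, ← hGe n hx]
      exact abs_dist_sub_le _ _ _
    · intro a ha
      have h4 : Tendsto (fun h : ℝ => |(∫ s in (0:ℝ)..h, m (x + s • t)) / h|) (𝓝[≠] 0) (𝓝 |m x|) :=
        hxC.abs
      rw [abs_of_nonneg (hm0 x)] at h4
      have h5 := h4.eventually (gt_mem_nhds ha)
      filter_upwards [h5, hnear, hne] with h hh hb h0
      refine lt_of_le_of_lt ?_ hh
      rw [abs_div]
      apply div_le_div_of_nonneg_right _ (abs_nonneg h)
      apply le_of_forall_pos_le_add
      intro ε hε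
      obtain ⟨δ, hδ, hδε⟩ : ∃ δ : ℝ, 0 < δ ∧ 2 * (L * δ) ≤ ε := by
        refine ⟨ε / (2 * (L + 1)), by positivity, ?_⟩
        have h6 : 0 < L + 1 := by linarith
        rw [show 2 * (L * (ε / (2 * (L + 1)))) = ε * (L / (L + 1)) by field_simp]
        have h7 : L / (L + 1) ≤ 1 := by
          rw [div_le_one h6]
          linarith
        calc ε * (L / (L + 1)) ≤ ε * 1 := mul_le_mul_of_nonneg_left h7 hε.le
          _ = ε := mul_one ε
      have hopen : IsOpen (Metric.ball x0 r ∩ Metric.ball x δ) :=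
        Metric.isOpen_ball.inter Metric.isOpen_ball
      obtain ⟨_, ⟨hyB, hyd⟩, ⟨n, rfl⟩⟩ := (TopologicalSpace.denseRange_denseSeq E).inter_open_nonempty
        _ hopen ⟨x, hx, Metric.mem_ball_self hδ⟩
      have hf1 := Ed_fund (hG n) hmm hmM (hxB.mono fun s hs => hs n) (hle n) h
      rw [← hGe n hb, ← hGe n hx] at hf1
      have h8 := hfL _ hx _ hyB
      have h9 := dist_triangle (f (x + h • t)) (f (TopologicalSpace.denseSeq E n)) (f x)
      have h10 : dist x (TopologicalSpace.denseSeq E n) ≤ δ := by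
        rw [dist_comm]
        exact (Metric.mem_ball.1 hyd).le
      have h11 := mul_le_mul_of_nonneg_left h10 hL
      have h12 := le_abs_self (dist (f (x + h • t)) (f (TopologicalSpace.denseSeq E n)) -
        dist (f x) (f (TopologicalSpace.denseSeq E n)))
      rw [dist_comm (f (TopologicalSpace.denseSeq E n)) (f x)] at h9
      have hf2 : |dist (f (x + h • t)) (f (TopologicalSpace.denseSeq E n)) -
        dist (f x) (f (TopologicalSpace.denseSeq E n))| ≤ |∫ s in (0:ℝ)..h, m (x + s • t)| := hf1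
      linarith
  rw [sp_eq_of_lim key]
  exact key

theorem sp_lim1 {f : E → X} {O : Set E} (hO : IsOpen O) (hf : Lpo f O) (t : E) :
    ∀ᵐ x ∂mu, x ∈ O →
      Tendsto (fun h : ℝ => dist (f (x + h • t)) (f x) / |h|) (𝓝[≠] 0) (𝓝 (sp f t x)) := by
  have : ProperSpace E := FiniteDimensional.proper ℝ E
  rw [ae_iff]
  apply measure_null_of_locally_null
  intro x hx
  have hxO : x ∈ O := by
    by_contra h
    exact hx fun h' => absurd h' h
  obtain ⟨r, hr, hrO, L, hL0, hL⟩ := lpo_ball hO hf hxO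
  have hae := Ed_loc mu hL0 (fun y hy z hz => hL y (Metric.ball_subset_closedBall hy) z
    (Metric.ball_subset_closedBall hz)) t
  rw [ae_iff] at hae
  refine ⟨_, ?_, hae⟩
  rw [mem_nhdsWithin]
  refine ⟨Metric.ball x r, Metric.isOpen_ball, Metric.mem_ball_self hr, ?_⟩
  rintro y ⟨hy1, hy2⟩ hy3
  apply hy2
  intro _
  exact hy3 hy1

omit [FiniteDimensional ℝ E] [MeasurableSpace E] [BorelSpace E] in
lemma Ed_near (x t : E) {r : ℝ} (hr : 0 < r) : ∀ᶠ h : ℝ in 𝓝[≠] 0, x + h • t ∈ Metric.ball x r := by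
  have h1 : Tendsto (fun h : ℝ => x + h • t) (𝓝[≠] 0) (𝓝 x) := by
    have h2 : Continuous (fun h : ℝ => x + h • t) := by fun_prop
    have h3 := h2.tendsto 0
    rw [zero_smul, add_zero] at h3
    exact h3.mono_left nhdsWithin_le_nhds
  exact h1.eventually (Metric.ball_mem_nhds x hr)

theorem sp_lim {f : E → X} {O : Set E} (hO : IsOpen O) (hf : Lpo f O) :
    ∀ᵐ x ∂mu, x ∈ O → Dlim f x := by
  have : ProperSpace E := FiniteDimensional.proper ℝ E
  have hA : ∀ᵐ x ∂mu, ∀ n : ℕ, x ∈ O →
      Tendsto (fun h : ℝ => dist (f (x + h • TopologicalSpace.denseSeq E n)) (f x) / |h|) (𝓝[≠] 0)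
        (𝓝 (sp f (TopologicalSpace.denseSeq E n) x)) :=
    ae_all_iff.2 fun n => sp_lim1 mu hO hf _
  filter_upwards [hA] with x hx hxO t
  obtain ⟨r, hr, hrO, L, hL0, hL⟩ := lpo_ball hO hf hxO
  have hLb : ∀ y ∈ Metric.ball x r, ∀ z ∈ Metric.ball x r, dist (f y) (f z) ≤ L * dist y z :=
    fun y hy z hz => hL y (Metric.ball_subset_closedBall hy) z (Metric.ball_subset_closedBall hz)
  rw [Metric.tendsto_nhds]
  intro ε hε
  obtain ⟨δ, hδ, hδε⟩ : ∃ δ : ℝ, 0 < δ ∧ L * δ ≤ ε / 3 := by
    refine ⟨ε / (3 * (L + 1)), by positivity, ?_⟩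
    have h6 : 0 < L + 1 := by linarith
    rw [show L * (ε / (3 * (L + 1))) = ε / 3 * (L / (L + 1)) by field_simp]
    have h7 : L / (L + 1) ≤ 1 := by
      rw [div_le_one h6]
      linarith
    calc ε / 3 * (L / (L + 1)) ≤ ε / 3 * 1 := mul_le_mul_of_nonneg_left h7 (by linarith)
      _ = ε / 3 := mul_one _
  obtain ⟨_, hyd, ⟨n, rfl⟩⟩ := (TopologicalSpace.denseRange_denseSeq E).inter_open_nonempty
    _ Metric.isOpen_ball ⟨t, Metric.mem_ball_self hδ⟩
  have h1 := (Metric.tendsto_nhds.1 (hx n hxO)) (ε / 3) (by linarith)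
  obtain ⟨t', ht'⟩ : ∃ t', t' = TopologicalSpace.denseSeq E n := ⟨_, rfl⟩
  rw [← ht'] at h1 hyd
  have h2 : ‖t - t'‖ ≤ δ := by
    rw [← dist_eq_norm, dist_comm]
    exact (Metric.mem_ball.1 hyd).le
  have h3 := sp_tri hr hL0 hLb t t'
  have h4 : L * ‖t - t'‖ ≤ ε / 3 := (mul_le_mul_of_nonneg_left h2 hL0).trans hδε
  filter_upwards [h1, Ed_near x t hr, Ed_near x t' hr, eventually_mem_nhdsWithin] with h h5 h6 h7 h8
  have h9 : 0 < |h| := abs_pos.2 h8
  have h10 : |(dist (f (x + h • t)) (f x) / |h|) - (dist (f (x + h • t')) (f x) / |h|)| ≤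
      L * ‖t - t'‖ := by
    rw [← sub_div, abs_div, abs_abs, div_le_iff₀ h9]
    calc |dist (f (x + h • t)) (f x) - dist (f (x + h • t')) (f x)|
        ≤ dist (f (x + h • t)) (f (x + h • t')) := abs_dist_sub_le _ _ _
      _ ≤ L * dist (x + h • t) (x + h • t') := hLb _ h6 _ h7
      _ = L * ‖t - t'‖ * |h| := by
          rw [dist_add_left, dist_eq_norm, ← smul_sub, norm_smul, Real.norm_eq_abs]
          ring
  rw [Real.dist_eq] at h5 ⊢
  have h11 : dist (f (x + h • t)) (f x) / |h| - sp f t x =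
      (dist (f (x + h • t)) (f x) / |h| - dist (f (x + h • t')) (f x) / |h|) +
      (dist (f (x + h • t')) (f x) / |h| - sp f t' x) - (sp f t x - sp f t' x) := by ring
  rw [h11]
  have h12 := abs_sub ((dist (f (x + h • t)) (f x) / |h| - dist (f (x + h • t')) (f x) / |h|) +
      (dist (f (x + h • t')) (f x) / |h| - sp f t' x)) (sp f t x - sp f t' x)
  have h13 := abs_add_le (dist (f (x + h • t)) (f x) / |h| - dist (f (x + h • t')) (f x) / |h|)
      (dist (f (x + h • t')) (f x) / |h| - sp f t' x)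
  linarith

omit [FiniteDimensional ℝ E] [MeasurableSpace E] [BorelSpace E] in
theorem sp_smul {f : E → X} {x : E} (h : Dlim f x) (c : ℝ) (t : E) : sp f (c • t) x = |c| * sp f t x := by
  rcases eq_or_ne c 0 with rfl | hc
  · rw [zero_smul, sp_zero, abs_zero, zero_mul]
  · apply sp_eq_of_lim
    have h1 : Tendsto (fun h : ℝ => h * c) (𝓝[≠] 0) (𝓝[≠] 0) := by
      rw [tendsto_nhdsWithin_iff]
      constructor
      · have h2 : Continuous (fun h : ℝ => h * c) := by fun_prop
        have h3 := h2.tendsto 0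
        rw [zero_mul] at h3
        exact h3.mono_left nhdsWithin_le_nhds
      · filter_upwards [eventually_mem_nhdsWithin] with h hh
        exact mul_ne_zero hh hc
    have h2 := ((h t).comp h1).const_mul |c|
    refine h2.congr fun s => ?_
    have hc' : |c| ≠ 0 := abs_ne_zero.2 hc
    show |c| * (dist (f (x + (s * c) • t)) (f x) / |s * c|) = dist (f (x + s • c • t)) (f x) / |s|
    rw [smul_smul, abs_mul, mul_comm |s| |c|, ← mul_div_assoc, mul_div_mul_left _ _ hc']

end H98NX
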