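import Pool.Agent.H98.NX.Xa2

set_option autoImplicit false

/-!
# Row Xb: the extension across a seam is locally Lipschitz

f in Lpo (Gd r), glued, 0 < r < 1/4: ext A B C s f in Lpo (Wg r s). By lpo_loc it suffices to find for every p in Wg r s a ball on which ext is Lipschitz. Wg r s is open (wg_open).
* p in U: choose rho with closedBall p rho in Wg r s and in U; there ext = f (D contains U), and closedBall p rho is a compact subset of Gd r (points of U in Wg are not in Zr: rt s x = x; U has no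
  punctures), so f is Lipschitz on it.
* p not in D: closedBall p rho in Wg r s minus D (D closed); there ext x = gs s (f (Rs s x)), and Rs s (closedBall p rho) is compact, contained in U (ws_nD) and misses Zr (rt s x = Rs s x), so in Gd r.
* p in D minus U: closedBall p rho in Wg r s. K1 := closedBall p rho inter D, K2 := Rs s (closedBall p rho minus U): compact subsets of Gd r: for y in D minus U: Rs s y in D minus P and not in U
  (ws_seam), hence not in Zr (zr_sub); for y not in D: Rs s y in U, not in Zr. Also points of K1: ws_D and rt s x = x not in Zr. Let L1, L2 >= 0 be Lipschitz constants of f on K1, K2.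
  x, y in the ball: both in D: L1. Both not in D: L2 (rs_dist, gs s isometry). x in D, y not in D: z from seg_cross; z is in the ball (balls are convex), z in D minus U:
  dist(ext x)(ext y) <= dist(f x)(f z) + dist(gs (f (Rs z)))(gs (f (Rs y))) <= L1 dist x z + L2 dist z y <= max L1 L2 dist x y, using f z = gs s (f (Rs s z)) (ws_glu; z in Ws s).
* rt_cpt: D closed, U open, Rs s continuous; membership as for K1, K2 above (for s = 0 the set S minus U is empty).
* ext_D, ext_nD, ext_nU, the values: ext = f on D; ext x = gs s (f (Rs s x)) for x not in D; for x in Ws s minus U also ext x = gs s (f (Rs s x)) if f is glued (seam points: ws_glu).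
-/

namespace H98NX

open H50NA MeasureTheory Set Filter Topology
open H80HM (D U P f1 f2)

noncomputable section

variable {X : Type} [MetricSpace X] {A B C : X ≃ᵢ X}

theorem ext_D {s : Fin 7} {f : ℝ × ℝ → X} {x : ℝ × ℝ} (h : x ∈ D) : ext A B C s f x = f x := by
  unfold H50NA.ext
  rw [if_pos h]

theorem ext_nD {s : Fin 7} {f : ℝ × ℝ → X} {x : ℝ × ℝ} (h : x ∉ D) :
    ext A B C s f x = gs A B C s (f (Rs s x)) := by
  unfold H50NA.ext
  rw [if_neg h]

theorem ext_nU {s : Fin 7} {f : ℝ × ℝ → X} (hf : Glu A B C f) {x : ℝ × ℝ} (h : x ∈ Ws s) (hU : x ∉ U) :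
    ext A B C s f x = gs A B C s (f (Rs s x)) := by
  by_cases hD : x ∈ D
  · rw [ext_D hD]
    exact ws_glu hf h hD hU
  · exact ext_nD hD

/-- images of compact subsets of the chart in Gd r -/
theorem rt_cpt {r : ℝ} (hr : r < 1/4) {s : Fin 7} {S : Set (ℝ × ℝ)} (hS : IsCompact S) (hSW : S ⊆ Wg r s) :
    IsCompact (S ∩ D) ∧ S ∩ D ⊆ Gd r ∧ IsCompact (Rs s '' (S \ U)) ∧ Rs s '' (S \ U) ⊆ Gd r := by
  refine ⟨hS.inter_right d_closed, ?_, ?_, ?_⟩
  · rintro x ⟨hxS, hxD⟩
    obtain ⟨hW, hZ⟩ := hSW hxS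
    unfold rt at hZ
    rw [if_pos hxD] at hZ
    have h1 := ws_D hW hxD
    refine ⟨hxD, ?_⟩
    rintro (h2 | h2)
    · exact h1.2 h2
    · exact hZ h2
  · exact (hS.diff u_open).image (Isometry.of_dist_eq (rs_dist s)).continuous
  · rintro _ ⟨x, ⟨hxS, hxU⟩, rfl⟩
    obtain ⟨hW, hZ⟩ := hSW hxS
    unfold rt at hZ
    by_cases hxD : x ∈ D
    · obtain ⟨h1, h2⟩ := ws_seam hW hxD hxU
      refine ⟨h1.1, ?_⟩
      rintro (h3 | h3)
      · exact h1.2 h3
      · exact h2 (zr_sub hr h3)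
    · rw [if_neg hxD] at hZ
      have h1 := u_sub_D (ws_nD hW hxD)
      refine ⟨h1.1, ?_⟩
      rintro (h3 | h3)
      · exact h1.2 h3
      · exact hZ h3

theorem Xb_cross {r : ℝ} {f : ℝ × ℝ → X} (hg : Glu A B C f) (s : Fin 7) {p : ℝ × ℝ} {ρ L1 L2 : ℝ}
    (hSW : Metric.closedBall p ρ ⊆ Wg r s)
    (h1 : ∀ x ∈ Metric.closedBall p ρ ∩ D, ∀ y ∈ Metric.closedBall p ρ ∩ D, dist (f x) (f y) ≤ L1 * dist x y)
    (h2 : ∀ x ∈ Rs s '' (Metric.closedBall p ρ \ U), ∀ y ∈ Rs s '' (Metric.closedBall p ρ \ U),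
      dist (f x) (f y) ≤ L2 * dist x y) {y z : ℝ × ℝ} (hy : y ∈ Metric.closedBall p ρ)
    (hz : z ∈ Metric.closedBall p ρ) (hyD : y ∈ D) (hzD : z ∉ D) :
    dist (ext A B C s f y) (ext A B C s f z) ≤ max L1 L2 * dist y z := by
  obtain ⟨w, hw, hwD, hwU, hd⟩ := seg_cross hyD hzD
  have hwB : w ∈ Metric.closedBall p ρ := (convex_closedBall p ρ).segment_subset hy hz hw
  have hzU : z ∉ U := fun h => hzD (u_sub_D h).1
  have hfw : f w = gs A B C s (f (Rs s w)) := ws_glu hg (hSW hwB).1 hwD hwU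
  rw [ext_D hyD, ext_nD hzD]
  have h3 := h1 y ⟨hy, hyD⟩ w ⟨hwB, hwD⟩
  have h4 := h2 (Rs s w) ⟨w, ⟨hwB, hwU⟩, rfl⟩ (Rs s z) ⟨z, ⟨hz, hzU⟩, rfl⟩
  rw [rs_dist] at h4
  have h5 : dist (f w) (gs A B C s (f (Rs s z))) ≤ L2 * dist w z := by
    rw [hfw, IsometryEquiv.dist_eq]
    exact h4
  have h6 := mul_le_mul_of_nonneg_right (le_max_left L1 L2) (dist_nonneg (x := y) (y := w))
  have h7 := mul_le_mul_of_nonneg_right (le_max_right L1 L2) (dist_nonneg (x := w) (y := z))
  calc dist (f y) (gs A B C s (f (Rs s z))) ≤ dist (f y) (f w) + dist (f w) (gs A B C s (f (Rs s z))) :=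
        dist_triangle _ _ _
    _ ≤ max L1 L2 * dist y w + max L1 L2 * dist w z := by linarith
    _ = max L1 L2 * dist y z := by rw [← hd]; ring

theorem ext_lpo {r : ℝ} (hr : r < 1/4) {f : ℝ × ℝ → X} (hf : Lpo f (Gd r)) (hg : Glu A B C f) (s : Fin 7) :
    Lpo (ext A B C s f) (Wg r s) := by
  apply lpo_loc
  intro p hp
  obtain ⟨ρ, hρ, hρW⟩ := Metric.nhds_basis_closedBall.mem_iff.1 ((wg_open hr s).mem_nhds hp)
  obtain ⟨c1, g1, c2, g2⟩ := rt_cpt hr (isCompact_closedBall p ρ) hρW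
  obtain ⟨L1, hL1, h1⟩ := Ea_pos hf g1 c1
  obtain ⟨L2, hL2, h2⟩ := Ea_pos hf g2 c2
  refine ⟨ρ, hρ, max L1 L2, ?_⟩
  rintro y ⟨hyW, hyB⟩ z ⟨hzW, hzB⟩
  have hy := Metric.ball_subset_closedBall hyB
  have hz := Metric.ball_subset_closedBall hzB
  by_cases hyD : y ∈ D
  · by_cases hzD : z ∈ D
    · rw [ext_D hyD, ext_D hzD]
      exact (h1 y ⟨hy, hyD⟩ z ⟨hz, hzD⟩).trans
        (mul_le_mul_of_nonneg_right (le_max_left L1 L2) dist_nonneg)
    · exact Xb_cross hg s hρW h1 h2 hy hz hyD hzD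
  · by_cases hzD : z ∈ D
    · rw [dist_comm, dist_comm y z]
      exact Xb_cross hg s hρW h1 h2 hz hy hzD hyD
    · rw [ext_nD hyD, ext_nD hzD, IsometryEquiv.dist_eq]
      have hyU : y ∉ U := fun h => hyD (u_sub_D h).1
      have hzU : z ∉ U := fun h => hzD (u_sub_D h).1
      have h3 := h2 (Rs s y) ⟨y, ⟨hy, hyU⟩, rfl⟩ (Rs s z) ⟨z, ⟨hz, hzU⟩, rfl⟩
      rw [rs_dist] at h3
      exact h3.trans (mul_le_mul_of_nonneg_right (le_max_right L1 L2) dist_nonneg)

theorem clx_gd {r : ℝ} {f : ℝ × ℝ → X} (hf : Clx A B C f) : Lpo f (Gd r) := by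
  refine lpo_mono ?_ hf.lip
  rintro x ⟨h1, h2⟩
  exact ⟨h1, fun h => h2 (Or.inl h)⟩

end

end H98NX
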