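import Pool.Agent.H98.NX.Xb

set_option autoImplicit false

/-!
# Row Xe: transport of a competitor in a chart to the class
-/

namespace H98NX

open H50NA MeasureTheory Set Filter Topology
open H80HM (D U P f1 f2)

noncomputable section

variable {X : Type} [MetricSpace X] {A B C : X ≃ᵢ X}

open Classical in
/-- transport of the competitor h to D -/
def trf (A B C : X ≃ᵢ X) (s : Fin 7) (S : Set (ℝ × ℝ)) (h f : ℝ × ℝ → X) (x : ℝ × ℝ) : X :=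
  if x ∈ S ∧ x ∈ D then h x else if Ri s x ∈ S ∧ x ∈ D then (gs A B C s).symm (h (Ri s x)) else f x

theorem trf_off {s : Fin 7} {S : Set (ℝ × ℝ)} {h f : ℝ × ℝ → X} {x : ℝ × ℝ} (h1 : x ∉ S) (h2 : Ri s x ∉ S) :
    trf A B C s S h f x = f x := by
  unfold trf
  rw [if_neg (fun h => h1 h.1), if_neg (fun h => h2 h.1)]

private theorem Xe_D {x : ℝ × ℝ} (h : x ∈ U) : x ∈ D := (u_sub_D h).1

private theorem Xe_ri0 (x : ℝ × ℝ) : Ri 0 x = x := by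
  have h1 : Rs 0 x = x := rfl
  conv_lhs => rw [← h1]
  exact ri_rs 0 x

private theorem Xe_ridist (s : Fin 7) (x y : ℝ × ℝ) : dist (Ri s x) (Ri s y) = dist x y := by
  rw [← rs_dist s, rs_ri, rs_ri]

private theorem Xe_in {s : Fin 7} {S : Set (ℝ × ℝ)} {h f : ℝ × ℝ → X} {x : ℝ × ℝ} (h1 : x ∈ S) (h2 : x ∈ D) :
    trf A B C s S h f x = h x := by
  unfold trf
  rw [if_pos ⟨h1, h2⟩]

private theorem Xe_in2 {s : Fin 7} {S : Set (ℝ × ℝ)} {h f : ℝ × ℝ → X} {x : ℝ × ℝ} (h0 : x ∉ S) (h1 : Ri s x ∈ S)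
    (h2 : x ∈ D) : trf A B C s S h f x = (gs A B C s).symm (h (Ri s x)) := by
  unfold trf
  rw [if_neg (fun h => h0 h.1), if_pos ⟨h1, h2⟩]

/-- FACT 1 -/
private theorem Xe_fact1 {r : ℝ} {f h : ℝ × ℝ → X} {s : Fin 7} {S : Set (ℝ × ℝ)} (hSW : S ⊆ Wg r s)
    (he : ∀ z ∈ Wg r s \ S, h z = ext A B C s f z) {x : ℝ × ℝ} (hx : x ∈ Wg r s) (hD : x ∈ D) :
    trf A B C s S h f x = h x := by
  by_cases hS : x ∈ S
  · exact Xe_in hS hD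
  · have h2 : Ri s x ∉ S := by
      intro h3
      by_cases hs : s = 0
      · subst hs
        rw [Xe_ri0] at h3
        exact hS h3
      · apply ws_dis (hSW h3).1 hs
        rw [rs_ri]
        exact hx.1
    rw [trf_off hS h2, he x ⟨hx, hS⟩, ext_D hD]

/-- FACT 2 -/
private theorem Xe_fact2 {r : ℝ} {f h : ℝ × ℝ → X} (hg : Glu A B C f) {s : Fin 7} {S : Set (ℝ × ℝ)}
    (hSW : S ⊆ Wg r s) (he : ∀ z ∈ Wg r s \ S, h z = ext A B C s f z) {x : ℝ × ℝ} (hx : Ri s x ∈ Wg r s)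
    (hD : x ∈ D) (hs : s ≠ 0) : trf A B C s S h f x = (gs A B C s).symm (h (Ri s x)) := by
  have h1 : x ∉ Ws s := by
    have := ws_dis hx.1 hs
    rwa [rs_ri] at this
  have h2 : x ∉ S := fun h => h1 (hSW h).1
  by_cases h3 : Ri s x ∈ S
  · exact Xe_in2 h2 h3 hD
  · rw [trf_off h2 h3, he _ ⟨hx, h3⟩]
    have h4 : Ri s x ∉ U := by
      intro h5
      apply ws_UR hx.1 h5 hs
      rw [rs_ri]
      exact hD
    rw [ext_nU hg hx.1 h4, rs_ri, IsometryEquiv.symm_apply_apply]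

private theorem Xe_Pclosed : IsClosed P := by
  unfold P
  exact ((Set.toFinite _).prod (Set.toFinite _)).isClosed

theorem trf_lpo {r : ℝ} (hr : r < 1/4) {f h : ℝ × ℝ → X} (hf : Lpo f (D \ P)) (hg : Glu A B C f) {s : Fin 7}
    {S : Set (ℝ × ℝ)} (hS : IsCompact S) (hSW : S ⊆ Wg r s) (hh : Lpo h (Wg r s))
    (he : ∀ z ∈ Wg r s \ S, h z = ext A B C s f z) : Lpo (trf A B C s S h f) (D \ P) := by
  apply lpo_loc
  intro x hx
  by_cases h1 : x ∈ Wg r s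
  · obtain ⟨ρ, hρ, hρ'⟩ := Metric.nhds_basis_closedBall.mem_iff.1 ((wg_open hr s).mem_nhds h1)
    obtain ⟨L, hL⟩ := hh _ hρ' (isCompact_closedBall _ _)
    refine ⟨ρ, hρ, L, ?_⟩
    intro y hy z hz
    rw [Xe_fact1 hSW he (hρ' (Metric.ball_subset_closedBall hy.2)) hy.1.1,
      Xe_fact1 hSW he (hρ' (Metric.ball_subset_closedBall hz.2)) hz.1.1]
    exact hL y (Metric.ball_subset_closedBall hy.2) z (Metric.ball_subset_closedBall hz.2)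
  · by_cases h2 : Ri s x ∈ Wg r s
    · have hs : s ≠ 0 := by
        rintro rfl
        rw [Xe_ri0] at h2
        exact h1 h2
      obtain ⟨ρ, hρ, hρ'⟩ := Metric.nhds_basis_closedBall.mem_iff.1 ((wg_open hr s).mem_nhds h2)
      obtain ⟨L, hL⟩ := hh _ hρ' (isCompact_closedBall _ _)
      have hb : ∀ y ∈ Metric.ball x ρ, Ri s y ∈ Metric.closedBall (Ri s x) ρ := by
        intro y hy
        rw [Metric.mem_closedBall, Xe_ridist]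
        exact (Metric.mem_ball.1 hy).le
      refine ⟨ρ, hρ, L, ?_⟩
      intro y hy z hz
      rw [Xe_fact2 hg hSW he (hρ' (hb y hy.2)) hy.1.1 hs, Xe_fact2 hg hSW he (hρ' (hb z hz.2)) hz.1.1 hs,
        IsometryEquiv.dist_eq]
      have h3 := hL _ (hb y hy.2) _ (hb z hz.2)
      rwa [Xe_ridist] at h3
    · have h3 : x ∉ S := fun h => h1 (hSW h)
      have h4 : Ri s x ∉ S := fun h => h2 (hSW h)
      have hc : Continuous (Ri s) := (Isometry.of_dist_eq (Xe_ridist s)).continuous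
      have hcl : IsClosed (S ∪ Ri s ⁻¹' S ∪ P) :=
        (hS.isClosed.union (hS.isClosed.preimage hc)).union Xe_Pclosed
      have hxn : x ∈ (S ∪ Ri s ⁻¹' S ∪ P)ᶜ := by
        rintro ((h5 | h5) | h5)
        · exact h3 h5
        · exact h4 h5
        · exact hx.2 h5
      obtain ⟨ρ, hρ, hρ'⟩ := Metric.nhds_basis_closedBall.mem_iff.1 (hcl.isOpen_compl.mem_nhds hxn)
      have hcp : IsCompact (Metric.closedBall x ρ ∩ D) := (isCompact_closedBall x ρ).inter_right d_closed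
      have hsub : Metric.closedBall x ρ ∩ D ⊆ D \ P := fun y hy => ⟨hy.2, fun h5 => hρ' hy.1 (Or.inr h5)⟩
      obtain ⟨L, hL⟩ := hf _ hsub hcp
      refine ⟨ρ, hρ, L, ?_⟩
      have hoff : ∀ y ∈ Metric.ball x ρ, trf A B C s S h f y = f y := by
        intro y hy
        apply trf_off
        · exact fun h5 => hρ' (Metric.ball_subset_closedBall hy) (Or.inl (Or.inl h5))
        · exact fun h5 => hρ' (Metric.ball_subset_closedBall hy) (Or.inl (Or.inr h5))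
      intro y hy z hz
      rw [hoff y hy.2, hoff z hz.2]
      exact hL y ⟨Metric.ball_subset_closedBall hy.2, hy.1.1⟩ z ⟨Metric.ball_subset_closedBall hz.2, hz.1.1⟩

private theorem Xe_seven (s : Fin 7) : s = 0 ∨ s = 1 ∨ s = 2 ∨ s = 3 ∨ s = 4 ∨ s = 5 ∨ s = 6 := by
  revert s
  decide

private theorem W0 (a b : ℝ) : ((a, b) : ℝ × ℝ) ∈ Ws 0 ↔ (0 < a ∧ a < 1) ∧ (0 < b ∧ b < 1/2) := Iff.rfl
private theorem W1 (a b : ℝ) : ((a, b) : ℝ × ℝ) ∈ Ws 1 ↔ (1/2 < a ∧ a < 3/2) ∧ (0 < b ∧ b < 1/2) := Iff.rfl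
private theorem W2 (a b : ℝ) : ((a, b) : ℝ × ℝ) ∈ Ws 2 ↔ (-1/2 < a ∧ a < 1/2) ∧ (0 < b ∧ b < 1/2) := Iff.rfl
private theorem W3 (a b : ℝ) : ((a, b) : ℝ × ℝ) ∈ Ws 3 ↔ (0 < a ∧ a < 1/2) ∧ (-1/2 < b ∧ b < 1/2) := Iff.rfl
private theorem W4 (a b : ℝ) : ((a, b) : ℝ × ℝ) ∈ Ws 4 ↔ (1/2 < a ∧ a < 1) ∧ (-1/2 < b ∧ b < 1/2) := Iff.rfl
private theorem W5 (a b : ℝ) : ((a, b) : ℝ × ℝ) ∈ Ws 5 ↔ (0 < a ∧ a < 1/2) ∧ (0 < b ∧ b < 1) := Iff.rfl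
private theorem W6 (a b : ℝ) : ((a, b) : ℝ × ℝ) ∈ Ws 6 ↔ (1/2 < a ∧ a < 1) ∧ (0 < b ∧ b < 1) := Iff.rfl
private theorem R0 (a b : ℝ) : Rs 0 ((a, b) : ℝ × ℝ) = (a, b) := rfl
private theorem R1 (a b : ℝ) : Rs 1 ((a, b) : ℝ × ℝ) = (a - 1, b) := rfl
private theorem R2 (a b : ℝ) : Rs 2 ((a, b) : ℝ × ℝ) = (a + 1, b) := rfl
private theorem R3 (a b : ℝ) : Rs 3 ((a, b) : ℝ × ℝ) = (1 - a, -b) := rfl
private theorem R4 (a b : ℝ) : Rs 4 ((a, b) : ℝ × ℝ) = (1 - a, -b) := rfl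
private theorem R5 (a b : ℝ) : Rs 5 ((a, b) : ℝ × ℝ) = (1 - a, 1 - b) := rfl
private theorem R6 (a b : ℝ) : Rs 6 ((a, b) : ℝ × ℝ) = (1 - a, 1 - b) := rfl

private theorem Xe_G0 {r : ℝ} {f h : ℝ × ℝ → X} {s : Fin 7} {S : Set (ℝ × ℝ)} (hSW : S ⊆ Wg r s) {z : ℝ × ℝ}
    (h1 : z ∉ Ws s) (h2 : ∀ a b : ℝ, ((a, b) : ℝ × ℝ) ∈ Ws s → Rs s (a, b) ≠ z) :
    trf A B C s S h f z = f z := by
  apply trf_off
  · exact fun h3 => h1 (hSW h3).1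
  · intro h3
    exact h2 (Ri s z).1 (Ri s z).2 (hSW h3).1 (rs_ri s z)

private theorem Xe_G1 {r : ℝ} {f h : ℝ × ℝ → X} (hg : Glu A B C f) {s : Fin 7} {S : Set (ℝ × ℝ)}
    (hSW : S ⊆ Wg r s) (hs : s ≠ 0) {z : ℝ × ℝ} (h1 : z ∈ Ws s) (hD : z ∈ D) (hU : z ∉ U) :
    trf A B C s S h f z = gs A B C s (trf A B C s S h f (Rs s z)) := by
  have hD' := (ws_seam h1 hD hU).1.1
  have h2 : Rs s z ∉ S := fun h3 => ws_dis h1 hs (hSW h3).1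
  by_cases h3 : z ∈ S
  · have h4 : Ri s (Rs s z) ∈ S := by
      rw [ri_rs]
      exact h3
    rw [Xe_in h3 hD, Xe_in2 h2 h4 hD', ri_rs, IsometryEquiv.apply_symm_apply]
  · have h4 : Ri s (Rs s z) ∉ S := by
      rw [ri_rs]
      exact h3
    have h5 : Ri s z ∉ S := by
      intro h6
      apply ws_dis (hSW h6).1 hs
      rw [rs_ri]
      exact h1
    rw [trf_off h3 h5, trf_off h2 h4]
    exact ws_glu hg h1 hD hU

theorem trf_glu {r : ℝ} (hr : r < 1/4) {f h : ℝ × ℝ → X} (hg : Glu A B C f) {s : Fin 7}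
    {S : Set (ℝ × ℝ)} (hSW : S ⊆ Wg r s) : Glu A B C (trf A B C s S h f) := by
  have hDm : ∀ a b : ℝ, 0 ≤ a → a ≤ 1 → 0 ≤ b → b ≤ 1/2 → ((a, b) : ℝ × ℝ) ∈ D :=
    fun a b h1 h2 h3 h4 => ⟨⟨h1, h2⟩, h3, h4⟩
  have hUm : ∀ a b : ℝ, ((a, b) : ℝ × ℝ) ∈ U → (0 < a ∧ a < 1) ∧ (0 < b ∧ b < 1/2) := fun a b h => h
  refine ⟨fun v hv => ?_, fun u hu => ?_, fun u hu => ?_⟩
  · obtain ⟨hv0, hv1⟩ := hv
    rcases Xe_seven s with rfl | rfl | rfl | rfl | rfl | rfl | rfl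
    · rw [Xe_G0 hSW (z := (1, v)), Xe_G0 hSW (z := (0, v))]
      · exact hg.glC v ⟨hv0, hv1⟩
      · intro h; obtain ⟨⟨a1, a2⟩, a3, a4⟩ := (W0 _ _).1 h; linarith
      · intro a b h e; obtain ⟨⟨a1, a2⟩, a3, a4⟩ := (W0 _ _).1 h; rw [R0, Prod.mk.injEq] at e; linarith [e.1, e.2]
      · intro h; obtain ⟨⟨a1, a2⟩, a3, a4⟩ := (W0 _ _).1 h; linarith
      · intro a b h e; obtain ⟨⟨a1, a2⟩, a3, a4⟩ := (W0 _ _).1 h; rw [R0, Prod.mk.injEq] at e; linarith [e.1, e.2]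
    · have h1 := Xe_G1 (h := h) hg hSW (by decide) (z := (1, v)) ((W1 _ _).2 ⟨⟨by norm_num, by norm_num⟩, hv0, hv1⟩)
        (hDm _ _ (by norm_num) le_rfl hv0.le hv1.le) (fun h => by linarith [(hUm _ _ h).1.2])
      rw [R1, sub_self] at h1
      exact h1
    · have h1 := Xe_G1 (h := h) hg hSW (by decide) (z := (0, v)) ((W2 _ _).2 ⟨⟨by norm_num, by norm_num⟩, hv0, hv1⟩)
        (hDm _ _ le_rfl (by norm_num) hv0.le hv1.le) (fun h => by linarith [(hUm _ _ h).1.1])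
      rw [R2, zero_add] at h1
      rw [h1]
      exact (C.apply_symm_apply _).symm
    · rw [Xe_G0 hSW (z := (1, v)), Xe_G0 hSW (z := (0, v))]
      · exact hg.glC v ⟨hv0, hv1⟩
      · intro h; obtain ⟨⟨a1, a2⟩, a3, a4⟩ := (W3 _ _).1 h; linarith
      · intro a b h e; obtain ⟨⟨a1, a2⟩, a3, a4⟩ := (W3 _ _).1 h; rw [R3, Prod.mk.injEq] at e; linarith [e.1, e.2]
      · intro h; obtain ⟨⟨a1, a2⟩, a3, a4⟩ := (W3 _ _).1 h; linarith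
      · intro a b h e; obtain ⟨⟨a1, a2⟩, a3, a4⟩ := (W3 _ _).1 h; rw [R3, Prod.mk.injEq] at e; linarith [e.1, e.2]
    · rw [Xe_G0 hSW (z := (1, v)), Xe_G0 hSW (z := (0, v))]
      · exact hg.glC v ⟨hv0, hv1⟩
      · intro h; obtain ⟨⟨a1, a2⟩, a3, a4⟩ := (W4 _ _).1 h; linarith
      · intro a b h e; obtain ⟨⟨a1, a2⟩, a3, a4⟩ := (W4 _ _).1 h; rw [R4, Prod.mk.injEq] at e; linarith [e.1, e.2]
      · intro h; obtain ⟨⟨a1, a2⟩, a3, a4⟩ := (W4 _ _).1 h; linarith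
      · intro a b h e; obtain ⟨⟨a1, a2⟩, a3, a4⟩ := (W4 _ _).1 h; rw [R4, Prod.mk.injEq] at e; linarith [e.1, e.2]
    · rw [Xe_G0 hSW (z := (1, v)), Xe_G0 hSW (z := (0, v))]
      · exact hg.glC v ⟨hv0, hv1⟩
      · intro h; obtain ⟨⟨a1, a2⟩, a3, a4⟩ := (W5 _ _).1 h; linarith
      · intro a b h e; obtain ⟨⟨a1, a2⟩, a3, a4⟩ := (W5 _ _).1 h; rw [R5, Prod.mk.injEq] at e; linarith [e.1, e.2]
      · intro h; obtain ⟨⟨a1, a2⟩, a3, a4⟩ := (W5 _ _).1 h; linarith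
      · intro a b h e; obtain ⟨⟨a1, a2⟩, a3, a4⟩ := (W5 _ _).1 h; rw [R5, Prod.mk.injEq] at e; linarith [e.1, e.2]
    · rw [Xe_G0 hSW (z := (1, v)), Xe_G0 hSW (z := (0, v))]
      · exact hg.glC v ⟨hv0, hv1⟩
      · intro h; obtain ⟨⟨a1, a2⟩, a3, a4⟩ := (W6 _ _).1 h; linarith
      · intro a b h e; obtain ⟨⟨a1, a2⟩, a3, a4⟩ := (W6 _ _).1 h; rw [R6, Prod.mk.injEq] at e; linarith [e.1, e.2]
      · intro h; obtain ⟨⟨a1, a2⟩, a3, a4⟩ := (W6 _ _).1 h; linarith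
      · intro a b h e; obtain ⟨⟨a1, a2⟩, a3, a4⟩ := (W6 _ _).1 h; rw [R6, Prod.mk.injEq] at e; linarith [e.1, e.2]
  · obtain ⟨hu0, hu1⟩ := hu
    rcases Xe_seven s with rfl | rfl | rfl | rfl | rfl | rfl | rfl
    · rw [Xe_G0 hSW (z := (1 - u, 0)), Xe_G0 hSW (z := (u, 0))]
      · exact hg.glA u ⟨hu0, hu1⟩
      · intro h; obtain ⟨⟨a1, a2⟩, a3, a4⟩ := (W0 _ _).1 h; linarith
      · intro a b h e; obtain ⟨⟨a1, a2⟩, a3, a4⟩ := (W0 _ _).1 h; rw [R0, Prod.mk.injEq] at e; linarith [e.1, e.2]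
      · intro h; obtain ⟨⟨a1, a2⟩, a3, a4⟩ := (W0 _ _).1 h; linarith
      · intro a b h e; obtain ⟨⟨a1, a2⟩, a3, a4⟩ := (W0 _ _).1 h; rw [R0, Prod.mk.injEq] at e; linarith [e.1, e.2]
    · rw [Xe_G0 hSW (z := (1 - u, 0)), Xe_G0 hSW (z := (u, 0))]
      · exact hg.glA u ⟨hu0, hu1⟩
      · intro h; obtain ⟨⟨a1, a2⟩, a3, a4⟩ := (W1 _ _).1 h; linarith
      · intro a b h e; obtain ⟨⟨a1, a2⟩, a3, a4⟩ := (W1 _ _).1 h; rw [R1, Prod.mk.injEq] at e; linarith [e.1, e.2]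
      · intro h; obtain ⟨⟨a1, a2⟩, a3, a4⟩ := (W1 _ _).1 h; linarith
      · intro a b h e; obtain ⟨⟨a1, a2⟩, a3, a4⟩ := (W1 _ _).1 h; rw [R1, Prod.mk.injEq] at e; linarith [e.1, e.2]
    · rw [Xe_G0 hSW (z := (1 - u, 0)), Xe_G0 hSW (z := (u, 0))]
      · exact hg.glA u ⟨hu0, hu1⟩
      · intro h; obtain ⟨⟨a1, a2⟩, a3, a4⟩ := (W2 _ _).1 h; linarith
      · intro a b h e; obtain ⟨⟨a1, a2⟩, a3, a4⟩ := (W2 _ _).1 h; rw [R2, Prod.mk.injEq] at e; linarith [e.1, e.2]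
      · intro h; obtain ⟨⟨a1, a2⟩, a3, a4⟩ := (W2 _ _).1 h; linarith
      · intro a b h e; obtain ⟨⟨a1, a2⟩, a3, a4⟩ := (W2 _ _).1 h; rw [R2, Prod.mk.injEq] at e; linarith [e.1, e.2]
    · have h1 := Xe_G1 (h := h) hg hSW (by decide) (z := (u, 0)) ((W3 _ _).2 ⟨⟨hu0, hu1⟩, by norm_num, by norm_num⟩)
        (hDm _ _ hu0.le (by linarith) le_rfl (by norm_num)) (fun h => by linarith [(hUm _ _ h).2.1])
      rw [R3, neg_zero] at h1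
      rw [h1]
      exact (A.apply_symm_apply _).symm
    · have h1 := Xe_G1 (h := h) hg hSW (by decide) (z := (1 - u, 0))
        ((W4 _ _).2 ⟨⟨by linarith, by linarith⟩, by norm_num, by norm_num⟩)
        (hDm _ _ (by linarith) (by linarith) le_rfl (by norm_num)) (fun h => by linarith [(hUm _ _ h).2.1])
      rw [R4, neg_zero, sub_sub_cancel] at h1
      exact h1
    · rw [Xe_G0 hSW (z := (1 - u, 0)), Xe_G0 hSW (z := (u, 0))]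
      · exact hg.glA u ⟨hu0, hu1⟩
      · intro h; obtain ⟨⟨a1, a2⟩, a3, a4⟩ := (W5 _ _).1 h; linarith
      · intro a b h e; obtain ⟨⟨a1, a2⟩, a3, a4⟩ := (W5 _ _).1 h; rw [R5, Prod.mk.injEq] at e; linarith [e.1, e.2]
      · intro h; obtain ⟨⟨a1, a2⟩, a3, a4⟩ := (W5 _ _).1 h; linarith
      · intro a b h e; obtain ⟨⟨a1, a2⟩, a3, a4⟩ := (W5 _ _).1 h; rw [R5, Prod.mk.injEq] at e; linarith [e.1, e.2]
    · rw [Xe_G0 hSW (z := (1 - u, 0)), Xe_G0 hSW (z := (u, 0))]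
      · exact hg.glA u ⟨hu0, hu1⟩
      · intro h; obtain ⟨⟨a1, a2⟩, a3, a4⟩ := (W6 _ _).1 h; linarith
      · intro a b h e; obtain ⟨⟨a1, a2⟩, a3, a4⟩ := (W6 _ _).1 h; rw [R6, Prod.mk.injEq] at e; linarith [e.1, e.2]
      · intro h; obtain ⟨⟨a1, a2⟩, a3, a4⟩ := (W6 _ _).1 h; linarith
      · intro a b h e; obtain ⟨⟨a1, a2⟩, a3, a4⟩ := (W6 _ _).1 h; rw [R6, Prod.mk.injEq] at e; linarith [e.1, e.2]
  · obtain ⟨hu0, hu1⟩ := hu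
    rcases Xe_seven s with rfl | rfl | rfl | rfl | rfl | rfl | rfl
    · rw [Xe_G0 hSW (z := (1 - u, 1/2)), Xe_G0 hSW (z := (u, 1/2))]
      · exact hg.glB u ⟨hu0, hu1⟩
      · intro h; obtain ⟨⟨a1, a2⟩, a3, a4⟩ := (W0 _ _).1 h; linarith
      · intro a b h e; obtain ⟨⟨a1, a2⟩, a3, a4⟩ := (W0 _ _).1 h; rw [R0, Prod.mk.injEq] at e; linarith [e.1, e.2]
      · intro h; obtain ⟨⟨a1, a2⟩, a3, a4⟩ := (W0 _ _).1 h; linarith
      · intro a b h e; obtain ⟨⟨a1, a2⟩, a3, a4⟩ := (W0 _ _).1 h; rw [R0, Prod.mk.injEq] at e; linarith [e.1, e.2]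
    · rw [Xe_G0 hSW (z := (1 - u, 1/2)), Xe_G0 hSW (z := (u, 1/2))]
      · exact hg.glB u ⟨hu0, hu1⟩
      · intro h; obtain ⟨⟨a1, a2⟩, a3, a4⟩ := (W1 _ _).1 h; linarith
      · intro a b h e; obtain ⟨⟨a1, a2⟩, a3, a4⟩ := (W1 _ _).1 h; rw [R1, Prod.mk.injEq] at e; linarith [e.1, e.2]
      · intro h; obtain ⟨⟨a1, a2⟩, a3, a4⟩ := (W1 _ _).1 h; linarith
      · intro a b h e; obtain ⟨⟨a1, a2⟩, a3, a4⟩ := (W1 _ _).1 h; rw [R1, Prod.mk.injEq] at e; linarith [e.1, e.2]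
    · rw [Xe_G0 hSW (z := (1 - u, 1/2)), Xe_G0 hSW (z := (u, 1/2))]
      · exact hg.glB u ⟨hu0, hu1⟩
      · intro h; obtain ⟨⟨a1, a2⟩, a3, a4⟩ := (W2 _ _).1 h; linarith
      · intro a b h e; obtain ⟨⟨a1, a2⟩, a3, a4⟩ := (W2 _ _).1 h; rw [R2, Prod.mk.injEq] at e; linarith [e.1, e.2]
      · intro h; obtain ⟨⟨a1, a2⟩, a3, a4⟩ := (W2 _ _).1 h; linarith
      · intro a b h e; obtain ⟨⟨a1, a2⟩, a3, a4⟩ := (W2 _ _).1 h; rw [R2, Prod.mk.injEq] at e; linarith [e.1, e.2]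
    · rw [Xe_G0 hSW (z := (1 - u, 1/2)), Xe_G0 hSW (z := (u, 1/2))]
      · exact hg.glB u ⟨hu0, hu1⟩
      · intro h; obtain ⟨⟨a1, a2⟩, a3, a4⟩ := (W3 _ _).1 h; linarith
      · intro a b h e; obtain ⟨⟨a1, a2⟩, a3, a4⟩ := (W3 _ _).1 h; rw [R3, Prod.mk.injEq] at e; linarith [e.1, e.2]
      · intro h; obtain ⟨⟨a1, a2⟩, a3, a4⟩ := (W3 _ _).1 h; linarith
      · intro a b h e; obtain ⟨⟨a1, a2⟩, a3, a4⟩ := (W3 _ _).1 h; rw [R3, Prod.mk.injEq] at e; linarith [e.1, e.2]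
    · rw [Xe_G0 hSW (z := (1 - u, 1/2)), Xe_G0 hSW (z := (u, 1/2))]
      · exact hg.glB u ⟨hu0, hu1⟩
      · intro h; obtain ⟨⟨a1, a2⟩, a3, a4⟩ := (W4 _ _).1 h; linarith
      · intro a b h e; obtain ⟨⟨a1, a2⟩, a3, a4⟩ := (W4 _ _).1 h; rw [R4, Prod.mk.injEq] at e; linarith [e.1, e.2]
      · intro h; obtain ⟨⟨a1, a2⟩, a3, a4⟩ := (W4 _ _).1 h; linarith
      · intro a b h e; obtain ⟨⟨a1, a2⟩, a3, a4⟩ := (W4 _ _).1 h; rw [R4, Prod.mk.injEq] at e; linarith [e.1, e.2]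
    · have h1 := Xe_G1 (h := h) hg hSW (by decide) (z := (u, 1/2)) ((W5 _ _).2 ⟨⟨hu0, hu1⟩, by norm_num, by norm_num⟩)
        (hDm _ _ hu0.le (by linarith) (by norm_num) le_rfl) (fun h => by linarith [(hUm _ _ h).2.2])
      rw [R5, show (1 : ℝ) - 1/2 = 1/2 by norm_num] at h1
      rw [h1]
      exact (B.apply_symm_apply _).symm
    · have h1 := Xe_G1 (h := h) hg hSW (by decide) (z := (1 - u, 1/2))
        ((W6 _ _).2 ⟨⟨by linarith, by linarith⟩, by norm_num, by norm_num⟩)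
        (hDm _ _ (by linarith) (by linarith) (by norm_num) le_rfl) (fun h => by linarith [(hUm _ _ h).2.2])
      rw [R6, sub_sub_cancel, show (1 : ℝ) - 1/2 = 1/2 by norm_num] at h1
      exact h1

theorem trf_zr {r : ℝ} (hr : r < 1/4) {f h : ℝ × ℝ → X} {s : Fin 7} {S : Set (ℝ × ℝ)} (hSW : S ⊆ Wg r s)
    {x : ℝ × ℝ} (hx : x ∈ Zr r) : trf A B C s S h f x = f x := by
  rw [wg_eq hr s] at hSW
  apply trf_off
  · exact fun h1 => (hSW h1).2 (Or.inl hx)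
  · intro h1
    apply (hSW h1).2
    right
    rw [mem_preimage, rs_ri]
    exact hx

theorem trf_loc {r : ℝ} (hr : r < 1/4) {f h : ℝ × ℝ → X} (hg : Glu A B C f) {s : Fin 7}
    {S : Set (ℝ × ℝ)} (hSW : S ⊆ Wg r s) (he : ∀ z ∈ Wg r s \ S, h z = ext A B C s f z) {x : ℝ × ℝ}
    (hx : x ∈ Wg r s) : ext A B C s (trf A B C s S h f) x = h x := by
  by_cases hD : x ∈ D
  · rw [ext_D hD, Xe_fact1 hSW he hx hD]
  · have hs : s ≠ 0 := by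
      rintro rfl
      exact hD (Xe_D (ws_zero hx.1))
    have h1 : Ri s (Rs s x) ∈ Wg r s := by
      rw [ri_rs]
      exact hx
    rw [ext_nD hD, Xe_fact2 hg hSW he h1 (Xe_D (ws_nD hx.1 hD)) hs, ri_rs, IsometryEquiv.apply_symm_apply]

end

end H98NX
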