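import Pool.Agent.H98.NX.Xc
import Pool.Agent.H98.NX.Xe
import Pool.Agent.H98.NX.Xg

set_option autoImplicit false

/-!
# Row Xf: energy of the transported competitor; near-minimality in charts

0 < r < 1/4, f in Clx (Cl0), S compact in Wg r s, h in Lpo (Wg r s), h = ext s f on Wg r s minus S, F := trf A B C s S h f. T := (S inter U) union Rs s '' (S minus D) (disjoint, measurable, in U: ext_dis).
(1) F in Lpo (D minus P), glued, F = f on Zr r (row Xe).
(2) U inter (S union Rs s '' S) = T: for y in S inter D: if y in U and s <> 0 then Rs s y is not in D (ws_UR), if y is not in U then Rs s y is not in U (ws_seam); for s = 0 Rs 0 y = y and S is in U.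
 The set U minus T is open and on it F = f near every point (trf_off; S and Rs s '' S are closed), so sp F t = sp f t at every point of U minus T (sp_loc).
(3) ext_int for F (F in Lpo (Gd r): Gd r is a subset of D minus P): int_T sp F t^2 = int_S sp (ext F) t^2, and ext F = h on the open set Wg r s (trf_loc), so = int_S sp h t^2, finite. The same for f:
 int_T sp f t^2 = int_S sp (ext f) t^2.
(4) Hence sp F t^2 is integrable on U = T + (U minus T), F in Clx, and Ex x y F = Ex x y f - int_S e2 (ext f) + int_S e2 h.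
(5) Near-minimality: f in Nr ep: F in Cl0, so E0 <= Ex F (e0_le), and Ex f <= E0 + ep: int_S e2 (ext f) <= int_S e2 h + ep.
-/

namespace H98NX

open H50NA MeasureTheory Set Filter Topology
open H80HM (D U P f1 f2)

noncomputable section

variable {X : Type} [MetricSpace X] {gm : X → X → ℝ → X} {A B C : X ≃ᵢ X}

private theorem Xf_ri_cont (s : Fin 7) : Continuous (Ri s) := by
  unfold Ri
  fun_prop

private theorem Xf_gd {r : ℝ} {f : ℝ × ℝ → X} (hf : Lpo f (D \ P)) : Lpo f (Gd r) :=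
  lpo_mono (S := D \ P) (fun _ hx => ⟨hx.1, fun h => hx.2 (Or.inl h)⟩) hf

/-- off T the two maps agree near every point of U -/
private theorem Xf_near {r : ℝ} {f h : ℝ × ℝ → X} {s : Fin 7}
    {S : Set (ℝ × ℝ)} (hS : IsCompact S) (hSW : S ⊆ Wg r s) {z : ℝ × ℝ} (hz : z ∈ U)
    (hT : z ∉ (S ∩ U) ∪ (Rs s '' (S \ D))) : trf A B C s S h f =ᶠ[𝓝 z] f := by
  have h1 : z ∉ S := fun h => hT (Or.inl ⟨h, hz⟩)
  have h2 : Ri s z ∉ S := by
    intro hy
    have hW := (hSW hy).1
    have hR := rs_ri s z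
    by_cases hD : Ri s z ∈ D
    · by_cases hU : Ri s z ∈ U
      · by_cases hs : s = 0
        · subst hs
          have h3 : Rs 0 (Ri 0 z) = Ri 0 z := rfl
          rw [h3] at hR
          rw [hR] at hy
          exact h1 hy
        · have h3 := ws_UR hW hU hs
          rw [hR] at h3
          exact h3 (u_sub_D hz).1
      · have h3 := (ws_seam hW hD hU).2
        rw [hR] at h3
        exact h3 hz
    · exact hT (Or.inr ⟨Ri s z, ⟨hy, hD⟩, hR⟩)
  have e1 : ∀ᶠ y in 𝓝 z, y ∉ S := hS.isClosed.isOpen_compl.mem_nhds h1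
  have e2 : ∀ᶠ y in 𝓝 z, Ri s y ∉ S :=
    (Xf_ri_cont s).continuousAt.eventually (hS.isClosed.isOpen_compl.mem_nhds h2)
  filter_upwards [e1, e2] with y h3 h4
  exact trf_off h3 h4

theorem trf_clx (hX : Npc X gm) {r : ℝ} (hr : r < 1/4) {f h : ℝ × ℝ → X} (hf : Clx A B C f) {s : Fin 7}
    {S : Set (ℝ × ℝ)} (hS : IsCompact S) (hSW : S ⊆ Wg r s) (hh : Lpo h (Wg r s))
    (he : ∀ z ∈ Wg r s \ S, h z = ext A B C s f z) (x y : ℝ) :
    Clx A B C (trf A B C s S h f) ∧ Ex x y (trf A B C s S h f) = Ex x y f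
      - (∫ z in S, e2 x y (ext A B C s f) z) + ∫ z in S, e2 x y h z := by
  have hl := trf_lpo (A := A) (B := B) (C := C) hr hf.lip hf.glu hS hSW hh he
  have hg := trf_glu (f := f) (h := h) hr hf.glu hSW
  have hnear : ∀ z ∈ U \ ((S ∩ U) ∪ (Rs s '' (S \ D))), trf A B C s S h f =ᶠ[𝓝 z] f :=
    fun z hz => Xf_near hS hSW hz.1 hz.2
  have hloc : ∀ z ∈ S, ext A B C s (trf A B C s S h f) =ᶠ[𝓝 z] h := by
    intro z hz
    filter_upwards [(wg_open hr s).mem_nhds (hSW hz)] with w hw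
    exact trf_loc hr hf.glu hSW he hw
  obtain ⟨hm1, hm2, hdis, hsub⟩ := ext_dis hr hS hSW
  generalize trf A B C s S h f = F at hl hg hnear hloc
  have hmT := hm1.union hm2
  have hmU : MeasurableSet (U \ ((S ∩ U) ∪ (Rs s '' (S \ D)))) := u_open.measurableSet.diff hmT
  have hU : (S ∩ U) ∪ (Rs s '' (S \ D)) ∪ (U \ ((S ∩ U) ∪ (Rs s '' (S \ D)))) = U :=
    union_sdiff_cancel hsub
  have hint : ∀ t, IntegrableOn (fun z => sp F t z ^ 2) U := by
    intro t
    obtain ⟨-, i1, i2, -⟩ := ext_int hr (Xf_gd hl) hg hS hSW t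
    rw [← hU]
    refine (i1.union i2).union ?_
    refine ((clx_int hX hf t).mono_set sdiff_subset).congr_fun ?_ hmU
    intro z hz
    simp only [sp_loc (hnear z hz) t]
  refine ⟨⟨hl, hg, (hint _).add (hint _)⟩, ?_⟩
  obtain ⟨-, j1, j2, j3⟩ := e2_int hr (Xf_gd hl) hg hS hSW x y
  obtain ⟨-, k1, k2, k3⟩ := e2_int hr (clx_gd hf) hf.glu hS hSW x y
  have hFe : IntegrableOn (e2 x y F) U := (hint _).add (hint _)
  have hfe : IntegrableOn (e2 x y f) U := clx_e2 hX hf x y
  have split : ∀ G : ℝ × ℝ → ℝ, IntegrableOn G U → ∫ z in U, G z =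
      (∫ z in S ∩ U, G z) + (∫ z in Rs s '' (S \ D), G z) + ∫ z in U \ ((S ∩ U) ∪ (Rs s '' (S \ D))), G z := by
    intro G hG
    conv_lhs => rw [← hU]
    rw [setIntegral_union disjoint_sdiff_right hmU (hG.mono_set hsub) (hG.mono_set sdiff_subset),
      setIntegral_union hdis hm2 (hG.mono_set (subset_union_left.trans hsub))
        (hG.mono_set (subset_union_right.trans hsub))]
  have e3 : ∫ z in U \ ((S ∩ U) ∪ (Rs s '' (S \ D))), e2 x y F z =
      ∫ z in U \ ((S ∩ U) ∪ (Rs s '' (S \ D))), e2 x y f z := by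
    refine setIntegral_congr_fun hmU fun z hz => ?_
    simp only [e2, sp_loc (hnear z hz)]
  have e4 : ∫ z in S, e2 x y (ext A B C s F) z = ∫ z in S, e2 x y h z := by
    refine setIntegral_congr_fun hS.measurableSet fun z hz => ?_
    simp only [e2, sp_loc (hloc z hz)]
  rw [ex_eq, ex_eq, split _ hFe, split _ hfe, e3, k3, ← e4, j3]
  ring

theorem nr_nmr (hX : Npc X gm) {r : ℝ} (hr : r < 1/4) {o : X} {x y ep : ℝ} {f : ℝ × ℝ → X}
    (hf : Nr A B C r o x y ep f) (s : Fin 7) : NMr x y ep (ext A B C s f) (Wg r s) := by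
  refine ⟨wg_open hr s, ext_lpo hr (clx_gd hf.1.cl) hf.1.cl.glu s, fun S hS hSc g hg hgf => ?_⟩
  obtain ⟨h1, h2⟩ := trf_clx hX hr hf.1.cl hSc hS hg hgf x y
  have h3 : Cl0 A B C r o (trf A B C s S g f) :=
    ⟨h1, fun z hz => by rw [trf_zr hr hS hz, hf.1.eq z hz]⟩
  have h4 := e0_le (x := x) (y := y) h3
  have h5 := hf.2
  linarith

end

end H98NX
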