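import Pool.Agent.H98.NX.Ea

set_option autoImplicit false

/-!
# Row Xi: almost everywhere limits of a fast L2 Cauchy sequence

W open of finite volume, f_j in Lpo W, int_W dist(f_i,f_j)^2 <= K 16^{-i} for i <= j (integrable).
(1) dist(f_i)(f_j) is continuous on W, so measurable. Cauchy-Schwarz: int_W dist(f_j,f_{j+1}) <= sqrt(vol W) sqrt(K 16^{-j}) = c 4^{-j}, summable; by Tonelli (lintegral_tsum) the sum over j of
 dist(f_j z)(f_{j+1} z) is finite for a.e. z in W: cauchySeq_of_summable_dist, X is complete. Define u0 z := the limit if f_j z converges, else f_0 z.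
(2) for a.e. z in W: dist(f_i z)(f_j z) -> dist(f_i z)(u0 z) as j -> oo (i fixed): measurability (aestronglyMeasurable_of_tendsto_ae) and Fatou (lintegral_liminf_le) for the squares:
 int_W dist(f_i,u0)^2 <= liminf_j int_W dist(f_i,f_j)^2 <= K 16^{-i}.
-/

namespace H98NX

open H50NA MeasureTheory Set Filter Topology

variable {X : Type} [MetricSpace X] [CompleteSpace X]

theorem ae_lim {W : Set (ℝ × ℝ)} (hW : IsOpen W) (hv : (volume : Measure (ℝ × ℝ)) W < ⊤) {fj : ℕ → ℝ × ℝ → X}
    (hl : ∀ j, Lpo (fj j) W) {K : ℝ}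
    (hI : ∀ i j, i ≤ j → IntegrableOn (fun z => dist (fj i z) (fj j z) ^ 2) W ∧
      ∫ z in W, dist (fj i z) (fj j z) ^ 2 ≤ K * (1 / 16) ^ i) :
    ∃ u0 : ℝ × ℝ → X, (∀ᵐ z : ℝ × ℝ, z ∈ W → Tendsto (fun j => fj j z) atTop (𝓝 (u0 z))) ∧
      ∀ i, AEStronglyMeasurable (fun z => dist (fj i z) (u0 z)) (volume.restrict W) ∧
        IntegrableOn (fun z => dist (fj i z) (u0 z) ^ 2) W ∧
        ∫ z in W, dist (fj i z) (u0 z) ^ 2 ≤ K * (1 / 16) ^ i := by
  classical
  have hm : ∀ i j, AEStronglyMeasurable (fun z => dist (fj i z) (fj j z)) (volume.restrict W) :=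
    fun i j => lpo_aes volume hW (hl i) (hl j)
  have hfm : IsFiniteMeasure (volume.restrict W : Measure (ℝ × ℝ)) :=
    ⟨by rwa [Measure.restrict_apply_univ]⟩
  obtain ⟨V, hV⟩ : ∃ V, V = (volume.restrict W : Measure (ℝ × ℝ)).real univ := ⟨_, rfl⟩
  have hV0 : 0 ≤ V := by
    rw [hV]
    exact measureReal_nonneg
  have hK0 : ∀ i, 0 ≤ K * (1 / 16 : ℝ) ^ i := fun i =>
    le_trans (integral_nonneg fun z => sq_nonneg _) (hI i i le_rfl).2
  have hK : 0 ≤ K := by
    have := hK0 0
    rwa [pow_zero, mul_one] at this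
  have h1 : ∀ j, ∫⁻ z in W, ENNReal.ofReal (dist (fj j z) (fj (j + 1) z)) ≤
      ENNReal.ofReal ((K + V) * (1 / 4) ^ j) := by
    intro j
    obtain ⟨i1, i2⟩ := hI j (j + 1) (Nat.le_succ j)
    have hab : (4 : ℝ) ^ j * (1 / 4) ^ j = 1 := by
      rw [← mul_pow]
      norm_num
    have hint : Integrable (fun z => (4 : ℝ) ^ j * dist (fj j z) (fj (j + 1) z) ^ 2 + (1 / 4) ^ j)
        (volume.restrict W) := (i1.const_mul _).add (integrable_const _)
    calc ∫⁻ z in W, ENNReal.ofReal (dist (fj j z) (fj (j + 1) z)) ≤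
          ∫⁻ z in W, ENNReal.ofReal ((4 : ℝ) ^ j * dist (fj j z) (fj (j + 1) z) ^ 2 + (1 / 4) ^ j) := by
          apply lintegral_mono
          intro z
          apply ENNReal.ofReal_le_ofReal
          have ha : (0 : ℝ) < 4 ^ j := by positivity
          generalize (4 : ℝ) ^ j = a at *
          generalize (1 / 4 : ℝ) ^ j = b at *
          generalize dist (fj j z) (fj (j + 1) z) = d at *
          have h5 : 0 ≤ a * (a * d ^ 2 + b - d) := by
            have h6 : a * (a * d ^ 2 + b - d) = (a * d) ^ 2 + 1 - a * d := by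
              linear_combination hab
            rw [h6]
            nlinarith [sq_nonneg (a * d - 1)]
          have h7 : 0 ≤ a * d ^ 2 + b - d := nonneg_of_mul_nonneg_right h5 ha
          linarith
      _ = ENNReal.ofReal (∫ z in W, ((4 : ℝ) ^ j * dist (fj j z) (fj (j + 1) z) ^ 2 + (1 / 4) ^ j)) :=
          (ofReal_integral_eq_lintegral_ofReal hint (Eventually.of_forall fun z => by positivity)).symm
      _ ≤ ENNReal.ofReal ((K + V) * (1 / 4) ^ j) := by
          apply ENNReal.ofReal_le_ofReal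
          rw [integral_add (i1.const_mul _) (integrable_const _), integral_const_mul, integral_const,
            smul_eq_mul, ← hV]
          have h5 : (4 : ℝ) ^ j * (K * (1 / 16) ^ j) = K * (1 / 4) ^ j := by
            have h6 : (4 : ℝ) ^ j * (1 / 16) ^ j = (1 / 4) ^ j := by
              rw [← mul_pow]
              norm_num
            rw [← h6]
            ring
          have h7 := mul_le_mul_of_nonneg_left i2 (by positivity : (0 : ℝ) ≤ 4 ^ j)
          rw [h5] at h7
          linarith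
  have h2 : ∫⁻ z in W, ∑' j, ENNReal.ofReal (dist (fj j z) (fj (j + 1) z)) < ⊤ := by
    rw [lintegral_tsum (fun j => (hm j (j + 1)).aemeasurable.ennreal_ofReal)]
    refine lt_of_le_of_lt (ENNReal.tsum_le_tsum h1) ?_
    have hs : Summable (fun j : ℕ => (K + V) * (1 / 4 : ℝ) ^ j) :=
      (summable_geometric_of_lt_one (by norm_num) (by norm_num)).mul_left _
    rw [← ENNReal.ofReal_tsum_of_nonneg (fun j => by positivity) hs]
    exact ENNReal.ofReal_lt_top
  have h3 : ∀ᵐ z ∂(volume.restrict W),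
      ∑' j, ENNReal.ofReal (dist (fj j z) (fj (j + 1) z)) < ⊤ :=
    ae_lt_top' (AEMeasurable.ennreal_tsum fun j => (hm j (j + 1)).aemeasurable.ennreal_ofReal) h2.ne
  have h4 : ∀ᵐ z ∂(volume.restrict W), ∃ x, Tendsto (fun j => fj j z) atTop (𝓝 x) := by
    filter_upwards [h3] with z hz
    have hs : Summable (fun j => dist (fj j z) (fj (j + 1) z)) := by
      have h5 := ENNReal.summable_toReal hz.ne
      simpa only [ENNReal.toReal_ofReal dist_nonneg] using h5
    exact cauchySeq_tendsto_of_complete (cauchySeq_of_summable_dist hs)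
  let u0 : ℝ × ℝ → X := fun z =>
    if h : ∃ x, Tendsto (fun j => fj j z) atTop (𝓝 x) then h.choose else fj 0 z
  have h5 : ∀ᵐ z ∂(volume.restrict W), Tendsto (fun j => fj j z) atTop (𝓝 (u0 z)) := by
    filter_upwards [h4] with z hz
    have h6 : u0 z = hz.choose := dif_pos hz
    rw [h6]
    exact hz.choose_spec
  refine ⟨u0, (ae_restrict_iff' hW.measurableSet).1 h5, fun i => ?_⟩
  have h6 : ∀ᵐ z ∂(volume.restrict W),
      Tendsto (fun j => dist (fj i z) (fj j z)) atTop (𝓝 (dist (fj i z) (u0 z))) := by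
    filter_upwards [h5] with z hz
    exact tendsto_const_nhds.dist hz
  have h7 : AEStronglyMeasurable (fun z => dist (fj i z) (u0 z)) (volume.restrict W) :=
    aestronglyMeasurable_of_tendsto_ae atTop (fun j => hm i j) h6
  have h8 : ∫⁻ z in W, ENNReal.ofReal (dist (fj i z) (u0 z) ^ 2) ≤ ENNReal.ofReal (K * (1 / 16) ^ i) := by
    have e1 : ∫⁻ z in W, ENNReal.ofReal (dist (fj i z) (u0 z) ^ 2) =
        ∫⁻ z in W, liminf (fun j => ENNReal.ofReal (dist (fj i z) (fj j z) ^ 2)) atTop := by
      apply lintegral_congr_ae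
      filter_upwards [h6] with z hz
      exact ((ENNReal.continuous_ofReal.tendsto _).comp (hz.pow 2)).liminf_eq.symm
    rw [e1]
    refine (lintegral_liminf_le' fun j => ((hm i j).aemeasurable.pow_const 2).ennreal_ofReal).trans ?_
    have e2 : ∀ᶠ j in atTop, ∫⁻ z in W, ENNReal.ofReal (dist (fj i z) (fj j z) ^ 2) ≤
        ENNReal.ofReal (K * (1 / 16) ^ i) := by
      filter_upwards [eventually_ge_atTop i] with j hj
      obtain ⟨i1, i2⟩ := hI i j hj
      rw [← ofReal_integral_eq_lintegral_ofReal i1 (Eventually.of_forall fun z => sq_nonneg _)]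
      exact ENNReal.ofReal_le_ofReal i2
    exact (Filter.liminf_le_liminf e2).trans (le_of_eq (Filter.liminf_const _))
  have h9 : AEStronglyMeasurable (fun z => dist (fj i z) (u0 z) ^ 2) (volume.restrict W) := h7.pow 2
  refine ⟨h7, ?_, ?_⟩
  · exact (lintegral_ofReal_ne_top_iff_integrable h9 (Eventually.of_forall fun z => sq_nonneg _)).1
      (lt_of_le_of_lt h8 ENNReal.ofReal_lt_top).ne
  · rw [integral_eq_lintegral_of_nonneg_ae (Eventually.of_forall fun z => sq_nonneg _) h9]
    exact ENNReal.toReal_le_of_le_ofReal (hK0 i) h8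

end H98NX
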