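import Pool.Agent.H98.NX.Xa2

set_option autoImplicit false

/-!
# Row Xm: cutoff functions adapted to a compact subset of Gd r
-/

namespace H98NX

open H50NA MeasureTheory Set Filter Topology
open H80HM (D U P f1 f2)

noncomputable section

/-- open subset of U away from P and Zr -/
def Wd (r d : ℝ) : Set (ℝ × ℝ) := {z | z ∈ U ∧ d < Metric.infDist z P ∧ r + d < dist z (1/4, 1/4)}

/-- compact subset of Gd r -/
def Kd (r d : ℝ) : Set (ℝ × ℝ) := {z | z ∈ D ∧ d ≤ Metric.infDist z P ∧ r + d ≤ dist z (1/4, 1/4)}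

/-- properties of the cutoff -/
structure Cut (r d K : ℝ) (S : Set (ℝ × ℝ)) (eta : ℝ × ℝ → ℝ) : Prop where
  dpos : 0 < d
  rd : r + d < 1/4
  Kpos : 0 ≤ K
  lip : ∀ z w, |eta z - eta w| ≤ K * dist z w
  nn : ∀ z, 0 ≤ eta z
  le : ∀ z, eta z ≤ 1
  sy : Sy eta
  one : ∀ z ∈ S, eta z = 1
  zP : ∀ z, Metric.infDist z P ≤ d → eta z = 0
  zZ : ∀ z ∈ Zr (r + d), eta z = 0

theorem xm_cP : Continuous fun z : ℝ × ℝ => Metric.infDist z P := Metric.continuous_infDist_pt P

theorem xm_cZ : Continuous fun z : ℝ × ℝ => dist z ((1/4, 1/4) : ℝ × ℝ) :=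
  continuous_id.dist continuous_const

theorem xm_Pfin : (P : Set (ℝ × ℝ)).Finite :=
  Set.Finite.prod (Set.toFinite _) (Set.toFinite _)

theorem xm_Pne : (P : Set (ℝ × ℝ)).Nonempty :=
  ⟨(0, 0), by rw [Xa_P]; exact ⟨Or.inl rfl, Or.inl rfl⟩⟩

/-- the clamp function -/
def xmc (t : ℝ) : ℝ := min 1 (max 0 t)

theorem xmc_nn (t : ℝ) : 0 ≤ xmc t := le_min zero_le_one (le_max_left _ _)

theorem xmc_le (t : ℝ) : xmc t ≤ 1 := min_le_left _ _

theorem xmc_one {t : ℝ} (h : 1 ≤ t) : xmc t = 1 :=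
  min_eq_left (h.trans (le_max_right _ _))

theorem xmc_zero {t : ℝ} (h : t ≤ 0) : xmc t = 0 := by
  rw [xmc, max_eq_left h, min_eq_right zero_le_one]

theorem xmc_lip (a b : ℝ) : |xmc a - xmc b| ≤ |a - b| := by
  unfold xmc
  calc |min 1 (max 0 a) - min 1 (max 0 b)| ≤ max |1 - 1| |max 0 a - max 0 b| :=
        abs_min_sub_min_le_max _ _ _ _
    _ = |max 0 a - max 0 b| := by
        rw [sub_self, abs_zero]
        exact max_eq_right (abs_nonneg _)
    _ ≤ max |0 - 0| |a - b| := abs_max_sub_max_le_max _ _ _ _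
    _ = |a - b| := by
        rw [sub_self, abs_zero]
        exact max_eq_right (abs_nonneg _)

theorem wd_open (r d : ℝ) : IsOpen (Wd r d) := by
  have hU : IsOpen U := isOpen_Ioo.prod isOpen_Ioo
  exact hU.inter ((isOpen_lt continuous_const xm_cP).inter (isOpen_lt continuous_const xm_cZ))

theorem wd_sub (r d : ℝ) : Wd r d ⊆ Kd r d :=
  fun _ h => ⟨(u_sub_D h.1).1, h.2.1.le, h.2.2.le⟩

theorem kd_cpt (r d : ℝ) : IsCompact (Kd r d) := by
  have hD : IsCompact (D : Set (ℝ × ℝ)) := isCompact_Icc.prod isCompact_Icc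
  exact hD.inter_right
    ((isClosed_le continuous_const xm_cP).inter (isClosed_le continuous_const xm_cZ))

theorem kd_sub {r d : ℝ} (hd : 0 < d) : Kd r d ⊆ Gd r := by
  rintro z ⟨h1, h2, h3⟩
  refine ⟨h1, ?_⟩
  rintro (h | h)
  · rw [Metric.infDist_zero_of_mem h] at h2
    linarith
  · have h' : dist z (1/4, 1/4) ≤ r := h
    linarith

theorem xm_pos {r : ℝ} {z : ℝ × ℝ} (h : z ∈ Gd r) :
    0 < min (Metric.infDist z P) (dist z (1/4, 1/4) - r) := by
  obtain ⟨-, h2⟩ := h
  rw [Set.mem_union, not_or] at h2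
  apply lt_min
  · exact (xm_Pfin.isClosed.notMem_iff_infDist_pos xm_Pne).1 h2.1
  · have h3 : ¬ dist z (1/4, 1/4) ≤ r := h2.2
    linarith [not_le.1 h3]

theorem xm_ex {r : ℝ} {S : Set (ℝ × ℝ)} (hS : IsCompact S) (hSG : S ⊆ Gd r) :
    ∃ m : ℝ, 0 < m ∧ ∀ z ∈ S, m ≤ Metric.infDist z P ∧ r + m ≤ dist z (1/4, 1/4) := by
  rcases S.eq_empty_or_nonempty with rfl | hne
  · exact ⟨1, one_pos, fun z hz => absurd hz (Set.notMem_empty z)⟩
  · obtain ⟨z0, hz0, hmin⟩ := hS.exists_isMinOn hne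
      (f := fun z => min (Metric.infDist z P) (dist z (1/4, 1/4) - r))
      (xm_cP.min (xm_cZ.sub continuous_const)).continuousOn
    refine ⟨_, xm_pos (hSG hz0), fun z hz => ?_⟩
    have h1 : min (Metric.infDist z0 P) (dist z0 (1/4, 1/4) - r) ≤
      min (Metric.infDist z P) (dist z (1/4, 1/4) - r) := hmin hz
    obtain ⟨h2, h3⟩ := le_min_iff.1 h1
    exact ⟨h2, by linarith⟩

theorem gd_exh {r : ℝ} {S : Set (ℝ × ℝ)} (hS : IsCompact S) (hSG : S ⊆ Gd r) : ∃ d : ℝ, 0 < d ∧ S ⊆ Kd r d := by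
  obtain ⟨m, hm, h⟩ := xm_ex hS hSG
  exact ⟨m, hm, fun z hz => ⟨(hSG hz).1, (h z hz).1, (h z hz).2⟩⟩

/-- reflection -/
theorem xm_refl (z : ℝ × ℝ) : Metric.infDist (1 - z.1, z.2) P = Metric.infDist z P := by
  have hiso : Isometry (fun z : ℝ × ℝ => ((1 - z.1, z.2) : ℝ × ℝ)) := by
    apply Isometry.of_dist_eq
    intro x y
    rw [Prod.dist_eq, Prod.dist_eq]
    congr 1
    change dist (1 - x.1) (1 - y.1) = _
    rw [Real.dist_eq, Real.dist_eq, ← abs_neg]
    congr 1
    ring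
  have himg : (fun z : ℝ × ℝ => ((1 - z.1, z.2) : ℝ × ℝ)) '' P = P := by
    ext x
    constructor
    · rintro ⟨y, hy, rfl⟩
      rw [Xa_P] at hy ⊢
      refine ⟨?_, hy.2⟩
      rcases hy.1 with h | h | h <;> simp only [h]
      · right; right; norm_num
      · right; left; norm_num
      · left; norm_num
    · intro hx
      refine ⟨(1 - x.1, x.2), ?_, ?_⟩
      · rw [Xa_P] at hx ⊢
        refine ⟨?_, hx.2⟩
        rcases hx.1 with h | h | h <;> simp only [h]
        · right; right; norm_num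
        · right; left; norm_num
        · left; norm_num
      · exact Prod.ext (sub_sub_cancel _ _) rfl
  have h := Metric.infDist_image hiso (x := z) (t := P)
  rw [himg] at h
  exact h

theorem cut_ex {r : ℝ} (hr : r < 1/4) {S : Set (ℝ × ℝ)} (hS : IsCompact S) (hSG : S ⊆ Gd r) :
    ∃ (d K : ℝ) (eta : ℝ × ℝ → ℝ), Cut r d K S eta := by
  obtain ⟨m, hm, h⟩ := xm_ex hS hSG
  obtain ⟨d, hd, hdm, hdr⟩ : ∃ d : ℝ, 0 < d ∧ 2 * d ≤ m ∧ r + 2 * d ≤ 1/4 := by
    refine ⟨min (m / 2) ((1/4 - r) / 2), lt_min (by linarith) (by linarith), ?_, ?_⟩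
    · have := min_le_left (m / 2) ((1/4 - r) / 2)
      linarith
    · have := min_le_right (m / 2) ((1/4 - r) / 2)
      linarith
  let a : ℝ × ℝ → ℝ := fun z => xmc (Metric.infDist z P / d - 1)
  let b : ℝ × ℝ → ℝ := fun z => xmc ((dist z (1/4, 1/4) - r) / d - 1)
  have ha1 : ∀ z w, |a z - a w| ≤ dist z w / d := by
    intro z w
    refine (xmc_lip _ _).trans ?_
    have e : Metric.infDist z P / d - 1 - (Metric.infDist w P / d - 1) =
      (Metric.infDist z P - Metric.infDist w P) / d := by ring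
    rw [e, abs_div, abs_of_pos hd]
    apply div_le_div_of_nonneg_right _ hd.le
    rw [abs_le]
    have h1 := Metric.infDist_le_infDist_add_dist (s := P) (x := z) (y := w)
    have h2 := Metric.infDist_le_infDist_add_dist (s := P) (x := w) (y := z)
    rw [dist_comm w z] at h2
    constructor <;> linarith
  have hb1 : ∀ z w, |b z - b w| ≤ dist z w / d := by
    intro z w
    refine (xmc_lip _ _).trans ?_
    have e : (dist z (1/4, 1/4) - r) / d - 1 - ((dist w (1/4, 1/4) - r) / d - 1) =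
      (dist z (1/4, 1/4) - dist w (1/4, 1/4)) / d := by ring
    rw [e, abs_div, abs_of_pos hd]
    apply div_le_div_of_nonneg_right _ hd.le
    exact abs_dist_sub_le z w _
  have hb2 : ∀ z : ℝ × ℝ, 1/4 ≤ dist z (1/4, 1/4) → b z = 1 := by
    intro z hz
    apply xmc_one
    have : 2 ≤ (dist z (1/4, 1/4) - r) / d := by
      rw [le_div_iff₀ hd]
      linarith
    linarith
  have hq1 : ∀ z : ℝ × ℝ, 1/4 ≤ |z.1 - 1/4| → 1/4 ≤ dist z (1/4, 1/4) := by
    intro z hz
    rw [Prod.dist_eq]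
    exact hz.trans (le_max_left _ _)
  have hq2 : ∀ z : ℝ × ℝ, 1/4 ≤ |z.2 - 1/4| → 1/4 ≤ dist z (1/4, 1/4) := by
    intro z hz
    rw [Prod.dist_eq]
    exact hz.trans (le_max_right _ _)
  have haR : ∀ z : ℝ × ℝ, a (1 - z.1, z.2) = a z := by
    intro z
    change xmc _ = xmc _
    rw [xm_refl]
  refine ⟨d, 2 / d, fun z => a z * b z, hd, by linarith, by positivity, ?_, ?_, ?_, ?_, ?_, ?_, ?_⟩
  · intro z w
    have e : a z * b z - a w * b w = (a z - a w) * b z + a w * (b z - b w) := by ring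
    have h1 : |(a z - a w) * b z| ≤ dist z w / d := by
      rw [abs_mul, abs_of_nonneg (xmc_nn _ : 0 ≤ b z)]
      calc |a z - a w| * b z ≤ |a z - a w| * 1 :=
            mul_le_mul_of_nonneg_left (xmc_le _) (abs_nonneg _)
        _ ≤ dist z w / d := by rw [mul_one]; exact ha1 z w
    have h2 : |a w * (b z - b w)| ≤ dist z w / d := by
      rw [abs_mul, abs_of_nonneg (xmc_nn _ : 0 ≤ a w)]
      calc a w * |b z - b w| ≤ 1 * |b z - b w| :=
            mul_le_mul_of_nonneg_right (xmc_le _) (abs_nonneg _)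
        _ ≤ dist z w / d := by rw [one_mul]; exact hb1 z w
    calc |a z * b z - a w * b w| ≤ |(a z - a w) * b z| + |a w * (b z - b w)| := by
          rw [e]; exact abs_add_le _ _
      _ ≤ dist z w / d + dist z w / d := add_le_add h1 h2
      _ = 2 / d * dist z w := by ring
  · intro z
    exact mul_nonneg (xmc_nn _) (xmc_nn _)
  · intro z
    exact mul_le_one₀ (xmc_le _) (xmc_nn _) (xmc_le _)
  · constructor
    · intro v hv
      have h1 := haR (0, v)
      rw [hb2 _ (hq1 (1, v) (by norm_num [abs_of_pos])), hb2 _ (hq1 (0, v) (by norm_num))]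
      simp only [sub_zero] at h1
      rw [h1]
    · intro u hu
      rw [hb2 _ (hq2 (1 - u, 0) (by norm_num)), hb2 _ (hq2 (u, 0) (by norm_num))]
      have h1 := haR (u, 0)
      simp only at h1
      rw [h1]
    · intro u hu
      rw [hb2 _ (hq2 (1 - u, 1/2) (by norm_num)), hb2 _ (hq2 (u, 1/2) (by norm_num))]
      have h1 := haR (u, 1/2)
      simp only at h1
      rw [h1]
  · intro z hz
    obtain ⟨h1, h2⟩ := h z hz
    have ha : a z = 1 := by
      apply xmc_one
      have : 2 ≤ Metric.infDist z P / d := by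
        rw [le_div_iff₀ hd]
        linarith
      linarith
    have hb : b z = 1 := by
      apply xmc_one
      have : 2 ≤ (dist z (1/4, 1/4) - r) / d := by
        rw [le_div_iff₀ hd]
        linarith
      linarith
    change a z * b z = 1
    rw [ha, hb, mul_one]
  · intro z hz
    have ha : a z = 0 := by
      apply xmc_zero
      have : Metric.infDist z P / d ≤ 1 := by
        rw [div_le_iff₀ hd]
        linarith
      linarith
    change a z * b z = 0
    rw [ha, zero_mul]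
  · intro z hz
    have hz' : dist z (1/4, 1/4) ≤ r + d := hz
    have hb : b z = 0 := by
      apply xmc_zero
      have : (dist z (1/4, 1/4) - r) / d ≤ 1 := by
        rw [div_le_iff₀ hd]
        linarith
      linarith
    change a z * b z = 0
    rw [hb, mul_zero]

end

end H98NX
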