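import Pool.Agent.H98.NX.Xb
import Pool.Agent.H98.NX.Xg
import Pool.Agent.H98.NX.Xm
import Pool.Agent.H98.NX.El

set_option autoImplicit false

/-!
# Row Xn: interpolation of a map of the class with a map on Gd r

f in Clx (Cl0), u in Lpo (Gd r), glued, eta with Cut r d K S eta. g := ip gm f u eta (g z = gm (f z)(u z)(eta z)).
* g = f where eta = 0 (h.zero), g = u where eta = 1 (h.one).
* Lpo g (D minus P) by lpo_loc: z in D minus P. If z in Gd r: a small closed ball around z meets D only in Gd r (P and Zr r are closed), on its (compact) intersection with D f, u, eta are Lipschitz: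
 Lpo g (Gd r) by lpo_gm (f, u, eta in Lpo (Gd r), lpo_lip for eta). If z in Zr r: points near z are in Zr (r+d), so eta = 0 and g = f there.
* gluing: on the six open sides eta is invariant (Sy), f and u are glued, and gm commutes with the isometries A, B, C (gm_iso).
* finite energy: for t = (1,0), (0,1). On the set N := {z in U : eta z = 0} (relatively closed in U, measurable): g = f, so sp g t = sp f t for a.e. z in N (sp_eq_on with O = U). On U minus N, contained in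
 Wd r d (zP, zZ), an open set contained in the compact set Kd r d of Gd r, g is Lipschitz with some constant L on Kd r d, so sp g t z <= L |t| at every z in Wd r d (sp_le, open). So sp g t^2 <= sp f t^2 + L^2|t|^2 a.e.
 on U; measurability by sp_meas (row Eb) on U.
* on Zr r: eta = 0, g = f = o.
The same for ip gm u f eta on Wd: not needed here.
-/

namespace H98NX

open H50NA MeasureTheory Set Filter Topology
open H80HM (D U P f1 f2)

noncomputable section

variable {X : Type} [MetricSpace X] {gm : X → X → ℝ → X} {A B C : X ≃ᵢ X}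

theorem ip_zero (hX : Npc X gm) {f u : ℝ × ℝ → X} {eta : ℝ × ℝ → ℝ} {z : ℝ × ℝ} (h : eta z = 0) :
    ip gm f u eta z = f z := by
  unfold ip
  rw [h]
  exact hX.zero _ _

theorem ip_one (hX : Npc X gm) {f u : ℝ × ℝ → X} {eta : ℝ × ℝ → ℝ} {z : ℝ × ℝ} (h : eta z = 1) :
    ip gm f u eta z = u z := by
  unfold ip
  rw [h]
  exact hX.one _ _

private theorem Xn_sub {r : ℝ} : Gd r ⊆ D \ P := by
  rintro z ⟨h1, h2⟩
  exact ⟨h1, fun h => h2 (Or.inl h)⟩

private theorem Xn_P : IsClosed P :=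
  ((Set.toFinite ({0, 1/2, 1} : Set ℝ)).prod (Set.toFinite ({0, 1/2} : Set ℝ))).isClosed

private theorem Xn_D : IsCompact D := isCompact_Icc.prod isCompact_Icc

private theorem Xn_volU : volume U ≠ ⊤ :=
  ((measure_mono (fun z hz => (u_sub_D hz).1)).trans_lt Xn_D.measure_lt_top).ne

/-- local Lipschitz constants on D minus a closed set -/
private theorem Xn_loc {F : ℝ × ℝ → X} {Q : Set (ℝ × ℝ)} (hQ : IsClosed Q) (hF : Lpo F (D \ Q))
    {z : ℝ × ℝ} (hz : z ∉ Q) : ∃ ρ : ℝ, 0 < ρ ∧ ∃ L : ℝ, ∀ y ∈ D ∩ Metric.ball z ρ,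
      ∀ y' ∈ D ∩ Metric.ball z ρ, dist (F y) (F y') ≤ L * dist y y' := by
  obtain ⟨ρ, hρ, hρQ⟩ := Metric.nhds_basis_closedBall.mem_iff.1 (hQ.isOpen_compl.mem_nhds hz)
  obtain ⟨L, -, hL⟩ := Ea_pos hF (C := D ∩ Metric.closedBall z ρ)
    (fun y hy => ⟨hy.1, hρQ hy.2⟩) (Xn_D.inter_right Metric.isClosed_closedBall)
  exact ⟨ρ, hρ, L, fun y hy y' hy' => hL y ⟨hy.1, Metric.ball_subset_closedBall hy.2⟩ y'
    ⟨hy'.1, Metric.ball_subset_closedBall hy'.2⟩⟩

private theorem Xn_gd (hX : Npc X gm) {r : ℝ} {f u : ℝ × ℝ → X} (hf : Lpo f (Gd r))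
    (hu : Lpo u (Gd r)) {d K : ℝ} {S : Set (ℝ × ℝ)} {eta : ℝ × ℝ → ℝ} (hc : Cut r d K S eta) :
    Lpo (ip gm f u eta) (Gd r) :=
  lpo_gm hX hf hu (lpo_lip hc.lip _) fun z _ => ⟨hc.nn z, hc.le z⟩

private theorem Xn_lip (hX : Npc X gm) {r : ℝ} {f u : ℝ × ℝ → X} (hf : Lpo f (D \ P))
    (hu : Lpo u (Gd r)) {d K : ℝ} {S : Set (ℝ × ℝ)} {eta : ℝ × ℝ → ℝ} (hc : Cut r d K S eta) :
    Lpo (ip gm f u eta) (D \ P) := by
  have hfG : Lpo f (Gd r) := lpo_mono Xn_sub hf
  apply lpo_loc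
  rintro z ⟨hzD, hzP⟩
  by_cases hzZ : z ∈ Zr r
  · obtain ⟨ρ, hρ, L, hL⟩ := Xn_loc Xn_P hf hzP
    refine ⟨min ρ d, lt_min hρ hc.dpos, L, ?_⟩
    have key : ∀ y ∈ Metric.ball z (min ρ d), eta y = 0 := by
      intro y hy
      apply hc.zZ
      rw [Zr, Metric.mem_closedBall] at hzZ ⊢
      have h1 := dist_triangle y z (1/4, 1/4)
      have h2 := (Metric.mem_ball.1 hy).trans_le (min_le_right _ _)
      linarith
    rintro y ⟨hy1, hy2⟩ y' ⟨hy1', hy2'⟩
    rw [ip_zero hX (key y hy2), ip_zero hX (key y' hy2')]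
    exact hL y ⟨hy1.1, Metric.ball_subset_ball (min_le_left _ _) hy2⟩ y'
      ⟨hy1'.1, Metric.ball_subset_ball (min_le_left _ _) hy2'⟩
  · obtain ⟨ρ, hρ, L, hL⟩ := Xn_loc (Xn_P.union (Metric.isClosed_closedBall : IsClosed (Zr r)))
      (Xn_gd hX hfG hu hc) (z := z) (fun h => h.elim hzP hzZ)
    exact ⟨ρ, hρ, L, fun y hy y' hy' => hL y ⟨hy.1.1, hy.2⟩ y' ⟨hy'.1.1, hy'.2⟩⟩

private theorem Xn_glu (hX : Npc X gm) {r : ℝ} {f u : ℝ × ℝ → X} (hf : Glu A B C f)
    (hu : Glu A B C u) {d K : ℝ} {S : Set (ℝ × ℝ)} {eta : ℝ × ℝ → ℝ} (hc : Cut r d K S eta) :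
    Glu A B C (ip gm f u eta) where
  glC v hv := by
    unfold ip
    rw [hf.glC v hv, hu.glC v hv, hc.sy.sC v ⟨hv.1.le, hv.2.le⟩]
    exact (gm_iso hX C (fun a b => C.dist_eq a b) _ _ (hc.nn _) (hc.le _)).symm
  glA v hv := by
    unfold ip
    rw [hf.glA v hv, hu.glA v hv, hc.sy.sA v ⟨hv.1.le, hv.2.le.trans (by norm_num)⟩]
    exact (gm_iso hX A (fun a b => A.dist_eq a b) _ _ (hc.nn _) (hc.le _)).symm
  glB v hv := by
    unfold ip
    rw [hf.glB v hv, hu.glB v hv, hc.sy.sB v ⟨hv.1.le, hv.2.le.trans (by norm_num)⟩]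
    exact (gm_iso hX B (fun a b => B.dist_eq a b) _ _ (hc.nn _) (hc.le _)).symm

private theorem Xn_fin (hX : Npc X gm) {r : ℝ} {f u : ℝ × ℝ → X} (hf : Clx A B C f)
    (hu : Lpo u (Gd r)) {d K : ℝ} {S : Set (ℝ × ℝ)} {eta : ℝ × ℝ → ℝ} (hc : Cut r d K S eta)
    (t : ℝ × ℝ) : IntegrableOn (fun z => sp (ip gm f u eta) t z ^ 2) U := by
  have hfG : Lpo f (Gd r) := lpo_mono Xn_sub hf.lip
  have hgU : Lpo (ip gm f u eta) U := lpo_mono u_sub_D (Xn_lip hX hf.lip hu hc)
  have hfU : Lpo f U := lpo_mono u_sub_D hf.lip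
  have hetac : Continuous eta := by
    have : LipschitzWith (Real.toNNReal K) eta := LipschitzWith.of_dist_le_mul fun x y => by
      rw [Real.dist_eq]
      exact (hc.lip x y).trans (mul_le_mul_of_nonneg_right (Real.le_coe_toNNReal K) dist_nonneg)
    exact this.continuous
  have hm : Measurable (U.indicator (sp (ip gm f u eta) t)) :=
    sp_meas u_open (lpo_cont u_open hgU) t
  have hm1 : AEStronglyMeasurable (sp (ip gm f u eta) t) (volume.restrict U) :=
    (aestronglyMeasurable_indicator_iff u_open.measurableSet).1 hm.aestronglyMeasurable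
  have hm2 : AEStronglyMeasurable (fun z => sp (ip gm f u eta) t z ^ 2) (volume.restrict U) :=
    hm1.pow 2
  obtain ⟨L, hL0, hL⟩ := Ea_pos (Xn_gd hX hfG hu hc) (kd_sub (r := r) hc.dpos) (kd_cpt r d)
  have hg : IntegrableOn (fun z => sp f t z ^ 2 + (L * ‖t‖) ^ 2) U :=
    (clx_int hX hf t).add (integrableOn_const Xn_volU)
  refine Integrable.mono' hg hm2 ?_
  have hN : MeasurableSet (U ∩ {z | eta z = 0}) :=
    u_open.measurableSet.inter (isClosed_singleton.preimage hetac).measurableSet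
  have hae := sp_eq_on volume u_open hgU hfU hN inter_subset_left
    (fun z hz => ip_zero hX hz.2) t
  rw [ae_restrict_iff' u_open.measurableSet]
  filter_upwards [hae] with z hz hzU
  rw [Real.norm_eq_abs, abs_of_nonneg (sq_nonneg _)]
  by_cases h0 : eta z = 0
  · rw [hz ⟨hzU, h0⟩]
    have := sq_nonneg (L * ‖t‖)
    linarith
  · have hW : z ∈ Wd r d := by
      refine ⟨hzU, ?_, ?_⟩
      · by_contra h
        exact h0 (hc.zP z (not_lt.1 h))
      · by_contra h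
        exact h0 (hc.zZ z (Metric.mem_closedBall.2 (not_lt.1 h)))
    obtain ⟨ρ, hρ, hρW⟩ := Metric.isOpen_iff.1 (wd_open r d) z hW
    have h1 : sp (ip gm f u eta) t z ≤ L * ‖t‖ := sp_le hρ
      (fun y hy => hL y (wd_sub r d (hρW hy)) z (wd_sub r d hW)) t
    have h2 := sp_nonneg (ip gm f u eta) t z
    have h3 : sp (ip gm f u eta) t z ^ 2 ≤ (L * ‖t‖) ^ 2 := by
      apply pow_le_pow_left₀ h2 h1
    have := sq_nonneg (sp f t z)
    linarith

theorem ip_clx (hX : Npc X gm) {r : ℝ} (hr : r < 1/4) {f u : ℝ × ℝ → X} (hf : Clx A B C f) (hu : Lpo u (Gd r))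
    (hg : Glu A B C u) {d K : ℝ} {S : Set (ℝ × ℝ)} {eta : ℝ × ℝ → ℝ} (hc : Cut r d K S eta) :
    Clx A B C (ip gm f u eta) where
  lip := Xn_lip hX hf.lip hu hc
  glu := Xn_glu hX hf.glu hg hc
  fin := (Xn_fin hX hf hu hc (1, 0)).add (Xn_fin hX hf hu hc (0, 1))

theorem ip_cl0 (hX : Npc X gm) {r : ℝ} (hr : r < 1/4) {o : X} {f u : ℝ × ℝ → X} (hf : Cl0 A B C r o f)
    (hu : Lpo u (Gd r)) (hg : Glu A B C u) {d K : ℝ} {S : Set (ℝ × ℝ)} {eta : ℝ × ℝ → ℝ} (hc : Cut r d K S eta) :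
    Cl0 A B C r o (ip gm f u eta) where
  cl := ip_clx hX hr hf.cl hu hg hc
  eq z hz := by
    have h1 : z ∈ Zr (r + d) := by
      rw [Zr, Metric.mem_closedBall] at hz ⊢
      have := hc.dpos
      linarith
    rw [ip_zero hX (hc.zZ z h1)]
    exact hf.eq z hz

end

end H98NX
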