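import Pool.Agent.H98.NX.Xn

set_option autoImplicit false

/-!
# Row Xo: energy of the interpolation

f in Clx, u in Lpo (Gd r), Cut r d K S eta, W := Wd r d (open, contained in the compact subset Kd r d of Gd r), q := dd f u, g := ip gm f u eta, g' := ip gm u f eta.
Put T := sqrt of |f1 x y|^2 + |f2 x y|^2 ... any constant T with |f1 x y| <= T, |f2 x y| <= T (sup norms), T > 0 depending on x, y only.
Pointwise a.e. on W (ip_good with O = W: f, u, eta in Lpo W; then sp_two, sp_dist): for t = f1 x y, f2 x y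
 sp g t^2 + sp g' t^2 <= sp f t^2 + sp u t^2 + 2 K T q (sp f t + sp u t) + 2 K^2 T^2 q^2,
because 2 eta (1-eta) mt >= 0, |1 - 2 eta| <= 1, |fderiv eta z t| <= K|t| <= K T (Lipschitz constant), |fderiv q z t| <= sp f t + sp u t.
Integrate over W: with a := (int_W q^2)^{1/2}, b := (int_W e2 f)^{1/2} <= (int_U e2 f)^{1/2}, c := (int_W e2 u)^{1/2}: Cauchy-Schwarz: int_W q (sp f t + sp u t) <= a (b + c) for each t:
 int_W e2 g + int_W e2 g' <= int_W e2 f + int_W e2 u + 4 K T a (b + c) + 4 K^2 T^2 a^2.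
On U minus W: eta = 0 (zP, zZ), g = f, so sp g t = sp f t a.e. there (sp_eq_on with O = U, A = U minus W). Hence
 Ex g + int_W e2 g' <= Ex f + int_W e2 u + 4 K T a (b + c) + 4 K^2 T^2 a^2.
Integrability: everything is locally Lipschitz on Gd r and W is contained in the compact set Kd r d: on the open set W all speeds are bounded by the Lipschitz constants (sp_le) and measurable (sp_meas); q is bounded
on Kd r d. Take K1 := 4 K T + 4 K^2 T^2.
-/

namespace H98NX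

open H50NA MeasureTheory Set Filter Topology
open H80HM (D U P f1 f2)

noncomputable section

variable {X : Type} [MetricSpace X] {gm : X → X → ℝ → X} {A B C : X ≃ᵢ X}

theorem Xo_ball {r d : ℝ} {u : ℝ × ℝ → X} {L : ℝ}
    (hL : ∀ x ∈ Kd r d, ∀ y ∈ Kd r d, dist (u x) (u y) ≤ L * dist x y) (t : ℝ × ℝ) {z : ℝ × ℝ}
    (hz : z ∈ Wd r d) : sp u t z ≤ L * ‖t‖ := by
  obtain ⟨ρ, hρ, hρW⟩ := Metric.isOpen_iff.1 (wd_open r d) z hz
  exact sp_le hρ (fun y hy => hL y (wd_sub r d (hρW hy)) z (wd_sub r d hz)) t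

theorem Xo_vol (r d : ℝ) : volume (Wd r d) ≠ ⊤ :=
  ((measure_mono (wd_sub r d)).trans_lt (kd_cpt r d).measure_lt_top).ne

theorem Xo_lpo {r d : ℝ} (hd : 0 < d) {u : ℝ × ℝ → X} (hu : Lpo u (Gd r)) : Lpo u (Wd r d) :=
  lpo_mono ((wd_sub r d).trans (kd_sub hd)) hu

theorem Xo_aes {r d : ℝ} (hd : 0 < d) {u : ℝ × ℝ → X} (hu : Lpo u (Gd r)) (t : ℝ × ℝ) :
    AEStronglyMeasurable (sp u t) (volume.restrict (Wd r d)) := by
  have hm : Measurable ((Wd r d).indicator (sp u t)) :=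
    sp_meas (wd_open r d) (lpo_cont (wd_open r d) (Xo_lpo hd hu)) t
  exact (aestronglyMeasurable_indicator_iff (wd_open r d).measurableSet).1 hm.aestronglyMeasurable

/-- integrability on Wd of energies of maps that are locally Lipschitz on Gd r -/
theorem wd_int {r d : ℝ} (hd : 0 < d) {u : ℝ × ℝ → X} (hu : Lpo u (Gd r)) (x y : ℝ) (t : ℝ × ℝ) :
    IntegrableOn (fun z => sp u t z ^ 2) (Wd r d) ∧ IntegrableOn (e2 x y u) (Wd r d) := by
  obtain ⟨L, hL0, hL⟩ := Ea_pos hu (kd_sub hd) (kd_cpt r d)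
  have key : ∀ t : ℝ × ℝ, IntegrableOn (fun z => sp u t z ^ 2) (Wd r d) := by
    intro t
    have hc : IntegrableOn (fun _ : ℝ × ℝ => (L * ‖t‖) ^ 2) (Wd r d) :=
      integrableOn_const (hs := Xo_vol r d)
    refine Integrable.mono' hc ((Xo_aes hd hu t).pow 2) ?_
    rw [ae_restrict_iff' (wd_open r d).measurableSet]
    refine Filter.Eventually.of_forall fun z hz => ?_
    rw [Real.norm_eq_abs, abs_of_nonneg (sq_nonneg _)]
    exact pow_le_pow_left₀ (sp_nonneg u t z) (Xo_ball hL t hz) 2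
  exact ⟨key t, (key _).add (key _)⟩

theorem Xo_cont {r d : ℝ} (hd : 0 < d) {f u : ℝ × ℝ → X} (hf : Lpo f (Gd r)) (hu : Lpo u (Gd r)) :
    ContinuousOn (fun z => dist (f z) (u z)) (Kd r d) := by
  obtain ⟨K1, h1⟩ := Ea_lip (hf _ (kd_sub hd) (kd_cpt r d))
  obtain ⟨K2, h2⟩ := Ea_lip (hu _ (kd_sub hd) (kd_cpt r d))
  exact continuous_dist.comp_continuousOn (h1.continuousOn.prodMk h2.continuousOn)

theorem wd_dist {r d : ℝ} (hd : 0 < d) {f u : ℝ × ℝ → X} (hf : Lpo f (Gd r)) (hu : Lpo u (Gd r)) :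
    IntegrableOn (fun z => dist (f z) (u z) ^ 2) (Wd r d) :=
  (((Xo_cont hd hf hu).pow 2).integrableOn_compact (kd_cpt r d)).mono_set (wd_sub r d)

theorem Xo_mul {mu : Measure (ℝ × ℝ)} {a b : ℝ × ℝ → ℝ} (ha : AEStronglyMeasurable a mu)
    (hb : AEStronglyMeasurable b mu) (ha2 : Integrable (fun z => a z ^ 2) mu)
    (hb2 : Integrable (fun z => b z ^ 2) mu) : Integrable (fun z => a z * b z) mu := by
  refine Integrable.mono' (ha2.add hb2) (ha.mul hb) (Filter.Eventually.of_forall fun z => ?_)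
  rw [Real.norm_eq_abs, abs_mul, Pi.add_apply, ← sq_abs (a z), ← sq_abs (b z)]
  nlinarith [sq_nonneg (|a z| - |b z|), sq_nonneg (|a z| + |b z|)]

/-- Cauchy-Schwarz -/
theorem Xo_cs {mu : Measure (ℝ × ℝ)} {a b : ℝ × ℝ → ℝ} (ha : AEStronglyMeasurable a mu)
    (hb : AEStronglyMeasurable b mu) (ha2 : Integrable (fun z => a z ^ 2) mu)
    (hb2 : Integrable (fun z => b z ^ 2) mu) :
    ∫ z, a z * b z ∂mu ≤ Real.sqrt (∫ z, a z ^ 2 ∂mu) * Real.sqrt (∫ z, b z ^ 2 ∂mu) := by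
  have hab := Xo_mul ha hb ha2 hb2
  have h1 : ∀ t : ℝ, 0 ≤ (∫ z, a z ^ 2 ∂mu) * (t * t) + (2 * ∫ z, a z * b z ∂mu) * t +
      ∫ z, b z ^ 2 ∂mu := by
    intro t
    have h2 : 0 ≤ ∫ z, (t * a z + b z) ^ 2 ∂mu := integral_nonneg fun z => sq_nonneg _
    have h3 : ∫ z, (t * a z + b z) ^ 2 ∂mu = (t * t) * (∫ z, a z ^ 2 ∂mu) +
        (2 * t) * (∫ z, a z * b z ∂mu) + ∫ z, b z ^ 2 ∂mu := by
      have i1 : Integrable (fun z => (t * t) * a z ^ 2) mu := ha2.const_mul _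
      have i2 : Integrable (fun z => (2 * t) * (a z * b z)) mu := hab.const_mul _
      have i3 : Integrable (fun z => (t * t) * a z ^ 2 + (2 * t) * (a z * b z)) mu := i1.add i2
      rw [← integral_const_mul, ← integral_const_mul, ← integral_add i1 i2, ← integral_add i3 hb2]
      refine integral_congr_ae (Filter.Eventually.of_forall fun z => ?_)
      simp only
      ring
    rw [h3] at h2
    linarith
  have h2 := discrim_le_zero h1
  unfold discrim at h2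
  have hA : 0 ≤ ∫ z, a z ^ 2 ∂mu := integral_nonneg fun z => sq_nonneg _
  have hB : 0 ≤ ∫ z, b z ^ 2 ∂mu := integral_nonneg fun z => sq_nonneg _
  rw [← Real.sqrt_mul hA]
  refine Real.le_sqrt_of_sq_le ?_
  nlinarith

theorem Xo_pt {et De q Dq sf su sg sg' m KT : ℝ} (h0 : 0 ≤ et) (h1 : et ≤ 1) (hDe : |De| ≤ KT)
    (hDq : |Dq| ≤ sf + su) (hq : 0 ≤ q) (hm : 0 ≤ m)
    (h : sg ^ 2 + sg' ^ 2 ≤ sf ^ 2 + su ^ 2 - 2 * et * (1 - et) * m -
      (1 - 2 * et) * De * (2 * q * Dq) + 2 * De ^ 2 * q ^ 2) :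
    sg ^ 2 + sg' ^ 2 ≤ sf ^ 2 + su ^ 2 + 2 * KT * (q * sf + q * su) + 2 * KT ^ 2 * q ^ 2 := by
  have hK : 0 ≤ KT := (abs_nonneg _).trans hDe
  have a1 : 0 ≤ 2 * et * (1 - et) * m := by
    have : 0 ≤ 1 - et := by linarith
    positivity
  have a2 : |(1 - 2 * et) * De * (2 * q * Dq)| ≤ KT * (2 * q * (sf + su)) := by
    rw [abs_mul, abs_mul, abs_mul, abs_of_nonneg (by positivity : (0:ℝ) ≤ 2 * q)]
    have b1 : |1 - 2 * et| ≤ 1 := abs_le.2 ⟨by linarith, by linarith⟩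
    have b2 : |1 - 2 * et| * |De| ≤ KT := by
      calc |1 - 2 * et| * |De| ≤ 1 * KT := mul_le_mul b1 hDe (abs_nonneg _) zero_le_one
        _ = KT := one_mul _
    have b3 : 2 * q * |Dq| ≤ 2 * q * (sf + su) := mul_le_mul_of_nonneg_left hDq (by positivity)
    exact mul_le_mul b2 b3 (by positivity) hK
  have a3 := (abs_le.1 a2).1
  have a4 : De ^ 2 ≤ KT ^ 2 := by
    rw [← sq_abs De]
    exact pow_le_pow_left₀ (abs_nonneg _) hDe 2
  have a5 : De ^ 2 * q ^ 2 ≤ KT ^ 2 * q ^ 2 := mul_le_mul_of_nonneg_right a4 (sq_nonneg _)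
  linarith

theorem Xo_ae (hX : Npc X gm) {x y K : ℝ} {r d : ℝ} {S : Set (ℝ × ℝ)} {eta : ℝ × ℝ → ℝ}
    {f u : ℝ × ℝ → X} (hc : Cut r d K S eta) (hf : Lpo f (Gd r)) (hu : Lpo u (Gd r)) {T : ℝ}
    (hT1 : ‖f1 x y‖ ≤ T) (hT2 : ‖f2 x y‖ ≤ T) :
    ∀ᵐ z : ℝ × ℝ, z ∈ Wd r d → e2 x y (ip gm f u eta) z + e2 x y (ip gm u f eta) z ≤
      e2 x y f z + e2 x y u z + 2 * (K * T) *
        ((dist (f z) (u z) * sp f (f1 x y) z + dist (f z) (u z) * sp f (f2 x y) z) +
          (dist (f z) (u z) * sp u (f1 x y) z + dist (f z) (u z) * sp u (f2 x y) z)) +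
        4 * (K * T) ^ 2 * dist (f z) (u z) ^ 2 := by
  have hW := wd_open r d
  have hfW := Xo_lpo hc.dpos hf
  have huW := Xo_lpo hc.dpos hu
  filter_upwards [ip_good volume hX hW hfW huW (lpo_lip hc.lip _) (fun z _ => ⟨hc.nn z, hc.le z⟩)]
    with z hz hzW
  obtain ⟨d1, d2, d3, d4, d5, d6⟩ := hz hzW
  have key : ∀ t : ℝ × ℝ, ‖t‖ ≤ T → sp (ip gm f u eta) t z ^ 2 + sp (ip gm u f eta) t z ^ 2 ≤
      sp f t z ^ 2 + sp u t z ^ 2 + 2 * (K * T) * (dist (f z) (u z) * sp f t z +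
        dist (f z) (u z) * sp u t z) + 2 * (K * T) ^ 2 * dist (f z) (u z) ^ 2 := by
    intro t ht
    have h1 := sp_two hX d1 d2 d3 d4 d5 d6
      (Filter.Eventually.of_forall fun y => ⟨hc.nn y, hc.le y⟩) t
    have h2 := sp_dist d1 d2 d5 t
    have h3 : |fderiv ℝ eta z t| ≤ K * T := by
      have hl : LipschitzWith (Real.toNNReal K) eta := LipschitzWith.of_dist_le_mul fun a b => by
        rw [Real.coe_toNNReal K hc.Kpos, Real.dist_eq]
        exact hc.lip a b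
      have h4 := norm_fderiv_le_of_lipschitz ℝ hl (x₀ := z)
      rw [Real.coe_toNNReal K hc.Kpos] at h4
      rw [← Real.norm_eq_abs]
      exact ((fderiv ℝ eta z).le_opNorm t).trans
        (mul_le_mul h4 ht (norm_nonneg _) hc.Kpos)
    have hm : 0 ≤ mt f u t z := le_max_of_le_left (sq_nonneg _)
    exact Xo_pt (hc.nn z) (hc.le z) h3 h2 dist_nonneg hm h1
  have k1 := key _ hT1
  have k2 := key _ hT2
  simp only [e2]
  linarith

theorem ip_energy (hX : Npc X gm) (x y K : ℝ) : ∃ K1 : ℝ, 0 ≤ K1 ∧ ∀ (r d : ℝ) (S : Set (ℝ × ℝ)) (eta : ℝ × ℝ → ℝ)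
    (f u : ℝ × ℝ → X), r < 1/4 → Cut r d K S eta → Clx A B C f → Lpo u (Gd r) → Glu A B C u →
    Ex x y (ip gm f u eta) + ∫ z in Wd r d, e2 x y (ip gm u f eta) z ≤ Ex x y f + (∫ z in Wd r d, e2 x y u z)
      + K1 * (Real.sqrt (∫ z in Wd r d, dist (f z) (u z) ^ 2) *
          (Real.sqrt (Ex x y f) + Real.sqrt (∫ z in Wd r d, e2 x y u z))
        + ∫ z in Wd r d, dist (f z) (u z) ^ 2) := by
  obtain ⟨T, hT0, hT1, hT2⟩ : ∃ T : ℝ, 0 ≤ T ∧ ‖f1 x y‖ ≤ T ∧ ‖f2 x y‖ ≤ T :=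
    ⟨max ‖f1 x y‖ ‖f2 x y‖, (norm_nonneg _).trans (le_max_left _ _), le_max_left _ _, le_max_right _ _⟩
  refine ⟨4 * (|K| * T) + 4 * (|K| * T) ^ 2, by positivity, ?_⟩
  intro r d S eta f u hr hc hf hu hgu
  rw [abs_of_nonneg hc.Kpos]
  have hKT : 0 ≤ K * T := mul_nonneg hc.Kpos hT0
  have hd := hc.dpos
  have hfG : Lpo f (Gd r) := clx_gd hf
  have hgG : Clx A B C (ip gm f u eta) := ip_clx hX hr hf hu hgu hc
  have hgG' : Lpo (ip gm u f eta) (Gd r) :=
    lpo_gm hX hu hfG (lpo_lip hc.lip _) (fun z _ => ⟨hc.nn z, hc.le z⟩)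
  have hWm : MeasurableSet (Wd r d) := (wd_open r d).measurableSet
  have hWU : Wd r d ⊆ U := fun z hz => hz.1
  have hUm : MeasurableSet (U \ Wd r d) := u_open.measurableSet.diff hWm
  have hUe : Wd r d ∪ (U \ Wd r d) = U := union_sdiff_cancel hWU
  have split : ∀ G : ℝ × ℝ → ℝ, IntegrableOn G U →
      ∫ z in U, G z = (∫ z in Wd r d, G z) + ∫ z in U \ Wd r d, G z := by
    intro G hG
    conv_lhs => rw [← hUe]
    exact setIntegral_union disjoint_sdiff_right hUm (hG.mono_set hWU) (hG.mono_set sdiff_subset)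
  have heta : ∀ z ∈ U \ Wd r d, eta z = 0 := by
    rintro z ⟨hzU, hzW⟩
    by_cases h1 : Metric.infDist z P ≤ d
    · exact hc.zP z h1
    · refine hc.zZ z ?_
      by_contra h2
      refine hzW ⟨hzU, not_le.1 h1, ?_⟩
      exact not_le.1 fun h3 => h2 (Metric.mem_closedBall.2 h3)
  -- off Wd
  have hoff : ∫ z in U \ Wd r d, e2 x y (ip gm f u eta) z = ∫ z in U \ Wd r d, e2 x y f z := by
    refine setIntegral_congr_ae hUm ?_
    have hgU : Lpo (ip gm f u eta) U := lpo_mono u_sub_D hgG.lip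
    have hfU : Lpo f U := lpo_mono u_sub_D hf.lip
    have he : ∀ z ∈ U \ Wd r d, ip gm f u eta z = f z := fun z hz => ip_zero hX (heta z hz)
    filter_upwards [sp_eq_on volume u_open hgU hfU hUm sdiff_subset he (f1 x y),
      sp_eq_on volume u_open hgU hfU hUm sdiff_subset he (f2 x y)] with z h1 h2 hz
    simp only [e2]
    rw [h1 hz, h2 hz]
  have eg : Ex x y (ip gm f u eta) = (∫ z in Wd r d, e2 x y (ip gm f u eta) z) +
      ∫ z in U \ Wd r d, e2 x y f z := by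
    rw [ex_eq, split _ (clx_e2 hX hgG x y), hoff]
  have ef : Ex x y f = (∫ z in Wd r d, e2 x y f z) + ∫ z in U \ Wd r d, e2 x y f z := by
    rw [ex_eq, split _ (clx_e2 hX hf x y)]
  -- on Wd
  set mu : Measure (ℝ × ℝ) := volume.restrict (Wd r d) with hmu
  set q : ℝ × ℝ → ℝ := fun z => dist (f z) (u z) with hq
  have iq2 : Integrable (fun z => q z ^ 2) mu := wd_dist hd hfG hu
  have aq : AEStronglyMeasurable q mu :=
    ((Xo_cont hd hfG hu).mono (wd_sub r d)).aestronglyMeasurable hWm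
  have isf : ∀ t, Integrable (fun z => sp f t z ^ 2) mu := fun t => (wd_int hd hfG x y t).1
  have isu : ∀ t, Integrable (fun z => sp u t z ^ 2) mu := fun t => (wd_int hd hu x y t).1
  have asf : ∀ t, AEStronglyMeasurable (sp f t) mu := fun t => Xo_aes hd hfG t
  have asu : ∀ t, AEStronglyMeasurable (sp u t) mu := fun t => Xo_aes hd hu t
  have ief : Integrable (e2 x y f) mu := (wd_int hd hfG x y 0).2
  have ieu : Integrable (e2 x y u) mu := (wd_int hd hu x y 0).2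
  have ieg : Integrable (e2 x y (ip gm f u eta)) mu := (wd_int hd (clx_gd hgG) x y 0).2
  have ieg' : Integrable (e2 x y (ip gm u f eta)) mu := (wd_int hd hgG' x y 0).2
  have iqf : ∀ t, Integrable (fun z => q z * sp f t z) mu := fun t => Xo_mul aq (asf t) iq2 (isf t)
  have iqu : ∀ t, Integrable (fun z => q z * sp u t z) mu := fun t => Xo_mul aq (asu t) iq2 (isu t)
  have i1 : Integrable (fun z => e2 x y f z + e2 x y u z) mu := ief.add ieu
  have i2 : Integrable (fun z => q z * sp f (f1 x y) z + q z * sp f (f2 x y) z) mu :=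
    (iqf _).add (iqf _)
  have i3 : Integrable (fun z => q z * sp u (f1 x y) z + q z * sp u (f2 x y) z) mu :=
    (iqu _).add (iqu _)
  have i4 : Integrable (fun z => (q z * sp f (f1 x y) z + q z * sp f (f2 x y) z) +
      (q z * sp u (f1 x y) z + q z * sp u (f2 x y) z)) mu := i2.add i3
  have i5 : Integrable (fun z => 2 * (K * T) * ((q z * sp f (f1 x y) z + q z * sp f (f2 x y) z) +
      (q z * sp u (f1 x y) z + q z * sp u (f2 x y) z))) mu := i4.const_mul _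
  have i6 : Integrable (fun z => e2 x y f z + e2 x y u z + 2 * (K * T) *
      ((q z * sp f (f1 x y) z + q z * sp f (f2 x y) z) +
      (q z * sp u (f1 x y) z + q z * sp u (f2 x y) z))) mu := i1.add i5
  have i7 : Integrable (fun z => 4 * (K * T) ^ 2 * q z ^ 2) mu := iq2.const_mul _
  have hmain : (∫ z, (e2 x y (ip gm f u eta) z + e2 x y (ip gm u f eta) z) ∂mu) ≤
      ∫ z, (e2 x y f z + e2 x y u z + 2 * (K * T) *
        ((q z * sp f (f1 x y) z + q z * sp f (f2 x y) z) +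
          (q z * sp u (f1 x y) z + q z * sp u (f2 x y) z)) +
        4 * (K * T) ^ 2 * q z ^ 2) ∂mu := by
    refine integral_mono_ae (ieg.add ieg') (i6.add i7) ?_
    rw [hmu]
    change ∀ᵐ z ∂(volume.restrict (Wd r d)), _
    rw [ae_restrict_iff' hWm]
    exact Xo_ae hX hc hfG hu hT1 hT2
  rw [integral_add ieg ieg', integral_add i6 i7, integral_add i1 i5, integral_add ief ieu,
    integral_const_mul, integral_const_mul, integral_add i2 i3, integral_add (iqf _) (iqf _),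
    integral_add (iqu _) (iqu _)] at hmain
  -- Cauchy-Schwarz
  have hb : ∀ t, (∫ z, sp f t z ^ 2 ∂mu) ≤ ∫ z, e2 x y f z ∂mu →
      ∫ z, q z * sp f t z ∂mu ≤ Real.sqrt (∫ z, q z ^ 2 ∂mu) * Real.sqrt (Ex x y f) := by
    intro t ht
    refine (Xo_cs aq (asf t) iq2 (isf t)).trans ?_
    refine mul_le_mul_of_nonneg_left (Real.sqrt_le_sqrt (ht.trans ?_)) (Real.sqrt_nonneg _)
    rw [ef]
    have : 0 ≤ ∫ z in U \ Wd r d, e2 x y f z := integral_nonneg fun z => by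
      simp only [e2]
      positivity
    linarith
  have hb' : ∀ t, (∫ z, sp u t z ^ 2 ∂mu) ≤ ∫ z, e2 x y u z ∂mu →
      ∫ z, q z * sp u t z ∂mu ≤ Real.sqrt (∫ z, q z ^ 2 ∂mu) * Real.sqrt (∫ z, e2 x y u z ∂mu) := by
    intro t ht
    refine (Xo_cs aq (asu t) iq2 (isu t)).trans ?_
    exact mul_le_mul_of_nonneg_left (Real.sqrt_le_sqrt ht) (Real.sqrt_nonneg _)
  have c1 := hb (f1 x y) (integral_mono (isf _) ief fun z => by
    simp only [e2]
    have := sq_nonneg (sp f (f2 x y) z)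
    linarith)
  have c2 := hb (f2 x y) (integral_mono (isf _) ief fun z => by
    simp only [e2]
    have := sq_nonneg (sp f (f1 x y) z)
    linarith)
  have c3 := hb' (f1 x y) (integral_mono (isu _) ieu fun z => by
    simp only [e2]
    have := sq_nonneg (sp u (f2 x y) z)
    linarith)
  have c4 := hb' (f2 x y) (integral_mono (isu _) ieu fun z => by
    simp only [e2]
    have := sq_nonneg (sp u (f1 x y) z)
    linarith)
  have hA : 0 ≤ ∫ z, q z ^ 2 ∂mu := integral_nonneg fun z => sq_nonneg _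
  have hb0 := Real.sqrt_nonneg (Ex x y f)
  have hc0 := Real.sqrt_nonneg (∫ z, e2 x y u z ∂mu)
  have ha0 := Real.sqrt_nonneg (∫ z, q z ^ 2 ∂mu)
  rw [eg]
  change _ ≤ _ + _ + (4 * (K * T) + 4 * (K * T) ^ 2) * (Real.sqrt (∫ z, q z ^ 2 ∂mu) *
    (Real.sqrt (Ex x y f) + Real.sqrt (∫ z, e2 x y u z ∂mu)) + ∫ z, q z ^ 2 ∂mu)
  rw [ef] at c1 c2 ⊢
  set b := Real.sqrt ((∫ z, e2 x y f z ∂mu) + ∫ z in U \ Wd r d, e2 x y f z) with hbdef
  set c := Real.sqrt (∫ z, e2 x y u z ∂mu) with hcdef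
  set a := Real.sqrt (∫ z, q z ^ 2 ∂mu) with hadef
  set A := ∫ z, q z ^ 2 ∂mu with hAdef
  have e1 : 2 * (K * T) * (((∫ z, q z * sp f (f1 x y) z ∂mu) + ∫ z, q z * sp f (f2 x y) z ∂mu) +
      ((∫ z, q z * sp u (f1 x y) z ∂mu) + ∫ z, q z * sp u (f2 x y) z ∂mu)) ≤
      2 * (K * T) * (2 * (a * b) + 2 * (a * c)) :=
    mul_le_mul_of_nonneg_left (by linarith) (by positivity)
  have hbn : 0 ≤ b := Real.sqrt_nonneg _
  have e2' : 0 ≤ 4 * (K * T) * A := by positivity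
  have e3 : 0 ≤ 4 * (K * T) ^ 2 * (a * (b + c)) := by positivity
  linarith

end

end H98NX
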